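import Pool.Agent.MP217Exact.AWorld

set_option autoImplicit false

/-!
# Adopt-commit: the number of participants
-/

namespace Pool.Agent.E217

open Finset

attribute [local instance 10] Classical.propDecidable

variable {n : ℕ}

namespace AD

variable (C : AD n)

/-- The number of participants of run `ρ`. -/
noncomputable def y (ρ : ℕ) : ℕ := (univ.filter fun p => C.W.go p ρ).card

/-- `(G')`. -/
def Gr (N : ℕ → ℕ) : Prop := ∀ ρ < C.G.H, C.y ρ ≤ (C.G.A.L + 1) ^ 3 * 2 ^ C.G.lev ρ →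
  ∀ A : Finset (Fin n), (∀ b ∈ A, C.W.go b ρ) →
    (∀ b ∈ A, (C.W.Mf b ρ ∩ A).card < 64 * 2 ^ C.G.lev ρ) →
    1024 * A.card ≤ 1024 * (N ρ * 2 ^ C.G.lev ρ) + C.y ρ

/-- Large teams cover. -/
def Cov : Prop := ∀ ρ < C.G.H, ∀ b, C.W.go b ρ →
  (2 ^ (C.G.lev ρ + 5) ≤ (C.W.Mf b ρ).card → C.Crt ρ (C.W.Mf b ρ)) ∧
  (2 ^ (C.G.lev ρ + 5) ≤ (C.M2 b ρ).card → C.Crt ρ (C.M2 b ρ))

/-- In the first phase at the beginning and at the end of run `ρ`. -/
private noncomputable def Z1 (ρ : ℕ) : Finset (Fin n) :=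
  univ.filter fun p => C.W.go p ρ ∧ (C.W.dS p ρ).ph = false ∧ (C.W.dS p (ρ + 1)).ph = false

/-- In the second phase, and not leaving. -/
private noncomputable def Z2 (ρ : ℕ) : Finset (Fin n) :=
  univ.filter fun p => C.W.go p ρ ∧ C.W.go p (ρ + 1) ∧ (C.W.dS p ρ).ph = true

variable {C}

private theorem ac_z1 {N : ℕ → ℕ} (hG : C.Gr N) (hc : C.Cov) {ρ : ℕ} (h : ρ < C.G.H)
    (hy : C.y ρ ≤ (C.G.A.L + 1) ^ 3 * 2 ^ C.G.lev ρ) :
    1024 * (C.Z1 ρ).card ≤ 1024 * (N ρ * 2 ^ C.G.lev ρ) + C.y ρ := by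
  refine hG ρ h hy (C.Z1 ρ) (fun b hb => (mem_filter.1 hb).2.1) fun b hb => ?_
  obtain ⟨-, h1, h2, h3⟩ := mem_filter.1 hb
  have h4 : ¬ C.Crt ρ (C.W.Mf b ρ) := by
    intro hcr
    rw [C.dS_succ (by omega) h1, if_pos h2, if_pos hcr] at h3
    exact Bool.noConfusion h3
  have h5 : (C.W.Mf b ρ).card < 2 ^ (C.G.lev ρ + 5) := by
    by_contra hcon
    exact h4 ((hc ρ h b h1).1 (not_lt.1 hcon))
  have h6 : (C.W.Mf b ρ ∩ C.Z1 ρ).card ≤ (C.W.Mf b ρ).card := card_le_card inter_subset_left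
  rw [pow_add] at h5
  omega

private theorem ac_z2 {N : ℕ → ℕ} (hG : C.Gr N) (hc : C.Cov) {ρ : ℕ} (h : ρ < C.G.H)
    (hy : C.y ρ ≤ (C.G.A.L + 1) ^ 3 * 2 ^ C.G.lev ρ) :
    1024 * (C.Z2 ρ).card ≤ 1024 * (N ρ * 2 ^ C.G.lev ρ) + C.y ρ := by
  refine hG ρ h hy (C.Z2 ρ) (fun b hb => (mem_filter.1 hb).2.1) fun b hb => ?_
  obtain ⟨-, h1, h2, h3⟩ := mem_filter.1 hb
  have h4 : ¬ C.Crt ρ (C.M2 b ρ) := by
    intro hcr
    have h5 := (C.inp_eq (show ρ + 1 ≤ C.G.H + 2 by omega) h2).2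
    have h6 : ¬ (C.W.dS b ρ).ph = false := by
      rw [h3]
      exact Bool.noConfusion
    rw [C.dS_succ (by omega) h1, if_neg h6, if_pos hcr] at h5
    unfold Geo.outp at h5
    split_ifs at h5
  have h5 : (C.M2 b ρ).card < 2 ^ (C.G.lev ρ + 5) := by
    by_contra hcon
    exact h4 ((hc ρ h b h1).2 (not_lt.1 hcon))
  have h6 : (C.W.Mf b ρ ∩ C.Z2 ρ).card ≤ (C.M2 b ρ).card := by
    refine card_le_card fun a ha => ?_
    rw [mem_inter] at ha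
    exact mem_filter.2 ⟨ha.1, (mem_filter.1 ha.2).2.2.2⟩
  rw [pow_add] at h5
  omega

private theorem ac_step {k : ℕ} (h : k + 1 < C.G.H) :
    C.y (k + 2) ≤ (C.Z1 (k + 1)).card + (C.Z2 (k + 1)).card + (C.Z1 k).card := by
  unfold y
  refine le_trans (card_le_card (t := C.Z1 (k + 1) ∪ C.Z2 (k + 1) ∪ C.Z1 k) fun p hp => ?_)
    ((card_union_le _ _).trans (Nat.add_le_add_right (card_union_le _ _) _))
  have hg2 : C.W.go p (k + 2) := (mem_filter.1 hp).2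
  have hn : k + 2 ≤ C.W.nR := by
    change k + 2 ≤ C.G.H + 2
    omega
  have hg1 : C.W.go p (k + 1) := C.W.go_mono (Nat.le_succ _) hn hg2
  have hg0 : C.W.go p k := C.W.go_mono (by omega) hn hg2
  have hf : ∀ ρ ρ' : ℕ, ρ ≤ ρ' → ρ' ≤ k + 2 → C.W.go p ρ' → (C.W.dS p ρ').ph = false →
      (C.W.dS p ρ).ph = false := by
    intro ρ ρ' h1 h2 h3 h4
    by_contra h5
    rw [(C.ph_mono h1 (by omega) h3 (Bool.eq_true_of_not_eq_false h5)).1] at h4
    exact Bool.noConfusion h4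
  rw [mem_union, mem_union]
  by_cases h2 : (C.W.dS p (k + 2)).ph = false
  · exact Or.inl (Or.inl (mem_filter.2 ⟨mem_univ _, hg1, hf _ _ (Nat.le_succ _) le_rfl hg2 h2, h2⟩))
  · by_cases h1 : (C.W.dS p (k + 1)).ph = false
    · exact Or.inr (mem_filter.2 ⟨mem_univ _, hg0, hf _ _ (Nat.le_succ _) (by omega) hg1 h1, h1⟩)
    · exact Or.inl (Or.inr (mem_filter.2 ⟨mem_univ _, hg1, hg2, Bool.eq_true_of_not_eq_false h1⟩))

private theorem ac_rec {N : ℕ → ℕ} (hG : C.Gr N) (hc : C.Cov) {k : ℕ} (h : k + 1 < C.G.H)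
    (hy1 : C.y (k + 1) ≤ (C.G.A.L + 1) ^ 3 * 2 ^ C.G.lev (k + 1))
    (hy0 : C.y k ≤ (C.G.A.L + 1) ^ 3 * 2 ^ C.G.lev k) :
    1024 * (2 ^ (k + 2) * C.y (k + 2)) ≤
      (4096 * (N (k + 1) * 2 ^ C.G.A.L) + 4 * (2 ^ (k + 1) * C.y (k + 1))) +
        (4096 * (N k * 2 ^ C.G.A.L) + 4 * (2 ^ k * C.y k)) := by
  have z1 := ac_z1 hG hc h hy1
  have z2 := ac_z2 hG hc h hy1
  have z0 := ac_z1 hG hc (show k < C.G.H by omega) hy0
  have hs := ac_step h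
  have hH := C.G.H_eq
  obtain ⟨e, he⟩ := Nat.exists_eq_add_of_le (show k + 1 ≤ C.G.A.L by omega)
  have l1 : C.G.lev (k + 1) = e := by unfold Geo.lev; omega
  have l0 : C.G.lev k = e + 1 := by unfold Geo.lev; omega
  rw [l1] at z1 z2
  rw [l0] at z0
  have h1 : 1024 * C.y (k + 2) ≤ 2 * (1024 * (N (k + 1) * 2 ^ e) + C.y (k + 1)) +
      (1024 * (N k * 2 ^ (e + 1)) + C.y k) := by omega
  have h2 := Nat.mul_le_mul_left (2 ^ (k + 2)) h1
  rw [he]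
  refine le_trans (le_of_eq (by ring)) (h2.trans (le_of_eq (by ring)))

private theorem ac_y_le (ρ : ℕ) : C.y ρ ≤ n := by
  unfold y
  exact (card_le_univ _).trans (by rw [Fintype.card_fin])

private theorem ac_bound (hn : n < 2 ^ (C.G.A.L + 1)) {N : ℕ → ℕ} {Nm : ℕ} (hG : C.Gr N)
    (hc : C.Cov) (hN : ∀ ρ, N ρ ≤ Nm) (hnum : 16 * Nm + 16 ≤ (C.G.A.L + 1) ^ 3) :
    ∀ ρ < C.G.H, C.y ρ ≤ (C.G.A.L + 1) ^ 3 * 2 ^ C.G.lev ρ := by
  have hH := C.G.H_eq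
  intro ρ
  induction ρ using Nat.strong_induction_on with
  | _ ρ IH =>
    intro hρ
    have hlev : ∀ k, k < C.G.H → C.G.lev k = C.G.A.L - k := fun k hk => by
      unfold Geo.lev
      omega
    have hsm : ρ ≤ 1 → C.y ρ ≤ (C.G.A.L + 1) ^ 3 * 2 ^ C.G.lev ρ := by
      intro h1
      rw [hlev ρ hρ]
      have h2 := ac_y_le (C := C) ρ
      have h3 : C.G.A.L + 1 = (ρ + 1) + (C.G.A.L - ρ) := by omega
      have h4 : 2 ^ (C.G.A.L + 1) = 2 ^ (ρ + 1) * 2 ^ (C.G.A.L - ρ) := by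
        rw [← pow_add, ← h3]
      have h5 : 2 ^ (ρ + 1) * 2 ^ (C.G.A.L - ρ) ≤ (C.G.A.L + 1) ^ 3 * 2 ^ (C.G.A.L - ρ) := by
        refine Nat.mul_le_mul_right _ ?_
        have h6 : 2 ^ (ρ + 1) ≤ 2 ^ 2 := Nat.pow_le_pow_right (by norm_num) (by omega)
        omega
      omega
    rcases Nat.lt_or_ge 1 ρ with h1 | h1
    · obtain ⟨k, rfl⟩ := Nat.exists_eq_add_of_le' h1
      have y1 := IH (k + 1) (by omega) (by omega)
      have y0 := IH k (by omega) (by omega)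
      have hr := ac_rec hG hc (show k + 1 < C.G.H by omega) y1 y0
      have p1 : 2 ^ (k + 1) * C.y (k + 1) ≤ (C.G.A.L + 1) ^ 3 * 2 ^ C.G.A.L := by
        refine (Nat.mul_le_mul_left _ y1).trans (le_of_eq ?_)
        rw [hlev (k + 1) (by omega), mul_left_comm, ← pow_add]
        congr 2
        omega
      have p0 : 2 ^ k * C.y k ≤ (C.G.A.L + 1) ^ 3 * 2 ^ C.G.A.L := by
        refine (Nat.mul_le_mul_left _ y0).trans (le_of_eq ?_)
        rw [hlev k (by omega), mul_left_comm, ← pow_add]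
        congr 2
        omega
      have n1 : N (k + 1) * 2 ^ C.G.A.L ≤ Nm * 2 ^ C.G.A.L := Nat.mul_le_mul_right _ (hN _)
      have n0 : N k * 2 ^ C.G.A.L ≤ Nm * 2 ^ C.G.A.L := Nat.mul_le_mul_right _ (hN _)
      have q1 := Nat.mul_le_mul_right (2 ^ C.G.A.L) hnum
      rw [add_mul, mul_assoc] at q1
      have goal1 : 2 ^ (k + 2) * C.y (k + 2) ≤
          2 ^ (k + 2) * ((C.G.A.L + 1) ^ 3 * 2 ^ C.G.lev (k + 2)) := by
        have e1 : 2 ^ (k + 2) * ((C.G.A.L + 1) ^ 3 * 2 ^ C.G.lev (k + 2)) =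
            (C.G.A.L + 1) ^ 3 * 2 ^ C.G.A.L := by
          rw [hlev (k + 2) hρ, mul_left_comm, ← pow_add]
          congr 2
          omega
        rw [e1]
        omega
      exact Nat.le_of_mul_le_mul_left goal1 (Nat.two_pow_pos _)
    · exact hsm h1

variable (C)

/-- The weighted number of participants.
PROOF: `Z1 ρ` = participants of run `ρ` which are in the first phase at its beginning and at its
end, `Z2 ρ` = those in the second phase which do not leave; in `Z1` the team is smaller than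
`2 ^ (lev + 5)`, in `Z2` the set `M2`, which contains `Mf b ρ ∩ Z2 ρ`, is.  So `Gr` for both.
`y (ρ + 1) ≤ |Z1 ρ| + |Z2 ρ| + |Z1 (ρ - 1)|` for `ρ ≥ 1` (those which begin the second phase after
run `ρ` were in `Z1 (ρ - 1)`).  With `w ρ = 2 ^ min ρ H * y ρ`, `2 ^ ρ * 2 ^ lev ρ = 2 ^ L`:
`w (ρ + 1) ≤ 4 N ρ 2 ^ L + w ρ / 256 + 4 N (ρ - 1) 2 ^ L + w (ρ - 1) / 256`; this gives the bound
of the hypothesis of `Gr` (`n < 2 ^ (L + 1)`, `hnum`), and the sum. -/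
theorem ytot (hn : n < 2 ^ (C.G.A.L + 1)) {N : ℕ → ℕ} {Nm : ℕ} (hG : C.Gr N) (hc : C.Cov)
    (hN : ∀ ρ, N ρ ≤ Nm) (hnum : 16 * Nm + 16 ≤ (C.G.A.L + 1) ^ 3) :
    ∑ ρ ∈ range (C.G.H + 2), 2 ^ min ρ C.G.H * C.y ρ ≤
      2 ^ (C.G.A.L + 5) * (∑ ρ ∈ range C.G.H, N ρ + 1) := by
  have hy := ac_bound hn hG hc hN hnum
  have hH := C.G.H_eq
  set w : ℕ → ℕ := fun ρ => 2 ^ min ρ C.G.H * C.y ρ with hw
  set P := 2 ^ C.G.A.L with hP
  have hnP : n ≤ 2 * P := by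
    rw [pow_succ] at hn
    omega
  have hR : 2 ^ (C.G.A.L + 5) * (∑ ρ ∈ range C.G.H, N ρ + 1) =
      32 * (P * ∑ ρ ∈ range C.G.H, N ρ) + 32 * P := by
    rw [hP]
    ring
  change ∑ ρ ∈ range (C.G.H + 2), w ρ ≤ _
  rw [hR]
  have hlast : w (C.G.H + 1) ≤ w C.G.H := by
    rw [hw]
    dsimp only
    rw [min_eq_right (Nat.le_succ _), min_self]
    refine Nat.mul_le_mul_left _ (card_le_card fun p hp => ?_)
    rw [mem_filter] at hp ⊢
    refine ⟨mem_univ _, C.W.go_mono (Nat.le_succ _) ?_ hp.2⟩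
    change C.G.H + 1 ≤ C.G.H + 2
    omega
  have hw0 : w 0 ≤ n := by
    rw [hw]
    dsimp only
    rw [Nat.zero_min, pow_zero, one_mul]
    exact ac_y_le 0
  rcases Nat.eq_zero_or_pos C.G.H with h0 | h0
  · rw [h0] at hlast
    rw [h0, sum_range_succ, sum_range_succ, sum_range_zero]
    have h1 : w 1 ≤ w 0 := hlast
    simp only [range_zero, sum_empty]
    omega
  · have hw1 : w 1 ≤ 2 * n := by
      rw [hw]
      dsimp only
      rw [min_eq_left (by omega), pow_one]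
      exact Nat.mul_le_mul_left _ (ac_y_le 1)
    set b : ℕ → ℕ := fun ρ => 4096 * (N ρ * P) + 4 * w ρ with hb
    have hrec : ∀ ρ ∈ Ico 1 C.G.H, 1024 * w (ρ + 1) ≤ b ρ + b (ρ - 1) := by
      intro ρ hρ
      rw [mem_Ico] at hρ
      obtain ⟨k, rfl⟩ := Nat.exists_eq_add_of_le' hρ.1
      have h1 := ac_rec hG hc hρ.2 (hy (k + 1) hρ.2) (hy k (by omega))
      rw [hb, hw]
      dsimp only
      rw [min_eq_left (show k + 1 + 1 ≤ C.G.H by omega), min_eq_left (show k + 1 ≤ C.G.H by omega),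
        Nat.add_sub_cancel, min_eq_left (show k ≤ C.G.H by omega)]
      exact h1
    have s1 := sum_le_sum hrec
    rw [sum_add_distrib, ← mul_sum] at s1
    have s2 : ∑ ρ ∈ Ico 1 C.G.H, b ρ ≤ ∑ ρ ∈ range C.G.H, b ρ := by
      rw [range_eq_Ico]
      exact sum_le_sum_of_subset (Ico_subset_Ico_left (by norm_num))
    have s3 : ∑ ρ ∈ Ico 1 C.G.H, b (ρ - 1) ≤ ∑ ρ ∈ range C.G.H, b ρ := by
      rw [sum_Ico_eq_sum_range]
      have h1 : ∑ i ∈ range (C.G.H - 1), b (1 + i - 1) = ∑ i ∈ range (C.G.H - 1), b i :=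
        sum_congr rfl fun i _ => by rw [Nat.add_sub_cancel_left]
      rw [h1]
      exact sum_le_sum_of_subset (range_subset_range.2 (Nat.sub_le _ _))
    have s4 : ∑ ρ ∈ range C.G.H, b ρ =
        4096 * (P * ∑ ρ ∈ range C.G.H, N ρ) + 4 * ∑ ρ ∈ range C.G.H, w ρ := by
      rw [hb, mul_comm P, sum_mul, mul_sum, mul_sum, ← sum_add_distrib]
    have s5 : ∑ ρ ∈ Ico 1 C.G.H, w (ρ + 1) = ∑ ρ ∈ Ico 2 (C.G.H + 1), w ρ := by
      rw [sum_Ico_eq_sum_range, sum_Ico_eq_sum_range]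
      have e1 : C.G.H + 1 - 2 = C.G.H - 1 := by omega
      rw [e1]
      refine sum_congr rfl fun i _ => ?_
      congr 1
      omega
    have s6 : ∑ ρ ∈ range (C.G.H + 1), w ρ = w 0 + w 1 + ∑ ρ ∈ Ico 2 (C.G.H + 1), w ρ := by
      rw [range_eq_Ico, sum_eq_sum_Ico_succ_bot (by omega), sum_eq_sum_Ico_succ_bot (by omega)]
      ring
    have s7 : ∑ ρ ∈ range C.G.H, w ρ ≤ ∑ ρ ∈ range (C.G.H + 1), w ρ :=
      sum_le_sum_of_subset (range_subset_range.2 (Nat.le_succ _))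
    have s8 : w C.G.H ≤ ∑ ρ ∈ range (C.G.H + 1), w ρ :=
      single_le_sum (f := w) (fun _ _ => Nat.zero_le _) (mem_range.2 (Nat.lt_succ_self _))
    rw [sum_range_succ]
    omega

end AD

end Pool.Agent.E217
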