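import Pool.Agent.MP217Exact.Rules
import Pool.Agent.X217.S2Run

set_option autoImplicit false

/-!
# The static properties of the parameters
-/

namespace Pool.Agent.E217

open Finset
open Pool.Agent.X217 (S2Bad)

attribute [local instance 10] Classical.propDecidable

variable {n : ℕ}

/-- The properties of the parameters of a mid run at level `l`. -/
def MidP.Good (P : MidP n) (L l Nm : ℕ) : Prop :=
  ∃ (nb R0 Q j1 J2 F : ℕ) (g : Fin R0 → Fin n → Fin Q),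
    (P.N = 256 * 4096 * 2 ^ P.om ∧ 9 * 4096 * P.Lam ≤ 2 ^ P.om ∧ 1 ≤ P.J ∧
      P.J ≤ 4 * 4096 * 2 ^ P.om) ∧
    (∀ r < P.Rn, ∀ S : Finset (Fin n), (S.image (P.X.bl r)).card ≤ nb) ∧
    (∀ U : Finset (Fin n), U.card ≤ 4 * 2 ^ P.J →
      15 * (P.Rn * U.card) ≤ 16 * ∑ r ∈ range P.Rn, (U.image (P.X.bl r)).card) ∧
    (∀ U : Finset (Fin n), 2 ^ l ≤ U.card → U.card ≤ (L + 1) ^ 3 * 2 ^ l →
      64 * 4096 * (P.Rn * U.card) ≤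
        64 * 4096 * ∑ r ∈ range P.Rn, (U.image fun x => (P.X.bl r x, P.X.κ r x)).card +
          P.Rn * U.card) ∧
    ¬ S2Bad j1 J2 (2 * 2 ^ (P.J - 1)) (2 ^ (P.J - 1)) g ∧
    (1 ≤ j1 ∧ 1 ≤ J2 ∧ 4 * (64 * 2 ^ l) ≤ F * J2) ∧
    (∀ p q, (∃ r, g r p = g r q) → q ∈ P.l0 p) ∧
    4 * (3 * (nb * P.J) + 1) + 8 * (j1 * 2 ^ (P.J - 1)) + 2 * (J2 * 2 ^ (P.J - 1)) +
      2 * (F * J2) + 1 ≤ Nm * 2 ^ l

namespace Geo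

/-- The property of the lists of the top runs. -/
def Few (G : Geo n) (N : ℕ → ℕ) : Prop := ∀ ρ < G.top, ∀ (A : Finset (Fin n))
  (M : Fin n → ℕ → Finset (Fin n)), (∀ p ∈ A, p ∈ M p 0) →
  (∀ p ∈ A, ∀ t < G.It, M p t ⊆ M p (t + 1)) →
  (∀ p ∈ A, ∀ q ∈ A, p ≠ q → ∀ t t', 1 ≤ t → t ≤ G.It → 1 ≤ t' → t' ≤ G.It →
    q ∈ G.TT ρ t p → p ∈ G.TT ρ t' q → M p (t - 1) ⊆ M q t' ∨ M q (t' - 1) ⊆ M p t) →
  (∀ p ∈ A, (M p G.It).card < 64 * 2 ^ G.lev ρ) → A.card ≤ N ρ * 2 ^ G.lev ρ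

/-- The static properties. -/
structure Good (G : Geo n) (N : ℕ → ℕ) (Nt Nm : ℕ) : Prop where
  A : G.A.Good
  few : G.Few N
  mid : ∀ ρ, G.top ≤ ρ → ρ < G.H → (G.mid ρ).Good G.A.L (G.lev ρ) Nm
  N_top : ∀ ρ < G.top, N ρ ≤ Nt
  N_mid : ∀ ρ, G.top ≤ ρ → N ρ = Nm + 4
  hNm : 1 ≤ Nm
  hNt : 1 ≤ Nt

end Geo

end Pool.Agent.E217
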