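import Pool.Agent.MP217Area.Num

set_option autoImplicit false

/-!
# The law of numbers with different codes
-/

namespace Pool.Agent.E217

open MeasureTheory
open scoped ENNReal
open Pool.Agent.MP217Upper.Model (coins)
open Pool.Agent.A217 (num)

variable {n : ℕ}

/-- Binary digits to numbers. -/
private def ln_dec (m : ℕ) : (Fin m → Bool) ≃ Fin (2 ^ m) :=
  (Equiv.piCongrRight fun _ => finTwoEquiv.symm).trans finFunctionFinEquiv

private theorem ln_num (c : ℕ → Bool) (t m : ℕ) :
    ln_dec m (fun i : Fin m => c (Nat.pair t i)) = num c t m := by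
  unfold ln_dec num
  rw [Equiv.trans_apply]
  congr 1
  funext i
  rw [Equiv.piCongrRight_apply]
  cases h : c (Nat.pair t i) <;> simp [h, finTwoEquiv]

/-- Numbers with different codes are independent and uniformly distributed.
PROOF: see `unif_table` (MP217Area/NumLaw.lean): `unif_bits` for the coins
`⟨i, j⟩ ↦ ((e i).1, pair (e i).2 j)`, `i : ι`, `j : Fin (wd i)`. -/
theorem law_num {ι : Type} [Fintype ι] [DecidableEq ι] (e : ι → Fin n × ℕ)
    (he : Function.Injective e) (wd : ι → ℕ) (g : (∀ i, Fin (2 ^ wd i)) → ℝ≥0∞) :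
    ∫⁻ c, g (fun i => num (c (e i).1) (e i).2 (wd i)) ∂coins n =
      ((Fintype.card (∀ i, Fin (2 ^ wd i)) : ℕ) : ℝ≥0∞)⁻¹ * ∑ v, g v := by
  let e' : (Σ i : ι, Fin (wd i)) → Fin n × ℕ :=
    fun x => ((e x.1).1, Nat.pair (e x.1).2 x.2.val)
  have he' : Function.Injective e' := by
    rintro ⟨i, j⟩ ⟨i', j'⟩ h
    simp only [e', Prod.mk.injEq, Nat.pair_eq_pair] at h
    obtain ⟨h1, h2, h3⟩ := h
    have h4 : i = i' := he (Prod.ext h1 h2)
    subst h4
    rw [Fin.ext h3]
  let E : ((Σ i : ι, Fin (wd i)) → Bool) ≃ (∀ i, Fin (2 ^ wd i)) :=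
    (Equiv.piCurry fun (_ : ι) _ => Bool).trans (Equiv.piCongrRight fun i => ln_dec (wd i))
  have h1 := A217.unif_bits (n := n) e' he' (fun v => g (E v))
  have h2 : ∀ c : Fin n → ℕ → Bool, g (E fun x => c (e' x).1 (e' x).2) =
      g (fun i => num (c (e i).1) (e i).2 (wd i)) := by
    intro c
    congr 1
    funext i
    rw [← ln_num]
    rfl
  rw [lintegral_congr h2] at h1
  rw [h1, Equiv.sum_comp E g, ← Fintype.card_congr E, Fintype.card_fun, Fintype.card_bool]
  congr 1
  push_cast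
  rw [ENNReal.inv_pow]

end Pool.Agent.E217
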