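import Pool.Agent.MP217Exact.Rules
import Pool.Agent.MP217Exact.LawNum
import Pool.Agent.X217.Fl1
import Pool.Agent.X217.XCov1

set_option autoImplicit false

/-!
# The law of the tables
-/

namespace Pool.Agent.E217

open Finset MeasureTheory
open scoped ENNReal
open Pool.Agent.MP217Upper.Model (coins)
open Pool.Agent.A217 (num)
open Pool.Agent.X217 (Tb FC flt sdr)

attribute [local instance 10] Classical.propDecidable

variable {n : ℕ}

/-- A bound for the number of seeds of a level. -/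
def Ks (G : Geo n) : ℕ := ∑ l ∈ range (G.A.L + 1), G.A.ns l

theorem ns_le (G : Geo n) {l : ℕ} (h : l ≤ G.A.L) : G.A.ns l ≤ Ks G :=
  single_le_sum (f := fun l => G.A.ns l) (fun _ _ => Nat.zero_le _) (mem_range.2 (by omega))

/-- Tables of seeds (run, number, processor). -/
abbrev SD (G : Geo n) : Type := Fin (G.A.L + 1) → Fin (Ks G) → Fin n → Fin (2 ^ (G.A.L + 3))

/-- Tables of picks for one tick phase: writes and reads. -/
abbrev PP (P : MidP n) : Type :=
  Tb (Fin n) P.N P.Rn P.Lam (2 ^ P.om) × Tb (Fin n) P.N P.Rn P.Lam (2 ^ P.om)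

/-- Tables of picks (run, phase). -/
abbrev PK (G : Geo n) : Type := ∀ i : Fin G.H × Fin 2, PP (G.mid i.1.val)

/-- All tables except the flips. -/
abbrev Om (G : Geo n) : Type := SD G × PK G

/-- The seeds given by a table. -/
def sdV (G : Geo n) (w : SD G) (p : Fin n) (l j : ℕ) : ℕ :=
  if l ≤ G.A.L ∧ j < G.A.ns l then sdr w (G.A.L - l) p j else 0

/-- The picks given by a table. -/
def pkV (G : Geo n) (w : PK G) (p : Fin n) (ρ f : ℕ) (b : Bool) (s r k : ℕ) : ℕ :=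
  if h : ρ < G.H ∧ f < 2 then
    if h' : s < (G.mid ρ).N + 1 ∧ r < (G.mid ρ).Rn ∧ k < (G.mid ρ).Lam then
      (cond b (w (⟨ρ, h.1⟩, ⟨f, h.2⟩)).2 (w (⟨ρ, h.1⟩, ⟨f, h.2⟩)).1 (p, ⟨s, h'.1⟩) ⟨r, h'.2.1⟩
        ⟨k, h'.2.2⟩).val
    else 0
  else 0

/-- The tables. -/
def tabV (G : Geo n) (nR : ℕ) (x : Fin n → Bool) (w : Om G) (f : Fin n × Fin nR → Bool) :
    Tab n where
  x := x
  sd := sdV G w.1
  pk := pkV G w.2
  fl p ρ := if h : ρ < nR then f (p, ⟨ρ, h⟩) else false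

/-- The inverse flip probabilities. -/
def NF (G : Geo n) (nR : ℕ) (e : Fin n × Fin nR) : ℕ :=
  2 ^ (G.A.L + G.hf - min e.2.val (G.A.L - G.A.ν0))

/-- The number of all tables. -/
def crd (G : Geo n) (nR : ℕ) : ℕ := Fintype.card (Om G) * Fintype.card (FC (NF G nR))

theorem crd_pos (G : Geo n) (nR : ℕ) : 0 < crd G nR := by
  unfold crd
  have h1 : Nonempty (Om G) := ⟨(fun _ _ _ => ⟨0, by positivity⟩,
    fun _ => (fun _ _ _ => ⟨0, by positivity⟩, fun _ _ _ => ⟨0, by positivity⟩))⟩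
  have h2 : Nonempty (FC (NF G nR)) := ⟨fun _ => ⟨0, by unfold NF; positivity⟩⟩
  exact Nat.mul_pos (Fintype.card_pos_iff.2 h1) (Fintype.card_pos_iff.2 h2)

/-- The index type of all numbers: seeds, picks and flips. -/
private abbrev la_I (G : Geo n) (nR : ℕ) : Type :=
  (Fin (G.A.L + 1) × Fin (Ks G) × Fin n) ⊕
    ((Σ i : Fin G.H × Fin 2, Bool × (Fin n × Fin ((G.mid i.1.val).N + 1)) ×
      Fin (G.mid i.1.val).Rn × Fin (G.mid i.1.val).Lam) ⊕ (Fin n × Fin nR))

/-- The codes. -/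
private def la_e (G : Geo n) (nR : ℕ) : la_I G nR → Fin n × ℕ
  | .inl (ρ, j, p) => (p, Nat.pair 0 (Nat.pair (Nat.pair 0 (G.A.L - ρ.val)) j.val))
  | .inr (.inl ⟨i, b, ps, r, k⟩) => (ps.1, pcode i.1.val i.2.val b ps.2.val r.val k.val)
  | .inr (.inr (p, ρ)) => (p, Nat.pair 3 ρ.val)

/-- The numbers of digits. -/
private def la_w (G : Geo n) (nR : ℕ) : la_I G nR → ℕ
  | .inl _ => G.A.L + 3
  | .inr (.inl i) => (G.mid i.1.1.val).om
  | .inr (.inr e) => G.A.L + G.hf - min e.2.val (G.A.L - G.A.ν0)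

/-- The tables given by the numbers. -/
private def la_E (G : Geo n) (nR : ℕ) :
    (∀ i : la_I G nR, Fin (2 ^ la_w G nR i)) ≃ Om G × FC (NF G nR) where
  toFun v := ((fun ρ j p => v (.inl (ρ, j, p)),
    fun i => (fun ps r k => v (.inr (.inl ⟨i, false, ps, r, k⟩)),
      fun ps r k => v (.inr (.inl ⟨i, true, ps, r, k⟩)))),
    fun e => v (.inr (.inr e)))
  invFun w
    | .inl (ρ, j, p) => w.1.1 ρ j p
    | .inr (.inl ⟨i, false, ps, r, k⟩) => (w.1.2 i).1 ps r k
    | .inr (.inl ⟨i, true, ps, r, k⟩) => (w.1.2 i).2 ps r k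
    | .inr (.inr e) => w.2 e
  left_inv v := by
    funext i
    rcases i with ⟨ρ, j, p⟩ | ⟨i, _ | _, ps, r, k⟩ | e <;> rfl
  right_inv w := rfl

private theorem la_inj (G : Geo n) (nR : ℕ) : Function.Injective (la_e G nR) := by
  rintro (⟨ρ, j, p⟩ | ⟨⟨ρ, f⟩, b, ⟨p, s⟩, r, k⟩ | ⟨p, ρ⟩)
    (⟨ρ', j', p'⟩ | ⟨⟨ρ', f'⟩, b', ⟨p', s'⟩, r', k'⟩ | ⟨p', ρ'⟩) h <;>
    simp only [la_e, pcode, Prod.mk.injEq, Nat.pair_eq_pair] at h
  · obtain ⟨h1, -, ⟨-, h2⟩, h3⟩ := h
    have h4 : ρ = ρ' := by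
      have := ρ.isLt
      have := ρ'.isLt
      exact Fin.ext (by omega)
    rw [h1, h4, Fin.ext h3]
  · omega
  · omega
  · omega
  · obtain ⟨h1, -, ⟨h2, h3, h4⟩, h5, h6, h7⟩ := h
    have h2' := Fin.ext h2
    subst h2'
    rw [h1, Fin.ext h3, Fin.ext h5, Fin.ext h6, Fin.ext h7]
    cases b <;> cases b' <;> simp_all
  · omega
  · omega
  · omega
  · obtain ⟨h1, -, h2⟩ := h
    rw [h1, Fin.ext h2]

private theorem la_tab (G : Geo n) (nR : ℕ) (x : Fin n → Bool) (c : Fin n → ℕ → Bool) :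
    tabV G nR x
      (la_E G nR fun i => num (c (la_e G nR i).1) (la_e G nR i).2 (la_w G nR i)).1
      (flt (la_E G nR fun i => num (c (la_e G nR i).1) (la_e G nR i).2 (la_w G nR i)).2) =
      tabc G nR x c := by
  unfold tabV tabc
  congr 1
  · funext p l j
    unfold sdV Q217.sdc
    by_cases h : l ≤ G.A.L ∧ j < G.A.ns l
    · rw [if_pos h, if_pos ⟨Nat.zero_le _, h⟩]
      unfold sdr X217.sdt
      rw [dif_pos (by omega : G.A.L - l < G.A.L + 1), dif_pos (lt_of_lt_of_le h.2 (ns_le G h.1))]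
      show (num (c p) (Nat.pair 0 (Nat.pair (Nat.pair 0 (G.A.L - (G.A.L - l))) j))
        (G.A.L + 3)).val = _
      rw [Nat.sub_sub_self h.1]
    · rw [if_neg h, if_neg]
      exact fun h' => h h'.2
  · funext p ρ f b s r k
    unfold pkV pkc
    by_cases h : ρ < G.H ∧ f < 2
    · rw [dif_pos h]
      by_cases h' : s < (G.mid ρ).N + 1 ∧ r < (G.mid ρ).Rn ∧ k < (G.mid ρ).Lam
      · rw [dif_pos h', if_pos ⟨h.1, h.2, by omega, h'.2.1, h'.2.2⟩]
        cases b <;> rfl
      · rw [dif_neg h', if_neg]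
        rintro ⟨-, -, h1, h2, h3⟩
        exact h' ⟨by omega, h2, h3⟩
    · rw [dif_neg h, if_neg]
      rintro ⟨h1, h2, -⟩
      exact h ⟨h1, h2⟩
  · funext p ρ
    unfold flpc
    by_cases h : ρ < nR
    · rw [dif_pos h]
      have hl : G.lev ρ + G.hf = G.A.L + G.hf - min ρ (G.A.L - G.A.ν0) := by
        unfold Geo.lev
        have := G.H_eq
        omega
      rw [hl, decide_eq_true h, Bool.true_and]
      rfl
    · rw [dif_neg h, decide_eq_false h, Bool.false_and]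

/-- THE LAW OF THE TABLES.
PROOF: `law_num` for the index type of all numbers: seeds `Fin (L + 1) × Fin Ks × Fin n` (code
`Nat.pair 0 (Nat.pair (Nat.pair 0 l) j)` with `l = L - ρ`), picks (a sigma type over
`Fin H × Fin 2`, code `pcode`), flips (code `Nat.pair 3 ρ`); equivalence with `Om G × FC`. -/
theorem law_tab (G : Geo n) (nR : ℕ) (x : Fin n → Bool) (g : Tab n → ℝ≥0∞) :
    ∫⁻ c, g (tabc G nR x c) ∂coins n = ((crd G nR : ℕ) : ℝ≥0∞)⁻¹ *
      ∑ y : Om G × FC (NF G nR), g (tabV G nR x y.1 (flt y.2)) := by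
  classical
  have h1 := law_num (la_e G nR) (la_inj G nR) (la_w G nR)
    (fun v => g (tabV G nR x (la_E G nR v).1 (flt (la_E G nR v).2)))
  rw [lintegral_congr fun c => congrArg g (la_tab G nR x c)] at h1
  rw [h1, Equiv.sum_comp (la_E G nR) (fun y => g (tabV G nR x y.1 (flt y.2))),
    Fintype.card_congr (la_E G nR), Fintype.card_prod]
  rfl

/-- The probability of an event. -/
theorem prob_tab (G : Geo n) (nR : ℕ) (x : Fin n → Bool) (Q : Tab n → Prop) :
    coins n {c | Q (tabc G nR x c)} = ((crd G nR : ℕ) : ℝ≥0∞)⁻¹ *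
      (univ.filter fun y : Om G × FC (NF G nR) => Q (tabV G nR x y.1 (flt y.2))).card := by
  have hm : MeasurableSet {c | Q (tabc G nR x c)} := by
    refine A217.meas_of_fin (univ.image fun i : (Σ i : la_I G nR, Fin (la_w G nR i)) =>
      ((la_e G nR i.1).1, Nat.pair (la_e G nR i.1).2 i.2.val)) _ ?_
    intro c c' h
    have h1 : tabc G nR x c = tabc G nR x c' := by
      have h2 : (fun i => num (c (la_e G nR i).1) (la_e G nR i).2 (la_w G nR i)) =
          fun i => num (c' (la_e G nR i).1) (la_e G nR i).2 (la_w G nR i) := by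
        funext i
        unfold num
        congr 1
        funext j
        rw [h ((la_e G nR i).1, Nat.pair (la_e G nR i).2 j.val)
          (mem_image_of_mem _ (mem_univ (⟨i, j⟩ : Σ i : la_I G nR, Fin (la_w G nR i))))]
      rw [← la_tab, ← la_tab, h2]
    simp only [Set.mem_ofPred_eq]
    rw [h1]
  have h2 := law_tab G nR x (fun T => if Q T then 1 else 0)
  have h3 : ∀ c, (if Q (tabc G nR x c) then (1 : ℝ≥0∞) else 0) =
      Set.indicator {c | Q (tabc G nR x c)} (1 : (Fin n → ℕ → Bool) → ℝ≥0∞) c := by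
    intro c
    rw [Set.indicator_apply]
    rfl
  rw [lintegral_congr h3, lintegral_indicator_one hm] at h2
  rw [h2, sum_boole]

end Pool.Agent.E217
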