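import Pool.Agent.MP217Exact.MSame

set_option autoImplicit false

/-!
# The machine: what the teams depend on
-/

namespace Pool.Agent.E217

open Finset

attribute [local instance 10] Classical.propDecidable

variable {n : ℕ} {D D' : Type}

namespace Sys

private theorem lrun_some {S : Sys n D} {σ : ℕ → Option (Fin n)} {p : Fin n} {t : ℕ}
    (h : σ t = some p) : S.run σ (t + 1) = S.step p (S.run σ t) := by
  simp only [run, h]

private theorem lrun_none {S : Sys n D} {σ : ℕ → Option (Fin n)} {t : ℕ} (h : σ t = none) :
    S.run σ (t + 1) = S.run σ t := by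
  simp only [run, h]

/-- In a channel without teams nothing about teams is transmitted. -/
private theorem fst_empty {S : Sys n D} (hS : S.Ok) {σ : ℕ → Option (Fin n)} {j : ℕ}
    (hj : S.tm j = false) (t : ℕ) (w x : Fin n) : ((S.run σ t).mem w x (S.ch j)).1 = ∅ := by
  induction t with
  | zero => simp only [run, init]
  | succ t ih =>
    rcases hp : σ t with _ | p
    · rw [lrun_none hp]
      exact ih
    · rw [lrun_some hp]
      unfold step
      by_cases hid : S.Idle ((S.run σ t).st p)
      · rw [if_pos hid]
        exact ih
      · rw [if_neg hid]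
        by_cases hw : ((S.run σ t).st p).pos < S.lw ((S.run σ t).st p).i
        · rw [if_pos hw]
          simp only
          split_ifs with hc
          · have htm : S.tm ((S.run σ t).st p).i = false := by
              rw [← hS.tm_ch _ _ hc.2.2]
              exact hj
            unfold msg
            rw [htm]
            simp
          · exact ih
        · rw [if_neg hw]
          exact ih

private theorem Same.symm' {S : Sys n D} {S' : Sys n D'} (h : Same S S') : Same S' S :=
  ⟨h.E.symm, h.lw.symm, h.lr.symm, h.ch.symm, h.tm.symm, h.rs.symm⟩

/-- A processor which is active in an early pass for one program is active for the other. -/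
private theorem act {S : Sys n D} {S' : Sys n D'} (hS : S.Ok) (hS' : S'.Ok) (hs : Same S S')
    {σ : ℕ → Option (Fin n)} (hσ : Fair σ) {B t : ℕ} {p : Fin n} (hp : σ t = some p)
    (hal : ∀ i, i < B → S.al σ p i ≤ t → S.Al σ p i → S'.Al σ p i)
    (hid : ¬ S.Idle ((S.run σ t).st p)) (hi : ((S.run σ t).st p).i < B) :
    ¬ S'.Idle ((S'.run σ t).st p) ∧ ((S'.run σ t).st p).i = ((S.run σ t).st p).i ∧
      ((S'.run σ t).st p).pos = ((S.run σ t).st p).pos ∧
      S.Al σ p ((S.run σ t).st p).i ∧ S.al σ p ((S.run σ t).st p).i ≤ t ∧
      ((S.run σ t).st p).M = (S.sI σ p ((S.run σ t).st p).i).M ∧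
      ((S'.run σ t).st p).M = (S'.sI σ p ((S.run σ t).st p).i).M := by
  obtain ⟨hE, hA, h1, h2⟩ := al_of hS hσ hid
  set i := ((S.run σ t).st p).i with hidef
  have halt : S.al σ p i ≤ t := by
    unfold Sys.al
    calc tme σ p (S.off i) ≤ tme σ p (cnt σ p t) := (tme_le hσ p).2 h1
      _ = t := tme_cnt hp
  have hA' := hal i hi halt hA
  obtain ⟨-, s2, -, -, s5⟩ := st_in hS hσ hE hA h1 h2
  have hE' : i < S'.E := by rw [hs.E]; exact hE
  obtain ⟨r1, r2, r3, -, r5⟩ := st_in hS' hσ hE' hA' (by rw [hs.off]; exact h1)
    (by rw [hs.off]; exact h2)
  refine ⟨?_, r1, ?_, hA, halt, s5, r5⟩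
  · unfold Idle
    rw [r3, r1, hA'.2.2]
    simp only [Bool.false_eq_true, false_or, not_le]
    exact hE'
  · rw [r2, s2, hs.off]

/-- TEAMS.  If two programs have the same lists in the passes `< B` in which teams are
transmitted, and up to time `τ` the same processors take part in the passes `< B`, then the
teams in these passes are the same.
PROOF: induction on `t ≤ τ`: for every `p` with `off i ≤ cnt σ p t < off (i + 1)`, `i < B`, the
fields `i`, `pos`, `M`, `aM` of the states of `p` agree (if `p` takes part in pass `i`), and the
first components of all registers in the channels `ch j`, `j < B`, `tm j`, agree; such a channel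
is used in passes `< B` only (`hch`). -/
theorem loc {S : Sys n D} {S' : Sys n D'} (hS : S.Ok) (hS' : S'.Ok) (hs : Same S S')
    {σ : ℕ → Option (Fin n)} (hσ : Fair σ) (B τ : ℕ) (hB : B ≤ S.E)
    (hch : ∀ i j, i < B → S.tm i = true → S.ch i = S.ch j → j < B)
    (htw : ∀ p i M, i < B → S.tm i = true → S'.tw p i M = S.tw p i M)
    (htr : ∀ p i M, i < B → S.tm i = true → S'.tr p i M = S.tr p i M)
    (hal : ∀ p i, i < B → S.al σ p i ≤ τ → (S.Al σ p i ↔ S'.Al σ p i)) :
    (∀ p i, i < B → S.al σ p i ≤ τ → S.Al σ p i → (S'.sI σ p i).M = (S.sI σ p i).M) ∧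
    ∀ p i, i < B → S.en σ p i ≤ τ → S.Al σ p i → S'.ME σ p i = S.ME σ p i := by
  have hoff := hs.off
  -- equality of what is read, from the equality of the registers
  have hinM : ∀ T, T ≤ τ → (∀ t ≤ T, ∀ w x j, j < B → S.tm j = true →
      ((S'.run σ t).mem w x (S.ch j)).1 = ((S.run σ t).mem w x (S.ch j)).1) →
      ∀ p i, i < B → S.Al σ p i → (S'.sI σ p i).M = (S.sI σ p i).M →
        (∀ k < S.lr i, tme σ p (S.off i + S.lw i + k) ≤ T) → S'.inM σ p i = S.inM σ p i := by
    intro T hT ha p i hi hA hM hk
    unfold inM
    rw [hs.lr, hs.lw, hs.ch, hoff]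
    refine Finset.biUnion_congr rfl fun k hkr => ?_
    rcases htm : S.tm i with _ | _
    · have e1 := fst_empty hS htm (σ := σ) (tme σ p (S.off i + S.lw i + k))
        ((S.tr p i (S.sI σ p i).M).getD k p) p
      have e2 := fst_empty hS' (j := i) (by rw [hs.tm]; exact htm) (σ := σ)
        (tme σ p (S.off i + S.lw i + k)) ((S'.tr p i (S'.sI σ p i).M).getD k p) p
      rw [hs.ch] at e2
      rw [e1, e2]
    · rw [htr p i _ hi htm, hM]
      exact ha _ (hk k (Finset.mem_range.1 hkr)) _ _ i hi htm
  have main : ∀ t, t ≤ τ → (∀ t' ≤ t, ∀ w x j, j < B → S.tm j = true →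
      ((S'.run σ t').mem w x (S.ch j)).1 = ((S.run σ t').mem w x (S.ch j)).1) ∧
      ∀ p i, i < B → S.al σ p i ≤ t → S.Al σ p i → (S'.sI σ p i).M = (S.sI σ p i).M := by
    -- the team at the beginning of a pass
    have hb : ∀ t, t ≤ τ → (∀ t' < t, ∀ w x j, j < B → S.tm j = true →
        ((S'.run σ t').mem w x (S.ch j)).1 = ((S.run σ t').mem w x (S.ch j)).1) →
        ∀ i, ∀ p, i < B → S.al σ p i ≤ t → S.Al σ p i →
          (S'.sI σ p i).M = (S.sI σ p i).M := by
      intro t ht ha i
      induction i with
      | zero =>
        intro p _ _ _
        rw [sI_zero S hσ, sI_zero S' hσ]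
        simp only [beg, bM, hs.rs]
      | succ i ih =>
        intro p hi hat hA
        have hA0 : S.Al σ p i := al_mono hS hσ hA (Nat.le_succ i) (by omega)
        have hlt : S.al σ p i < S.al σ p (i + 1) := (tme_lt hσ p).2 (off_lt hS (Nat.lt_succ_self i))
        have hA0' : S'.Al σ p i := (hal p i (by omega) (by omega)).1 hA0
        have hM := ih p (by omega) (by omega) hA0
        have hin : S'.inM σ p i = S.inM σ p i := by
          rcases Nat.eq_zero_or_pos t with ht0 | ht0
          · omega
          · refine hinM (t - 1) (by omega) (fun t' ht' => ha t' (by omega)) p i (by omega) hA0 hM ?_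
            intro k hk
            have h1 : tme σ p (S.off i + S.lw i + k) < S.al σ p (i + 1) := by
              refine (tme_lt hσ p).2 ?_
              rw [off_succ]
              omega
            omega
        rw [sI_succ hS hσ (by omega) hA0, sI_succ hS' hσ (by rw [hs.E]; omega) hA0']
        simp only [beg, bM, ME, hs.rs, hM, hin]
    intro t
    induction t with
    | zero =>
      intro ht
      have h0 : ∀ t' ≤ 0, ∀ w x j, j < B → S.tm j = true →
          ((S'.run σ t').mem w x (S.ch j)).1 = ((S.run σ t').mem w x (S.ch j)).1 := by
        intro t' ht' w x j _ _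
        have : t' = 0 := by omega
        subst this
        simp only [run, init]
      exact ⟨h0, fun p i hi hat hA => hb 0 ht (fun t' ht' => absurd ht' (Nat.not_lt_zero _))
        i p hi hat hA⟩
    | succ t ih =>
      intro ht
      obtain ⟨iha, ihb⟩ := ih (by omega)
      have ha : ∀ t' ≤ t + 1, ∀ w x j, j < B → S.tm j = true →
          ((S'.run σ t').mem w x (S.ch j)).1 = ((S.run σ t').mem w x (S.ch j)).1 := by
        intro t' ht' w x j hj htm
        rcases Nat.lt_or_ge t' (t + 1) with hlt | hge
        · exact iha t' (by omega) w x j hj htm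
        have htt : t' = t + 1 := by omega
        subst htt
        have hold := iha t le_rfl w x j hj htm
        rcases hp : σ t with _ | p
        · rw [lrun_none hp, lrun_none hp]
          exact hold
        · rw [lrun_some hp, lrun_some hp]
          by_cases hact : ¬ S.Idle ((S.run σ t).st p) ∧ ((S.run σ t).st p).i < B
          · obtain ⟨hid, hiB⟩ := hact
            obtain ⟨a1, a2, a3, a4, a5, a6, a7⟩ := act hS hS' hs hσ hp
              (fun i hi h1 h2 => (hal p i hi (by omega)).1 h2) hid hiB
            have hMM := ihb p _ hiB a5 a4
            unfold step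
            rw [if_neg hid, if_neg a1, a2, a3, hs.lw]
            by_cases hw : ((S.run σ t).st p).pos < S.lw ((S.run σ t).st p).i
            · rw [if_pos hw, if_pos hw]
              simp only
              by_cases hc : S.ch j = S.ch ((S.run σ t).st p).i
              · have htmi : S.tm ((S.run σ t).st p).i = true := by
                  rw [← hS.tm_ch _ _ hc]
                  exact htm
                have hwt : S'.wt p ((S'.run σ t).st p) = S.wt p ((S.run σ t).st p) := by
                  unfold wt
                  rw [a2, a3, a6, a7, htw p _ _ hiB htmi, hMM]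
                rw [hwt, hs.ch]
                split_ifs with hcc
                · unfold msg
                  rw [a2, hs.tm, htmi, a6, a7, hMM]
                · exact hold
              · rw [hs.ch, if_neg (fun h => hc h.2.2), if_neg (fun h => hc h.2.2)]
                exact hold
            · rw [if_neg hw, if_neg hw]
              exact hold
          · -- not active in an early pass
            have hS1 : ((S.step p (S.run σ t)).mem w x (S.ch j)).1 =
                ((S.run σ t).mem w x (S.ch j)).1 := by
              unfold step
              by_cases hid : S.Idle ((S.run σ t).st p)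
              · rw [if_pos hid]
              · rw [if_neg hid]
                by_cases hw : ((S.run σ t).st p).pos < S.lw ((S.run σ t).st p).i
                · rw [if_pos hw]
                  simp only
                  rw [if_neg]
                  intro hcc
                  exact hact ⟨hid, hch j _ hj htm hcc.2.2⟩
                · rw [if_neg hw]
            have hS2 : ((S'.step p (S'.run σ t)).mem w x (S.ch j)).1 =
                ((S'.run σ t).mem w x (S.ch j)).1 := by
              unfold step
              by_cases hid : S'.Idle ((S'.run σ t).st p)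
              · rw [if_pos hid]
              · rw [if_neg hid]
                by_cases hw : ((S'.run σ t).st p).pos < S'.lw ((S'.run σ t).st p).i
                · rw [if_pos hw]
                  simp only
                  rw [if_neg]
                  intro hcc
                  have hcc2 := hcc.2.2
                  rw [hs.ch] at hcc2
                  have hiB : ((S'.run σ t).st p).i < B := hch j _ hj htm hcc2
                  obtain ⟨a1, a2, -⟩ := act hS' hS hs.symm' hσ hp
                    (fun i hi h1 h2 => (hal p i hi (by
                      have : S'.al σ p i = S.al σ p i := by rw [hs.al]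
                      omega)).2 h2) hid hiB
                  exact hact ⟨a1, by rw [a2]; exact hiB⟩
                · rw [if_neg hw]
            rw [hS1, hS2]
            exact hold
      exact ⟨ha, fun p i hi hat hA => hb (t + 1) ht
        (fun t' ht' => ha t' (by omega)) i p hi hat hA⟩
  obtain ⟨ma, mb⟩ := main τ le_rfl
  refine ⟨fun p i hi hat hA => mb p i hi hat hA, ?_⟩
  intro p i hi hen hA
  have hlw := hS.lw_pos i
  have hlr := hS.lr_pos i
  have hos := off_succ S i
  have hat : S.al σ p i ≤ τ := by
    refine le_trans ?_ hen
    refine (tme_le hσ p).2 ?_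
    omega
  have hM := mb p i hi hat hA
  unfold ME
  rw [hM, hinM τ le_rfl ma p i hi hA hM]
  intro k hk
  refine le_trans ?_ hen
  refine (tme_le hσ p).2 ?_
  omega

end Sys

end Pool.Agent.E217
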