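import Pool.Agent.MP217Exact.AWorld
import Pool.Agent.MP217Exact.A_Cnt
import Pool.Agent.MP217Exact.Law
import Pool.Agent.MP217Exact.MLoc
import Pool.Agent.MP217Exact.Good

set_option autoImplicit false

/-!
# Adopt-commit: the teams of run `ρ` do not depend on the seeds of run `ρ`; coverage
-/

namespace Pool.Agent.E217

open Finset
open Pool.Agent.X217 (Tb FC flt sdr sdt xl CvL)

attribute [local instance 10] Classical.propDecidable

variable {n : ℕ}

/-- Counting over one coordinate. -/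
private theorem al_fub {Ω T : Type} [Fintype Ω] [Fintype T] (upd : Ω → T → Ω) (get : Ω → T)
    (h1 : ∀ w v, get (upd w v) = v) (h2 : ∀ w v, upd (upd w v) (get w) = w) (B : Ω → Prop)
    [DecidablePred B] (c : ℕ) (hB : ∀ w, c * (univ.filter fun v => B (upd w v)).card ≤ Fintype.card T) :
    c * (univ.filter B).card ≤ Fintype.card Ω := by
  rcases isEmpty_or_nonempty Ω with hΩ | ⟨⟨w0⟩⟩
  · have h0 : (univ.filter B).card = 0 := by
      rw [card_eq_zero, filter_eq_empty_iff]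
      intro w
      exact (hΩ.false w).elim
    rw [h0, mul_zero]
    exact Nat.zero_le _
  have hT : 0 < Fintype.card T := Fintype.card_pos_iff.2 ⟨get w0⟩
  have e1 : (univ.filter fun z : Ω × T => B z.1).card = (univ.filter B).card * Fintype.card T := by
    have h3 : (univ.filter fun z : Ω × T => B z.1) = (univ.filter B) ×ˢ (univ : Finset T) := by
      ext z
      simp only [mem_filter, mem_univ, true_and, mem_product, and_true]
    rw [h3, card_product, card_univ]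
  have e2 : (univ.filter fun z : Ω × T => B (upd z.1 z.2)).card =
      (univ.filter fun z : Ω × T => B z.1).card := by
    refine card_bij' (fun z _ => (upd z.1 z.2, get z.1)) (fun z _ => (upd z.1 z.2, get z.1)) ?_ ?_ ?_ ?_
    · intro z hz
      rw [mem_filter] at hz ⊢
      exact ⟨mem_univ _, hz.2⟩
    · intro z hz
      rw [mem_filter] at hz ⊢
      refine ⟨mem_univ _, ?_⟩
      show B (upd (upd z.1 z.2) (get z.1))
      rw [h2]
      exact hz.2
    · intro z _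
      show (upd (upd z.1 z.2) (get z.1), get (upd z.1 z.2)) = z
      rw [h1, h2]
    · intro z _
      show (upd (upd z.1 z.2) (get z.1), get (upd z.1 z.2)) = z
      rw [h1, h2]
  have e3 : (univ.filter fun z : Ω × T => B (upd z.1 z.2)).card =
      ∑ w : Ω, (univ.filter fun v => B (upd w v)).card := by
    simp only [card_filter]
    rw [Fintype.sum_prod_type]
  have h3 : c * ((univ.filter B).card * Fintype.card T) ≤ Fintype.card Ω * Fintype.card T := by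
    rw [← e1, ← e2, e3, mul_sum]
    calc ∑ w : Ω, c * (univ.filter fun v => B (upd w v)).card
        ≤ ∑ _w : Ω, Fintype.card T := sum_le_sum fun w _ => hB w
      _ = Fintype.card Ω * Fintype.card T := by rw [sum_const, card_univ, smul_eq_mul]
  rw [← mul_assoc] at h3
  exact Nat.le_of_mul_le_mul_right h3 hT

/-- The lists of the passes with teams do not depend on the seeds. -/
private theorem al_lst {G : Geo n} {nR : ℕ} (x : Fin n → Bool) (f : Fin n × Fin nR → Bool)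
    {w w' : Om G} (h2 : w.2 = w'.2) (b : Bool) (p : Fin n) {i : ℕ} (M : Finset (Stp n))
    (hi : G.jOf i ≠ 0) :
    (tabV G nR x w' f).lst G b p i M = (tabV G nR x w f).lst G b p i M := by
  obtain ⟨s, k⟩ := w
  obtain ⟨s', k'⟩ := w'
  obtain rfl : k = k' := h2
  have hk : G.kd (G.rOf i) (G.jOf i) ≠ .ext := by
    unfold Geo.kd
    rw [if_neg hi]
    split_ifs <;> exact fun h => Kd.noConfusion h
  unfold Tab.lst
  rcases hkd : G.kd (G.rOf i) (G.jOf i) with _ | t | ⟨f', s''⟩ | _ | _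
  · exact absurd hkd hk
  · rfl
  · rfl
  · rfl
  · rfl

private theorem al_outp {X : Finset (Fact n DA)} {d : DA} :
    (Geo.outp X d).ph = d.ph ∧ (Geo.outp X d).out = true := by
  unfold Geo.outp
  split_ifs <;> exact ⟨rfl, rfl⟩

/-- Adopt-commit with variable tables. -/
structure VA (n : ℕ) where
  G : Geo n
  x : Fin n → Bool
  f : Fin n × Fin (G.H + 2) → Bool
  σ : ℕ → Option (Fin n)
  fair : Fair σ

namespace VA

variable (X : VA n)

/-- The world of the tables `w`. -/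
def C (w : Om X.G) : AD n := ⟨tabV X.G (X.G.H + 2) X.x w X.f, X.G, X.σ, X.fair⟩

/-- The teams of run `ρ`, if the participants of the runs `k ≤ ρ` are the same. -/
private theorem al_Mf {w w' : Om X.G} {ρ : ℕ} (hρ : ρ < X.G.H) (h2 : w.2 = w'.2)
    (hgo : ∀ k ≤ ρ, ∀ p, ((X.C w).W.go p k ↔ (X.C w').W.go p k)) {b : Fin n}
    (hb : (X.C w).W.go b ρ) : (X.C w).W.Mf b ρ = (X.C w').W.Mf b ρ := by
  have hE : (X.C w).W.S.E = X.G.st (X.G.H + 2) := rfl
  have hla : X.G.la ρ + 1 = X.G.st (ρ + 1) := X.G.la_succ ρ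
  have hst : X.G.st (ρ + 1) ≤ X.G.st (X.G.H + 2) := X.G.st_le (by omega)
  have hρ2 : ρ < X.G.H + 2 := by omega
  have hAl : (X.C w).W.S.Al X.σ b (X.G.la ρ) :=
    (X.C w).W.go_pass hρ2 hb (X.G.st_le_la ρ) le_rfl
  have hj : ∀ i, (X.C w).W.S.tm i = true → X.G.jOf i ≠ 0 := fun i htm => of_decide_eq_true htm
  have key := Sys.loc (S := (X.C w).W.S) (S' := (X.C w').W.S) (X.C w).W.ok (X.C w').W.ok
    ⟨rfl, rfl, rfl, rfl, rfl, rfl⟩ X.fair (X.G.st (ρ + 1)) ((X.C w).W.eT b ρ) hst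
    (fun i j hi htm hch => by
      have hc0 : X.G.chan i ≠ 0 := fun h0 => hj i htm (X.G.chan_zero.1 h0)
      have hr : X.G.rOf i = X.G.rOf j := X.G.chan_run hch hc0
      obtain ⟨s1, _⟩ := X.G.rOf_spec i
      obtain ⟨_, s4⟩ := X.G.rOf_spec j
      have h1 : X.G.rOf i < ρ + 1 := X.G.st_lt_iff.1 (lt_of_le_of_lt s1 hi)
      have h2 : X.G.st (X.G.rOf j + 1) ≤ X.G.st (ρ + 1) := X.G.st_le (by omega)
      omega)
    (fun p i M _ htm => al_lst X.x X.f h2 false p M (hj i htm))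
    (fun p i M _ htm => al_lst X.x X.f h2 true p M (hj i htm))
    (fun p i hi _ => by
      obtain ⟨s1, _⟩ := X.G.rOf_spec i
      have s3 := X.G.la_succ (X.G.rOf i)
      obtain ⟨_, s4⟩ := X.G.rOf_spec i
      have h1 : X.G.rOf i < ρ + 1 := X.G.st_lt_iff.1 (lt_of_le_of_lt s1 hi)
      have h3 : X.G.rOf i < X.G.H + 2 := by omega
      have hiE : i < X.G.st (X.G.H + 2) := lt_of_lt_of_le hi hst
      have h4 := hgo (X.G.rOf i) (by omega) p
      constructor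
      · intro h
        have h5 : (X.C w).W.go p (X.G.rOf i) := ((X.C w).W.al_go hiE h).1
        exact (X.C w').W.go_pass h3 (h4.1 h5) s1 (by
          show i ≤ X.G.la (X.G.rOf i)
          omega)
      · intro h
        have h5 : (X.C w').W.go p (X.G.rOf i) := ((X.C w').W.al_go hiE h).1
        exact (X.C w).W.go_pass h3 (h4.2 h5) s1 (by
          show i ≤ X.G.la (X.G.rOf i)
          omega))
  have h3 := key.2 b (X.G.la ρ) (by omega) le_rfl hAl
  show names ((X.C w).W.S.ME X.σ b (X.G.la ρ)) = names ((X.C w').W.S.ME X.σ b (X.G.la ρ))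
  rw [h3]

/-- The members in the second phase. -/
private theorem al_M2 {w w' : Om X.G} {ρ : ℕ} (hρ : ρ < X.G.H)
    (hph : ∀ p, (X.C w).W.go p ρ → ((X.C w).W.dS p ρ).ph = ((X.C w').W.dS p ρ).ph) {b : Fin n}
    (hb : (X.C w).W.go b ρ) (hM : (X.C w).W.Mf b ρ = (X.C w').W.Mf b ρ) :
    (X.C w).M2 b ρ = (X.C w').M2 b ρ := by
  unfold AD.M2
  rw [← hM]
  refine filter_congr fun a ha => ?_
  rw [hph a ((X.C w).W.team hρ hb ha).1]

/-- The ext lists of run `ρ` depend on the seeds of run `ρ`. -/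
private theorem al_ext {w w' : Om X.G} {ρ : ℕ} (hρ : ρ < X.G.H)
    (h1 : ∀ k : Fin (X.G.A.L + 1), k.val = ρ → w.1 k = w'.1 k) (a : Fin n) :
    (X.C w).W.Ext a ρ = (X.C w').W.Ext a ρ := by
  have hH := X.G.H_eq
  have hl := (X.G.lev_tick hρ).2
  have h2 : sdV X.G w.1 a (X.G.lev ρ) = sdV X.G w'.1 a (X.G.lev ρ) := by
    funext j
    unfold sdV sdr
    have h3 : X.G.A.L - X.G.lev ρ = ρ := by omega
    rw [h3, dif_pos (show ρ < X.G.A.L + 1 by omega), dif_pos (show ρ < X.G.A.L + 1 by omega),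
      h1 ⟨ρ, _⟩ rfl]
  show X.G.A.extList a (X.G.lev ρ) (sdV X.G w.1 a (X.G.lev ρ)) =
    X.G.A.extList a (X.G.lev ρ) (sdV X.G w'.1 a (X.G.lev ρ))
  rw [h2]

private theorem al_crt {w w' : Om X.G} {ρ : ℕ}
    (hE : ρ < X.G.H → ∀ a, (X.C w).W.Ext a ρ = (X.C w').W.Ext a ρ) (A : Finset (Fin n)) :
    (X.C w).Crt ρ A ↔ (X.C w').Crt ρ A := by
  by_cases hH : X.G.H ≤ ρ
  · exact ⟨fun _ => Or.inl hH, fun _ => Or.inl hH⟩
  · have hE' := hE (not_le.1 hH)
    unfold AD.Crt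
    simp only [hE']
    rfl

private theorem al_step {w w' : Om X.G} {ρ : ℕ} (hρ : ρ < X.G.H + 2) (h2 : w.2 = w'.2)
    (hE : ρ < X.G.H → ∀ a, (X.C w).W.Ext a ρ = (X.C w').W.Ext a ρ)
    (hI : ∀ k ≤ ρ, ∀ p, ((X.C w).W.go p k ↔ (X.C w').W.go p k) ∧
      ((X.C w).W.go p k → ((X.C w).W.dS p k).ph = ((X.C w').W.dS p k).ph)) (p : Fin n) :
    ((X.C w).W.go p (ρ + 1) ↔ (X.C w').W.go p (ρ + 1)) ∧
      ((X.C w).W.go p (ρ + 1) →
        ((X.C w).W.dS p (ρ + 1)).ph = ((X.C w').W.dS p (ρ + 1)).ph) := by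
  by_cases hg : (X.C w).W.go p ρ
  · have hg' : (X.C w').W.go p ρ := (hI ρ le_rfl p).1.1 hg
    have hph := (hI ρ le_rfl p).2 hg
    have hC1 : (X.C w).Crt ρ ((X.C w).W.Mf p ρ) ↔ (X.C w').Crt ρ ((X.C w').W.Mf p ρ) := by
      by_cases hH : X.G.H ≤ ρ
      · exact ⟨fun _ => Or.inl hH, fun _ => Or.inl hH⟩
      · rw [X.al_crt hE, X.al_Mf (not_le.1 hH) h2 (fun k hk p => (hI k hk p).1) hg]
    have hC2 : (X.C w).Crt ρ ((X.C w).M2 p ρ) ↔ (X.C w').Crt ρ ((X.C w').M2 p ρ) := by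
      by_cases hH : X.G.H ≤ ρ
      · exact ⟨fun _ => Or.inl hH, fun _ => Or.inl hH⟩
      · rw [X.al_crt hE, X.al_M2 (not_le.1 hH) (fun p => (hI ρ le_rfl p).2) hg
          (X.al_Mf (not_le.1 hH) h2 (fun k hk p => (hI k hk p).1) hg)]
    have ho := ((X.C w).inp_eq (show ρ ≤ (X.C w).G.H + 2 from hρ.le) hg).2
    have ho' := ((X.C w').inp_eq (show ρ ≤ (X.C w').G.H + 2 from hρ.le) hg').2
    have key : ((X.C w).W.dS p (ρ + 1)).out = ((X.C w').W.dS p (ρ + 1)).out ∧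
        ((X.C w).W.dS p (ρ + 1)).ph = ((X.C w').W.dS p (ρ + 1)).ph := by
      rw [(X.C w).dS_succ hρ hg, (X.C w').dS_succ hρ hg']
      by_cases hp : ((X.C w).W.dS p ρ).ph = false
      · rw [if_pos hp, if_pos (hph.symm.trans hp)]
        by_cases hc : (X.C w).Crt ρ ((X.C w).W.Mf p ρ)
        · rw [if_pos hc, if_pos (hC1.1 hc)]
          exact ⟨ho.trans ho'.symm, rfl⟩
        · rw [if_neg hc, if_neg (fun h => hc (hC1.2 h))]
          exact ⟨ho.trans ho'.symm, hph⟩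
      · rw [if_neg hp, if_neg (fun h => hp (hph.trans h))]
        by_cases hc : (X.C w).Crt ρ ((X.C w).M2 p ρ)
        · rw [if_pos hc, if_pos (hC2.1 hc), al_outp.1, al_outp.1, al_outp.2, al_outp.2]
          exact ⟨rfl, hph⟩
        · rw [if_neg hc, if_neg (fun h => hc (hC2.2 h))]
          exact ⟨ho.trans ho'.symm, hph⟩
    have a1 := (X.C w).W.go_succ (X.C w).W_nd hρ hg
    have a2 := (X.C w').W.go_succ (X.C w').W_nd hρ hg'
    refine ⟨?_, fun _ => key.2⟩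
    rw [a1, a2]
    show ((X.C w).W.dS p (ρ + 1)).out = false ↔ ((X.C w').W.dS p (ρ + 1)).out = false
    rw [key.1]
  · have h3 : ¬ (X.C w).W.go p (ρ + 1) := fun h =>
      hg ((X.C w).W.go_mono (Nat.le_succ ρ) (show ρ + 1 ≤ X.G.H + 2 by omega) h)
    have h4 : ¬ (X.C w').W.go p (ρ + 1) := fun h =>
      hg ((hI ρ le_rfl p).1.2
        ((X.C w').W.go_mono (Nat.le_succ ρ) (show ρ + 1 ≤ X.G.H + 2 by omega) h))
    exact ⟨⟨fun h => absurd h h3, fun h => absurd h h4⟩, fun h => absurd h h3⟩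

private theorem al_main {w w' : Om X.G} (h2 : w.2 = w'.2) (ρ : ℕ) : ρ ≤ X.G.H + 2 →
    (∀ k : Fin (X.G.A.L + 1), k.val < ρ → w.1 k = w'.1 k) → ∀ ρ' ≤ ρ, ∀ p,
    ((X.C w).W.go p ρ' ↔ (X.C w').W.go p ρ') ∧
      ((X.C w).W.go p ρ' → ((X.C w).W.dS p ρ').ph = ((X.C w').W.dS p ρ').ph) := by
  induction ρ with
  | zero =>
    intro _ _ ρ' h p
    obtain rfl : ρ' = 0 := by omega
    refine ⟨⟨fun _ => (X.C w').W.go_zero p, fun _ => (X.C w).W.go_zero p⟩, fun _ => ?_⟩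
    rw [(X.C w).dS_zero, (X.C w').dS_zero]
  | succ ρ ih =>
    intro h h1 ρ' h' p
    have ih' := ih (by omega) (fun k hk => h1 k (by omega))
    rcases Nat.lt_or_ge ρ' (ρ + 1) with hlt | hge
    · exact ih' ρ' (by omega) p
    · obtain rfl : ρ' = ρ + 1 := by omega
      exact X.al_step (by omega) h2 (fun hH => X.al_ext hH (fun k hk => h1 k (by omega))) ih' p

/-- Worlds with the same picks and the same seeds of the runs `k < ρ`: same participants and
phases at the beginning of run `ρ`.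
PROOF: induction on `ρ`; `dS_succ`, `go_succ`; the certificate of run `ρ - 1` depends on `Mf`, `M2`
(`Sys.loc` for run `ρ - 1`, and the induction hypothesis), and on the lists `Ext a (ρ - 1)`, that is
on the seeds of run `ρ - 1`. -/
theorem go_seed {w w' : Om X.G} {ρ : ℕ} (hρ : ρ ≤ X.G.H + 2) (h2 : w.2 = w'.2)
    (h1 : ∀ k : Fin (X.G.A.L + 1), k.val < ρ → w.1 k = w'.1 k) (p : Fin n) :
    ((X.C w).W.go p ρ ↔ (X.C w').W.go p ρ) ∧
      ((X.C w).W.go p ρ → ((X.C w).W.dS p ρ).ph = ((X.C w').W.dS p ρ).ph) := by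
  exact X.al_main h2 ρ hρ h1 ρ le_rfl p

/-- Same teams in run `ρ`. PROOF: `Sys.loc` with `B = st (ρ + 1)`, `go_seed`. -/
theorem Mf_seed {w w' : Om X.G} {ρ : ℕ} (hρ : ρ < X.G.H) (h2 : w.2 = w'.2)
    (h1 : ∀ k : Fin (X.G.A.L + 1), k.val < ρ → w.1 k = w'.1 k) {b : Fin n}
    (hb : (X.C w).W.go b ρ) : (X.C w).W.Mf b ρ = (X.C w').W.Mf b ρ ∧
      (X.C w).M2 b ρ = (X.C w').M2 b ρ := by
  have hI := X.al_main h2 ρ (by omega) h1
  have hM := X.al_Mf hρ h2 (fun k hk p => (hI k hk p).1) hb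
  exact ⟨hM, X.al_M2 hρ (fun p => (hI ρ le_rfl p).2) hb hM⟩

/-- The two descriptions of the ext lists. -/
private theorem al_xl (hG : X.G.A.Good) {ρ : ℕ} (hρ : ρ < X.G.H) (w : Om X.G) (a : Fin n)
    (h : ρ < X.G.A.L + 1) : (X.C w).W.Ext a ρ =
      xl X.G.A.nest X.G.A.g (X.G.lev ρ) a (sdt (w.1 ⟨ρ, h⟩) a) := by
  have hH := X.G.H_eq
  obtain ⟨hl0, hl⟩ := X.G.lev_tick hρ
  show X.G.A.extList a (X.G.lev ρ) (sdV X.G w.1 a (X.G.lev ρ)) = _
  unfold Q217.Geo.extList xl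
  rw [if_neg (by omega), if_neg (by omega)]
  congr 1
  refine List.map_congr_left fun j hj => ?_
  rw [List.mem_range] at hj
  have hj' : j < X.G.A.ns (X.G.lev ρ) := hj
  have hs : sdV X.G w.1 a (X.G.lev ρ) j = sdt (w.1 ⟨ρ, h⟩) a j := by
    unfold sdV sdr
    have h3 : X.G.A.L - X.G.lev ρ = ρ := by omega
    rw [if_pos ⟨by omega, hj'⟩, h3, dif_pos h]
  rw [hs]
  unfold Q217.Geo.pick A217.Nest.pick Q217.Geo.sc A217.sca
  show ((X.G.A.nest.N (if j < X.G.A.kap0 (X.G.lev ρ) then 0 else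
      X.G.A.ν0 + 1 + (j - X.G.A.kap0 (X.G.lev ρ)) / X.G.A.kap (X.G.lev ρ)) a).toList).getD
      (sdt (w.1 ⟨ρ, h⟩) a j % 2 ^ (X.G.A.L + 3 + X.G.A.ν0 - max (if j < X.G.A.kap0 (X.G.lev ρ) then 0 else
      X.G.A.ν0 + 1 + (j - X.G.A.kap0 (X.G.lev ρ)) / X.G.A.kap (X.G.lev ρ)) X.G.A.ν0)) a =
    ((X.G.A.nest.N (if j < X.G.A.kap0 (X.G.lev ρ) then X.G.A.ν0 else
      X.G.A.ν0 + 1 + (j - X.G.A.kap0 (X.G.lev ρ)) / X.G.A.kap (X.G.lev ρ)) a).toList).getD
      (sdt (w.1 ⟨ρ, h⟩) a j % 2 ^ (X.G.A.L + 3 + X.G.A.ν0 - (if j < X.G.A.kap0 (X.G.lev ρ) then X.G.A.ν0 else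
      X.G.A.ν0 + 1 + (j - X.G.A.kap0 (X.G.lev ρ)) / X.G.A.kap (X.G.lev ρ)))) a
  by_cases hk : j < X.G.A.kap0 (X.G.lev ρ)
  · rw [if_pos hk, if_pos hk, hG.full 0 (Nat.zero_le _) (Nat.zero_le _),
      hG.full X.G.A.ν0 le_rfl (by omega), max_eq_right (Nat.zero_le _)]
  · rw [if_neg hk, if_neg hk, max_eq_left (le_trans (Nat.le_succ _) (Nat.le_add_right _ _))]

/-- Coverage for one level. -/
private theorem al_cv {L ν0 Q : ℕ} (hQ : Q = 4 * n * 2 ^ ν0) (G : A217.Nest n L ν0 Q) {g l K : ℕ}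
    (hn : n < 2 ^ (L + 1)) (hg : L + 1 ≤ 2 ^ g) (hν0 : 16 * (L + 1) ≤ 2 ^ ν0)
    (hfull : ∀ ν ≤ ν0, ∀ x, G.N ν x = univ) (hl : l ≤ L) (hK : A217.nsl L g ν0 l ≤ K)
    (A : Finset (Fin n)) (hne : A.Nonempty) (hA : ν0 < l → 2 ^ (l + 5) ≤ A.card) :
    2 ^ (16 * (L + 1)) * (univ.filter fun v : Fin K → Fin n → Fin (2 ^ (L + 3)) =>
      ¬ CvL G g l (sdt v) A).card ≤ Fintype.card (Fin K → Fin n → Fin (2 ^ (L + 3))) := by
  subst hQ
  exact X217.xcov_one G hn hg hν0 hfull hl hK A hne hA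

/-- One team. -/
private theorem al_one (hG : X.G.A.Good) {ρ : ℕ} (hρ : ρ < X.G.H) (b : Fin n)
    (M : Om X.G → Finset (Fin n)) (hM : ∀ w w' : Om X.G, w.2 = w'.2 →
      (∀ k : Fin (X.G.A.L + 1), k.val < ρ → w.1 k = w'.1 k) → (X.C w).W.go b ρ → M w = M w') :
    2 ^ (16 * (X.G.A.L + 1)) * (univ.filter fun w : Om X.G => (X.C w).W.go b ρ ∧
      2 ^ (X.G.lev ρ + 5) ≤ (M w).card ∧ ¬ (X.C w).Crt ρ (M w)).card ≤
      Fintype.card (Om X.G) := by
  have hH := X.G.H_eq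
  obtain ⟨hl0, hl⟩ := X.G.lev_tick hρ
  have hi : ρ < X.G.A.L + 1 := by omega
  refine al_fub (fun (w : Om X.G) v => ((Function.update w.1 ⟨ρ, hi⟩ v, w.2) : Om X.G))
    (fun w => w.1 ⟨ρ, hi⟩) ?_ ?_ _ _ ?_
  · intro w v
    exact Function.update_self _ _ _
  · rintro ⟨s, k⟩ v
    show (Function.update (Function.update s ⟨ρ, hi⟩ v) ⟨ρ, hi⟩ (s ⟨ρ, hi⟩), k) = (s, k)
    rw [Function.update_idem, Function.update_eq_self]
  · intro w
    have hagree : ∀ v, ∀ k : Fin (X.G.A.L + 1), k.val < ρ →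
        w.1 k = Function.update w.1 ⟨ρ, hi⟩ v k := by
      intro v k hk
      rw [Function.update_of_ne]
      intro h
      rw [h] at hk
      exact lt_irrefl _ hk
    by_cases hg : (X.C w).W.go b ρ ∧ 2 ^ (X.G.lev ρ + 5) ≤ (M w).card
    · refine le_trans (Nat.mul_le_mul_left _ (card_le_card ?_)) (al_cv hG.hQ X.G.A.nest (g := X.G.A.g)
        (l := X.G.lev ρ) (K := Ks X.G) hG.hn hG.hg hG.hν0
        (fun ν hν x => hG.full ν hν (by omega) x) (X.G.lev_le ρ) (ns_le X.G (X.G.lev_le ρ)) (M w)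
        (card_pos.1 (lt_of_lt_of_le (by positivity) hg.2)) fun _ => hg.2)
      intro v hv
      rw [mem_filter] at hv ⊢
      refine ⟨mem_univ _, fun hcv => ?_⟩
      obtain ⟨-, -, -, hv3⟩ := hv
      have hMw : M w = M (Function.update w.1 ⟨ρ, hi⟩ v, w.2) := hM _ _ rfl (hagree v) hg.1
      rw [← hMw] at hv3
      apply hv3
      have hx : ∀ a, (X.C (Function.update w.1 ⟨ρ, hi⟩ v, w.2)).W.Ext a ρ =
          xl X.G.A.nest X.G.A.g (X.G.lev ρ) a (sdt v a) := by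
        intro a
        rw [X.al_xl hG hρ _ a hi]
        show xl X.G.A.nest X.G.A.g (X.G.lev ρ) a
          (sdt (Function.update w.1 ⟨ρ, hi⟩ v ⟨ρ, hi⟩) a) = _
        rw [Function.update_self]
      refine Or.inr ⟨hg.2, fun ν hν => ?_⟩
      show (univ.filter fun x => ¬ ∃ a ∈ M w,
        x ∈ (X.C (Function.update w.1 ⟨ρ, hi⟩ v, w.2)).W.Ext a ρ ∧ x ∈ X.G.A.nest.N ν a).card <
        X.G.A.cap ν
      simp only [hx]
      unfold Q217.Geo.cap
      by_cases h0 : ν = 0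
      · rw [if_pos h0, Nat.lt_one_iff, card_eq_zero, filter_eq_empty_iff]
        intro x _ hcon
        obtain ⟨a, ha, hxa⟩ := hcv.1 x
        refine hcon ⟨a, ha, hxa, ?_⟩
        rw [h0, hG.full 0 (Nat.zero_le _) (Nat.zero_le _)]
        exact mem_univ _
      · rw [if_neg h0]
        by_cases h1 : ν ≤ X.G.A.ν0
        · rw [if_pos h1]
          refine Nat.lt_succ_of_le ((card_le_univ _).trans ?_)
          rw [Fintype.card_fin]
        · rw [if_neg h1]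
          exact hcv.2 ν (not_le.1 h1) hν
    · refine le_trans (Nat.mul_le_mul_left _ (card_le_card (t := ∅) ?_)) (by
        rw [card_empty, mul_zero]
        exact Nat.zero_le _)
      intro v hv
      rw [mem_filter] at hv
      obtain ⟨-, hv1, hv2, -⟩ := hv
      exfalso
      apply hg
      have hgo := (X.go_seed (w := w) (w' := (Function.update w.1 ⟨ρ, hi⟩ v, w.2)) (ρ := ρ)
        (by omega) rfl (hagree v) b).1
      have hgw := hgo.2 hv1
      refine ⟨hgw, ?_⟩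
      rw [hM w (Function.update w.1 ⟨ρ, hi⟩ v, w.2) rfl (hagree v) hgw]
      exact hv2

/-- The coverage fails for few tables.
PROOF: union over `ρ < H`, `b`, and the two sets `Mf b ρ`, `M2 b ρ`; for fixed other tables these sets
do not depend on the seeds of run `ρ` (`Mf_seed`): `xcov_one`. -/
theorem cov_count {N : ℕ → ℕ} {Nt Nm : ℕ} (hG : X.G.Good N Nt Nm) :
    2 ^ (16 * (X.G.A.L + 1)) * (univ.filter fun w : Om X.G => ¬ (X.C w).Cov).card ≤
      2 * (X.G.H * n) * Fintype.card (Om X.G) := by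
  set B1 : ℕ → Fin n → Finset (Om X.G) := fun ρ b => univ.filter fun w : Om X.G =>
    (X.C w).W.go b ρ ∧ 2 ^ (X.G.lev ρ + 5) ≤ ((X.C w).W.Mf b ρ).card ∧
      ¬ (X.C w).Crt ρ ((X.C w).W.Mf b ρ) with hB1
  set B2 : ℕ → Fin n → Finset (Om X.G) := fun ρ b => univ.filter fun w : Om X.G =>
    (X.C w).W.go b ρ ∧ 2 ^ (X.G.lev ρ + 5) ≤ ((X.C w).M2 b ρ).card ∧
      ¬ (X.C w).Crt ρ ((X.C w).M2 b ρ) with hB2
  have hsub : (univ.filter fun w : Om X.G => ¬ (X.C w).Cov) ⊆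
      (range X.G.H).biUnion fun ρ => univ.biUnion fun b => B1 ρ b ∪ B2 ρ b := by
    intro w hw
    rw [mem_filter] at hw
    obtain ⟨-, hw⟩ := hw
    by_contra hcon
    apply hw
    intro ρ hρ b hb
    have h1 : w ∉ B1 ρ b ∪ B2 ρ b := fun h => hcon (mem_biUnion.2
      ⟨ρ, mem_range.2 hρ, mem_biUnion.2 ⟨b, mem_univ _, h⟩⟩)
    rw [mem_union, not_or] at h1
    constructor
    · intro h2
      by_contra h3
      exact h1.1 (mem_filter.2 ⟨mem_univ _, hb, h2, h3⟩)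
    · intro h2
      by_contra h3
      exact h1.2 (mem_filter.2 ⟨mem_univ _, hb, h2, h3⟩)
  have hone : ∀ ρ ∈ range X.G.H, ∀ b, 2 ^ (16 * (X.G.A.L + 1)) * (B1 ρ b ∪ B2 ρ b).card ≤
      2 * Fintype.card (Om X.G) := by
    intro ρ hρ b
    rw [mem_range] at hρ
    have h1 := X.al_one hG.A hρ b (fun w => (X.C w).W.Mf b ρ)
      fun w w' h2 h3 h4 => (X.Mf_seed hρ h2 h3 h4).1
    have h2 := X.al_one hG.A hρ b (fun w => (X.C w).M2 b ρ)
      fun w w' h2 h3 h4 => (X.Mf_seed hρ h2 h3 h4).2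
    calc 2 ^ (16 * (X.G.A.L + 1)) * (B1 ρ b ∪ B2 ρ b).card
        ≤ 2 ^ (16 * (X.G.A.L + 1)) * ((B1 ρ b).card + (B2 ρ b).card) :=
          Nat.mul_le_mul_left _ (card_union_le _ _)
      _ = 2 ^ (16 * (X.G.A.L + 1)) * (B1 ρ b).card +
          2 ^ (16 * (X.G.A.L + 1)) * (B2 ρ b).card := mul_add _ _ _
      _ ≤ Fintype.card (Om X.G) + Fintype.card (Om X.G) := Nat.add_le_add h1 h2
      _ = 2 * Fintype.card (Om X.G) := (two_mul _).symm
  calc 2 ^ (16 * (X.G.A.L + 1)) * (univ.filter fun w : Om X.G => ¬ (X.C w).Cov).card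
      ≤ 2 ^ (16 * (X.G.A.L + 1)) * ∑ ρ ∈ range X.G.H, ∑ b : Fin n, (B1 ρ b ∪ B2 ρ b).card := by
        refine Nat.mul_le_mul_left _ ((card_le_card hsub).trans (card_biUnion_le.trans ?_))
        exact sum_le_sum fun ρ _ => card_biUnion_le
    _ = ∑ ρ ∈ range X.G.H, ∑ b : Fin n, 2 ^ (16 * (X.G.A.L + 1)) * (B1 ρ b ∪ B2 ρ b).card := by
        rw [mul_sum]
        exact sum_congr rfl fun ρ _ => mul_sum _ _ _
    _ ≤ ∑ _ρ ∈ range X.G.H, ∑ _b : Fin n, 2 * Fintype.card (Om X.G) :=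
        sum_le_sum fun ρ hρ => sum_le_sum fun b _ => hone ρ hρ b
    _ = 2 * (X.G.H * n) * Fintype.card (Om X.G) := by
        rw [sum_const, sum_const, card_univ, Fintype.card_fin, card_range, smul_eq_mul, smul_eq_mul]
        ring

end VA

end Pool.Agent.E217
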