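import Pool.Agent.MP217Exact.RunsK

set_option autoImplicit false

/-!
# The world of adopt-commit: definitions and the rule
-/

namespace Pool.Agent.E217

open Finset

attribute [local instance 10] Classical.propDecidable

variable {n : ℕ}

/-- Data of a world of adopt-commit. -/
structure AD (n : ℕ) where
  T : Tab n
  G : Geo n
  σ : ℕ → Option (Fin n)
  fair : Fair σ

namespace AD

variable (C : AD n)

/-- Adopt-commit. -/
noncomputable def W : Wd n DA where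
  T := C.T
  G := C.G
  nR := C.G.H + 2
  d0 := fun p => ⟨C.T.x p, false, false, C.T.x p, false, false⟩
  nd := C.G.ndA
  sp := DA.out
  σ := C.σ
  fair := C.fair
  hR := by omega
  hsp := fun p i K M d h => by simp [Geo.ndA, h]
  hd0 := fun _ => rfl

theorem W_S : C.W.S = C.T.sysA C.G (C.G.H + 2) := rfl

theorem W_nd (p : Fin n) (i : ℕ) (K : Finset (Fact n DA)) (M : Finset (Stp n)) (d : DA)
    (h : ¬ C.W.G.Last i) : C.W.nd p i K M d = d := if_neg h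

/-- The members of the team of `b` in run `ρ` which were in the second phase. -/
noncomputable def M2 (b : Fin n) (ρ : ℕ) : Finset (Fin n) :=
  (C.W.Mf b ρ).filter fun a => (C.W.dS a ρ).ph = true

/-- The certificate condition. -/
def Crt (ρ : ℕ) (A : Finset (Fin n)) : Prop :=
  C.G.H ≤ ρ ∨ (2 ^ (C.G.lev ρ + 5) ≤ A.card ∧ ∀ ν ≤ C.G.lev ρ, (univ.filter fun x =>
    ¬ ∃ a ∈ A, x ∈ C.W.Ext a ρ ∧ x ∈ C.G.A.nest.N ν a).card < C.G.A.cap ν)

private theorem aw_lab {p : Fin n} {ρ : ℕ} (h : ρ < C.G.H) (hg : C.W.go p ρ) {a : Fin n}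
    (ha : a ∈ C.W.Mf p ρ) : ∃ f ∈ C.W.KR p ρ, f.a = a ∧ f.i = C.G.st ρ ∧
      f.d = C.W.dS a ρ ∧ f.T = C.W.Ext a ρ := by
  have hn : ρ < C.W.nR := by
    change ρ < C.G.H + 2
    omega
  obtain ⟨h1, -, h2, -⟩ := C.W.team h hg ha
  exact ⟨_, h2 (C.W.KS_sub_KF (C.W.own_lab hn.le h1)), rfl, rfl, rfl, rfl⟩

private theorem aw_cert {p : Fin n} {ρ : ℕ} (h : ρ < C.G.H + 2) (hg : C.W.go p ρ)
    {A : Finset (Fin n)} (hA : A ⊆ C.W.Mf p ρ) :
    C.G.Cert ρ A (C.W.KR p ρ) ↔ C.Crt ρ A := by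
  unfold Geo.Cert Crt
  by_cases hH : C.G.H ≤ ρ
  · simp [hH]
  · have hH' : ρ < C.G.H := not_le.1 hH
    have key : ∀ ν x, (∃ a ∈ A, ∃ f ∈ C.W.KR p ρ, f.a = a ∧ f.i = C.G.st ρ ∧ x ∈ f.T ∧
        x ∈ C.G.A.nest.N ν a) ↔ ∃ a ∈ A, x ∈ C.W.Ext a ρ ∧ x ∈ C.G.A.nest.N ν a := by
      intro ν x
      constructor
      · rintro ⟨a, ha, f, hf, rfl, h2, h3, h4⟩
        obtain ⟨-, -, -, -, e, -⟩ := C.W.lab_KR (show ρ < C.W.nR from h) hg hf h2
        exact ⟨f.a, ha, by rw [← e]; exact h3, h4⟩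
      · rintro ⟨a, ha, h3, h4⟩
        obtain ⟨f, hf, e1, e2, -, e4⟩ := C.aw_lab hH' hg (hA ha)
        exact ⟨a, ha, f, hf, e1, e2, by rw [e4]; exact h3, h4⟩
    simp only [key]

private theorem aw_two {p : Fin n} {ρ : ℕ} (h : ρ < C.G.H) (hg : C.W.go p ρ) :
    C.G.two ρ (C.W.Mf p ρ) (C.W.KR p ρ) = C.M2 p ρ := by
  unfold Geo.two M2
  refine filter_congr fun a ha => ?_
  constructor
  · rintro ⟨f, hf, rfl, h2, h3⟩
    obtain ⟨-, -, e, -⟩ := C.W.lab_KR (show ρ < C.W.nR by change ρ < C.G.H + 2; omega) hg hf h2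
    rw [← e]
    exact h3
  · intro h3
    obtain ⟨f, hf, e1, e2, e3, -⟩ := C.aw_lab h hg ha
    exact ⟨f, hf, e1, e2, by rw [e3]; exact h3⟩

private theorem aw_cert2 {p : Fin n} {ρ : ℕ} (h : ρ < C.G.H + 2) (hg : C.W.go p ρ) :
    C.G.Cert ρ (C.G.two ρ (C.W.Mf p ρ) (C.W.KR p ρ)) (C.W.KR p ρ) ↔ C.Crt ρ (C.M2 p ρ) := by
  by_cases hH : C.G.H ≤ ρ
  · exact ⟨fun _ => Or.inl hH, fun _ => Or.inl hH⟩
  · rw [C.aw_two (not_le.1 hH) hg]
    exact C.aw_cert h hg (filter_subset _ _)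

/-- The rule in terms of the world. PROOF: `Wd.dS_succ`; the certificate looks at labels of
members of the team, which are known and genuine (`team`, `own_lab`, `lab_KR`); for a bottom run
`Crt` is true. -/
theorem dS_succ {p : Fin n} {ρ : ℕ} (h : ρ < C.G.H + 2) (hg : C.W.go p ρ) :
    C.W.dS p (ρ + 1) =
      if (C.W.dS p ρ).ph = false then
        if C.Crt ρ (C.W.Mf p ρ) then
          { C.W.dS p ρ with
            ph := true
            flag := decide (∀ f ∈ C.W.KR p ρ, f.d.inp = (C.W.dS p ρ).inp) }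
        else C.W.dS p ρ
      else if C.Crt ρ (C.M2 p ρ) then Geo.outp (C.W.KR p ρ) (C.W.dS p ρ)
      else C.W.dS p ρ := by
  rw [C.W.dS_succ (fun p i K M d hl => C.W_nd p i K M d hl) (show ρ < C.W.nR from h) hg]
  change C.G.ndA p (C.G.la ρ) (C.W.KR p ρ) (C.W.S.ME C.W.σ p (C.G.la ρ)) (C.W.dS p ρ) = _
  unfold Geo.ndA
  rw [if_pos (C.G.last_la ρ), C.G.rOf_la]
  have e1 : names (C.W.S.ME C.W.σ p (C.G.la ρ)) = C.W.Mf p ρ := rfl
  rw [e1]
  have e2 := C.aw_cert h hg (Subset.refl (C.W.Mf p ρ))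
  have e3 := C.aw_cert2 h hg
  by_cases hp : (C.W.dS p ρ).ph = false
  · rw [if_pos hp, if_pos hp]
    by_cases hc : C.Crt ρ (C.W.Mf p ρ)
    · rw [if_pos hc, if_pos (e2.2 hc)]
    · rw [if_neg hc, if_neg (fun h' => hc (e2.1 h'))]
  · rw [if_neg hp, if_neg hp]
    by_cases hc : C.Crt ρ (C.M2 p ρ)
    · rw [if_pos hc, if_pos (e3.2 hc)]
    · rw [if_neg hc, if_neg (fun h' => hc (e3.1 h'))]

theorem dS_zero (p : Fin n) : C.W.dS p 0 = ⟨C.T.x p, false, false, C.T.x p, false, false⟩ := by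
  have h := Sys.sI_zero C.W.S C.W.fair p
  have h0 : C.W.G.st 0 = 0 := rfl
  unfold Wd.dS
  rw [h0, h]
  rfl

private theorem aw_outp {X : Finset (Fact n DA)} {d : DA} : (Geo.outp X d).inp = d.inp ∧
    (Geo.outp X d).ph = d.ph ∧ (Geo.outp X d).flag = d.flag ∧ (Geo.outp X d).out = true := by
  unfold Geo.outp
  split_ifs <;> exact ⟨rfl, rfl, rfl, rfl⟩

theorem inp_eq {p : Fin n} {ρ : ℕ} (h : ρ ≤ C.G.H + 2) (hg : C.W.go p ρ) :
    (C.W.dS p ρ).inp = C.T.x p ∧ (C.W.dS p ρ).out = false := by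
  refine ⟨?_, hg.2.2⟩
  induction ρ with
  | zero => rw [dS_zero]
  | succ ρ ih =>
    have hg' : C.W.go p ρ := C.W.go_mono (Nat.le_succ ρ) h hg
    have h1 := ih (by omega) hg'
    rw [C.dS_succ (by omega) hg']
    split_ifs
    · exact h1
    · exact h1
    · rw [aw_outp.1]
      exact h1
    · exact h1

private theorem aw_ph_succ {p : Fin n} {ρ : ℕ} (h : ρ < C.G.H + 2) (hg : C.W.go p ρ)
    (hp : (C.W.dS p ρ).ph = true) : (C.W.dS p (ρ + 1)).ph = true ∧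
      (C.W.dS p (ρ + 1)).flag = (C.W.dS p ρ).flag := by
  have hp' : ¬ (C.W.dS p ρ).ph = false := by
    rw [hp]
    exact Bool.noConfusion
  rw [C.dS_succ h hg, if_neg hp']
  split_ifs
  · rw [aw_outp.2.1, aw_outp.2.2.1]
    exact ⟨hp, rfl⟩
  · exact ⟨hp, rfl⟩

/-- The second phase does not end. -/
theorem ph_mono {p : Fin n} {ρ ρ' : ℕ} (h : ρ ≤ ρ') (h' : ρ' ≤ C.G.H + 2) (hg : C.W.go p ρ')
    (hp : (C.W.dS p ρ).ph = true) : (C.W.dS p ρ').ph = true ∧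
      (C.W.dS p ρ').flag = (C.W.dS p ρ).flag := by
  induction ρ', h using Nat.le_induction with
  | base => exact ⟨hp, rfl⟩
  | succ ρ' h1 ih =>
    have hg' : C.W.go p ρ' := C.W.go_mono (Nat.le_succ ρ') h' hg
    obtain ⟨a1, a2⟩ := ih (by omega) hg'
    obtain ⟨b1, b2⟩ := C.aw_ph_succ (by omega) hg' a1
    exact ⟨b1, b2.trans a2⟩

/-- Nobody is left after the two bottom runs. -/
theorem all_out (p : Fin n) : ¬ C.W.go p (C.G.H + 2) := by
  intro hg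
  have hg1 : C.W.go p (C.G.H + 1) := C.W.go_mono (Nat.le_succ _) le_rfl hg
  have hg0 : C.W.go p C.G.H := C.W.go_mono (Nat.le_add_right _ 2) le_rfl hg
  have key : ∀ ρ, C.G.H ≤ ρ → ρ < C.G.H + 2 → C.W.go p ρ → C.W.go p (ρ + 1) →
      (C.W.dS p ρ).ph = false := by
    intro ρ h1 h2 h3 h4
    by_contra hp
    have h5 := (C.inp_eq (by omega) h4).2
    have hc : C.Crt ρ (C.M2 p ρ) := Or.inl h1
    rw [C.dS_succ h2 h3, if_neg hp, if_pos hc, aw_outp.2.2.2] at h5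
    exact Bool.noConfusion h5
  have h1 := key (C.G.H + 1) (by omega) (by omega) hg1 hg
  have h0 := key C.G.H le_rfl (by omega) hg0 hg1
  have hc : C.Crt C.G.H (C.W.Mf p C.G.H) := Or.inl le_rfl
  rw [C.dS_succ (by omega) hg0, if_pos h0, if_pos hc] at h1
  exact Bool.noConfusion h1

end AD

end Pool.Agent.E217
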