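import Pool.Agent.MP217Exact.AWorld

set_option autoImplicit false

/-!
# Adopt-commit: any two certificates have a common label; agreement
-/

namespace Pool.Agent.E217

open Finset

attribute [local instance 10] Classical.propDecidable

variable {n : ℕ}

namespace AD

variable (C : AD n)

/-- The team for the comparison of certificates: `A`, or `{p}` in bottom runs. -/
def Tm (p : Fin n) (ρ : ℕ) (A : Finset (Fin n)) (a : Fin n) : Prop :=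
  (ρ < C.G.H ∧ a ∈ A) ∨ (C.G.H ≤ ρ ∧ a = p)

private theorem AP_tm {p : Fin n} {ρ : ℕ} (h : ρ < C.G.H + 2) (hp : C.W.go p ρ)
    {A : Finset (Fin n)} (hA : A ⊆ C.W.Mf p ρ) {a : Fin n} (ha : C.Tm p ρ A a) :
    C.W.go a ρ ∧ C.W.KF a ρ ⊆ C.W.KR p ρ := by
  rcases ha with ⟨h1, h2⟩ | ⟨_, rfl⟩
  · obtain ⟨t1, _, t3, _⟩ := C.W.team (show ρ < C.W.G.H from h1) hp (hA h2)
    exact ⟨t1, t3⟩
  · exact ⟨hp, C.W.KF_sub_KR (show ρ < C.W.nR from h) hp⟩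

private theorem AP_half {p q : Fin n} {ρ ρ' : ℕ} {A A' : Finset (Fin n)} (hc : C.Crt ρ A)
    (hc' : C.Crt ρ' A') (hle : ρ ≤ ρ' ∨ C.G.H ≤ ρ') :
    ∃ a a', C.Tm p ρ A a ∧ C.Tm q ρ' A' a' ∧ a' ∈ C.W.Ext a ρ ∧ a ∈ C.W.Ext a' ρ' := by
  by_cases h2 : C.G.H ≤ ρ'
  · by_cases h1 : C.G.H ≤ ρ
    · exact ⟨p, q, Or.inr ⟨h1, rfl⟩, Or.inr ⟨h2, rfl⟩, Tab.ext_bot C.T C.G h1,
        Tab.ext_bot C.T C.G h2⟩
    · rcases hc with hc | ⟨_, hc⟩
      · exact absurd hc h1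
      · have h0 := hc 0 (Nat.zero_le _)
        have hcap : C.G.A.cap 0 = 1 := by simp [Q217.Geo.cap]
        rw [hcap, Nat.lt_one_iff, card_eq_zero, filter_eq_empty_iff] at h0
        have hq := h0 (mem_univ q)
        push Not at hq
        obtain ⟨a, ha, hqa, _⟩ := hq
        exact ⟨a, q, Or.inl ⟨by omega, ha⟩, Or.inr ⟨h2, rfl⟩, hqa, Tab.ext_bot C.T C.G h2⟩
  · have h1 : ρ ≤ ρ' := by
      rcases hle with h | h
      · exact h
      · exact absurd h h2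
    have hlt' : ρ' < C.G.H := by omega
    have hlt : ρ < C.G.H := by omega
    rcases hc with hc | ⟨_, hc⟩
    · omega
    rcases hc' with hc' | ⟨hc', _⟩
    · omega
    have hν := hc (C.G.lev ρ') (C.G.lev_anti h1)
    have hν0 := (C.G.lev_tick hlt').1
    have hcap : C.G.A.cap (C.G.lev ρ') = 2 ^ (C.G.lev ρ' + 5) := by
      unfold Q217.Geo.cap
      rw [if_neg (by omega), if_neg (by omega)]
    rw [hcap] at hν
    obtain ⟨a', ha', hn⟩ : ∃ a' ∈ A', a' ∉ (univ.filter fun x =>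
        ¬ ∃ a ∈ A, x ∈ C.W.Ext a ρ ∧ x ∈ C.G.A.nest.N (C.G.lev ρ') a) := by
      by_contra hcon
      have hsub : A' ⊆ (univ.filter fun x =>
          ¬ ∃ a ∈ A, x ∈ C.W.Ext a ρ ∧ x ∈ C.G.A.nest.N (C.G.lev ρ') a) :=
        fun a' ha' => by_contra fun hn => hcon ⟨a', ha', hn⟩
      have := card_le_card hsub
      omega
    rw [mem_filter, not_and, not_not] at hn
    obtain ⟨a, ha, he, hN⟩ := hn (mem_univ _)
    exact ⟨a, a', Or.inl ⟨hlt, ha⟩, Or.inl ⟨hlt', ha'⟩, he,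
      Tab.nb_ext C.T C.G (C.G.A.nest.symm _ _ _ hN)⟩

/-- PAIR VIEW.
PROOF: let `lev ρ' ≤ lev ρ` (the other case by symmetry).  Both bottom: `a = p`, `a' = q`, lists are
complete.  `ρ < H`, `ρ'` bottom: scale `ν = 0`: `cap 0 = 1`, so `q ∈ Ext a ρ` for some `a ∈ A`;
`a ∈ Ext q ρ'` (`ext_bot`).  Both tick runs: scale `ν = lev ρ' > ν0`, `cap ν = 2 ^ (ν + 5) ≤ |A'|`: some
`a' ∈ A'` has `a ∈ A` with `a' ∈ Ext a ρ`, `a' ∈ N ν a`, so `a ∈ N ν a'`, `a ∈ Ext a' ρ'` (`nb_ext`).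
Then `dekker`, and `KF a' ρ' ⊆ KR q ρ'` (`team`). -/
theorem pair {p q : Fin n} {ρ ρ' : ℕ} (h : ρ < C.G.H + 2) (h' : ρ' < C.G.H + 2)
    (hp : C.W.go p ρ) (hq : C.W.go q ρ') {A A' : Finset (Fin n)} (hA : A ⊆ C.W.Mf p ρ)
    (hA' : A' ⊆ C.W.Mf q ρ') (hc : C.Crt ρ A) (hc' : C.Crt ρ' A') :
    ∃ a a', C.Tm p ρ A a ∧ C.Tm q ρ' A' a' ∧ C.W.go a ρ ∧ C.W.go a' ρ' ∧
      C.W.KS a ρ ⊆ C.W.KR p ρ ∧ C.W.KS a' ρ' ⊆ C.W.KR q ρ' ∧
      (C.W.KS a ρ ⊆ C.W.KR q ρ' ∨ C.W.KS a' ρ' ⊆ C.W.KR p ρ) := by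
  obtain ⟨a, a', ht, ht', he, he'⟩ : ∃ a a', C.Tm p ρ A a ∧ C.Tm q ρ' A' a' ∧
      a' ∈ C.W.Ext a ρ ∧ a ∈ C.W.Ext a' ρ' := by
    by_cases hle : ρ ≤ ρ' ∨ C.G.H ≤ ρ'
    · exact C.AP_half hc hc' hle
    · obtain ⟨a', a, t1, t2, e1, e2⟩ := C.AP_half (p := q) (q := p) hc' hc
        (show ρ' ≤ ρ ∨ C.G.H ≤ ρ by left; omega)
      exact ⟨a, a', t2, t1, e2, e1⟩
  obtain ⟨g1, k1⟩ := C.AP_tm h hp hA ht
  obtain ⟨g2, k2⟩ := C.AP_tm h' hq hA' ht'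
  refine ⟨a, a', ht, ht', g1, g2, C.W.KS_sub_KF.trans k1, C.W.KS_sub_KF.trans k2, ?_⟩
  rcases C.W.dekker (show ρ < C.W.nR from h) (show ρ' < C.W.nR from h') g1 g2 he he' with hd | hd
  · exact Or.inl (hd.trans k2)
  · exact Or.inr (hd.trans k1)

/-- When the flag is set: the run in which the second phase begins. -/
theorem flag_run {p : Fin n} {ρ : ℕ} (h : ρ ≤ C.G.H + 2) (hg : C.W.go p ρ)
    (hp : (C.W.dS p ρ).ph = true) : ∃ ρ1 < ρ, (C.W.dS p ρ1).ph = false ∧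
      C.Crt ρ1 (C.W.Mf p ρ1) ∧
      ((C.W.dS p ρ).flag = true ↔ ∀ f ∈ C.W.KR p ρ1, f.d.inp = C.T.x p) := by
  have hex : ∃ k, (C.W.dS p k).ph = true := ⟨ρ, hp⟩
  obtain ⟨hk1, hk2⟩ : (C.W.dS p (Nat.find hex)).ph = true ∧ Nat.find hex ≤ ρ :=
    ⟨Nat.find_spec hex, Nat.find_min' hex hp⟩
  have hmin : ∀ j, j < Nat.find hex → ¬ (C.W.dS p j).ph = true := fun j hj => Nat.find_min hex hj
  set k := Nat.find hex with hk
  have hk0 : k ≠ 0 := by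
    intro h0
    rw [h0, C.dS_zero] at hk1
    simp at hk1
  obtain ⟨ρ1, hρ1⟩ := Nat.exists_eq_succ_of_ne_zero hk0
  have hlt : ρ1 < ρ := by omega
  have hgo : C.W.go p ρ1 := C.W.go_mono hlt.le (show ρ ≤ C.W.nR from h) hg
  have hf : (C.W.dS p ρ1).ph = false := by
    have := hmin ρ1 (by omega)
    simpa using this
  have hs := C.dS_succ (show ρ1 < C.G.H + 2 by omega) hgo
  rw [show ρ1 + 1 = k from by omega, if_pos hf] at hs
  by_cases hcrt : C.Crt ρ1 (C.W.Mf p ρ1)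
  · rw [if_pos hcrt] at hs
    have hfl : (C.W.dS p ρ).flag = (C.W.dS p k).flag := (C.ph_mono hk2 h hg hk1).2
    refine ⟨ρ1, hlt, hf, hcrt, ?_⟩
    rw [hfl, hs]
    have hinp := (C.inp_eq (show ρ1 ≤ C.G.H + 2 by omega) hgo).1
    simp only [decide_eq_true_eq, hinp]
  · rw [if_neg hcrt] at hs
    rw [hs, hf] at hk1
    exact absurd hk1 (by simp)

/-- Two processors with the flag have the same input.
PROOF: `flag_run`, `pair`; the common label gives the same input. -/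
theorem flags {p q : Fin n} {ρ ρ' : ℕ} (h : ρ ≤ C.G.H + 2) (h' : ρ' ≤ C.G.H + 2)
    (hp : C.W.go p ρ) (hq : C.W.go q ρ') (hp1 : (C.W.dS p ρ).ph = true)
    (hp2 : (C.W.dS p ρ).flag = true) (hq1 : (C.W.dS q ρ').ph = true)
    (hq2 : (C.W.dS q ρ').flag = true) : C.T.x p = C.T.x q := by
  obtain ⟨ρ1, l1, _, c1, f1⟩ := C.flag_run h hp hp1
  obtain ⟨ρ2, l2, _, c2, f2⟩ := C.flag_run h' hq hq1
  have f1 := f1.mp hp2
  have f2 := f2.mp hq2
  have g1 : C.W.go p ρ1 := C.W.go_mono l1.le (show ρ ≤ C.W.nR from h) hp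
  have g2 : C.W.go q ρ2 := C.W.go_mono l2.le (show ρ' ≤ C.W.nR from h') hq
  obtain ⟨a, a', _, _, ga, ga', k1, k2, k3⟩ := C.pair (show ρ1 < C.G.H + 2 by omega)
    (show ρ2 < C.G.H + 2 by omega) g1 g2 Subset.rfl Subset.rfl c1 c2
  have o1 := C.W.own_lab (show ρ1 ≤ C.W.nR from by
    have : C.W.nR = C.G.H + 2 := rfl
    omega) ga
  have o2 := C.W.own_lab (show ρ2 ≤ C.W.nR from by
    have : C.W.nR = C.G.H + 2 := rfl
    omega) ga'
  rcases k3 with k3 | k3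
  · rw [← f1 _ (k1 o1), ← f2 _ (k3 o1)]
  · rw [← f1 _ (k3 o2), ← f2 _ (k2 o2)]

/-- Facts known after a run are genuine. -/
private theorem AP_gen {p : Fin n} {ρ : ℕ} (h : ρ < C.G.H + 2) (hg : C.W.go p ρ)
    {f : Fact n DA} (hf : f ∈ C.W.KR p ρ) : ∃ k < C.G.H + 2, C.W.go f.a k ∧
      f.d = C.W.dS f.a k ∧ C.W.KS f.a k ⊆ C.W.KR p ρ ∧ C.σ (C.W.S.al C.σ f.a f.i) = some f.a ∧
      C.W.S.al C.σ f.a f.i < C.W.eT p ρ := by
  have hE : C.W.S.E = C.W.G.st C.W.nR := rfl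
  have hla : C.W.G.la ρ < C.W.S.E := by
    have h1 := C.W.G.la_succ ρ
    have h2 : C.W.G.st (ρ + 1) ≤ C.W.G.st C.W.nR := C.W.G.st_le (show ρ + 1 ≤ C.W.nR from h)
    omega
  have hAl := C.W.go_pass (show ρ < C.W.nR from h) hg (C.W.G.st_le_la ρ) le_rfl
  obtain ⟨e1, e2, e3, _, _, e6, e7, _⟩ := Sys.gen_KE C.W.ok C.W.fair hla hAl hf
  obtain ⟨g1, g2⟩ := C.W.al_go e1 e2
  have hsp := C.W.G.rOf_spec f.i
  have hle : f.i ≤ C.W.G.la (C.W.G.rOf f.i) := by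
    have := C.W.G.la_succ (C.W.G.rOf f.i)
    omega
  refine ⟨C.W.G.rOf f.i, g2, g1, ?_, ?_, ?_, e7⟩
  · rw [e3]
    exact C.W.dI_run C.W_nd g2 g1 hsp.1 hle
  · exact (Sys.K_mono C.W.ok C.W.fair hsp.1 e1.le e2).trans e6
  · exact Nat.nth_mem_of_infinite (C.fair f.a) _

/-- The run at the end of which a processor leaves. -/
private theorem AP_out {p : Fin n} {ρ : ℕ} (h : ρ < C.G.H + 2) (hp : C.W.go p ρ)
    (hp1 : (C.W.dS p (ρ + 1)).out = true) : (C.W.dS p ρ).ph = true ∧ C.Crt ρ (C.M2 p ρ) ∧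
      C.W.dS p (ρ + 1) = Geo.outp (C.W.KR p ρ) (C.W.dS p ρ) := by
  have hs := C.dS_succ h hp
  have ho := (C.inp_eq h.le hp).2
  by_cases h1 : (C.W.dS p ρ).ph = false
  · exfalso
    rw [if_pos h1] at hs
    split_ifs at hs
    · rw [hs] at hp1
      simp [ho] at hp1
    · rw [hs, ho] at hp1
      exact absurd hp1 (by simp)
  · rw [if_neg h1] at hs
    by_cases h2 : C.Crt ρ (C.M2 p ρ)
    · rw [if_pos h2] at hs
      exact ⟨by simpa using h1, h2, hs⟩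
    · exfalso
      rw [if_neg h2] at hs
      rw [hs, ho] at hp1
      exact absurd hp1 (by simp)

private theorem AP_own {p : Fin n} {ρ : ℕ} (h : ρ < C.G.H + 2) (hp : C.W.go p ρ) :
    ∃ f ∈ C.W.KR p ρ, f.d = C.W.dS p ρ := by
  have hlt : ρ < C.W.nR := h
  exact ⟨_, C.W.KF_sub_KR hlt hp (C.W.KS_sub_KF (C.W.own_lab hlt.le hp)), rfl⟩

/-- Agreement. PROOF: both have left with certificates of `M2`; `pair`: the common label is one of a
member of `M2`, so it has `ph = true` (in a bottom run: the own label); it has the flag as `p`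
decided; `flags`. -/
theorem agree {p q : Fin n} {ρ ρ' : ℕ} (h : ρ < C.G.H + 2) (h' : ρ' < C.G.H + 2)
    (hp : C.W.go p ρ) (hq : C.W.go q ρ') (hp1 : (C.W.dS p (ρ + 1)).out = true)
    (hq1 : (C.W.dS q (ρ' + 1)).out = true) (hd : (C.W.dS p (ρ + 1)).dec = true) :
    (C.W.dS q (ρ' + 1)).bit = (C.W.dS p (ρ + 1)).bit := by
  obtain ⟨pph, pc, ps⟩ := C.AP_out h hp hp1
  obtain ⟨qph, qc, qs⟩ := C.AP_out h' hq hq1
  -- `p` has decided
  have hall : ∀ f ∈ C.W.KR p ρ, f.d.ph = true → f.d.flag = true := by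
    by_contra hcon
    rw [ps] at hd
    unfold Geo.outp at hd
    rw [if_neg hcon] at hd
    split_ifs at hd
  have pbit : (C.W.dS p (ρ + 1)).bit = C.T.x p := by
    rw [ps]
    unfold Geo.outp
    rw [if_pos hall]
    exact (C.inp_eq h.le hp).1
  have pflag : (C.W.dS p ρ).flag = true := by
    obtain ⟨f, hf, e⟩ := C.AP_own h hp
    rw [← e]
    exact hall f hf (by rw [e]; exact pph)
  -- facts with the flag
  have hfl : ∀ f ∈ C.W.KR q ρ', f.d.ph = true → f.d.flag = true → f.d.inp = C.T.x p := by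
    intro f hf h1 h2
    obtain ⟨k, hk, g, e, _⟩ := C.AP_gen h' hq hf
    rw [e] at h1 h2 ⊢
    rw [(C.inp_eq hk.le g).1]
    exact C.flags hk.le h.le g hp h1 h2 pph pflag
  -- a common label
  obtain ⟨f0, hf0, f0p, f0f⟩ : ∃ f ∈ C.W.KR q ρ', f.d.ph = true ∧ f.d.flag = true := by
    have hsub : C.M2 p ρ ⊆ C.W.Mf p ρ := filter_subset _ _
    have hsub' : C.M2 q ρ' ⊆ C.W.Mf q ρ' := filter_subset _ _
    obtain ⟨a, a', ta, ta', ga, ga', k1, k2, k3⟩ := C.pair h h' hp hq hsub hsub' pc qc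
    have o1 := C.W.own_lab (show ρ ≤ C.W.nR from h.le) ga
    have o2 := C.W.own_lab (show ρ' ≤ C.W.nR from h'.le) ga'
    have aph : (C.W.dS a ρ).ph = true := by
      rcases ta with ⟨_, ha⟩ | ⟨_, rfl⟩
      · exact (mem_filter.mp ha).2
      · exact pph
    have aph' : (C.W.dS a' ρ').ph = true := by
      rcases ta' with ⟨_, ha⟩ | ⟨_, rfl⟩
      · exact (mem_filter.mp ha).2
      · exact qph
    rcases k3 with k3 | k3
    · exact ⟨_, k3 o1, aph, hall _ (k1 o1) aph⟩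
    · exact ⟨_, k2 o2, aph', hall _ (k3 o2) aph'⟩
  have hf0i := hfl f0 hf0 f0p f0f
  rw [pbit, qs]
  unfold Geo.outp
  by_cases c1 : ∀ f ∈ C.W.KR q ρ', f.d.ph = true → f.d.flag = true
  · rw [if_pos c1]
    obtain ⟨f, hf, e⟩ := C.AP_own h' hq
    have e1 : f.d.ph = true := by rw [e]; exact qph
    have := hfl f hf e1 (c1 f hf e1)
    rw [e] at this
    exact this
  · rw [if_neg c1]
    by_cases c2 : ∃ f ∈ C.W.KR q ρ', f.d.ph = true ∧ f.d.flag = true ∧ f.d.inp = true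
    · rw [if_pos c2]
      obtain ⟨f, hf, e1, e2, e3⟩ := c2
      rw [← hfl f hf e1 e2, e3]
    · rw [if_neg c2]
      by_cases c3 : ∃ f ∈ C.W.KR q ρ', f.d.ph = true ∧ f.d.flag = true ∧ f.d.inp = false
      · rw [if_pos c3]
        obtain ⟨f, hf, e1, e2, e3⟩ := c3
        rw [← hfl f hf e1 e2, e3]
      · exfalso
        rcases hb : f0.d.inp with _ | _
        · exact c3 ⟨f0, hf0, f0p, f0f, hb⟩
        · exact c2 ⟨f0, hf0, f0p, f0f, hb⟩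

/-- Unanimity. PROOF: authors of known facts have taken steps before `eT p ρ` (`lab_KR`, or
`gen_KE`), so all known inputs are `v`, all known flags are set. -/
theorem unan {p : Fin n} {ρ : ℕ} (h : ρ < C.G.H + 2) (hp : C.W.go p ρ)
    (hp1 : (C.W.dS p (ρ + 1)).out = true) {v : Bool}
    (hv : ∀ t ≤ C.W.eT p ρ, ∀ a, C.σ t = some a → C.T.x a = v) :
    (C.W.dS p (ρ + 1)).bit = v ∧ (C.W.dS p (ρ + 1)).dec = true := by
  obtain ⟨pph, _, ps⟩ := C.AP_out h hp hp1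
  have hx : ∀ f ∈ C.W.KR p ρ, C.T.x f.a = v := by
    intro f hf
    obtain ⟨_, _, _, _, _, e1, e2⟩ := C.AP_gen h hp hf
    exact hv _ e2.le _ e1
  have hall : ∀ f ∈ C.W.KR p ρ, f.d.ph = true → f.d.flag = true := by
    intro f hf h1
    obtain ⟨k, hk, g, e, hsub, _⟩ := C.AP_gen h hp hf
    rw [e] at h1 ⊢
    obtain ⟨ρ1, l1, _, _, fl⟩ := C.flag_run hk.le g h1
    rw [fl]
    intro f' hf'
    have hf'' : f' ∈ C.W.KR p ρ :=
      hsub (C.W.KR_sub_KS l1 (show k ≤ C.W.nR from hk.le) g hf')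
    obtain ⟨k', hk', g', e', _⟩ := C.AP_gen h hp hf''
    rw [e', (C.inp_eq hk'.le g').1, hx f' hf'', hx f hf]
  have hxp : C.T.x p = v := by
    refine hv (C.W.sT p ρ) ((C.W.sT_lt_fT p ρ).le.trans (C.W.fT_le_eT p ρ)) p ?_
    exact Nat.nth_mem_of_infinite (C.fair p) _
  rw [ps]
  unfold Geo.outp
  rw [if_pos hall]
  exact ⟨(C.inp_eq h.le hp).1.trans hxp, rfl⟩

end AD

end Pool.Agent.E217
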