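import Pool.Agent.MP217Exact.HPsol

set_option autoImplicit false

/-!
# The total work of the composed algorithm
-/

namespace Pool.Agent.E217

open MeasureTheory
open scoped ENNReal
open Pool.Agent.MP217Upper.Model (Act Alg coins Solves W)
open Pool.Agent.A217 (RP RAct RCfg)

namespace Hp

variable {n : ℕ} {P : Hp n} {s W1 : ℝ≥0∞}

private theorem blks_meas (r : ℕ) : Measurable fun c : Fin n → ℕ → Bool => RP.blks c r := by
  refine measurable_pi_lambda _ fun p => measurable_pi_lambda _ fun j => ?_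
  exact (measurable_pi_apply (Nat.pair r j)).comp (measurable_pi_apply p)

/-- The work of round `r` is a measurable function of the coins. -/
private theorem meas_round (P : Hp n) (b : Fin n → Bool) (σ : ℕ → Fin n) (r : ℕ) :
    Measurable fun c : Fin n → ℕ → Bool =>
      (P.R r).work (P.lev b c σ r).1 (RP.blks c r) (RP.sched σ (P.lev b c σ r).2) := by
  intro S hS
  have h : (fun c : Fin n → ℕ → Bool =>
      (P.R r).work (P.lev b c σ r).1 (RP.blks c r) (RP.sched σ (P.lev b c σ r).2)) ⁻¹' S =
      ⋃ y : (Fin n → Bool) × (Fin n → Option ℕ), {c | P.lev b c σ r = y} ∩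
        (fun c => (P.R r).work y.1 (RP.blks c r) (RP.sched σ y.2)) ⁻¹' S := by
    ext c
    simp only [Set.mem_preimage, Set.mem_iUnion, Set.mem_inter_iff]
    constructor
    · intro hc
      exact ⟨P.lev b c σ r, rfl, hc⟩
    · rintro ⟨y, hy, hc⟩
      have hy' : P.lev b c σ r = y := hy
      rw [hy']
      exact hc
  rw [h]
  refine MeasurableSet.iUnion fun y => ?_
  refine (P.meas_lev b σ r y).inter ?_
  exact (((P.R r).measurable_work y.1 (RP.sched σ y.2)).comp (blks_meas r)) hS

private theorem total_le (b : Fin n → Bool) (c : Fin n → ℕ → Bool) (σ : ℕ → Fin n) :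
    MP217Upper.Model.totalWork P.alg b c σ ≤
      ∑' r, (P.R r).work (P.lev b c σ r).1 (RP.blks c r) (RP.sched σ (P.lev b c σ r).2) := by
  unfold MP217Upper.Model.totalWork
  refine iSup_le fun t => ?_
  push_cast
  calc ∑ i, (((MP217Upper.Model.run P.alg b c σ t).hist i).length : ℝ≥0∞)
      ≤ ∑ i, ∑' r, ((P.R r).steps (P.lev b c σ r).1 (RP.blks c r)
          (RP.sched σ (P.lev b c σ r).2) t i : ℝ≥0∞) :=
        Finset.sum_le_sum fun i _ => P.sim_len b c σ t i
    _ = ∑' r, ∑ i, ((P.R r).steps (P.lev b c σ r).1 (RP.blks c r)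
          (RP.sched σ (P.lev b c σ r).2) t i : ℝ≥0∞) :=
        (Summable.tsum_finsetSum fun i _ => ENNReal.summable).symm
    _ ≤ ∑' r, (P.R r).work (P.lev b c σ r).1 (RP.blks c r)
          (RP.sched σ (P.lev b c σ r).2) := by
        refine ENNReal.tsum_le_tsum fun r => ?_
        unfold RP.work
        refine le_trans ?_ (le_iSup _ t)
        push_cast
        rfl

/-- The sum over the rounds. -/
private theorem tsum_two (W1 q : ℝ≥0∞) (f : ℕ → ℝ≥0∞) (h : ∀ r, f (2 * r) ≤ q ^ r * W1)
    (h' : ∀ r, f (2 * r + 1) ≤ q ^ r * W1) : ∑' r, f r ≤ 2 * (1 - q)⁻¹ * W1 := by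
  have h1 : ∑' r, f r = ∑' r, f (2 * r) + ∑' r, f (2 * r + 1) :=
    (tsum_even_add_odd ENNReal.summable ENNReal.summable).symm
  rw [h1]
  calc ∑' r, f (2 * r) + ∑' r, f (2 * r + 1)
      ≤ ∑' r : ℕ, q ^ r * W1 + ∑' r : ℕ, q ^ r * W1 := by
        gcongr with r r
        · exact h r
        · exact h' r
    _ = 2 * (1 - q)⁻¹ * W1 := by
        rw [ENNReal.tsum_mul_right, ENNReal.tsum_geometric]
        ring

/-- The work of a sequence of conciliators and adopt-commit protocols. -/
theorem W_le (hs : s ≠ 0) (hs1 : s ≤ 1) (hP : P.Good s W1) : W n ≤ 2 * s⁻¹ * W1 := by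
  unfold W
  refine (iInf₂_le P.alg (solves hs hP)).trans ?_
  unfold MP217Upper.Model.cost
  refine iSup₂_le fun b σ => ?_
  calc ∫⁻ c, MP217Upper.Model.totalWork P.alg b c σ ∂coins n
      ≤ ∫⁻ c, ∑' r, (P.R r).work (P.lev b c σ r).1 (RP.blks c r)
          (RP.sched σ (P.lev b c σ r).2) ∂coins n :=
        lintegral_mono fun c => total_le b c σ
    _ = ∑' r, ∫⁻ c, (P.R r).work (P.lev b c σ r).1 (RP.blks c r)
          (RP.sched σ (P.lev b c σ r).2) ∂coins n :=
        lintegral_tsum fun r => (meas_round P b σ r).aemeasurable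
    _ ≤ 2 * (1 - (1 - s))⁻¹ * W1 := by
        refine tsum_two W1 (1 - s) _ (fun r => ?_) fun r => ?_
        · refine (work_round hP b σ (2 * r)).trans ?_
          gcongr
          exact ent_pow hP b σ r
        · refine (work_round hP b σ (2 * r + 1)).trans ?_
          gcongr
          refine le_trans (measure_mono ?_) (ent_pow hP b σ r)
          rintro c ⟨p, hp⟩
          by_contra hc
          simp only [Set.mem_ofPred_eq, not_exists, not_not] at hc
          exact hp (lev_none_succ hc p)
    _ = 2 * s⁻¹ * W1 := by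
        rw [ENNReal.sub_sub_cancel ENNReal.one_ne_top hs1]

end Hp

end Pool.Agent.E217
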