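import Pool.Agent.MP217Exact.RunsK

set_option autoImplicit false

/-!
# Processors which do not take steps any more
-/

namespace Pool.Agent.E217

open Finset

attribute [local instance 10] Classical.propDecidable

variable {n : ℕ} {D : Type}

namespace Wd

variable (W : Wd n D)

/-- A processor which takes part in all passes `< j` is not idle before step `off j`. -/
theorem not_idle {p : Fin n} {j t : ℕ} (hj : j ≤ W.S.E) (h : ∀ k < j, W.S.Al W.σ p k)
    (ht : cnt W.σ p t < W.S.off j) : ¬ W.S.Idle ((W.S.run W.σ t).st p) := by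
  -- the pass at time `t`
  have hex : ∃ i, cnt W.σ p t < W.S.off (i + 1) := ⟨j, by
    have := Sys.off_lt W.ok (Nat.lt_succ_self j)
    exact ht.trans this⟩
  set i := Nat.find hex with hi
  have h1 : cnt W.σ p t < W.S.off (i + 1) := Nat.find_spec hex
  have h2 : W.S.off i ≤ cnt W.σ p t := by
    rcases Nat.eq_zero_or_pos i with h0 | h0
    · rw [h0]
      show ∑ j ∈ range 0, _ ≤ _
      simp
    · have := Nat.find_min hex (m := i - 1) (by omega)
      rw [Nat.sub_add_cancel h0] at this
      omega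
  have hij : i < j := by
    by_contra hc
    have := Sys.off_mono W.S (i := j) (j := i) (by omega)
    omega
  obtain ⟨si, _, sd, _, _⟩ := Sys.st_in W.ok W.fair (by omega : i < W.S.E) (h i hij) h2 h1
  rintro (h3 | h3)
  · rw [sd, (h i hij).2.2] at h3
    exact absurd h3 (by simp)
  · rw [si] at h3
    omega

/-- The state of an idle processor. -/
theorem idle_cases {p : Fin n} {t : ℕ} (h : W.S.Idle ((W.S.run W.σ t).st p)) :
    (∃ ρ < W.nR, W.go p ρ ∧ W.sp (W.dS p (ρ + 1)) = true ∧
      (W.S.run W.σ t).st p = W.S.sI W.σ p (W.G.st (ρ + 1))) ∨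
    (W.go p W.nR ∧ (W.S.run W.σ t).st p = W.S.sI W.σ p (W.G.st W.nR)) := by
  have hE : W.S.E = W.G.st W.nR := rfl
  by_cases hal : W.S.Al W.σ p W.S.E
  · right
    refine ⟨hal, ?_⟩
    have h1 : W.S.off W.S.E ≤ cnt W.σ p t := by
      by_contra hc
      push Not at hc
      exact W.not_idle le_rfl (fun k hk => Sys.al_mono W.ok W.fair hal hk.le le_rfl) hc h
    have h2 : cnt W.σ p (tme W.σ p (W.S.off W.S.E)) = W.S.off W.S.E := cnt_tme W.fair p _
    have h3 : W.S.Idle ((W.S.run W.σ (tme W.σ p (W.S.off W.S.E))).st p) := by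
      right
      show W.S.E ≤ (W.S.sI W.σ p W.S.E).i
      rw [hal.1]
    have h4 : tme W.σ p (W.S.off W.S.E) ≤ t ∨ t ≤ tme W.σ p (W.S.off W.S.E) := le_total _ _
    rcases h4 with h4 | h4
    · exact Sys.st_idle h3 h4
    · have h5 := Sys.st_idle h h4
      exact h5.symm
  · left
    obtain ⟨j, hj, hji, hsp, hk, hst⟩ := Sys.not_al W.ok W.fair le_rfl hal
    have h1 : W.S.off j ≤ cnt W.σ p t := by
      by_contra hc
      push Not at hc
      exact W.not_idle hj hk hc h
    have hj0 : j ≠ 0 := by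
      intro h0
      rw [h0] at hsp
      have h2 := W.go_zero p
      have h3 : W.S.Al W.σ p 0 := by
        have : W.G.st 0 = 0 := by simp [Geo.st]
        have h4 : W.S.Al W.σ p (W.G.st 0) := h2
        rw [this] at h4
        exact h4
      rw [h3.2.2] at hsp
      exact absurd hsp (by simp)
    obtain ⟨i, rfl⟩ := Nat.exists_eq_succ_of_ne_zero hj0
    have hi : W.S.Al W.σ p i := hk i (Nat.lt_succ_self i)
    have hiE : i < W.S.E := hj
    obtain ⟨hg, hr⟩ := W.al_go hiE hi
    -- pass `i` is the last pass of its run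
    have hlast : W.G.Last i := by
      by_contra hl
      have h2 := Sys.sI_succ W.ok W.fair hiE hi
      have h3 : W.S.sp (W.S.sI W.σ p (i + 1)).d = true := hsp
      rw [h2] at h3
      have h4 : W.S.sp (W.S.nd p i (W.S.KE W.σ p i) (W.S.ME W.σ p i) (W.S.sI W.σ p i).d) =
          W.S.sp (W.S.sI W.σ p i).d := W.hsp p i _ _ _ hl
      have h5 : W.S.sp (W.S.nd p i (W.S.KE W.σ p i) (W.S.ME W.σ p i) (W.S.sI W.σ p i).d) =
        true := h3
      rw [h4, hi.2.2] at h5
      exact absurd h5 (by simp)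
    have hst1 : i + 1 = W.G.st (W.G.rOf i + 1) := hlast
    refine ⟨W.G.rOf i, hr, hg, ?_, ?_⟩
    · show W.sp (W.S.sI W.σ p (W.G.st (W.G.rOf i + 1))).d = true
      rw [← hst1]
      exact hsp
    · rw [← hst1]
      exact hst t h1

end Wd

end Pool.Agent.E217
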