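import Pool.Agent.MP217Exact.CFam2
import Pool.Agent.MP217Exact.RunsI

set_option autoImplicit false

/-!
# The family of worlds of the conciliator: success
-/

namespace Pool.Agent.E217

open Finset
open Pool.Agent.X217 (CW CWF)

attribute [local instance 10] Classical.propDecidable

variable {n : ℕ}

theorem newc_val {X : Finset (Fact n DC)} {c : Option Bool} {v : Bool}
    (h : Geo.newc X c = some v) : c = some v ∨ ∃ f ∈ X, f.d.cand = some v := by
  unfold Geo.newc at h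
  split_ifs at h with h1 h2 h3
  · exact Or.inl h
  · obtain ⟨f, hf, hf'⟩ := h2
    exact Or.inr ⟨f, hf, by rw [hf', h]⟩
  · obtain ⟨f, hf, hf'⟩ := h3
    exact Or.inr ⟨f, hf, by rw [hf', h]⟩

namespace CF

variable {Ω : Type} (F : CF n Ω)

/-- All candidates known after a run have the value of the successful processor. -/
theorem newc_suc {ω : Ω} {f : Fin n × Fin F.nR → Bool} {v : Bool}
    (hv : ∀ q ρ', (F.cd ω f).cw.go q ρ' → ¬ (F.cd ω f).cw.awe q ρ' → (F.cd ω f).cw.fl q ρ' →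
      F.x q = v)
    {p : Fin n} {ρ : ℕ} (hρ : ρ < F.nR) (hg : (F.cd ω f).W.go p ρ)
    (hne : Geo.newc ((F.cd ω f).W.KR p ρ) ((F.cd ω f).W.dS p ρ).cand ≠ none) :
    Geo.newc ((F.cd ω f).W.KR p ρ) ((F.cd ω f).W.dS p ρ).cand = some v := by
  obtain ⟨w, hw⟩ := Option.ne_none_iff_exists'.mp hne
  rw [hw]
  congr 1
  have hcand : ∀ (q : Fin n) (k : ℕ), k ≤ F.nR → (F.cd ω f).W.go q k →
      ((F.cd ω f).W.dS q k).cand = some w → w = v := by
    intro q k hk hq hc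
    obtain ⟨q', ρ', h1, h2, h3, h4, _⟩ := (F.cd ω f).cand_val hk hq hc
    rw [← h4]
    exact hv q' ρ' h1 h2 h3
  rcases newc_val hw with h1 | ⟨g, hg1, hg2⟩
  · exact hcand p ρ hρ.le hg h1
  · have hal := (F.cd ω f).W.go_pass hρ hg ((F.cd ω f).W.G.st_le_la ρ) le_rfl
    have hla : (F.cd ω f).W.G.la ρ < (F.cd ω f).W.S.E := by
      have h2 : F.G.la ρ + 1 = F.G.st (ρ + 1) := F.G.la_succ ρ
      have h3 : F.G.st (ρ + 1) ≤ F.G.st F.nR := F.G.st_le hρ
      show F.G.la ρ < F.G.st F.nR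
      omega
    have hgen := Sys.gen_KE (F.cd ω f).W.ok (F.cd ω f).W.fair hla hal hg1
    obtain ⟨hgo, hr⟩ := (F.cd ω f).W.al_go hgen.1 hgen.2.1
    have hd : ((F.cd ω f).W.S.sI F.σ g.a g.i).d = (F.cd ω f).W.dS g.a (F.G.rOf g.i) := by
      refine (F.cd ω f).W.dI_run (F.cd ω f).W_nd hr hgo (F.G.rOf_spec g.i).1 ?_
      have h2 := (F.G.rOf_spec g.i).2
      have h3 : F.G.la (F.G.rOf g.i) + 1 = F.G.st (F.G.rOf g.i + 1) := F.G.la_succ _
      show g.i ≤ F.G.la (F.G.rOf g.i)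
      omega
    refine hcand g.a (F.G.rOf g.i) hr.le hgo ?_
    rw [← hd]
    have h4 : g.d = ((F.cd ω f).W.S.sI F.σ g.a g.i).d := hgen.2.2.1
    rw [← h4]
    exact hg2

/-- SUCCESS: everybody who has stopped has the value of one processor. -/
theorem suc_val {ω : Ω} {f : Fin n × Fin F.nR → Bool} (hs : F.cwf.Suc ω f) :
    ∃ v : Bool, ∀ t p, (F.cd ω f).W.S.Idle (((F.cd ω f).W.S.run F.σ t).st p) →
      (((F.cd ω f).W.S.run F.σ t).st p).d.cand.getD (((F.cd ω f).W.S.run F.σ t).st p).d.bit =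
        v := by
  obtain ⟨⟨e₀, he1, he2, he3, he4⟩, hlast⟩ := hs
  refine ⟨F.x e₀.1, ?_⟩
  have hv : ∀ q ρ', (F.cd ω f).cw.go q ρ' → ¬ (F.cd ω f).cw.awe q ρ' → (F.cd ω f).cw.fl q ρ' →
      F.x q = F.x e₀.1 := by
    intro q ρ' h1 h2 h3
    have hρ' : ρ' < F.nR := h1.1
    have h4 : (if h : ρ' < F.nR then f (q, ⟨ρ', h⟩) else false) = true := h3
    rw [dif_pos hρ'] at h4
    have h5 := he4 (q, ⟨ρ', hρ'⟩) h1 h2 h4
    rw [← h5]
  intro t p hid
  rcases (F.cd ω f).W.idle_cases hid with ⟨ρ, hρ, hg, hout, hst⟩ | ⟨hg, hst⟩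
  · have hρ' : ρ < F.nR := hρ
    have hd : (((F.cd ω f).W.S.run F.σ t).st p).d = (F.cd ω f).W.dS p (ρ + 1) := by
      have : ((F.cd ω f).W.S.run F.σ t).st p = (F.cd ω f).W.S.sI F.σ p (F.G.st (ρ + 1)) := hst
      rw [this]; rfl
    have hout' : ((F.cd ω f).W.dS p (ρ + 1)).out = true := hout
    have hS := (F.cd ω f).dS_succ hρ hg
    rw [hd]
    rw [hS] at hout' ⊢
    by_cases he : (F.cd ω f).G.Evid ((F.cd ω f).W.KR p ρ) ρ ∨
        ((F.cd ω f).G.H ≤ ρ ∧ ((F.cd ω f).W.dS p ρ).cand ≠ none)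
    · rw [if_pos he]
      have hne : Geo.newc ((F.cd ω f).W.KR p ρ) ((F.cd ω f).W.dS p ρ).cand ≠ none := by
        rw [CD.newc_ne]
        rcases he with ⟨x, ρ', _, _, ⟨g, hg1, _, _, hg2⟩, _⟩ | ⟨_, hc⟩
        · exact Or.inr ⟨g, hg1, hg2⟩
        · exact Or.inl hc
      show (Geo.newc ((F.cd ω f).W.KR p ρ) ((F.cd ω f).W.dS p ρ).cand).getD _ = _
      rw [F.newc_suc hv hρ' hg hne]
      rfl
    · rw [if_neg he] at hout'
      split_ifs at hout'
  · have hd : (((F.cd ω f).W.S.run F.σ t).st p).d = (F.cd ω f).W.dS p F.nR := by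
      have : ((F.cd ω f).W.S.run F.σ t).st p = (F.cd ω f).W.S.sI F.σ p (F.G.st F.nR) := hst
      rw [this]; rfl
    have hR := F.hR
    have hr1 : F.nR - 1 + 1 = F.nR := by omega
    have hr2 : F.nR - 1 < F.nR := by omega
    have hg1 : (F.cd ω f).W.go p (F.nR - 1) := (F.cd ω f).W.go_mono (Nat.sub_le _ _) le_rfl hg
    have ha : (F.cd ω f).cw.awe p (F.nR - 1) := hlast p ⟨hr2, hg1⟩
    have hS := (F.cd ω f).dS_succ hr2 hg1
    rw [hr1] at hS
    have hout : ((F.cd ω f).W.dS p F.nR).out = false := hg.2.2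
    rw [hd, hS]
    rw [hS] at hout
    by_cases he : (F.cd ω f).G.Evid ((F.cd ω f).W.KR p (F.nR - 1)) (F.nR - 1) ∨
        ((F.cd ω f).G.H ≤ F.nR - 1 ∧ ((F.cd ω f).W.dS p (F.nR - 1)).cand ≠ none)
    · rw [if_pos he] at hout
      exact absurd hout (by simp)
    · rw [if_neg he, if_neg (fun hh => ha hh.1)]
      show (Geo.newc ((F.cd ω f).W.KR p (F.nR - 1)) ((F.cd ω f).W.dS p (F.nR - 1)).cand).getD _ = _
      rw [F.newc_suc hv hr2 hg1 ha]
      rfl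

end CF

end Pool.Agent.E217
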