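import Pool.Agent.MP217Exact.MPass

set_option autoImplicit false

/-!
# The machine: registers
-/

namespace Pool.Agent.E217

open Finset

attribute [local instance 10] Classical.propDecidable

variable {n : ℕ} {D : Type}

namespace Sys

variable {S : Sys n D} {σ : ℕ → Option (Fin n)}

theorem mem_self (w : Fin n) (c t : ℕ) : (S.run σ t).mem w w c = (∅, ∅) := by
  induction t with
  | zero => rfl
  | succ t ih =>
    cases hs : σ t with
    | none =>
      have h : S.run σ (t + 1) = S.run σ t := by simp only [run, hs]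
      rw [h, ih]
    | some p =>
      have h : S.run σ (t + 1) = S.step p (S.run σ t) := by simp only [run, hs]
      rw [h]
      unfold step
      split_ifs
      · exact ih
      · simp only
        rw [if_neg, ih]
        rintro ⟨⟨h1, h2⟩, -⟩
        exact h2 h1
      · exact ih

/-- A write step. -/
private theorem fl_write (hS : S.Ok) (hσ : Fair σ) {w x : Fin n} (hwx : x ≠ w) {i k : ℕ}
    (hi : i < S.E) (h : S.Al σ w i) (hk : k < S.lw i)
    (hx : (S.tw w i (S.sI σ w i).M).getD k w = x) :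
    (S.run σ (tme σ w (S.off i + k) + 1)).mem w x (S.ch i) =
      (if S.tm i = true then (S.sI σ w i).M else ∅, (S.sI σ w i).K) := by
  set t := tme σ w (S.off i + k) with ht
  have hs : σ t = some w := sched_tme hσ w _
  have hc : cnt σ w t = S.off i + k := cnt_tme hσ w _
  have hoff := off_succ S i
  obtain ⟨e1, e2, e3, e4, e5⟩ := st_in hS hσ hi h (t := t) (by omega) (by omega)
  have hni : ¬ S.Idle ((S.run σ t).st w) := by
    rintro (h' | h')
    · rw [e3, h.2.2] at h'
      exact Bool.false_ne_true h'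
    · omega
  have hr : S.run σ (t + 1) = S.step w (S.run σ t) := by simp only [run, hs]
  have hpos : ((S.run σ t).st w).pos = k := by omega
  rw [hr]
  unfold step
  rw [if_neg hni, if_pos (by rw [hpos, e1]; exact hk)]
  dsimp only
  rw [if_pos]
  · unfold msg
    rw [e1, e4, e5]
  · refine ⟨⟨rfl, hwx⟩, ?_, by rw [e1]⟩
    unfold wt
    rw [hpos, e1, e5, hx]

/-- Any other step. -/
private theorem fl_other (hS : S.Ok) (hσ : Fair σ) {w x : Fin n} {c t : ℕ}
    (h : ¬ ∃ i < S.E, S.Al σ w i ∧ S.ch i = c ∧ ∃ k < S.lw i,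
      (S.tw w i (S.sI σ w i).M).getD k w = x ∧ tme σ w (S.off i + k) = t) :
    (S.run σ (t + 1)).mem w x c = (S.run σ t).mem w x c := by
  cases hs : σ t with
  | none =>
    have h' : S.run σ (t + 1) = S.run σ t := by simp only [run, hs]
    rw [h']
  | some p =>
    have h' : S.run σ (t + 1) = S.step p (S.run σ t) := by simp only [run, hs]
    rw [h']
    unfold step
    split_ifs with h1 h2
    · rfl
    · simp only
      rw [if_neg]
      rintro ⟨⟨rfl, hne⟩, hx, hc⟩
      refine h ?_
      obtain ⟨a1, a2, a3, a4⟩ := al_of hS hσ h1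
      obtain ⟨b1, b2⟩ := pos_cnt hS h1
      obtain ⟨e1, e2, e3, e4, e5⟩ := st_in hS hσ a1 a2 a3 a4
      refine ⟨_, a1, a2, hc.symm, _, h2, ?_, ?_⟩
      · rw [← e5]
        exact hx.symm
      · rw [b1]
        exact tme_cnt hs
    · rfl

/-- What is in a register: nothing, or the message of a pass in which it was written. -/
theorem mem_cases (hS : S.Ok) (hσ : Fair σ) {w x : Fin n} (hwx : x ≠ w) (c t : ℕ) :
    ((S.run σ t).mem w x c = (∅, ∅) ∧
      ∀ i < S.E, S.Al σ w i → S.ch i = c → ∀ k < S.lw i,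
        (S.tw w i (S.sI σ w i).M).getD k w = x → t ≤ tme σ w (S.off i + k)) ∨
    ∃ i < S.E, S.Al σ w i ∧ S.ch i = c ∧ S.al σ w i < t ∧
      (∃ k < S.lw i, (S.tw w i (S.sI σ w i).M).getD k w = x ∧ tme σ w (S.off i + k) < t) ∧
      (S.run σ t).mem w x c = (if S.tm i = true then (S.sI σ w i).M else ∅, (S.sI σ w i).K) ∧
      ∀ j < S.E, S.Al σ w j → S.ch j = c → ∀ k < S.lw j,
        (S.tw w j (S.sI σ w j).M).getD k w = x → tme σ w (S.off j + k) < t → j ≤ i := by
  induction t with
  | zero => exact Or.inl ⟨rfl, fun i _ _ _ k _ _ => Nat.zero_le _⟩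
  | succ t ih =>
    by_cases hw : ∃ i < S.E, S.Al σ w i ∧ S.ch i = c ∧ ∃ k < S.lw i,
        (S.tw w i (S.sI σ w i).M).getD k w = x ∧ tme σ w (S.off i + k) = t
    · obtain ⟨i, hi, h, rfl, k, hk, hx, rfl⟩ := hw
      right
      refine ⟨i, hi, h, rfl, ?_, ⟨k, hk, hx, Nat.lt_succ_self _⟩,
        fl_write hS hσ hwx hi h hk hx, ?_⟩
      · exact Nat.lt_succ_of_le ((tme_le hσ w).2 (Nat.le_add_right _ _))
      · intro j hj hj' hc k' hk' hx' ht
        have h1 : S.off j + k' ≤ S.off i + k := (tme_le hσ w).1 (Nat.lt_succ_iff.1 ht)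
        by_contra hcon
        have h2 := off_mono S (show i + 1 ≤ j by omega)
        have h3 := off_succ S i
        omega
    · rw [fl_other hS hσ hw]
      have key : ∀ j < S.E, S.Al σ w j → S.ch j = c → ∀ k < S.lw j,
          (S.tw w j (S.sI σ w j).M).getD k w = x → tme σ w (S.off j + k) ≠ t :=
        fun j hj h hc k hk hx ht => hw ⟨j, hj, h, hc, k, hk, hx, ht⟩
      rcases ih with ⟨h1, h2⟩ | ⟨i, hi, h, hc, h1, ⟨k, hk, hx, h2⟩, h3, h4⟩
      · left
        refine ⟨h1, fun i hi h hc k hk hx => ?_⟩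
        have h3 := h2 i hi h hc k hk hx
        have h4 := key i hi h hc k hk hx
        omega
      · right
        refine ⟨i, hi, h, hc, by omega, ⟨k, hk, hx, by omega⟩, h3, ?_⟩
        intro j hj hj' hc' k' hk' hx' ht
        have h5 := key j hj hj' hc' k' hk' hx'
        exact h4 j hj hj' hc' k' hk' hx' (by omega)

/-- After a write the register contains at least what was written. -/
theorem mem_ge (hS : S.Ok) (hσ : Fair σ) {w x : Fin n} (hwx : x ≠ w) {i k t : ℕ} (hi : i < S.E)
    (h : S.Al σ w i) (hk : k < S.lw i) (hx : (S.tw w i (S.sI σ w i).M).getD k w = x)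
    (ht : tme σ w (S.off i + k) < t) :
    (S.sI σ w i).K ⊆ ((S.run σ t).mem w x (S.ch i)).2 ∧
      (S.tm i = true → (S.sI σ w i).M ⊆ ((S.run σ t).mem w x (S.ch i)).1) := by
  rcases mem_cases hS hσ hwx (S.ch i) t with ⟨-, h2⟩ | ⟨j, hj, hj', hc, -, -, h3, h4⟩
  · exact absurd (h2 i hi h rfl k hk hx) (not_le.2 ht)
  · have hij : i ≤ j := h4 i hi h rfl k hk hx ht
    rw [h3]
    refine ⟨K_mono hS hσ hij hj.le hj', fun htm => ?_⟩
    have h5 : S.tm j = true := by rw [hS.tm_ch j i hc, htm]
    rw [if_pos h5]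
    exact M_mono hS hσ hij hj.le hj' fun k' h6 h7 => hS.rs_ch i j k' hc.symm htm h6 h7

private theorem fl_getD {α : Type} {l : List α} {a d : α} (h : a ∈ l) :
    ∃ k < l.length, l.getD k d = a := by
  obtain ⟨k, hk, rfl⟩ := List.getElem_of_mem h
  exact ⟨k, hk, by simp [hk]⟩

/-- The basic flow of information: `w` writes to `x` in pass `i`, and `x` reads from `w` in pass
`j`; the write part of `w` ends before the write part of `x`.
PROOF: the write is before `be w i ≤ be x j`, the read is not before `be x j`; if `w = x` then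
`i ≤ j` and monotonicity. -/
theorem flow (hS : S.Ok) (hσ : Fair σ) {w x : Fin n} {i j : ℕ} (hi : i < S.E) (hj : j < S.E)
    (hc : S.ch i = S.ch j) (hw : S.Al σ w i) (hx : S.Al σ x j)
    (h1 : x ∈ S.tw w i (S.sI σ w i).M) (h2 : w ∈ S.tr x j (S.sI σ x j).M)
    (hbe : S.be σ w i ≤ S.be σ x j) :
    (S.sI σ w i).K ⊆ S.KE σ x j ∧ (S.tm i = true → (S.sI σ w i).M ⊆ S.ME σ x j) := by
  by_cases hwx : x = w
  · subst hwx
    have h3 : S.off i + S.lw i ≤ S.off j + S.lw j := (tme_le hσ x).1 hbe
    have hij : i ≤ j := by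
      by_contra hcon
      have h4 := off_mono S (show j + 1 ≤ i by omega)
      have h5 := off_succ S j
      have h6 := hS.lw_pos i
      omega
    refine ⟨(K_mono hS hσ hij hj.le hx).trans subset_union_left, fun htm => ?_⟩
    exact (M_mono hS hσ hij hj.le hx fun k h6 h7 => hS.rs_ch i j k hc htm h6 h7).trans
      subset_union_left
  · obtain ⟨k, hk, hk'⟩ := fl_getD (d := w) h1
    obtain ⟨k', hl, hl'⟩ := fl_getD (d := x) h2
    rw [hS.tw_len] at hk
    rw [hS.tr_len] at hl
    have ht : tme σ w (S.off i + k) < tme σ x (S.off j + S.lw j + k') := by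
      have h3 : tme σ w (S.off i + k) < S.be σ w i := (tme_lt hσ w).2 (by omega)
      have h4 : S.be σ x j ≤ tme σ x (S.off j + S.lw j + k') :=
        (tme_le hσ x).2 (Nat.le_add_right _ _)
      omega
    obtain ⟨g1, g2⟩ := mem_ge hS hσ hwx hi hw hk hk' ht
    rw [hc] at g1 g2
    refine ⟨fun f hf => ?_, fun htm f hf => ?_⟩
    · refine mem_union_right _ (mem_biUnion.2 ⟨k', mem_range.2 hl, ?_⟩)
      rw [hl']
      exact g1 hf
    · refine mem_union_right _ (mem_biUnion.2 ⟨k', mem_range.2 hl, ?_⟩)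
      rw [hl']
      exact g2 htm hf

end Sys

end Pool.Agent.E217
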