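import Pool.Agent.MP217Exact.Runs

set_option autoImplicit false

/-!
# Facts about runs, for every program: knowledge
-/

namespace Pool.Agent.E217

open Finset

attribute [local instance 10] Classical.propDecidable

variable {n : ℕ} {D : Type}

namespace Wd

variable (W : Wd n D)

/-! ### Knowledge -/

theorem KS_sub_KF {p : Fin n} {ρ : ℕ} : W.KS p ρ ⊆ W.KF p ρ :=
  Finset.subset_union_left

private theorem stE {ρ : ℕ} (h : ρ ≤ W.nR) : W.G.st ρ ≤ W.S.E := W.G.st_le h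

private theorem stE' {ρ : ℕ} (h : ρ < W.nR) : W.G.st ρ < W.S.E := W.G.st_lt h

private theorem laE {ρ : ℕ} (h : ρ < W.nR) : W.G.la ρ < W.S.E := by
  have h1 := W.stE (show ρ + 1 ≤ W.nR from h)
  have h2 := W.G.la_succ ρ
  omega

private theorem go_la {p : Fin n} {ρ : ℕ} (h : ρ < W.nR) (hg : W.go p ρ) :
    W.S.Al W.σ p (W.G.la ρ) := W.go_pass h hg (W.G.st_le_la ρ) le_rfl

theorem KF_sub_KR {p : Fin n} {ρ : ℕ} (h : ρ < W.nR) (hg : W.go p ρ) : W.KF p ρ ⊆ W.KR p ρ := by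
  unfold KF KR
  rcases (W.G.st_le_la ρ).eq_or_lt with h1 | h1
  · rw [← h1]
  · exact (Sys.KE_sub W.ok W.fair h1 (W.laE h).le (W.go_la h hg)).trans
      Finset.subset_union_left

theorem KR_sub_KS {p : Fin n} {ρ ρ' : ℕ} (h : ρ < ρ') (h' : ρ' ≤ W.nR) (hg : W.go p ρ') :
    W.KR p ρ ⊆ W.KS p ρ' := by
  unfold KR KS
  have h1 := W.G.la_succ ρ
  have h2 := W.G.st_le (show ρ + 1 ≤ ρ' from h)
  exact Sys.KE_sub W.ok W.fair (by omega) (W.stE h') hg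

private theorem sh_st (p : Fin n) (ρ : ℕ) : W.S.sh p (W.G.st ρ) = W.Ext p ρ := by
  show (if W.G.jOf (W.G.st ρ) = 0 then W.T.ext W.G p (W.G.rOf (W.G.st ρ)) else []) = _
  rw [if_pos (W.G.jOf_st ρ), W.G.rOf_st]
  rfl

/-- The own label. -/
theorem own_lab {p : Fin n} {ρ : ℕ} (h : ρ ≤ W.nR) (hg : W.go p ρ) :
    (⟨p, W.G.st ρ, W.dS p ρ, (W.S.sI W.σ p (W.G.st ρ)).M, W.Ext p ρ⟩ : Fact n D) ∈
      W.KS p ρ := by
  have h1 := Sys.own_K W.ok W.fair (W.stE h) hg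
  rw [W.sh_st] at h1
  exact h1

/-- The team at the beginning of a run which follows a run of ticks is the team after that
run. -/
theorem names_M {p : Fin n} {ρ : ℕ} (h : ρ < W.nR) (hg : W.go p ρ) :
    names (W.S.sI W.σ p (W.G.st (ρ + 1))).M = insert p (W.Mf p ρ) := by
  have h1 := Sys.sI_succ W.ok W.fair (W.laE h) (W.go_la h hg)
  rw [W.G.la_succ] at h1
  rw [h1]
  have hrs : W.S.rs (W.G.st (ρ + 1)) = false := by
    show decide (W.G.jOf (W.G.st (ρ + 1)) = 1) = false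
    rw [W.G.jOf_st]
    rfl
  show names (W.S.bM p (W.G.st (ρ + 1)) (W.S.ME W.σ p (W.G.la ρ))) = _
  unfold Sys.bM
  rw [hrs]
  simp only [Bool.false_eq_true, if_false]
  unfold names
  rw [Finset.image_insert]
  rfl

theorem self_Mf {p : Fin n} {ρ : ℕ} (h : ρ < W.nR) (hg : W.go p ρ) : p ∈ W.Mf p ρ := by
  have h1 := Sys.own_M W.ok W.fair (W.laE h).le (W.go_la h hg)
  exact Finset.mem_image.2 ⟨(p, W.G.la ρ), Finset.mem_union_left _ h1, rfl⟩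

/-- Facts known after a pass are genuine (labels). -/
theorem lab_KR {p : Fin n} {ρ : ℕ} (h : ρ < W.nR) (hg : W.go p ρ) {f : Fact n D}
    (hf : f ∈ W.KR p ρ) {k : ℕ} (hi : f.i = W.G.st k) : k < W.nR ∧ W.go f.a k ∧
      f.d = W.dS f.a k ∧ f.M = (W.S.sI W.σ f.a (W.G.st k)).M ∧ f.T = W.Ext f.a k ∧
      W.KS f.a k ⊆ W.KR p ρ ∧ W.sT f.a k < W.eT p ρ := by
  obtain ⟨h1, h2, h3, h4, h5, h6, h7, -⟩ :=
    Sys.gen_KE W.ok W.fair (W.laE h) (W.go_la h hg) hf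
  rw [hi] at h1 h2 h3 h4 h5 h6 h7
  rw [W.sh_st] at h5
  refine ⟨?_, h2, h3, h4, h5, h6, h7⟩
  exact W.G.st_lt_iff.1 h1

private theorem en_lt (a : Fin n) {i j : ℕ} (h : i < j) : W.S.en W.σ a i < W.S.al W.σ a j := by
  unfold Sys.en Sys.al
  rw [tme_lt W.fair]
  have h1 := Sys.off_succ W.S i
  have h2 := W.ok.lw_pos i
  have h3 := Sys.off_mono W.S (show i + 1 ≤ j from h)
  omega

/-- Facts known after a pass are genuine (the ext pass of run `k` is finished). -/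
theorem done_KR {p : Fin n} {ρ : ℕ} (h : ρ < W.nR) (hg : W.go p ρ) {f : Fact n D}
    (hf : f ∈ W.KR p ρ) {k : ℕ} (hi : f.i = W.G.st k + 1) : k < W.nR ∧ W.go f.a k ∧
      W.KF f.a k ⊆ W.KR p ρ ∧ W.fT f.a k < W.eT p ρ := by
  obtain ⟨h1, h2, -, -, -, h6, h7, -⟩ :=
    Sys.gen_KE W.ok W.fair (W.laE h) (W.go_la h hg) hf
  rw [hi] at h1 h2 h6 h7
  refine ⟨W.G.st_lt_iff.1 (show W.G.st k < W.G.st W.nR from lt_trans (Nat.lt_succ_self _) h1),
    Sys.al_mono W.ok W.fair h2 (Nat.le_succ _) h1.le, ?_, ?_⟩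
  · exact (Sys.KE_sub W.ok W.fair (Nat.lt_succ_self _) h1.le h2).trans h6
  · exact (W.en_lt f.a (Nat.lt_succ_self _)).trans h7

private theorem nr_lt {ρ j : ℕ} (h : ρ < W.G.H) (hj : j < W.G.st ρ + 1) :
    W.S.nr j < W.S.nr (W.G.la ρ) := by
  have h1 := W.G.st_lt_la h
  have h2 := W.G.la_succ ρ
  have h3 : W.G.rOf (W.G.st ρ + 1) = ρ := W.G.rOf_eq (by omega) (by omega)
  unfold Sys.nr
  refine Finset.card_lt_card (Finset.ssubset_iff_of_subset ?_ |>.2 ⟨W.G.st ρ + 1, ?_, ?_⟩)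
  · intro x hx
    simp only [Finset.mem_filter, Finset.mem_range] at hx ⊢
    exact ⟨by omega, hx.2⟩
  · simp only [Finset.mem_filter, Finset.mem_range]
    refine ⟨by omega, ?_⟩
    show decide (W.G.jOf (W.G.st ρ + 1) = 1) = true
    unfold Geo.jOf
    rw [h3]
    simp
  · simp only [Finset.mem_filter, Finset.mem_range]
    intro hx
    omega

/-- (W2) The team of a tick run. -/
theorem team {b : Fin n} {ρ : ℕ} (h : ρ < W.G.H) (hg : W.go b ρ) {a : Fin n}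
    (ha : a ∈ W.Mf b ρ) : W.go a ρ ∧ W.fT a ρ < W.eT b ρ ∧ W.KF a ρ ⊆ W.KR b ρ ∧
      ∃ f ∈ W.KR b ρ, f.a = a ∧ f.i = W.G.st ρ + 1 := by
  have hR := h.trans W.hR
  obtain ⟨⟨a', j⟩, hm, ha'⟩ := Finset.mem_image.1 ha
  obtain rfl : a' = a := ha'
  obtain ⟨h1, h2, -, h4, h5, -, h7⟩ := Sys.gen_ME W.ok W.fair (W.laE hR) (W.go_la hR hg) hm
  have h8 : W.G.st ρ + 1 ≤ j := by
    by_contra h9
    have := W.nr_lt h (show j < W.G.st ρ + 1 by omega)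
    omega
  have h9 := Sys.al_mono W.ok W.fair h2 h8 h1.le
  have h10 := Sys.K_mono W.ok W.fair h8 h1.le h2
  refine ⟨Sys.al_mono W.ok W.fair h2 (by omega) h1.le, (W.en_lt a' h8).trans h5, ?_, ?_⟩
  · exact ((Sys.KE_sub W.ok W.fair (Nat.lt_succ_self _) (h8.trans h1.le) h9).trans h10).trans h4
  · exact ⟨_, h4 (h10 (Sys.own_K W.ok W.fair (h8.trans h1.le) h9)), rfl, rfl⟩

/-- (W3) The flow of information in the ext channel. -/
theorem flow {d b : Fin n} {ρ' ρ : ℕ} (h' : ρ' < W.nR) (h : ρ < W.nR) (hd : W.go d ρ')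
    (hb : W.go b ρ) (h1 : b ∈ W.Ext d ρ') (h2 : d ∈ W.Ext b ρ)
    (ht : W.S.be W.σ d (W.G.st ρ') ≤ W.S.be W.σ b (W.G.st ρ)) : W.KS d ρ' ⊆ W.KF b ρ := by
  refine (Sys.flow W.ok W.fair (W.stE' h') (W.stE' h) ?_ hd hb ?_ ?_ ht).1
  · exact (W.G.chan_st ρ').trans (W.G.chan_st ρ).symm
  · show b ∈ W.T.lst W.G false d (W.G.st ρ') (W.S.sI W.σ d (W.G.st ρ')).M
    rw [W.T.lst_st W.G false d ρ']
    exact h1
  · show d ∈ W.T.lst W.G true b (W.G.st ρ) (W.S.sI W.σ b (W.G.st ρ)).M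
    rw [W.T.lst_st W.G true b ρ]
    exact h2

theorem flow_time {d b : Fin n} {ρ' ρ : ℕ} (h' : ρ' < W.nR) (h : ρ < W.nR) (hd : W.go d ρ')
    (hb : W.go b ρ) (h1 : b ∈ W.Ext d ρ') (h2 : d ∈ W.Ext b ρ)
    (ht : W.fT d ρ' < W.sT b ρ) : W.KS d ρ' ⊆ W.KF b ρ := by
  refine W.flow h' h hd hb h1 h2 ?_
  have h3 : W.S.be W.σ d (W.G.st ρ') ≤ W.fT d ρ' := by
    unfold Sys.be fT Sys.en
    rw [tme_le W.fair]
    have h4 := Sys.off_succ W.S (W.G.st ρ')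
    have h5 := W.ok.lr_pos (W.G.st ρ')
    omega
  have h6 : W.sT b ρ ≤ W.S.be W.σ b (W.G.st ρ) := by
    unfold Sys.be sT Sys.al
    rw [tme_le W.fair]
    omega
  omega

/-- Two ext passes with each other in their lists: one of them knows the other. -/
theorem dekker {d b : Fin n} {ρ' ρ : ℕ} (h' : ρ' < W.nR) (h : ρ < W.nR) (hd : W.go d ρ')
    (hb : W.go b ρ) (h1 : b ∈ W.Ext d ρ') (h2 : d ∈ W.Ext b ρ) :
    W.KS d ρ' ⊆ W.KF b ρ ∨ W.KS b ρ ⊆ W.KF d ρ' := by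
  rcases le_total (W.S.be W.σ d (W.G.st ρ')) (W.S.be W.σ b (W.G.st ρ)) with ht | ht
  · exact Or.inl (W.flow h' h hd hb h1 h2 ht)
  · exact Or.inr (W.flow h h' hb hd h2 h1 ht)

end Wd

end Pool.Agent.E217
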