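import Pool.Agent.MP217Exact.Good
import Pool.Agent.MP217Exact.RunsK
import Pool.Agent.MP217Exact.MFlow

set_option autoImplicit false

/-!
# The statement (G') for top runs
-/

namespace Pool.Agent.E217

open Finset

attribute [local instance 10] Classical.propDecidable

variable {n : ℕ} {D : Type}

private theorem gt_lst (T : Tab n) (G : Geo n) (b : Bool) (p : Fin n) {ρ t : ℕ}
    (h1 : ρ < G.top) (ht : 1 ≤ t) (ht' : t ≤ G.It) (M : Finset (Stp n)) :
    T.lst G b p (G.st ρ + t) M = padl (G.tn ρ t) p (G.TT ρ t p) := by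
  obtain ⟨e1, e2⟩ := G.dec_top h1 ht ht'
  unfold Tab.lst
  simp only [e2]
  rw [e1]

private theorem gt_chan (G : Geo n) {ρ t : ℕ}
    (h1 : ρ < G.top) (ht : 1 ≤ t) (ht' : t ≤ G.It) : G.chan (G.st ρ + t) = 4 * ρ + 1 := by
  obtain ⟨e1, e2⟩ := G.dec_top h1 ht ht'
  unfold Geo.chan
  simp only [e2]
  rw [e1]

private theorem gt_jOf (G : Geo n) {ρ t : ℕ} (h1 : ρ < G.top) (ht' : t ≤ G.It + 1) :
    G.jOf (G.st ρ + t) = t := by
  have e : G.rOf (G.st ρ + t) = ρ := by
    refine G.rOf_eq (Nat.le_add_right _ _) ?_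
    have h2 := G.la_succ ρ
    have h3 := G.la_top h1
    omega
  unfold Geo.jOf
  rw [e]
  omega

namespace Wd

variable (W : Wd n D)

/-- `(G')` for top runs.
PROOF: `Few` with `M p t = names (sI p (st ρ + t + 1)).M ∩ A` (the team at the beginning of the next
pass); `names (sI b (la ρ)).M ⊆ Mf b ρ`; dekker: `Sys.flow` for the passes `st ρ + t`, `st ρ + t'`
(same channel, `dec_top`, `mem_padl`), in the order of `be`. -/
theorem gr_top {ρ : ℕ} {N : ℕ → ℕ} (hF : W.G.Few N) (h : ρ < W.G.top)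
    {A : Finset (Fin n)} (hA : ∀ b ∈ A, W.go b ρ)
    (hM : ∀ b ∈ A, (W.Mf b ρ ∩ A).card < 64 * 2 ^ W.G.lev ρ) :
    A.card ≤ N ρ * 2 ^ W.G.lev ρ := by
  have hS := W.ok
  have hσ := W.fair
  have hR : ρ < W.nR := by
    have h1 := W.hR
    have h2 := W.G.top_le
    omega
  have hla : W.G.la ρ = W.G.st ρ + W.G.It + 1 := W.G.la_top h
  have hls := W.G.la_succ ρ
  have hE : W.G.st (ρ + 1) ≤ W.S.E := W.G.st_le hR
  have hal : ∀ b ∈ A, ∀ i, W.G.st ρ ≤ i → i ≤ W.G.la ρ → W.S.Al W.σ b i := fun b hb i h1 h2 =>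
    W.go_pass hR (hA b hb) h1 h2
  have hrs : ∀ t, 2 ≤ t → t ≤ W.G.It + 1 → W.S.rs (W.G.st ρ + t) = false := by
    intro t h1 h2
    show decide (W.G.jOf (W.G.st ρ + t) = 1) = false
    rw [gt_jOf W.G h h2]
    exact decide_eq_false (by omega)
  have htm : ∀ t, 1 ≤ t → t ≤ W.G.It + 1 → W.S.tm (W.G.st ρ + t) = true := by
    intro t h1 h2
    show decide (W.G.jOf (W.G.st ρ + t) ≠ 0) = true
    rw [gt_jOf W.G h h2]
    exact decide_eq_true (by omega)
  -- the flow of information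
  have hfl : ∀ p ∈ A, ∀ q ∈ A, ∀ t t', 1 ≤ t → t ≤ W.G.It → 1 ≤ t' → t' ≤ W.G.It →
      q ∈ W.G.TT ρ t p → p ∈ W.G.TT ρ t' q →
      W.S.be W.σ p (W.G.st ρ + t) ≤ W.S.be W.σ q (W.G.st ρ + t') →
      names (W.S.sI W.σ p (W.G.st ρ + (t - 1) + 1)).M ∩ A ⊆
        names (W.S.sI W.σ q (W.G.st ρ + t' + 1)).M ∩ A := by
    intro p hp q hq t t' h1 h2 h3 h4 h5 h6 hbe
    have e : W.G.st ρ + (t - 1) + 1 = W.G.st ρ + t := by omega
    rw [e]
    have hf := (Sys.flow hS hσ (w := p) (x := q) (i := W.G.st ρ + t) (j := W.G.st ρ + t')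
      (by omega) (by omega)
      (by
        show W.G.chan _ = W.G.chan _
        rw [gt_chan W.G h h1 h2, gt_chan W.G h h3 h4])
      (hal p hp _ (by omega) (by omega)) (hal q hq _ (by omega) (by omega))
      (by
        show q ∈ W.T.lst W.G false p _ _
        rw [gt_lst W.T W.G false p h h1 h2]
        exact mem_padl h5)
      (by
        show p ∈ W.T.lst W.G true q _ _
        rw [gt_lst W.T W.G true q h h3 h4]
        exact mem_padl h6) hbe).2 (htm t h1 (by omega))
    have hm := Sys.ME_sub hS hσ (p := q) (i := W.G.st ρ + t') (j := W.G.st ρ + t' + 1)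
      (Nat.lt_succ_self _) (by omega) (hal q hq _ (by omega) (by omega)) (fun k hk1 hk2 => by
        have : k = W.G.st ρ + (t' + 1) := by omega
        rw [this]
        exact hrs (t' + 1) (by omega) (by omega))
    exact inter_subset_inter_right (image_subset_image (hf.trans hm))
  refine hF ρ h A (fun p t => names (W.S.sI W.σ p (W.G.st ρ + t + 1)).M ∩ A) ?_ ?_ ?_ ?_
  · intro p hp
    refine mem_inter.2 ⟨mem_image.2 ⟨_, Sys.own_M hS hσ (by omega)
      (hal p hp _ (by omega) (by omega)), rfl⟩, hp⟩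
  · intro p hp t ht
    refine inter_subset_inter_right (image_subset_image ?_)
    refine Sys.M_mono hS hσ (by omega) (by omega) (hal p hp _ (by omega) (by omega))
      fun k hk1 hk2 => ?_
    have : k = W.G.st ρ + (t + 2) := by omega
    rw [this]
    exact hrs (t + 2) (by omega) (by omega)
  · intro p hp q hq _ t t' h1 h2 h3 h4 h5 h6
    rcases le_total (W.S.be W.σ p (W.G.st ρ + t)) (W.S.be W.σ q (W.G.st ρ + t')) with hb | hb
    · exact Or.inl (hfl p hp q hq t t' h1 h2 h3 h4 h5 h6 hb)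
    · exact Or.inr (hfl q hq p hp t' t h3 h4 h1 h2 h6 h5 hb)
  · intro p hp
    refine lt_of_le_of_lt (card_le_card ?_) (hM p hp)
    refine inter_subset_inter_right (image_subset_image ?_)
    rw [hla]
    exact subset_union_left

end Wd

end Pool.Agent.E217
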