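import Pool.Agent.MP217Exact.GrMid
import Pool.Agent.MP217Exact.GrTop
import Pool.Agent.MP217Exact.Law

set_option autoImplicit false

/-!
# The event of the tick phases fails for few tables
-/

namespace Pool.Agent.E217

open Finset
open Pool.Agent.X217 (Tb FC flt Fam)

attribute [local instance 10] Classical.propDecidable

variable {n : ℕ} {D : Type}

/-- A program with rules which do not depend on seeds and picks, with variable tables. -/
structure Vd (n : ℕ) (D : Type) where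
  G : Geo n
  nR : ℕ
  x : Fin n → Bool
  f : Fin n × Fin nR → Bool
  d0 : Fin n → D
  nd : Fin n → ℕ → Finset (Fact n D) → Finset (Stp n) → D → D
  sp : D → Bool
  σ : ℕ → Option (Fin n)
  fair : Fair σ
  hR : G.H < nR
  hsp : ∀ p i K M d, ¬ G.Last i → sp (nd p i K M d) = sp d
  hd0 : ∀ p, sp (d0 p) = false

/-- Exchange of a component. -/
private theorem ec_unif {Ω Q : Type} [Fintype Ω] [Fintype Q] (get : Ω → Q) (put : Ω → Q → Ω)
    (h1 : ∀ ω q, get (put ω q) = q) (h2 : ∀ ω, put ω (get ω) = ω)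
    (h3 : ∀ ω q q', put (put ω q) q' = put ω q') (P : Ω → Prop) :
    ∑ ω, (univ.filter fun q => P (put ω q)).card = Fintype.card Q * (univ.filter P).card := by
  let e : Ω × Q ≃ Ω × Q :=
    { toFun := fun x => (put x.1 x.2, get x.1)
      invFun := fun x => (put x.1 x.2, get x.1)
      left_inv := fun x => by simp only [h3, h2, h1]
      right_inv := fun x => by simp only [h3, h2, h1] }
  have a1 : ∑ ω, (univ.filter fun q => P (put ω q)).card =
      (univ.filter fun x : Ω × Q => P (put x.1 x.2)).card := by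
    simp only [card_filter]
    rw [← univ_product_univ, sum_product]
  have a2 : (univ.filter fun x : Ω × Q => P (put x.1 x.2)).card =
      (univ.filter fun x : Ω × Q => P x.1).card := by
    refine card_bij' (fun x _ => e x) (fun x _ => e.symm x) ?_ ?_ ?_ ?_
    · intro x hx
      rw [mem_filter] at hx ⊢
      exact ⟨mem_univ _, hx.2⟩
    · intro x hx
      rw [mem_filter] at hx ⊢
      refine ⟨mem_univ _, ?_⟩
      have : (e (e.symm x)).1 = put (e.symm x).1 (e.symm x).2 := rfl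
      rw [← this, Equiv.apply_symm_apply]
      exact hx.2
    · intro x _; exact e.symm_apply_apply x
    · intro x _; exact e.apply_symm_apply x
  have a3 : (univ.filter fun x : Ω × Q => P x.1) = (univ.filter P) ×ˢ (univ : Finset Q) := by
    ext x; simp
  rw [a1, a2, a3, card_product, card_univ, mul_comm]

namespace Vd

variable (X : Vd n D)

/-- The program with the tables `w`. -/
def W (w : Om X.G) : Wd n D where
  T := tabV X.G X.nR X.x w X.f
  G := X.G
  nR := X.nR
  d0 := X.d0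
  nd := X.nd
  sp := X.sp
  σ := X.σ
  fair := X.fair
  hR := X.hR
  hsp := X.hsp
  hd0 := X.hd0

/-- The family of phase `f` of run `ρ` does not depend on the picks of this phase.
PROOF: `Tab.repl` replaces all of them. -/
theorem fm_update (w : Om X.G) (i : Fin X.G.H × Fin 2) (q : PP (X.G.mid i.1.val)) (hz : ℕ) :
    (X.W (w.1, Function.update w.2 i q)).fm i.1.val i.2.val hz =
      (X.W w).fm i.1.val i.2.val hz := by
  have h : ∀ a b, Tab.repl (N := (X.G.mid i.1.val).N) (Rn := (X.G.mid i.1.val).Rn)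
      (Lam := (X.G.mid i.1.val).Lam) (w := 2 ^ (X.G.mid i.1.val).om)
      (tabV X.G X.nR X.x (w.1, Function.update w.2 i q) X.f) i.1.val i.2.val a b =
      Tab.repl (tabV X.G X.nR X.x w X.f) i.1.val i.2.val a b := by
    intro a b
    unfold Tab.repl
    congr 1
    funext p ρ' f' bb s r c
    by_cases h1 : ρ' = i.1.val ∧ f' = i.2.val
    · rw [if_pos h1, if_pos h1]
    · rw [if_neg h1, if_neg h1]
      show pkV X.G (Function.update w.2 i q) p ρ' f' bb s r c = pkV X.G w.2 p ρ' f' bb s r c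
      unfold pkV
      by_cases h2 : ρ' < X.G.H ∧ f' < 2
      · rw [dif_pos h2, dif_pos h2]
        have hne : ((⟨ρ', h2.1⟩, ⟨f', h2.2⟩) : Fin X.G.H × Fin 2) ≠ i := by
          intro he
          apply h1
          rw [← he]
          exact ⟨rfl, rfl⟩
        have hup : Function.update w.2 i q (⟨ρ', h2.1⟩, ⟨f', h2.2⟩) =
            w.2 (⟨ρ', h2.1⟩, ⟨f', h2.2⟩) := Function.update_of_ne hne _ _
        simp only [hup]
      · rw [dif_neg h2, dif_neg h2]
  have hv : (tabV X.G X.nR X.x (w.1, Function.update w.2 i q) X.f).var X.G i.1.val i.2.val X.nR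
      X.d0 X.nd X.sp =
      (tabV X.G X.nR X.x w X.f).var X.G i.1.val i.2.val X.nR X.d0 X.nd X.sp := by
    funext a b
    unfold Tab.var
    rw [h a b]
  show fam (X.G.mid i.1.val).X (X.G.p0 i.1.val i.2.val) _ _ X.σ hz =
    fam (X.G.mid i.1.val).X (X.G.p0 i.1.val i.2.val) _ _ X.σ hz
  show fam (X.G.mid i.1.val).X (X.G.p0 i.1.val i.2.val) _
    ((tabV X.G X.nR X.x (w.1, Function.update w.2 i q) X.f).var X.G i.1.val i.2.val X.nR
      X.d0 X.nd X.sp) X.σ hz = _
  rw [hv]
  rfl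

theorem tbl_update (w : Om X.G) (i : Fin X.G.H × Fin 2) (q : PP (X.G.mid i.1.val)) :
    (X.W (w.1, Function.update w.2 i q)).T.tbl X.G i.1.val i.2.val false = q.1 ∧
      (X.W (w.1, Function.update w.2 i q)).T.tbl X.G i.1.val i.2.val true = q.2 := by
  have key : ∀ bb, (X.W (w.1, Function.update w.2 i q)).T.tbl X.G i.1.val i.2.val bb =
      cond bb q.2 q.1 := by
    intro bb
    funext y r c
    apply Fin.ext
    show pkV X.G (Function.update w.2 i q) y.1 i.1.val i.2.val bb y.2.val r.val c.val %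
      2 ^ (X.G.mid i.1.val).om = _
    have hval : pkV X.G (Function.update w.2 i q) y.1 i.1.val i.2.val bb y.2.val r.val c.val =
        (cond bb q.2 q.1 y r c).val := by
      unfold pkV
      rw [dif_pos ⟨i.1.isLt, i.2.isLt⟩, dif_pos ⟨y.2.isLt, r.isLt, c.isLt⟩]
      have hup : Function.update w.2 i q (⟨i.1.val, i.1.isLt⟩, ⟨i.2.val, i.2.isLt⟩) = q :=
        Function.update_self i q w.2
      rw [hup]
    rw [hval]
    exact Nat.mod_eq_of_lt (Fin.isLt _)
  exact ⟨key false, key true⟩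

/-- One tick phase. -/
private theorem ec_phase (i : Fin X.G.H × Fin 2) (h1 : X.G.top ≤ i.1.val) (k hz : ℕ)
    (P : Om X.G → Prop)
    (hP : ∀ w, P w ↔ ¬ ((X.W w).fm i.1.val i.2.val hz).Ev 4096 (X.G.mid i.1.val).J k
      ((X.W w).T.tbl X.G i.1.val i.2.val false) ((X.W w).T.tbl X.G i.1.val i.2.val true)) :
    (univ.filter P).card * 2 ^ k ≤ 2 * Fintype.card (Om X.G) := by
  set TB := Fintype.card (Tb (Fin n) (X.G.mid i.1.val).N (X.G.mid i.1.val).Rn
    (X.G.mid i.1.val).Lam (2 ^ (X.G.mid i.1.val).om)) with hTB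
  have hpos : 0 < TB * TB := by
    have : 0 < TB := by
      rw [hTB]
      exact Fintype.card_pos_iff.mpr ⟨fun _ _ _ => ⟨0, by positivity⟩⟩
    positivity
  have h := ec_unif (fun w : Om X.G => w.2 i)
    (fun w q => ((w.1, Function.update w.2 i q) : Om X.G))
    (fun w q => Function.update_self i q w.2)
    (fun w => by rw [Function.update_eq_self])
    (fun w q q' => by simp only [Function.update_idem]) P
  have hcard : Fintype.card (PP (X.G.mid i.1.val)) = TB * TB := Fintype.card_prod _ _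
  rw [hcard] at h
  have hone : ∀ w : Om X.G, (univ.filter fun q : PP (X.G.mid i.1.val) =>
      P ((w.1, Function.update w.2 i q) : Om X.G)).card * 2 ^ k ≤ 2 * (TB * TB) := by
    intro w
    have hok : ((X.W w).fm i.1.val i.2.val hz).Ok :=
      (X.W w).fm_ok h1 i.1.isLt i.2.isLt
    have hev := Fam.ev_card _ hok (by positivity) 4096 (X.G.mid i.1.val).J k
    refine le_trans (Nat.mul_le_mul_right _ (card_le_card fun q hq => ?_)) hev
    refine mem_filter.mpr ⟨mem_univ _, ?_⟩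
    have h2 := (hP _).mp (mem_filter.mp hq).2
    rw [X.fm_update w i q hz, (X.tbl_update w i q).1, (X.tbl_update w i q).2] at h2
    exact h2
  have hsum : (∑ w : Om X.G, (univ.filter fun q : PP (X.G.mid i.1.val) =>
      P ((w.1, Function.update w.2 i q) : Om X.G)).card) * 2 ^ k ≤
      Fintype.card (Om X.G) * (2 * (TB * TB)) := by
    rw [sum_mul]
    refine (sum_le_sum fun w _ => hone w).trans ?_
    rw [sum_const, smul_eq_mul, card_univ]
  rw [h] at hsum
  have hfin : (TB * TB) * ((univ.filter P).card * 2 ^ k) ≤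
      (TB * TB) * (2 * Fintype.card (Om X.G)) := by
    calc _ = (TB * TB * (univ.filter P).card) * 2 ^ k := by ring
      _ ≤ _ := hsum
      _ = _ := by ring
  exact Nat.le_of_mul_le_mul_left hfin hpos

/-- The good event of a mid run fails for few tables.
PROOF: for both phases `ev_card` for every value of the other tables. -/
theorem ev_count {ρ : ℕ} (h1 : X.G.top ≤ ρ) (h2 : ρ < X.G.H) (k hz : ℕ) :
    (univ.filter fun w : Om X.G => ¬ (X.W w).EvR ρ k hz).card * 2 ^ k ≤
      4 * Fintype.card (Om X.G) := by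
  obtain ⟨P, hP⟩ : ∃ P : Fin 2 → Om X.G → Prop, ∀ f w, P f w ↔
      ¬ ((X.W w).fm ρ f.val hz).Ev 4096 (X.G.mid ρ).J k
      ((X.W w).T.tbl X.G ρ f.val false) ((X.W w).T.tbl X.G ρ f.val true) :=
    ⟨_, fun _ _ => Iff.rfl⟩
  have hsub : (univ.filter fun w : Om X.G => ¬ (X.W w).EvR ρ k hz) ⊆
      (univ.filter (P 0)) ∪ (univ.filter (P 1)) := by
    intro w hw
    rw [mem_filter] at hw
    by_contra hcon
    rw [mem_union, mem_filter, mem_filter, not_or] at hcon
    apply hw.2
    intro f hf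
    by_contra hev
    have hf' : f = 0 ∨ f = 1 := by omega
    rcases hf' with rfl | rfl
    · exact hcon.1 ⟨mem_univ _, (hP 0 w).mpr hev⟩
    · exact hcon.2 ⟨mem_univ _, (hP 1 w).mpr hev⟩
  have e0 := X.ec_phase (⟨ρ, h2⟩, 0) h1 k hz (P 0) (fun w => hP 0 w)
  have e1 := X.ec_phase (⟨ρ, h2⟩, 1) h1 k hz (P 1) (fun w => hP 1 w)
  calc _ ≤ ((univ.filter (P 0)) ∪ (univ.filter (P 1))).card * 2 ^ k :=
        Nat.mul_le_mul_right _ (card_le_card hsub)
    _ ≤ ((univ.filter (P 0)).card + (univ.filter (P 1)).card) * 2 ^ k :=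
        Nat.mul_le_mul_right _ (card_union_le _ _)
    _ ≤ _ := by rw [add_mul]; omega

/-- The good event of all mid runs. -/
def EvA (k hz : ℕ) (w : Om X.G) : Prop :=
  ∀ ρ, X.G.top ≤ ρ → ρ < X.G.H → (X.W w).EvR ρ k hz

theorem evA_count (k hz : ℕ) :
    (univ.filter fun w : Om X.G => ¬ X.EvA k hz w).card * 2 ^ k ≤
      4 * X.G.H * Fintype.card (Om X.G) := by
  obtain ⟨P, hP⟩ : ∃ P : ℕ → Om X.G → Prop, ∀ ρ w, P ρ w ↔
      (X.G.top ≤ ρ ∧ ¬ (X.W w).EvR ρ k hz) := ⟨_, fun _ _ => Iff.rfl⟩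
  have hsub : (univ.filter fun w : Om X.G => ¬ X.EvA k hz w) ⊆
      (range X.G.H).biUnion fun ρ => univ.filter (P ρ) := by
    intro w hw
    rw [mem_filter] at hw
    by_contra hcon
    apply hw.2
    intro ρ h1 h2
    by_contra hev
    apply hcon
    rw [mem_biUnion]
    exact ⟨ρ, mem_range.mpr h2, mem_filter.mpr ⟨mem_univ _, (hP ρ w).mpr ⟨h1, hev⟩⟩⟩
  have hone : ∀ ρ ∈ range X.G.H, (univ.filter (P ρ)).card * 2 ^ k ≤
      4 * Fintype.card (Om X.G) := by
    intro ρ hρ
    rw [mem_range] at hρ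
    by_cases h1 : X.G.top ≤ ρ
    · refine le_trans (Nat.mul_le_mul_right _ (card_le_card fun w hw => ?_))
        (X.ev_count h1 hρ k hz)
      rw [mem_filter] at hw ⊢
      exact ⟨mem_univ _, ((hP ρ w).mp hw.2).2⟩
    · have : univ.filter (P ρ) = ∅ := by
        apply filter_eq_empty_iff.mpr
        intro w _ hw
        exact h1 ((hP ρ w).mp hw).1
      rw [this, card_empty, zero_mul]
      exact Nat.zero_le _
  calc _ ≤ ((range X.G.H).biUnion fun ρ => univ.filter (P ρ)).card * 2 ^ k :=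
        Nat.mul_le_mul_right _ (card_le_card hsub)
    _ ≤ (∑ ρ ∈ range X.G.H, (univ.filter (P ρ)).card) * 2 ^ k :=
        Nat.mul_le_mul_right _ card_biUnion_le
    _ = ∑ ρ ∈ range X.G.H, (univ.filter (P ρ)).card * 2 ^ k := sum_mul _ _ _
    _ ≤ ∑ _ρ ∈ range X.G.H, 4 * Fintype.card (Om X.G) := sum_le_sum hone
    _ = 4 * X.G.H * Fintype.card (Om X.G) := by
        rw [sum_const, card_range, smul_eq_mul]; ring

end Vd

namespace Wd

variable (W : Wd n D)

/-- `(G')` for all tick runs. PROOF: `gr_top`, `gr_mid`. -/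
theorem gr_all {N : ℕ → ℕ} {Nt Nm : ℕ} (hG : W.G.Good N Nt Nm) {k hz : ℕ}
    (hk : k ≤ 2 ^ (W.G.A.ν0 + 1)) (hE : ∀ ρ, W.G.top ≤ ρ → ρ < W.G.H → W.EvR ρ k hz)
    {ρ : ℕ} (hρ : ρ < W.G.H)
    (hp : (W.Pt ρ hz).card ≤ (W.G.A.L + 1) ^ 3 * 2 ^ W.G.lev ρ)
    {A : Finset (Fin n)} (hA : ∀ b ∈ A, W.go b ρ ∧ W.eT b ρ ≤ hz)
    (hM : ∀ b ∈ A, (W.Mf b ρ ∩ A).card < 64 * 2 ^ W.G.lev ρ) :
    1024 * A.card ≤ 1024 * (N ρ * 2 ^ W.G.lev ρ) + (W.Pt ρ hz).card := by
  by_cases ht : ρ < W.G.top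
  · have := W.gr_top hG.few ht (fun b hb => (hA b hb).1) hM
    omega
  · have h1 : W.G.top ≤ ρ := by omega
    rw [hG.N_mid ρ h1]
    have hlev := (W.G.lev_tick hρ).1
    exact W.gr_mid h1 hρ (hG.mid ρ h1 hρ) (hE ρ h1 hρ)
      (hk.trans (Nat.pow_le_pow_right (by norm_num) hlev)) hp hA hM

/-- A time after which no run `ρ < nR` ends; it does not depend on the tables. -/
noncomputable def hmax (G : Geo n) (σ : ℕ → Option (Fin n)) (nR : ℕ) : ℕ :=
  ∑ p, tme σ p (∑ j ∈ range (G.st nR), (G.ln j + G.ln j))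

theorem eT_le_hmax {p : Fin n} {ρ : ℕ} (h : ρ < W.nR) : W.eT p ρ ≤ hmax W.G W.σ W.nR := by
  have h1 : W.eT p ρ ≤ tme W.σ p (∑ j ∈ range (W.G.st W.nR), (W.G.ln j + W.G.ln j)) := by
    show tme W.σ p (W.S.off (W.G.la ρ + 1) - 1) ≤ _
    rw [tme_le W.fair]
    have h2 : W.S.off (W.G.la ρ + 1) ≤ W.S.off (W.G.st W.nR) := by
      unfold Sys.off
      refine sum_le_sum_of_subset (range_mono ?_)
      rw [W.G.la_succ]
      exact W.G.st_le h
    have h3 : W.S.off (W.G.st W.nR) = ∑ j ∈ range (W.G.st W.nR), (W.G.ln j + W.G.ln j) := rfl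
    omega
  exact h1.trans (single_le_sum
    (f := fun p => tme W.σ p (∑ j ∈ range (W.G.st W.nR), (W.G.ln j + W.G.ln j)))
    (fun _ _ => Nat.zero_le _) (mem_univ p))

theorem Pt_hmax {ρ : ℕ} (h : ρ < W.nR) :
    W.Pt ρ (hmax W.G W.σ W.nR) = univ.filter fun p => W.go p ρ := by
  unfold Pt
  ext p
  simp only [mem_filter, mem_univ, true_and]
  constructor
  · exact fun h => h.1
  · exact fun hg => ⟨hg, ((W.sT_lt_fT p ρ).le.trans (W.fT_le_eT p ρ)).trans (W.eT_le_hmax h)⟩

end Wd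

end Pool.Agent.E217
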