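import Pool.Agent.MP217Exact.Rules

set_option autoImplicit false

/-!
# Runs and passes
-/

namespace Pool.Agent.E217

open Finset
open Pool.Agent.X217 (Tb)

attribute [local instance 10] Classical.propDecidable

variable {n : ℕ}

namespace Geo

variable (G : Geo n)

theorem rl_pos (ρ : ℕ) : 0 < G.rl ρ := by
  unfold rl
  split_ifs <;> omega

theorem st_succ (ρ : ℕ) : G.st (ρ + 1) = G.st ρ + G.rl ρ := by
  unfold st
  rw [sum_range_succ]

private theorem dc_mono : StrictMono G.st := by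
  refine strictMono_nat_of_lt_succ fun ρ => ?_
  have h1 := G.st_succ ρ
  have h2 := G.rl_pos ρ
  omega

theorem st_lt {ρ ρ' : ℕ} (h : ρ < ρ') : G.st ρ < G.st ρ' := by
  exact dc_mono G h

theorem st_le {ρ ρ' : ℕ} (h : ρ ≤ ρ') : G.st ρ ≤ G.st ρ' := by
  exact (dc_mono G).monotone h

theorem st_lt_iff {ρ ρ' : ℕ} : G.st ρ < G.st ρ' ↔ ρ < ρ' := by
  exact (dc_mono G).lt_iff_lt

theorem st_inj {ρ ρ' : ℕ} (h : G.st ρ = G.st ρ') : ρ = ρ' := by
  exact (dc_mono G).injective h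

theorem la_succ (ρ : ℕ) : G.la ρ + 1 = G.st (ρ + 1) := by
  have h1 := G.st_succ ρ
  have h2 := G.rl_pos ρ
  unfold la
  omega

theorem st_le_la (ρ : ℕ) : G.st ρ ≤ G.la ρ := by
  have h1 := G.st_succ ρ
  have h2 := G.rl_pos ρ
  unfold la
  omega

theorem rOf_spec (i : ℕ) : G.st (G.rOf i) ≤ i ∧ i < G.st (G.rOf i + 1) := by
  have h1 : G.st (G.rOf i) ≤ i := by
    unfold rOf
    refine Nat.findGreatest_spec (P := fun ρ => G.st ρ ≤ i) (Nat.zero_le i) ?_
    show G.st 0 ≤ i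
    unfold st
    rw [range_zero, sum_empty]
    exact Nat.zero_le i
  refine ⟨h1, ?_⟩
  by_contra h
  rw [not_lt] at h
  have h2 : G.rOf i + 1 ≤ i := le_trans ((dc_mono G).id_le _) h
  exact Nat.findGreatest_is_greatest (P := fun ρ => G.st ρ ≤ i) (k := G.rOf i + 1)
    (Nat.lt_succ_self _) h2 h

theorem rOf_eq {ρ i : ℕ} (h1 : G.st ρ ≤ i) (h2 : i < G.st (ρ + 1)) : G.rOf i = ρ := by
  obtain ⟨h3, h4⟩ := G.rOf_spec i
  have h5 : ρ < G.rOf i + 1 := G.st_lt_iff.1 (lt_of_le_of_lt h1 h4)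
  have h6 : G.rOf i < ρ + 1 := G.st_lt_iff.1 (lt_of_le_of_lt h3 h2)
  omega

theorem rOf_st (ρ : ℕ) : G.rOf (G.st ρ) = ρ := by
  exact G.rOf_eq le_rfl (G.st_lt (Nat.lt_succ_self ρ))

theorem jOf_st (ρ : ℕ) : G.jOf (G.st ρ) = 0 := by
  unfold jOf
  rw [G.rOf_st, Nat.sub_self]

theorem rOf_la (ρ : ℕ) : G.rOf (G.la ρ) = ρ := by
  refine G.rOf_eq (G.st_le_la ρ) ?_
  have := G.la_succ ρ
  omega

theorem jOf_zero {i : ℕ} : G.jOf i = 0 ↔ i = G.st (G.rOf i) := by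
  have h := (G.rOf_spec i).1
  unfold jOf
  omega

theorem last_iff {i : ℕ} : G.Last i ↔ i = G.la (G.rOf i) := by
  have h := G.la_succ (G.rOf i)
  unfold Last
  omega

theorem last_la (ρ : ℕ) : G.Last (G.la ρ) := by
  rw [G.last_iff, G.rOf_la]

/-- A tick run has more than one pass. -/
theorem st_lt_la {ρ : ℕ} (h : ρ < G.H) : G.st ρ + 1 ≤ G.la ρ := by
  have h1 := G.la_succ ρ
  have h2 := G.st_succ ρ
  have h3 : 2 ≤ G.rl ρ := by
    unfold rl
    rw [if_neg (by omega)]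
    split_ifs <;> omega
  omega

/-- A bottom run consists of one pass. -/
theorem la_bot {ρ : ℕ} (h : G.H ≤ ρ) : G.la ρ = G.st ρ := by
  have h1 := G.la_succ ρ
  have h2 := G.st_succ ρ
  have h3 : G.rl ρ = 1 := by
    unfold rl
    rw [if_pos h]
  omega

theorem lev_le (ρ : ℕ) : G.lev ρ ≤ G.A.L := by
  unfold lev
  omega

theorem lev_tick {ρ : ℕ} (h : ρ < G.H) : G.A.ν0 < G.lev ρ ∧ G.lev ρ = G.A.L - ρ := by
  have h1 := G.H_eq
  unfold lev
  rw [min_eq_left h.le]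
  omega

theorem lev_bot {ρ : ℕ} (h : G.H ≤ ρ) : G.lev ρ = G.A.ν0 := by
  have h1 := G.H_eq
  unfold lev
  rw [min_eq_right h]
  omega

theorem lev_anti {ρ ρ' : ℕ} (h : ρ ≤ ρ') : G.lev ρ' ≤ G.lev ρ := by
  unfold lev
  have : min ρ G.H ≤ min ρ' G.H := min_le_min_right _ h
  omega

theorem lev_inj {ρ ρ' : ℕ} (h : ρ < G.H) (e : G.lev ρ = G.lev ρ') : ρ = ρ' := by
  have h1 := G.H_eq
  unfold lev at e
  rw [min_eq_left h.le] at e
  rcases le_total ρ' G.H with h2 | h2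
  · rw [min_eq_left h2] at e
    omega
  · rw [min_eq_right h2] at e
    omega

/-! ### Mid runs -/

theorem p0_zero (ρ : ℕ) : G.p0 ρ 0 = G.st ρ + 1 := by
  unfold p0
  omega

theorem p0_one (ρ : ℕ) : G.p0 ρ 1 = G.st ρ + (G.mid ρ).N + 3 := by
  unfold p0
  omega

theorem la_mid {ρ : ℕ} (h1 : G.top ≤ ρ) (h2 : ρ < G.H) : G.la ρ = G.p0 ρ 1 + (G.mid ρ).N := by
  have h3 := G.la_succ ρ
  have h4 := G.st_succ ρ
  have h5 : G.rl ρ = 2 * (G.mid ρ).N + 4 := by
    unfold rl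
    rw [if_neg (by omega), if_neg (by omega)]
  rw [G.p0_one]
  omega

/-- The passes of tick phase `f`. -/
theorem dec_ph {ρ f s : ℕ} (h1 : G.top ≤ ρ) (h2 : ρ < G.H) (hf : f < 2) (hs : 1 ≤ s)
    (hs' : s ≤ (G.mid ρ).N) : G.rOf (G.p0 ρ f + s - 1) = ρ ∧
      G.kd (G.rOf (G.p0 ρ f + s - 1)) (G.jOf (G.p0 ρ f + s - 1)) = .ph f s := by
  have h4 := G.st_succ ρ
  have h5 : G.rl ρ = 2 * (G.mid ρ).N + 4 := by
    unfold rl
    rw [if_neg (by omega), if_neg (by omega)]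
  have h6 : G.p0 ρ f + s - 1 = G.st ρ + (f * ((G.mid ρ).N + 2) + s) := by
    unfold p0
    omega
  have h7 : G.rOf (G.p0 ρ f + s - 1) = ρ := by
    rw [h6]
    refine G.rOf_eq (by omega) ?_
    rw [h4, h5]
    interval_cases f <;> omega
  refine ⟨h7, ?_⟩
  have h8 : G.jOf (G.p0 ρ f + s - 1) = f * ((G.mid ρ).N + 2) + s := by
    unfold jOf
    rw [h7, h6]
    omega
  rw [h7, h8]
  unfold kd
  rw [if_neg (by omega), if_neg (by omega)]
  interval_cases f
  · rw [if_pos (by omega), Nat.zero_mul, Nat.zero_add]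
  · rw [if_neg (by omega), if_neg (by omega), if_pos (by omega)]
    congr 1
    omega

/-- The passes of kind `ph`. -/
theorem kd_ph {i f s : ℕ} (h : G.kd (G.rOf i) (G.jOf i) = .ph f s) :
    G.top ≤ G.rOf i ∧ (G.rOf i < G.H ∧ f < 2) ∧ 1 ≤ s ∧ s ≤ (G.mid (G.rOf i)).N ∧
      i = G.p0 (G.rOf i) f + s - 1 := by
  have h0 := G.rOf_spec i
  have h1 := G.st_succ (G.rOf i)
  have hj : i = G.st (G.rOf i) + G.jOf i := by
    unfold jOf
    omega
  by_cases hH : G.H ≤ G.rOf i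
  · exfalso
    have h2 : G.jOf i = 0 := by
      have h3 : G.rl (G.rOf i) = 1 := by
        unfold rl
        rw [if_pos hH]
      unfold jOf
      omega
    rw [h2] at h
    unfold kd at h
    rw [if_pos rfl] at h
    cases h
  · unfold kd at h
    split_ifs at h with a1 a2 a3 a4 a5 a6
    · cases h
      refine ⟨by omega, ⟨by omega, by omega⟩, by omega, a4, ?_⟩
      unfold p0
      omega
    · cases h
      refine ⟨by omega, ⟨by omega, by omega⟩, by omega, by omega, ?_⟩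
      unfold p0
      omega

/-- The two passes between the phases. -/
theorem dec_hop {ρ k : ℕ} (h1 : G.top ≤ ρ) (h2 : ρ < G.H) (hk : k < 2) :
    G.rOf (G.p0 ρ 0 + (G.mid ρ).N + k) = ρ ∧
      G.kd (G.rOf (G.p0 ρ 0 + (G.mid ρ).N + k)) (G.jOf (G.p0 ρ 0 + (G.mid ρ).N + k)) = .hop := by
  have h4 := G.st_succ ρ
  have h5 : G.rl ρ = 2 * (G.mid ρ).N + 4 := by
    unfold rl
    rw [if_neg (by omega), if_neg (by omega)]
  have h6 : G.p0 ρ 0 + (G.mid ρ).N + k = G.st ρ + ((G.mid ρ).N + 1 + k) := by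
    unfold p0
    omega
  have h7 : G.rOf (G.p0 ρ 0 + (G.mid ρ).N + k) = ρ := by
    rw [h6]
    refine G.rOf_eq (by omega) ?_
    omega
  refine ⟨h7, ?_⟩
  have h8 : G.jOf (G.p0 ρ 0 + (G.mid ρ).N + k) = (G.mid ρ).N + 1 + k := by
    unfold jOf
    rw [h7, h6]
    omega
  rw [h7, h8]
  unfold kd
  rw [if_neg (by omega), if_neg (by omega), if_neg (by omega), if_pos (by omega)]

/-- The ticks of a top run. -/
theorem dec_top {ρ t : ℕ} (h1 : ρ < G.top) (ht : 1 ≤ t) (ht' : t ≤ G.It) :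
    G.rOf (G.st ρ + t) = ρ ∧ G.kd (G.rOf (G.st ρ + t)) (G.jOf (G.st ρ + t)) = .top t := by
  have h0 := G.top_le
  have h4 := G.st_succ ρ
  have h5 : G.rl ρ = G.It + 2 := by
    unfold rl
    rw [if_neg (by omega), if_pos h1]
  have h7 : G.rOf (G.st ρ + t) = ρ := G.rOf_eq (by omega) (by omega)
  refine ⟨h7, ?_⟩
  have h8 : G.jOf (G.st ρ + t) = t := by
    unfold jOf
    rw [h7]
    omega
  rw [h7, h8]
  unfold kd
  rw [if_neg (by omega), if_pos h1, if_pos ht']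

theorem la_top {ρ : ℕ} (h1 : ρ < G.top) : G.la ρ = G.st ρ + G.It + 1 := by
  have h0 := G.top_le
  have h3 := G.la_succ ρ
  have h4 := G.st_succ ρ
  have h5 : G.rl ρ = G.It + 2 := by
    unfold rl
    rw [if_neg (by omega), if_pos h1]
  omega

theorem chan_st (ρ : ℕ) : G.chan (G.st ρ) = 0 := by
  unfold chan
  rw [G.jOf_st]
  unfold kd
  rw [if_pos rfl]

private theorem dc_chan {i : ℕ} (h : G.jOf i ≠ 0) :
    4 * G.rOf i + 1 ≤ G.chan i ∧ G.chan i ≤ 4 * G.rOf i + 4 := by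
  unfold chan kd
  rw [if_neg h]
  split_ifs <;> simp only [] <;> omega

theorem chan_zero {i : ℕ} : G.chan i = 0 ↔ G.jOf i = 0 := by
  constructor
  · intro h
    by_contra h'
    have := dc_chan G h'
    omega
  · intro h
    unfold chan
    rw [h]
    unfold kd
    rw [if_pos rfl]

/-- Passes with the same channel, not `0`, are in the same run. -/
theorem chan_run {i j : ℕ} (h : G.chan i = G.chan j) (h0 : G.chan i ≠ 0) :
    G.rOf i = G.rOf j := by
  have h1 : G.jOf i ≠ 0 := fun h' => h0 (G.chan_zero.2 h')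
  have h2 : G.jOf j ≠ 0 := fun h' => h0 (h.trans (G.chan_zero.2 h'))
  have h3 := dc_chan G h1
  have h4 := dc_chan G h2
  omega

end Geo

end Pool.Agent.E217
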