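import Pool.Agent.MP217Exact.MTick
import Pool.Agent.X217.Tt3

set_option autoImplicit false

/-!
# The ticks of the top levels
-/

namespace Pool.Agent.E217

open Finset
open Pool.Agent.P217 (typ Lvl)
open Pool.Agent.X217 (ttS ttZ ttLen)

attribute [local instance 10] Classical.propDecidable

variable {n : ℕ} {D : Type}

theorem mem_padl {m : ℕ} {p x : Fin n} {A : Finset (Fin n)} (h : x ∈ A) : x ∈ padl m p A := by
  unfold padl
  rw [List.mem_append]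
  exact Or.inl (mem_toList.2 h)

/-- The passes `i1, …, i1 + 2 ^ I - 1` are the ticks of a top level with the lists `TL`. -/
structure TopPh (I : ℕ) (TL : ℕ → Fin n → Finset (Fin n)) (len : ℕ → ℕ) (i1 : ℕ)
    (S : Sys n D) : Prop where
  ok : S.Ok
  hE : i1 + 2 ^ I ≤ S.E
  ch : ∀ s < 2 ^ I, S.ch (i1 + s) = S.ch i1
  tm : S.tm i1 = true
  rs : ∀ s, 1 ≤ s → s < 2 ^ I → S.rs (i1 + s) = false
  wt : ∀ p M t, 1 ≤ t → t ≤ 2 ^ I →
    S.tw p (i1 + t - 1) M = padl (len (typ I t)) p (TL (typ I t) p)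
  rt : ∀ p M t, 1 ≤ t → t ≤ 2 ^ I →
    S.tr p (i1 + t - 1) M = padl (len (typ I t)) p (TL (typ I t) p)

variable {I : ℕ} {TL : ℕ → Fin n → Finset (Fin n)} {len : ℕ → ℕ} {i1 : ℕ} {S : Sys n D}
  {σ : ℕ → Option (Fin n)}

/-- The team of `p` after `t` ticks. -/
private noncomputable def gtT (S : Sys n D) (σ : ℕ → Option (Fin n)) (i1 : ℕ) (p : Fin n)
    (t : ℕ) : Finset (Stp n) :=
  if t = 0 then (S.sI σ p i1).M else S.ME σ p (i1 + t - 1)

private noncomputable def gtM (S : Sys n D) (σ : ℕ → Option (Fin n)) (i1 : ℕ) (A : Finset (Fin n))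
    (p : Fin n) (t : ℕ) : Finset (Fin n) :=
  A.filter fun a => ∃ j, i1 ≤ j ∧ (a, j) ∈ gtT S σ i1 p t

private theorem gt_sub {A : Finset (Fin n)} {p q : Fin n} {t t' : ℕ}
    (h : gtT S σ i1 p t ⊆ gtT S σ i1 q t') : gtM S σ i1 A p t ⊆ gtM S σ i1 A q t' := by
  intro a ha
  unfold gtM at ha ⊢
  rw [mem_filter] at ha ⊢
  obtain ⟨h1, j, h2, h3⟩ := ha
  exact ⟨h1, j, h2, h h3⟩

/-- What is known after `t - 1` ticks is written in tick `t`. -/
private theorem gt_beg (h : TopPh I TL len i1 S) (hσ : Fair σ) {p : Fin n}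
    (hp : S.Al σ p (i1 + 2 ^ I - 1)) {t : ℕ} (h1 : 1 ≤ t) (h2 : t ≤ 2 ^ I) :
    gtT S σ i1 p (t - 1) ⊆ (S.sI σ p (i1 + t - 1)).M := by
  have hE := h.hE
  unfold gtT
  by_cases h3 : t - 1 = 0
  · rw [if_pos h3]
    have : i1 + t - 1 = i1 := by omega
    rw [this]
  · rw [if_neg h3]
    refine Sys.ME_sub h.ok hσ (by omega) (by omega)
      (Sys.al_mono h.ok hσ hp (by omega) (by omega)) ?_
    intro k hk1 hk2
    obtain ⟨s, rfl⟩ : ∃ s, k = i1 + s := ⟨k - i1, by omega⟩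
    exact h.rs s (by omega) (by omega)

/-- Few participants if everybody knows few. -/
theorem TopPh.few (h : TopPh I TL len i1 S) (hσ : Fair σ)
    (anti : ∀ i j p, i ≤ j → TL j p ⊆ TL i p) {B C : ℕ}
    (few : ∀ X : Lvl (Fin n), X.I = I → X.TL = TL →
      (∀ p ∈ X.S, (X.M p (2 ^ I)).card < B) → X.S.card ≤ C)
    {A : Finset (Fin n)} (hA : ∀ b ∈ A, S.Al σ b (i1 + 2 ^ I - 1))
    (hM : ∀ b ∈ A, (A.filter fun a => ∃ j, i1 ≤ j ∧
      (a, j) ∈ S.ME σ b (i1 + 2 ^ I - 1)).card < B) : A.card ≤ C := by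
  have hE := h.hE
  have hpos : 1 ≤ 2 ^ I := Nat.one_le_two_pow
  have hch : ∀ t, 1 ≤ t → t ≤ 2 ^ I → S.ch (i1 + t - 1) = S.ch i1 := by
    intro t h1 h2
    obtain ⟨s, rfl⟩ : ∃ s, t = s + 1 := ⟨t - 1, by omega⟩
    exact h.ch s (by omega)
  have htm : ∀ t, 1 ≤ t → t ≤ 2 ^ I → S.tm (i1 + t - 1) = true := by
    intro t h1 h2
    rw [h.ok.tm_ch _ i1 (hch t h1 h2)]
    exact h.tm
  have hal : ∀ p ∈ A, ∀ t, 1 ≤ t → t ≤ 2 ^ I → S.Al σ p (i1 + t - 1) := fun p hp t h1 h2 =>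
    Sys.al_mono h.ok hσ (hA p hp) (by omega) (by omega)
  -- one direction of the flow
  have hflow : ∀ p ∈ A, ∀ q ∈ A, ∀ t t', 1 ≤ t → t ≤ 2 ^ I → 1 ≤ t' → t' ≤ 2 ^ I →
      q ∈ TL (typ I t) p → p ∈ TL (typ I t') q →
      S.be σ p (i1 + t - 1) ≤ S.be σ q (i1 + t' - 1) →
      gtM S σ i1 A p (t - 1) ⊆ gtM S σ i1 A q t' := by
    intro p hp q hq t t' h1 h2 h1' h2' hqp hpq hbe
    refine gt_sub ((gt_beg h hσ (hA p hp) h1 h2).trans ?_)
    have hf := (Sys.flow h.ok hσ (w := p) (x := q) (i := i1 + t - 1) (j := i1 + t' - 1)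
      (by omega) (by omega) ((hch t h1 h2).trans (hch t' h1' h2').symm) (hal p hp t h1 h2)
      (hal q hq t' h1' h2') (by rw [h.wt p _ t h1 h2]; exact mem_padl hqp)
      (by rw [h.rt q _ t' h1' h2']; exact mem_padl hpq) hbe).2 (htm t h1 h2)
    unfold gtT
    rw [if_neg (by omega)]
    exact hf
  let X : Lvl (Fin n) :=
    { S := A
      I := I
      M := gtM S σ i1 A
      TL := TL
      self := by
        intro p hp
        unfold gtM gtT
        rw [if_pos rfl, mem_filter]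
        exact ⟨hp, i1, le_rfl, Sys.own_M h.ok hσ (by omega)
          (Sys.al_mono h.ok hσ (hA p hp) (by omega) (by omega))⟩
      mono := by
        intro p hp t ht
        refine gt_sub ?_
        have h1 := gt_beg h hσ (hA p hp) (t := t + 1) (by omega) (by omega)
        rw [Nat.add_sub_cancel] at h1
        refine h1.trans ?_
        unfold gtT
        rw [if_neg (by omega)]
        unfold Sys.ME
        exact subset_union_left
      anti := anti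
      dekker := by
        intro p hp q hq _ t t' h1 h2 h1' h2' hqp hpq
        rcases le_total (S.be σ p (i1 + t - 1)) (S.be σ q (i1 + t' - 1)) with hbe | hbe
        · exact Or.inl (hflow p hp q hq t t' h1 h2 h1' h2' hqp hpq hbe)
        · exact Or.inr (hflow q hq p hp t' t h1' h2' h1 h2 hpq hqp hbe) }
  refine few X rfl rfl ?_
  intro p hp
  have h1 : X.M p (2 ^ I) = A.filter fun a => ∃ j, i1 ≤ j ∧
      (a, j) ∈ S.ME σ p (i1 + 2 ^ I - 1) := by
    show gtM S σ i1 A p (2 ^ I) = _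
    unfold gtM gtT
    rw [if_neg (by omega)]
  rw [h1]
  exact hM p hp

/-- The static tables of a top level. -/
structure TTab (I L l n : ℕ) where
  TL : ℕ → Fin n → Finset (Fin n)
  self : ∀ i p, p ∈ TL i p
  symm : ∀ i p q, q ∈ TL i p → p ∈ TL i q
  anti : ∀ i j p, i ≤ j → TL j p ⊆ TL i p
  card : ∀ i ≤ I, ∀ p, (TL i p).card ≤ ttLen n I (l + ttS I) (ttZ L) i
  few : ∀ X : Lvl (Fin n), X.I = I → X.TL = TL →
    (∀ p ∈ X.S, (X.M p (2 ^ I)).card < 64 * 2 ^ l) → X.S.card ≤ 2 ^ 26 * I ^ 4 * 2 ^ l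

/-- The tables exist. -/
theorem exists_ttab {n L I l : ℕ} (hn : n < 2 ^ (L + 1)) (hI : 4 * (L + 5) ≤ 2 ^ I)
    (hI' : 2 ^ I ≤ 8 * (L + 5)) (hs : l + ttS I ≤ L) (hℓ : 8 ≤ Nat.log 2 (L + 1))
    (h30 : L < l + 30 * Nat.log 2 (L + 1)) : Nonempty (TTab I L l n) := by
  obtain ⟨TL, h1, h2, h3, h4, h5⟩ := Pool.Agent.X217.tt_top hn hI hI' hs hℓ h30
  exact ⟨⟨TL, h1, h2, h3, h4, h5⟩⟩

/-- The statement `(G')` for a top level: `A` is a set of processors which take part in the last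
tick, and which know few members of `A`. -/
theorem gp_top {L l : ℕ} (T : TTab I L l n) (h : TopPh I T.TL len i1 S) (hσ : Fair σ)
    {A : Finset (Fin n)} (hA : ∀ b ∈ A, S.Al σ b (i1 + 2 ^ I - 1)) (M : Fin n → Finset (Fin n))
    (hf : ∀ b ∈ A, ∀ a ∈ A, ∀ j, i1 ≤ j → (a, j) ∈ S.ME σ b (i1 + 2 ^ I - 1) → a ∈ M b)
    (few : ∀ b ∈ A, (M b ∩ A).card < 64 * 2 ^ l) : A.card ≤ 2 ^ 26 * I ^ 4 * 2 ^ l := by
  refine h.few hσ T.anti T.few hA ?_
  intro b hb
  refine lt_of_le_of_lt (card_le_card ?_) (few b hb)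
  intro a ha
  rw [mem_filter] at ha
  obtain ⟨ha, j, hj, hm⟩ := ha
  exact mem_inter.2 ⟨hf b hb a ha j hj hm, ha⟩

/-- At the highest levels nothing is to be proved. -/
theorem gp_trivial {n L I l : ℕ} (hn : n < 2 ^ (L + 1)) (hI : 1 ≤ I) (hs : L < l + ttS I)
    (A : Finset (Fin n)) : A.card ≤ 2 ^ 26 * I ^ 4 * 2 ^ l := by
  have h1 : A.card ≤ n := by
    have := card_le_univ A
    rwa [Fintype.card_fin] at this
  have h2 : 2 ^ (L + 1) ≤ 2 ^ (ttS I + l) := Nat.pow_le_pow_right (by norm_num) (by omega)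
  have h3 : 2 ^ (ttS I + l) ≤ 2 ^ 9 * I ^ 2 * 2 ^ l := by
    rw [pow_add]
    exact Nat.mul_le_mul_right _ (Pool.Agent.X217.ttS_le hI)
  have h4 : 2 ^ 9 * I ^ 2 * 2 ^ l ≤ 2 ^ 26 * I ^ 4 * 2 ^ l :=
    Nat.mul_le_mul_right _ (Nat.mul_le_mul (by norm_num) (Nat.pow_le_pow_right hI (by norm_num)))
  omega

end Pool.Agent.E217
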