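import Pool.Agent.MP217Exact.MTime

set_option autoImplicit false

/-!
# The machine: counting steps
-/

namespace Pool.Agent.E217

open Finset

attribute [local instance 10] Classical.propDecidable

variable {n : ℕ} {D : Type}

namespace Sys

variable {S : Sys n D} {σ : ℕ → Option (Fin n)}

/-- The number of steps of `p` before time `t`. -/
noncomputable def steps (S : Sys n D) (σ : ℕ → Option (Fin n)) (t : ℕ) (p : Fin n) : ℕ :=
  ((range t).filter fun t' => σ t' = some p ∧ ¬ S.Idle ((S.run σ t').st p)).card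

private theorem mwork_off (S : Sys n D) (i : ℕ) : S.off (i + 1) = S.off i + (S.lw i + S.lr i) := by
  unfold off
  rw [sum_range_succ]

private theorem mwork_off_mono (S : Sys n D) {i j : ℕ} (h : i ≤ j) : S.off i ≤ S.off j := by
  induction j, h using Nat.le_induction with
  | base => exact le_rfl
  | succ j _ ih => exact ih.trans (by rw [mwork_off]; exact Nat.le_add_right _ _)

/-- the number of steps is the number of their counts -/
private theorem mwork_card (S : Sys n D) (σ : ℕ → Option (Fin n)) (t : ℕ) (p : Fin n)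
    (U : Finset ℕ) (h : ∀ t' < t, σ t' = some p → ¬ S.Idle ((S.run σ t').st p) →
      cnt σ p t' ∈ U) : S.steps σ t p ≤ U.card := by
  unfold steps
  refine card_le_card_of_injOn (fun t' => cnt σ p t') (fun t' ht => ?_) ?_
  · rw [coe_filter] at ht
    have ht' : t' ∈ range t ∧ σ t' = some p ∧ ¬ S.Idle ((S.run σ t').st p) := ht
    exact h t' (mem_range.1 ht'.1) ht'.2.1 ht'.2.2
  · intro t1 h1 t2 h2 he
    rw [coe_filter] at h1 h2
    have h1' : t1 ∈ range t ∧ σ t1 = some p ∧ ¬ S.Idle ((S.run σ t1).st p) := h1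
    have h2' : t2 ∈ range t ∧ σ t2 = some p ∧ ¬ S.Idle ((S.run σ t2).st p) := h2
    exact Nat.count_injective h1'.2.1 h2'.2.1 he

/-- A processor takes at most `lw i + lr i` steps in a pass in which it takes part. -/
theorem steps_le (hS : S.Ok) (hσ : Fair σ) (t : ℕ) (p : Fin n) : S.steps σ t p ≤
    ∑ i ∈ (range S.E).filter (fun i => S.Al σ p i ∧ S.al σ p i < t), (S.lw i + S.lr i) := by
  have h1 := mwork_card S σ t p (((range S.E).filter
    (fun i => S.Al σ p i ∧ S.al σ p i < t)).biUnion fun i => Ico (S.off i) (S.off (i + 1))) ?_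
  · refine h1.trans (card_biUnion_le.trans (sum_le_sum fun i _ => ?_))
    rw [Nat.card_Ico, mwork_off]
    omega
  · intro t' ht' hst hid
    obtain ⟨hi, hal, ho1, ho2⟩ := al_of hS hσ hid
    rw [mem_biUnion]
    refine ⟨_, mem_filter.2 ⟨mem_range.2 hi, hal, ?_⟩, mem_Ico.2 ⟨ho1, ho2⟩⟩
    refine lt_of_le_of_lt ?_ ht'
    have h2 : tme σ p (cnt σ p t') = t' := Nat.nth_count hst
    unfold al
    rw [← h2]
    unfold tme
    refine Nat.nth_monotone (hσ p) ?_
    rw [show Nat.nth (fun t => σ t = some p) (cnt σ p t') = t' from h2]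
    exact ho1

/-- The number of steps is bounded (for every schedule). -/
theorem steps_bdd (hS : S.Ok) (σ : ℕ → Option (Fin n)) (t : ℕ) (p : Fin n) :
    S.steps σ t p ≤ S.off S.E := by
  have h1 := mwork_card S σ t p (range (S.off S.E)) ?_
  · rwa [card_range] at h1
  · intro t' _ _ hid
    obtain ⟨h2, h3⟩ := pos_cnt hS hid
    have hi : ((S.run σ t').st p).i < S.E := by
      by_contra hlt
      exact hid (Or.inr (not_lt.1 hlt))
    have h4 := mwork_off_mono S (Nat.succ_le_of_lt hi)
    have h5 := mwork_off S ((S.run σ t').st p).i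
    rw [Nat.succ_eq_add_one] at h4
    rw [mem_range]
    omega

end Sys

end Pool.Agent.E217
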