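import Pool.Agent.MP217Exact.RunsI
import Pool.Agent.MP217Exact.MWork

set_option autoImplicit false

/-!
# Idle processors and the number of steps, for programs with runs
-/

namespace Pool.Agent.E217

open Finset

attribute [local instance 10] Classical.propDecidable

variable {n : ℕ} {D : Type}

namespace Geo

/-- The number of steps of run `ρ`. -/
def cost (G : Geo n) (ρ : ℕ) : ℕ := ∑ i ∈ Ico (G.st ρ) (G.st (ρ + 1)), 2 * G.ln i

end Geo

namespace Wd

variable (W : Wd n D)

/-- An idle processor which takes part in run `ρ` has finished it. -/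
private theorem id_lt {t : ℕ} {p : Fin n} (h : W.S.Idle ((W.S.run W.σ t).st p)) {ρ : ℕ}
    (hρ : ρ < W.nR) (hg : W.go p ρ) : W.eT p ρ < t := by
  have hE : W.S.E = W.G.st W.nR := rfl
  by_contra hc
  push Not at hc
  have h1 : t ≤ tme W.σ p (W.S.off (W.G.la ρ + 1) - 1) := hc
  rw [le_tme_iff W.fair p] at h1
  rw [W.G.la_succ] at h1
  have h2 : 0 < W.S.off (W.G.st (ρ + 1)) := by
    have h3 := Sys.off_lt W.ok (show W.G.la ρ < W.G.st (ρ + 1) by
      rw [← W.G.la_succ]; exact Nat.lt_succ_self _)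
    omega
  refine W.not_idle (j := W.G.st (ρ + 1)) (by rw [hE]; exact W.G.st_le hρ) ?_ (by omega) h
  intro k hk
  rcases Nat.lt_or_ge k (W.G.st ρ) with h4 | h4
  · exact Sys.al_mono W.ok W.fair hg h4.le (by rw [hE]; exact W.G.st_le hρ.le)
  · exact W.go_pass hρ hg h4 (by rw [← W.G.la_succ] at hk; omega)

/-- A processor which does not take steps any more has finished a last run.
PROOF: let `ρ < nR` be the last run with `go p ρ`; `go p (ρ + 1)` is false or `ρ + 1 = nR`;
`eT p ρ < t`: otherwise the state at time `t` is the state inside a pass in which `p` takes part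
(`st_in`), and `sp` is false there. -/
theorem idle_run (hnd : ∀ p i K M d, ¬ W.G.Last i → W.nd p i K M d = d) {t : ℕ} {p : Fin n}
    (h : W.S.Idle ((W.S.run W.σ t).st p)) : ∃ ρ < W.nR, W.go p ρ ∧ W.eT p ρ < t ∧
      ((W.S.run W.σ t).st p).d = W.dS p (ρ + 1) ∧
      (W.sp (W.dS p (ρ + 1)) = true ∨ ρ + 1 = W.nR) := by
  rcases W.idle_cases h with ⟨ρ, hρ, hg, hsp, hst⟩ | ⟨hg, hst⟩
  · exact ⟨ρ, hρ, hg, W.id_lt h hρ hg, by rw [hst]; rfl, Or.inl hsp⟩
  · have h0 : 0 < W.nR := lt_of_le_of_lt (Nat.zero_le _) W.hR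
    have h1 : W.nR - 1 + 1 = W.nR := Nat.sub_add_cancel h0
    have h2 : W.go p (W.nR - 1) := W.go_mono (Nat.sub_le _ _) le_rfl hg
    exact ⟨W.nR - 1, by omega, h2, W.id_lt h (by omega) h2, by rw [hst, h1]; rfl, Or.inr h1⟩

private theorem id_sum (G : Geo n) (g : ℕ → ℕ) (R : ℕ) :
    ∑ i ∈ range (G.st R), g i = ∑ ρ ∈ range R, ∑ i ∈ Ico (G.st ρ) (G.st (ρ + 1)), g i := by
  induction R with
  | zero => simp [Geo.st]
  | succ R ih =>
    rw [sum_range_succ, ← ih, range_eq_Ico, range_eq_Ico,
      sum_Ico_consecutive g (Nat.zero_le _) (G.st_le (Nat.le_succ R))]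

/-- The number of steps. PROOF: `Sys.steps_le`; the passes in which `p` takes part, ordered by
runs; `al_go`, and `sT p ρ ≤ al p i`. -/
theorem steps_run (t : ℕ) : ∑ p, W.S.steps W.σ t p ≤
    ∑ ρ ∈ range W.nR, W.G.cost ρ * (univ.filter fun p => W.go p ρ).card := by
  have hE : W.S.E = W.G.st W.nR := rfl
  calc ∑ p, W.S.steps W.σ t p
      ≤ ∑ p, ∑ i ∈ range (W.G.st W.nR), (if W.S.Al W.σ p i then 2 * W.G.ln i else 0) := by
        refine sum_le_sum fun p _ => ?_
        refine (Sys.steps_le W.ok W.fair t p).trans ?_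
        rw [hE, sum_filter]
        refine sum_le_sum fun i _ => ?_
        have hl : W.S.lw i + W.S.lr i = 2 * W.G.ln i := by
          show W.G.ln i + W.G.ln i = _
          omega
        by_cases h : W.S.Al W.σ p i
        · rw [if_pos h]
          split_ifs
          · exact hl.le
          · exact Nat.zero_le _
        · rw [if_neg h, if_neg (fun hh => h hh.1)]
    _ = ∑ i ∈ range (W.G.st W.nR), 2 * W.G.ln i * (univ.filter fun p => W.S.Al W.σ p i).card := by
        rw [sum_comm]
        refine sum_congr rfl fun i _ => ?_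
        rw [card_filter, mul_sum]
        refine sum_congr rfl fun p _ => ?_
        by_cases h : W.S.Al W.σ p i
        · simp [h]
        · simp [h]
    _ ≤ ∑ i ∈ range (W.G.st W.nR),
          2 * W.G.ln i * (univ.filter fun p => W.go p (W.G.rOf i)).card := by
        refine sum_le_sum fun i hi => Nat.mul_le_mul_left _ (card_le_card ?_)
        intro p hp
        rw [mem_filter] at hp ⊢
        exact ⟨mem_univ _, (W.al_go (by rw [hE]; exact mem_range.mp hi) hp.2).1⟩
    _ = ∑ ρ ∈ range W.nR, ∑ i ∈ Ico (W.G.st ρ) (W.G.st (ρ + 1)),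
          2 * W.G.ln i * (univ.filter fun p => W.go p (W.G.rOf i)).card := id_sum W.G _ _
    _ = ∑ ρ ∈ range W.nR, W.G.cost ρ * (univ.filter fun p => W.go p ρ).card := by
        refine sum_congr rfl fun ρ _ => ?_
        unfold Geo.cost
        rw [sum_mul]
        refine sum_congr rfl fun i hi => ?_
        rw [mem_Ico] at hi
        rw [W.G.rOf_eq hi.1 hi.2]

end Wd

end Pool.Agent.E217
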