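import Pool.Agent.MP217Exact.Good
import Pool.Agent.X217.Gp

set_option autoImplicit false

/-!
# The parameters of a mid run from the static tables
-/

namespace Pool.Agent.E217

open Finset
open Pool.Agent.X217 (MTab mdN mdJ stR stLam stWe stA stR0 S2Bad st_w9 st_J st_cost st_R_pos st_nb)

attribute [local instance 10] Classical.propDecidable

/-- The bound for the size of the lists of the passes between the phases. -/
def mdm (n L l : ℕ) : ℕ := 32 * (L + 2) * n / 2 ^ (l - 2) + 8 * (L + 1) + 1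

/-- The parameters of a mid run. -/
noncomputable def mkMid {L l n : ℕ} (T : MTab 12 L l n) : MidP n where
  N := mdN 12 L l
  J := mdJ l
  Rn := stR 12 L l
  Lam := 2 ^ stLam L l
  om := stWe L l
  X :=
    { bl := T.bl
      κ := T.κ
      ix := T.ix
      mx := 2 ^ stLam L l * 2 ^ stWe L l
      inj := T.inj
      card := fun r hr x => by
        convert T.card r hr x }
  l0 := fun p => univ.filter fun q => ∃ r, T.g r p = T.g r q
  m0 := mdm n L l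
  N_pos := by
    unfold mdN
    positivity
  Rn_pos := st_R_pos 12 L l
  Lam_pos := by positivity
  mx_pos := by positivity
  m0_pos := Nat.succ_pos _
  l0_card := fun p => by
    classical
    have h1 : (univ.filter fun q => ∃ r, T.g r p = T.g r q) ⊆
        insert p ((univ : Finset (Fin (16 * (L + 2)))).biUnion fun r =>
          univ.filter fun y => y ≠ p ∧ T.g r y = T.g r p) := by
      intro q hq
      obtain ⟨-, r, hr⟩ := mem_filter.1 hq
      rw [mem_insert]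
      by_cases hqp : q = p
      · exact Or.inl hqp
      · refine Or.inr (mem_biUnion.2 ⟨r, mem_univ _, ?_⟩)
        simp only [mem_filter, mem_univ, true_and]
        exact ⟨hqp, hr.symm⟩
    have h2 := card_le_card h1
    have h3 := (card_insert_le p ((univ : Finset (Fin (16 * (L + 2)))).biUnion fun r =>
          univ.filter fun y => y ≠ p ∧ T.g r y = T.g r p))
    have h4 := card_biUnion_le (s := (univ : Finset (Fin (16 * (L + 2)))))
      (t := fun r => univ.filter fun y => y ≠ p ∧ T.g r y = T.g r p)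
    have h5 : 2 ^ (l - 2) * ∑ r, (univ.filter fun y => y ≠ p ∧ T.g r y = T.g r p).card ≤
        2 * (16 * (L + 2) * n) + 2 ^ (l - 2) * (8 * (L + 1)) := by
      convert T.deg p
    have h6 : ∑ r, (univ.filter fun y => y ≠ p ∧ T.g r y = T.g r p).card ≤
        32 * (L + 2) * n / 2 ^ (l - 2) + 8 * (L + 1) := by
      have h7 : 0 < 2 ^ (l - 2) := by positivity
      rw [← Nat.sub_le_iff_le_add, Nat.le_div_iff_mul_le h7, Nat.sub_mul]
      rw [Nat.sub_le_iff_le_add, mul_comm]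
      calc _ ≤ _ := h5
        _ = _ := by ring
    unfold mdm
    omega

theorem mkMid_N {L l n : ℕ} (T : MTab 12 L l n) :
    (mkMid T).N = 256 * 4096 * 2 ^ stWe L l := rfl

theorem mkMid_Rn {L l n : ℕ} (T : MTab 12 L l n) : (mkMid T).Rn = stR 12 L l := rfl

theorem mkMid_Lam {L l n : ℕ} (T : MTab 12 L l n) : (mkMid T).Lam = 2 ^ stLam L l := rfl

theorem mkMid_om {L l n : ℕ} (T : MTab 12 L l n) : (mkMid T).om = stWe L l := rfl

theorem mkMid_mx {L l n : ℕ} (T : MTab 12 L l n) :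
    (mkMid T).X.mx = 2 ^ stLam L l * 2 ^ stWe L l := rfl

theorem mkMid_m0 {L l n : ℕ} (T : MTab 12 L l n) : 2 ^ (l - 2) * (mkMid T).m0 ≤
    2 * (16 * (L + 2) * n) + 2 ^ (l - 2) * (8 * (L + 1) + 1) := by
  show 2 ^ (l - 2) * (32 * (L + 2) * n / 2 ^ (l - 2) + 8 * (L + 1) + 1) ≤ _
  have h : 2 ^ (l - 2) * (32 * (L + 2) * n / 2 ^ (l - 2)) ≤ 32 * (L + 2) * n :=
    Nat.mul_div_le _ _
  calc 2 ^ (l - 2) * (32 * (L + 2) * n / 2 ^ (l - 2) + 8 * (L + 1) + 1)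
      = 2 ^ (l - 2) * (32 * (L + 2) * n / 2 ^ (l - 2)) + 2 ^ (l - 2) * (8 * (L + 1) + 1) := by
        ring
    _ ≤ 32 * (L + 2) * n + 2 ^ (l - 2) * (8 * (L + 1) + 1) := Nat.add_le_add_right h _
    _ = _ := by ring

/-- The properties of the parameters. -/
theorem mkMid_good {L l n : ℕ} (T : MTab 12 L l n) (hq : 22 ≤ Nat.log 2 (L + 1)) (hl : 16 ≤ l)
    (h30 : l + 30 * Nat.log 2 (L + 1) ≤ L) : (mkMid T).Good L l (2 ^ 25) := by
  classical
  have hq' : 12 + 10 ≤ Nat.log 2 (L + 1) := hq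
  have hJ1 : 1 ≤ mdJ l ∧ mdJ l + 3 ≤ l ∧ l ≤ 2 * mdJ l ∧ mdJ l ≤ l ∧ mdJ l ≤ l / 2 + 10 := by
    unfold mdJ
    omega
  have hF : 2 ^ (7 + mdJ l) * 2 ^ (l + 1 - mdJ l) = 2 ^ 8 * 2 ^ l := by
    rw [← pow_add, ← pow_add]
    congr 1
    omega
  have hj1 : 8 * (2 ^ (l - 2 - mdJ l) * 2 ^ (mdJ l - 1)) = 2 ^ l := by
    rw [← pow_add, show (8 : ℕ) = 2 ^ 3 by norm_num, ← pow_add]
    congr 1
    omega
  have hJ2 : 2 ^ (l + 1 - mdJ l) * 2 ^ (mdJ l - 1) = 2 ^ l := by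
    rw [← pow_add]
    congr 1
    omega
  have hnb : 2 ^ stA l * mdJ l ≤ 2 ^ 21 * 2 ^ l :=
    (Nat.mul_le_mul_left _ hJ1.2.2.2.1).trans (st_nb hl)
  have hpos : 1 ≤ 2 ^ l := Nat.one_le_two_pow
  refine ⟨2 ^ stA l, 16 * (L + 2), 2 ^ (l - 2), 2 ^ (l - 2 - mdJ l), 2 ^ (l + 1 - mdJ l),
    2 ^ (7 + mdJ l), T.g, ⟨rfl, ?_, hJ1.1, ?_⟩, ?_, T.los, ?_, T.join, ?_, ?_, ?_⟩
  · exact st_w9 hq' hl h30
  · exact hJ1.2.2.2.2.trans (st_J hq' hl h30)
  · exact fun r _ S => T.nb r S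
  · exact T.hll
  · refine ⟨Nat.one_le_two_pow, Nat.one_le_two_pow, ?_⟩
    rw [hF]
    omega
  · rintro p q ⟨r, hr⟩
    exact mem_filter.2 ⟨mem_univ _, r, hr⟩
  · show 4 * (3 * (2 ^ stA l * mdJ l) + 1) + 8 * (2 ^ (l - 2 - mdJ l) * 2 ^ (mdJ l - 1)) +
      2 * (2 ^ (l + 1 - mdJ l) * 2 ^ (mdJ l - 1)) + 2 * (2 ^ (7 + mdJ l) * 2 ^ (l + 1 - mdJ l)) +
      1 ≤ 2 ^ 25 * 2 ^ l
    rw [hj1, hJ2, hF]
    norm_num at hnb ⊢
    omega

/-- The cost of the passes of a mid run after the ext pass. -/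
theorem md_cost {L l n : ℕ} (T : MTab 12 L l n) (hq : 22 ≤ Nat.log 2 (L + 1)) (hl : 16 ≤ l)
    (h30 : l + 30 * Nat.log 2 (L + 1) ≤ L) (hn : 2 ^ L ≤ n) :
    2 ^ l * (2 * ((mkMid T).Rn * (mkMid T).X.mx +
      (mkMid T).N * ((mkMid T).Rn * (3 * (mkMid T).Lam))) + 2 * (mkMid T).m0 + 1) ≤
      2 ^ 31 * ((L + 5) * n) := by
  have hq' : 12 + 10 ≤ Nat.log 2 (L + 1) := hq
  have hc := st_cost (q := 12) hq' hl h30
  show 2 ^ l * (2 * (stR 12 L l * (2 ^ stLam L l * 2 ^ stWe L l) +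
      mdN 12 L l * (stR 12 L l * (3 * 2 ^ stLam L l))) + 2 * mdm n L l + 1) ≤ _
  set R := stR 12 L l with hR
  set A := 2 ^ stLam L l with hA
  set w := 2 ^ stWe L l with hw
  have hN : mdN 12 L l = 2 ^ 20 * w := by
    unfold mdN
    rw [← hw]
    ring
  have h1 : 2 * (R * (A * w) + mdN 12 L l * (R * (3 * A))) ≤ 2 ^ 23 * (R * (A * w)) := by
    rw [hN]
    have e : 2 * (R * (A * w) + 2 ^ 20 * w * (R * (3 * A))) =
        (2 + 3 * 2 ^ 21) * (R * (A * w)) := by ring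
    rw [e]
    exact Nat.mul_le_mul_right _ (by norm_num)
  have hll : l ≤ L := by omega
  have h2 : 2 ^ l * (2 ^ 23 * (R * (A * w))) ≤ 21 * 2 ^ 25 * ((L + 5) * n) := by
    have h3 : 2 ^ l * 2 ^ (L - l) = 2 ^ L := by
      rw [← pow_add]
      congr 1
      omega
    calc 2 ^ l * (2 ^ 23 * (R * (A * w))) = 2 ^ l * (2 ^ 13 * (2 ^ 10 * (R * (A * w)))) := by ring
      _ ≤ 2 ^ l * (2 ^ 13 * (21 * 2 ^ 12 * (L + 5) * 2 ^ (L - l))) :=
          Nat.mul_le_mul_left _ (Nat.mul_le_mul_left _ hc)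
      _ = 21 * 2 ^ 25 * ((L + 5) * (2 ^ l * 2 ^ (L - l))) := by ring
      _ ≤ _ := by
          rw [h3]
          exact Nat.mul_le_mul_left _ (Nat.mul_le_mul_left _ hn)
  have h4 : 2 ^ l * (32 * (L + 2) * n / 2 ^ (l - 2)) ≤ 128 * ((L + 2) * n) := by
    have h5 : 2 ^ l = 4 * 2 ^ (l - 2) := by
      rw [show (4 : ℕ) = 2 ^ 2 by norm_num, ← pow_add]
      congr 1
      omega
    calc 2 ^ l * (32 * (L + 2) * n / 2 ^ (l - 2))
        = 4 * (2 ^ (l - 2) * (32 * (L + 2) * n / 2 ^ (l - 2))) := by rw [h5]; ring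
      _ ≤ 4 * (32 * (L + 2) * n) := Nat.mul_le_mul_left _ (Nat.mul_div_le _ _)
      _ = _ := by ring
  have h6 : 2 ^ l ≤ n := (Nat.pow_le_pow_right (by norm_num) hll).trans hn
  have h7 : 2 ^ l * (2 * mdm n L l + 1) ≤ 2 ^ 9 * ((L + 5) * n) := by
    unfold mdm
    have e : 2 ^ l * (2 * (32 * (L + 2) * n / 2 ^ (l - 2) + 8 * (L + 1) + 1) + 1) =
        2 * (2 ^ l * (32 * (L + 2) * n / 2 ^ (l - 2))) + 2 ^ l * (16 * (L + 1) + 3) := by ring
    rw [e]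
    have h8 : 2 ^ l * (16 * (L + 1) + 3) ≤ n * (16 * (L + 1) + 3) := Nat.mul_le_mul_right _ h6
    nlinarith [Nat.zero_le (L * n), Nat.zero_le n]
  calc 2 ^ l * (2 * (R * (A * w) + mdN 12 L l * (R * (3 * A))) + 2 * mdm n L l + 1)
      = 2 ^ l * (2 * (R * (A * w) + mdN 12 L l * (R * (3 * A)))) +
          2 ^ l * (2 * mdm n L l + 1) := by ring
    _ ≤ 2 ^ l * (2 ^ 23 * (R * (A * w))) + 2 ^ 9 * ((L + 5) * n) :=
        Nat.add_le_add (Nat.mul_le_mul_left _ h1) h7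
    _ ≤ 21 * 2 ^ 25 * ((L + 5) * n) + 2 ^ 9 * ((L + 5) * n) := Nat.add_le_add_right h2 _
    _ ≤ _ := by
        rw [← Nat.add_mul]
        exact Nat.mul_le_mul_right _ (by norm_num)

end Pool.Agent.E217
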