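import Pool.Agent.MP217Exact.Good
import Pool.Agent.MP217Exact.Idl
import Pool.Agent.MP217Exact.Dec
import Pool.Agent.MP217Exact.GTop
import Pool.Agent.MP217Exact.MkMid
import Pool.Agent.MP217Two.Arith
import Pool.Agent.X217.NumE

set_option autoImplicit false

/-!
# The numeric properties of the parameters
-/

namespace Pool.Agent.E217

open Finset
open Pool.Agent.P217 (typ Lvl)
open Pool.Agent.X217 (ttS ttZ ttLen eC eI eV eH eN)
open Pool.Agent.Q217 (pL pν pI mkG Tks)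

attribute [local instance 10] Classical.propDecidable

variable {n : ℕ}

namespace Geo

variable (G : Geo n)

/-- The length of the lists of pass `j` of run `ρ`. -/
private def lnj (ρ j : ℕ) : ℕ :=
  match G.kd ρ j with
  | .ext => G.A.len (G.lev ρ)
  | .top t => G.tn ρ t
  | .ph _ s => if s = 1 then (G.mid ρ).Rn * (G.mid ρ).X.mx
      else (G.mid ρ).Rn * (3 * (G.mid ρ).Lam)
  | .hop => (G.mid ρ).m0
  | .idle => 1

private theorem eg_cost (ρ : ℕ) : G.cost ρ = 2 * ∑ j ∈ range (G.rl ρ), G.lnj ρ j := by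
  unfold cost
  rw [G.st_succ, sum_Ico_eq_sum_range, Nat.add_sub_cancel_left, mul_sum]
  refine sum_congr rfl fun j hj => ?_
  rw [mem_range] at hj
  have h1 : G.rOf (G.st ρ + j) = ρ := G.rOf_eq (by omega) (by rw [G.st_succ]; omega)
  have h2 : G.jOf (G.st ρ + j) = j := by
    unfold jOf
    rw [h1]
    omega
  unfold ln lnj
  rw [h1, h2]
  cases G.kd ρ j <;> rfl

private theorem eg_bot {ρ : ℕ} (h : G.H ≤ ρ) : G.cost ρ = 2 * G.A.len (G.lev ρ) := by
  rw [eg_cost]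
  have h1 : G.rl ρ = 1 := by
    unfold rl
    rw [if_pos h]
  rw [h1, sum_range_one]
  unfold lnj kd
  rw [if_pos rfl]

private theorem eg_top {ρ : ℕ} (h : ρ < G.top) :
    G.cost ρ = 2 * (G.A.len (G.lev ρ) + ∑ t ∈ Icc 1 G.It, G.tn ρ t + 1) := by
  rw [eg_cost]
  have h0 := G.top_le
  have h1 : G.rl ρ = 1 + G.It + 1 := by
    unfold rl
    rw [if_neg (by omega), if_pos h]
    omega
  rw [h1, sum_range_succ, sum_range_add, sum_range_one]
  have e1 : G.lnj ρ 0 = G.A.len (G.lev ρ) := by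
    unfold lnj kd
    rw [if_pos rfl]
  have e2 : G.lnj ρ (1 + G.It) = 1 := by
    unfold lnj kd
    rw [if_neg (by omega), if_pos h, if_neg (by omega)]
  have e3 : ∑ x ∈ range G.It, G.lnj ρ (1 + x) = ∑ t ∈ Icc 1 G.It, G.tn ρ t := by
    have : Icc 1 G.It = Ico 1 (G.It + 1) := by
      ext x
      rw [mem_Icc, mem_Ico]
      omega
    rw [this, sum_Ico_eq_sum_range, Nat.add_sub_cancel]
    refine sum_congr rfl fun x hx => ?_
    rw [mem_range] at hx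
    unfold lnj kd
    rw [if_neg (by omega), if_pos h, if_pos (by omega)]
  rw [e1, e2, e3]

private theorem eg_mid {ρ : ℕ} (h1 : G.top ≤ ρ) (h2 : ρ < G.H) :
    G.cost ρ ≤ 2 * (G.A.len (G.lev ρ) + (2 * ((G.mid ρ).Rn * (G.mid ρ).X.mx +
      (G.mid ρ).N * ((G.mid ρ).Rn * (3 * (G.mid ρ).Lam))) + 2 * (G.mid ρ).m0 + 1)) := by
  rw [eg_cost]
  refine Nat.mul_le_mul_left _ ?_
  have hr : G.rl ρ = 1 + (G.mid ρ).N + 2 + (G.mid ρ).N + 1 := by
    unfold rl
    rw [if_neg (by omega), if_neg (by omega)]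
    omega
  have hN := (G.mid ρ).N_pos
  set N := (G.mid ρ).N with hNd
  set A := (G.mid ρ).Rn * (G.mid ρ).X.mx with hA
  set B := (G.mid ρ).Rn * (3 * (G.mid ρ).Lam) with hB
  rw [hr, sum_range_succ, sum_range_add, sum_range_add, sum_range_add, sum_range_one]
  have e0 : G.lnj ρ 0 = G.A.len (G.lev ρ) := by
    unfold lnj kd
    rw [if_pos rfl]
  have hs : ∑ x ∈ range N, (if x = 0 then A else B) ≤ A + N * B := by
    calc ∑ x ∈ range N, (if x = 0 then A else B)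
        ≤ ∑ x ∈ range N, ((if x = 0 then A else 0) + B) := by
          refine sum_le_sum fun x _ => ?_
          split_ifs <;> omega
      _ = A + N * B := by
          rw [sum_add_distrib, sum_ite_eq' (range N) 0 fun _ => A, if_pos (mem_range.2 hN),
            sum_const, card_range, smul_eq_mul]
  have e1 : ∑ x ∈ range N, G.lnj ρ (1 + x) ≤ A + N * B := by
    refine le_trans (le_of_eq (sum_congr rfl fun x hx => ?_)) hs
    rw [mem_range] at hx
    unfold lnj kd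
    rw [if_neg (by omega), if_neg (by omega), if_pos (by omega)]
    by_cases hx0 : x = 0
    · subst hx0
      rw [if_pos rfl]
      show (if 1 + 0 = 1 then _ else _) = _
      rw [if_pos (by omega)]
    · rw [if_neg hx0]
      show (if 1 + x = 1 then _ else _) = _
      rw [if_neg (by omega)]
  have e2 : ∑ x ∈ range 2, G.lnj ρ (1 + N + x) ≤ 2 * (G.mid ρ).m0 := by
    have : ∀ x ∈ range 2, G.lnj ρ (1 + N + x) ≤ (G.mid ρ).m0 := by
      intro x hx
      rw [mem_range] at hx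
      unfold lnj kd
      rw [if_neg (by omega), if_neg (by omega), if_neg (by omega), if_pos (by omega)]
    have h3 := sum_le_card_nsmul _ _ _ this
    rwa [card_range, smul_eq_mul] at h3
  have e3 : ∑ x ∈ range N, G.lnj ρ (1 + N + 2 + x) ≤ A + N * B := by
    refine le_trans (le_of_eq (sum_congr rfl fun x hx => ?_)) hs
    rw [mem_range] at hx
    unfold lnj kd
    rw [if_neg (by omega), if_neg (by omega), if_neg (by omega), if_neg (by omega),
      if_pos (by omega)]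
    by_cases hx0 : x = 0
    · subst hx0
      rw [if_pos rfl]
      show (if 1 + N + 2 + 0 - (N + 2) = 1 then _ else _) = _
      rw [if_pos (by omega)]
    · rw [if_neg hx0]
      show (if 1 + N + 2 + x - (N + 2) = 1 then _ else _) = _
      rw [if_neg (by omega)]
  have e4 : G.lnj ρ (1 + N + 2 + N) = 1 := by
    unfold lnj kd
    rw [if_neg (by omega), if_neg (by omega), if_neg (by omega), if_neg (by omega),
      if_neg (by omega)]
  rw [e0, e4]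
  omega

end Geo

private theorem eg_nu (L : ℕ) : Nat.clog 2 (16 * (L + 1)) = eV L := by
  unfold eV eC
  apply le_antisymm
  · refine Nat.clog_le_of_le_pow ?_
    have h := Nat.le_pow_clog (b := 2) (by norm_num) (L + 1)
    rw [pow_add]
    omega
  · have h1 := Nat.le_pow_clog (b := 2) (by norm_num) (16 * (L + 1))
    have h2 : 4 ≤ Nat.clog 2 (16 * (L + 1)) := by
      have h3 : 2 ^ 4 ≤ 2 ^ Nat.clog 2 (16 * (L + 1)) := by omega
      exact (Nat.pow_le_pow_iff_right (by norm_num)).1 h3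
    obtain ⟨c, hc⟩ : ∃ c, Nat.clog 2 (16 * (L + 1)) = c + 4 :=
      ⟨Nat.clog 2 (16 * (L + 1)) - 4, by omega⟩
    rw [hc] at h1 ⊢
    rw [pow_add] at h1
    have h4 : Nat.clog 2 (L + 1) ≤ c := Nat.clog_le_of_le_pow (by omega)
    omega

/-- The length of the ext passes. -/
private theorem eg_ext (T : Tks n) (hn : 1 ≤ n) {l : ℕ} (hl : l ≤ pL n) :
    2 ^ l * (mkG T).len l ≤ 256 * ((pL n + 1) * n) := by
  have hnu : 2 ^ pν n ≤ 32 * (pL n + 1) := by
    unfold pν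
    rw [eg_nu]
    exact (Pool.Agent.X217.eV_le (pL n)).2
  have hg : 2 ^ Nat.clog 2 (pL n + 1) ≤ 2 * (pL n + 1) := (Pool.Agent.X217.eC_le (pL n)).2
  have hLn : 2 ^ pL n ≤ n := Nat.pow_log_le_self 2 (by omega)
  change 2 ^ l * (if l ≤ pν n then n else 4 * n * 2 ^ pν n / 2 ^ l + (mkG T).ns l) ≤ _
  split_ifs with h
  · calc 2 ^ l * n ≤ 2 ^ pν n * n :=
          Nat.mul_le_mul_right _ (Nat.pow_le_pow_right (by norm_num) h)
      _ ≤ 32 * (pL n + 1) * n := Nat.mul_le_mul_right _ hnu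
      _ = 32 * ((pL n + 1) * n) := by ring
      _ ≤ 256 * ((pL n + 1) * n) := Nat.mul_le_mul_right _ (by norm_num)
  · have hns : (mkG T).ns l = 2 ^ (pL n - l + Nat.clog 2 (pL n + 1) + 3) +
        (l - pν n - 1) * 2 ^ (pL n - l + 5) := rfl
    rw [hns, Nat.mul_add, Nat.mul_add]
    have e1 : 2 ^ l * (4 * n * 2 ^ pν n / 2 ^ l) ≤ 128 * ((pL n + 1) * n) := by
      calc 2 ^ l * (4 * n * 2 ^ pν n / 2 ^ l) ≤ 4 * n * 2 ^ pν n := Nat.mul_div_le _ _
        _ ≤ 4 * n * (32 * (pL n + 1)) := Nat.mul_le_mul_left _ hnu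
        _ = 128 * ((pL n + 1) * n) := by ring
    have e2 : 2 ^ l * 2 ^ (pL n - l + Nat.clog 2 (pL n + 1) + 3) ≤ 16 * ((pL n + 1) * n) := by
      calc 2 ^ l * 2 ^ (pL n - l + Nat.clog 2 (pL n + 1) + 3)
          = 2 ^ pL n * 2 ^ Nat.clog 2 (pL n + 1) * 8 := by
            rw [← pow_add, ← pow_add, show (8 : ℕ) = 2 ^ 3 by norm_num, ← pow_add]
            congr 1
            omega
        _ ≤ n * (2 * (pL n + 1)) * 8 := by gcongr
        _ = 16 * ((pL n + 1) * n) := by ring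
    have e3 : 2 ^ l * ((l - pν n - 1) * 2 ^ (pL n - l + 5)) ≤ 32 * ((pL n + 1) * n) := by
      calc 2 ^ l * ((l - pν n - 1) * 2 ^ (pL n - l + 5))
          = (l - pν n - 1) * (2 ^ l * 2 ^ (pL n - l + 5)) := by ring
        _ = (l - pν n - 1) * (2 ^ pL n * 32) := by
            rw [← pow_add, show (32 : ℕ) = 2 ^ 5 by norm_num, ← pow_add]
            congr 2
            omega
        _ ≤ (pL n + 1) * (n * 32) := Nat.mul_le_mul (by omega) (Nat.mul_le_mul_right _ hLn)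
        _ = 32 * ((pL n + 1) * n) := by ring
    omega

/-- The lists of a top run. -/
private theorem eg_tt {L I ρ : ℕ} (hn : n < 2 ^ (L + 1)) (hn' : 2 ^ L ≤ n)
    (hI : 4 * (L + 5) ≤ 2 ^ I) (hI' : 2 ^ I ≤ 8 * (L + 5)) (hℓ : 8 ≤ Nat.log 2 (L + 1))
    (hρ : ρ < 30 * Nat.log 2 (L + 1)) (hρL : ρ ≤ L) :
    ∃ (TT : ℕ → Fin n → Finset (Fin n)) (tn : ℕ → ℕ), (∀ t, 0 < tn t) ∧
      (∀ t p, (TT t p).card ≤ tn t) ∧
      (∀ (A : Finset (Fin n)) (M : Fin n → ℕ → Finset (Fin n)), (∀ p ∈ A, p ∈ M p 0) →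
        (∀ p ∈ A, ∀ t < 2 ^ I, M p t ⊆ M p (t + 1)) →
        (∀ p ∈ A, ∀ q ∈ A, p ≠ q → ∀ t t', 1 ≤ t → t ≤ 2 ^ I → 1 ≤ t' → t' ≤ 2 ^ I →
          q ∈ TT t p → p ∈ TT t' q → M p (t - 1) ⊆ M q t' ∨ M q (t' - 1) ⊆ M p t) →
        (∀ p ∈ A, (M p (2 ^ I)).card < 64 * 2 ^ (L - ρ)) →
          A.card ≤ 2 ^ 26 * I ^ 4 * 2 ^ (L - ρ)) ∧
      2 ^ (L - ρ) * ∑ t ∈ Icc 1 (2 ^ I), tn t ≤ 8 * ((L + 5) * n) := by
  by_cases hs : L - ρ + ttS I ≤ L
  · obtain ⟨T⟩ := exists_ttab (n := n) (l := L - ρ) hn hI hI' hs hℓ (by omega)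
    have hle : ∀ t, typ I t ≤ I := fun t => Nat.sub_le _ _
    refine ⟨fun t p => T.TL (typ I t) p, fun t => ttLen n I (L - ρ + ttS I) (ttZ L) (typ I t),
      fun t => ?_, fun t p => T.card _ (hle t) p, ?_, ?_⟩
    · show 0 < (1 + I * ttZ L) + _
      omega
    · intro A M h1 h2 h3 h4
      exact T.few
        { S := A
          I := I
          M := M
          TL := T.TL
          self := h1
          mono := h2
          anti := T.anti
          dekker := h3 } rfl rfl h4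
    · refine (Pool.Agent.X217.tt_cost hn' hI hI' hs).trans ?_
      exact Nat.mul_le_mul_right _ (by norm_num)
  · refine ⟨fun _ p => {p}, fun _ => 1, fun _ => Nat.one_pos, fun _ p => ?_, ?_, ?_⟩
    · rw [card_singleton]
    · intro A M _ _ _ _
      have hI1 : 1 ≤ I := by
        by_contra h
        have : I = 0 := by omega
        subst this
        omega
      exact gp_trivial hn hI1 (by omega) A
    · rw [sum_const, smul_eq_mul, mul_one, Nat.card_Icc, Nat.add_sub_cancel]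
      calc 2 ^ (L - ρ) * 2 ^ I ≤ 2 ^ L * (8 * (L + 5)) :=
            Nat.mul_le_mul (Nat.pow_le_pow_right (by norm_num) (by omega)) hI'
        _ ≤ n * (8 * (L + 5)) := Nat.mul_le_mul_right _ hn'
        _ = 8 * ((L + 5) * n) := by ring

/-- The sum of the constants. -/
private theorem eg_sum {L : ℕ} (hℓ : 100 ≤ Nat.log 2 (L + 1)) {H : ℕ} (hH : H ≤ L) :
    H + ∑ ρ ∈ range H, (if ρ < 30 * Nat.log 2 (L + 1) then 2 ^ 26 * eI L ^ 4 else 2 ^ 25 + 4) + 1 ≤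
      2 ^ 29 * (L + 1) := by
  have h1 := Pool.Agent.X217.eN_sum hℓ hH
  have h2 : ∑ ρ ∈ range H, (if ρ < 30 * Nat.log 2 (L + 1) then 2 ^ 26 * eI L ^ 4
      else 2 ^ 25 + 4) ≤ ∑ ρ ∈ range H, eN L ρ + ∑ _ρ ∈ range H, 4 := by
    rw [← sum_add_distrib]
    refine sum_le_sum fun ρ hρ => ?_
    rw [mem_range] at hρ
    unfold eN
    by_cases h : ρ < 30 * Nat.log 2 (L + 1)
    · rw [if_pos h, if_pos (by omega)]
      exact Nat.le_add_right _ _
    · rw [if_neg h, if_neg (by omega)]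
  rw [sum_const, card_range, smul_eq_mul] at h2
  omega

private theorem eg_err {L : ℕ} (hℓ : 100 ≤ Nat.log 2 (L + 1)) {H : ℕ} (hH : H ≤ L) :
    64 * (2 ^ (L + 14) * (H + ∑ ρ ∈ range H,
      (if ρ < 30 * Nat.log 2 (L + 1) then 2 ^ 26 * eI L ^ 4 else 2 ^ 25 + 4) + 1)) ≤
        2 ^ (L + eH L) := by
  have h1 := eg_sum hℓ hH
  have h2 := (Pool.Agent.X217.eC_le L).1
  calc 64 * (2 ^ (L + 14) * (H + ∑ ρ ∈ range H,
        (if ρ < 30 * Nat.log 2 (L + 1) then 2 ^ 26 * eI L ^ 4 else 2 ^ 25 + 4) + 1))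
      ≤ 64 * (2 ^ (L + 14) * (2 ^ 29 * 2 ^ eC L)) :=
        Nat.mul_le_mul_left _ (Nat.mul_le_mul_left _ (h1.trans (Nat.mul_le_mul_left _ h2)))
    _ = 2 ^ (L + eC L + 49) := by
        rw [show (64 : ℕ) = 2 ^ 6 by norm_num]
        simp only [← pow_add]
        congr 1
        omega
    _ ≤ 2 ^ (L + eH L) := Nat.pow_le_pow_right (by norm_num) (by unfold eH; omega)

namespace Geo

/-- The numeric properties of the parameters: `nR` is the number of runs of the conciliator (the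
adopt-commit protocol has `H + 2` runs), `N` are the bounds of `(G')`. -/
structure Num (G : Geo n) (nR : ℕ) (N : ℕ → ℕ) (Cc : ℕ) : Prop where
  hL : G.A.ν0 + 8 ≤ G.A.L
  h4 : 4 ≤ G.hf
  h11 : 11 ≤ G.A.ν0 + G.hf
  hR : G.H + 2 ≤ nR
  hcap : 64 * ((G.A.L + 1) * 2 ^ (G.A.L + G.hf)) ≤ (nR - G.H) * 2 ^ G.H
  hrn : nR ≤ 2 ^ (2 * (G.A.L + 1))
  hnum : ∃ Nm, (∀ ρ, N ρ ≤ Nm) ∧
    2 * (2 ^ 15 * ((G.A.L + 1) * 2 ^ G.hf) + 2 ^ 12 + 2 ^ 7 * Nm) ≤ (G.A.L + 1) ^ 3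
  herr : 64 * (2 ^ (G.A.L + 14) * (G.H + ∑ ρ ∈ range G.H, N ρ + 1)) ≤ 2 ^ (G.A.L + G.hf)
  costA : ∃ A, (∀ ρ, G.cost ρ ≤ A * 2 ^ min ρ G.H) ∧
    2 ^ (G.A.L + G.hf) * A ≤ Cc * (n * (G.A.L + 1) ^ 2)

theorem Num.cost {G : Geo n} {nR : ℕ} {N : ℕ → ℕ} {Cc : ℕ} (h : G.Num nR N Cc) (ρ : ℕ)
    (_ : ρ < nR) : 2 ^ (G.A.L + G.hf) * G.cost ρ ≤
      Cc * (n * (G.A.L + 1) ^ 2) * 2 ^ min ρ G.H := by
  obtain ⟨A, h1, h2⟩ := h.costA
  calc 2 ^ (G.A.L + G.hf) * G.cost ρ ≤ 2 ^ (G.A.L + G.hf) * (A * 2 ^ min ρ G.H) :=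
        Nat.mul_le_mul_left _ (h1 ρ)
    _ = 2 ^ (G.A.L + G.hf) * A * 2 ^ min ρ G.H := by ring
    _ ≤ _ := Nat.mul_le_mul_right _ h2

end Geo

/-- The number of runs. -/
private def Geo.nRun (G : Geo n) : ℕ := G.H + 64 * (G.A.L + 1) * 2 ^ (G.A.ν0 + G.hf)

/-- The parameters exist. -/
private theorem eg_main {n : ℕ} (hℓ : 100 ≤ Nat.log 2 (Nat.log 2 n + 1)) :
    ∃ (G : Geo n) (N : ℕ → ℕ) (Nt : ℕ), G.Good N Nt (2 ^ 25) ∧ G.Num G.nRun N (2 ^ 96) := by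
  have hL1 : 2 ^ 100 ≤ Nat.log 2 n + 1 := Pool.Agent.X217.eL_big hℓ
  have hn1 : 1 ≤ n := by
    rcases Nat.eq_zero_or_pos n with h | h
    · subst h
      norm_num at hL1
    · exact h
  have hn : n < 2 ^ (pL n + 1) := Nat.lt_pow_succ_log_self (by norm_num) n
  have hn' : 2 ^ pL n ≤ n := Nat.pow_log_le_self 2 (by omega)
  obtain ⟨T⟩ := Pool.Agent.Q217.exists_tks (n := n) hn1
  have hA := Pool.Agent.Q217.mk_good hn1 T
  have hℓ' : 100 ≤ Nat.log 2 (pL n + 1) := hℓ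
  have hL1' : 2 ^ 100 ≤ pL n + 1 := hL1
  have hI := Pool.Agent.X217.eI_le (pL n)
  have hV := Pool.Agent.X217.eV_L hℓ'
  have hν := Pool.Agent.X217.eV_le (pL n)
  have hνe : pν n = eV (pL n) := eg_nu (pL n)
  have hIlog := Pool.Agent.X217.eI_log (pL n)
  obtain ⟨L, hLd⟩ : ∃ L, L = pL n := ⟨_, rfl⟩
  rw [← hLd] at hn hn' hℓ' hI hV hν hνe hIlog hL1'
  set k := Nat.log 2 (L + 1) with hk
  -- mid runs
  have hmid0 : ∀ l, 16 ≤ l → l + 30 * k ≤ L → ∃ P : MidP n, P.Good L l (2 ^ 25) ∧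
      2 ^ l * (2 * (P.Rn * P.X.mx + P.N * (P.Rn * (3 * P.Lam))) + 2 * P.m0 + 1) ≤
        2 ^ 31 * ((L + 5) * n) := by
    intro l h1 h2
    obtain ⟨M⟩ := Pool.Agent.X217.exists_mtab (q := 12) (n := n) hn (by omega) h1 h2
    exact ⟨mkMid M, mkMid_good M (by omega) h1 h2, md_cost M (by omega) h1 h2 hn'⟩
  obtain ⟨P0, -⟩ := hmid0 (L - 30 * k) (by omega) (by omega)
  have hmid1 : ∀ ρ, ∃ P : MidP n, 30 * k ≤ ρ → ρ < L - eV L → P.Good L (L - ρ) (2 ^ 25) ∧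
      2 ^ (L - ρ) * (2 * (P.Rn * P.X.mx + P.N * (P.Rn * (3 * P.Lam))) + 2 * P.m0 + 1) ≤
        2 ^ 31 * ((L + 5) * n) := by
    intro ρ
    by_cases h : 30 * k ≤ ρ ∧ ρ < L - eV L
    · obtain ⟨P, hP⟩ := hmid0 (L - ρ) (by omega) (by omega)
      exact ⟨P, fun _ _ => hP⟩
    · exact ⟨P0, fun h1 h2 => absurd ⟨h1, h2⟩ h⟩
  choose mid hmid using hmid1
  -- top runs
  have htop1 : ∀ ρ, ∃ (TT : ℕ → Fin n → Finset (Fin n)) (tn : ℕ → ℕ), (∀ t, 0 < tn t) ∧
      (∀ t p, (TT t p).card ≤ tn t) ∧ (ρ < 30 * k →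
      (∀ (A : Finset (Fin n)) (M : Fin n → ℕ → Finset (Fin n)), (∀ p ∈ A, p ∈ M p 0) →
        (∀ p ∈ A, ∀ t < 2 ^ eI L, M p t ⊆ M p (t + 1)) →
        (∀ p ∈ A, ∀ q ∈ A, p ≠ q → ∀ t t', 1 ≤ t → t ≤ 2 ^ eI L → 1 ≤ t' → t' ≤ 2 ^ eI L →
          q ∈ TT t p → p ∈ TT t' q → M p (t - 1) ⊆ M q t' ∨ M q (t' - 1) ⊆ M p t) →
        (∀ p ∈ A, (M p (2 ^ eI L)).card < 64 * 2 ^ (L - ρ)) →
          A.card ≤ 2 ^ 26 * eI L ^ 4 * 2 ^ (L - ρ)) ∧
      2 ^ (L - ρ) * ∑ t ∈ Icc 1 (2 ^ eI L), tn t ≤ 8 * ((L + 5) * n)) := by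
    intro ρ
    by_cases h : ρ < 30 * k
    · obtain ⟨TT, tn, h1, h2, h3, h4⟩ := eg_tt hn hn' hI.1 hI.2 (by omega) h (by omega)
      exact ⟨TT, tn, h1, h2, fun _ => ⟨h3, h4⟩⟩
    · exact ⟨fun _ p => {p}, fun _ => 1, fun _ => Nat.one_pos, fun _ p => by
        rw [card_singleton], fun h' => absurd h' h⟩
  choose TT tn htn hTT htop using htop1
  -- the parameters
  let G : Geo n :=
    { A := mkG T
      H := L - eV L
      top := 30 * k
      It := 2 ^ eI L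
      TT := TT
      tn := tn
      mid := mid
      hf := eH L
      top_le := by omega
      H_eq := by
        show L - eV L + pν n = pL n
        rw [hνe]
        omega
      tn_pos := htn
      TT_card := hTT
      n_pos := hn1 }
  have gL : G.A.L = L := hLd.symm
  have gν : G.A.ν0 = eV L := hνe
  have gH : G.H = L - eV L := rfl
  have gt : G.top = 30 * k := rfl
  have gh : G.hf = eH L := rfl
  have glev : ∀ ρ, ρ < G.H → G.lev ρ = L - ρ := by
    intro ρ h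
    rw [(G.lev_tick h).2, gL]
  let N : ℕ → ℕ := fun ρ => if ρ < 30 * k then 2 ^ 26 * eI L ^ 4 else 2 ^ 25 + 4
  have hI4 : 1 ≤ eI L ^ 4 := Nat.one_le_pow _ _ (by omega)
  have hN : ∀ ρ, N ρ ≤ 2 ^ 26 * eI L ^ 4 := by
    intro ρ
    show (if ρ < 30 * k then 2 ^ 26 * eI L ^ 4 else 2 ^ 25 + 4) ≤ _
    split_ifs
    · exact le_rfl
    · omega
  refine ⟨G, N, 2 ^ 26 * eI L ^ 4, ?_, ?_⟩
  · refine ⟨hA, ?_, ?_, ?_, ?_, by norm_num, by omega⟩
    · intro ρ hρ A M h1 h2 h3 h4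
      have hρH : ρ < G.H := lt_of_lt_of_le hρ G.top_le
      rw [gt] at hρ
      rw [glev ρ hρH] at h4 ⊢
      have h5 := (htop ρ hρ).1 A M h1 h2 h3 h4
      show A.card ≤ (if ρ < 30 * k then 2 ^ 26 * eI L ^ 4 else 2 ^ 25 + 4) * _
      rw [if_pos hρ]
      exact h5
    · intro ρ h1 h2
      rw [glev ρ h2, gL]
      exact (hmid ρ h1 h2).1
    · intro ρ _
      exact hN ρ
    · intro ρ h1
      rw [gt] at h1
      exact if_neg (by omega)
  · have hC := Pool.Agent.X217.eC_le L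
    have hext : ∀ ρ, 2 ^ G.lev ρ * G.A.len (G.lev ρ) ≤ 256 * ((L + 1) * n) := by
      intro ρ
      have h1 : G.lev ρ ≤ pL n := G.lev_le ρ
      have h2 := eg_ext T hn1 h1
      rw [← hLd] at h2
      exact h2
    have hL5 : (L + 5) * n ≤ 2 * ((L + 1) * n) := by
      calc (L + 5) * n ≤ 2 * (L + 1) * n := Nat.mul_le_mul_right _ (by omega)
        _ = 2 * ((L + 1) * n) := by ring
    have hpow : ∀ ρ, 2 ^ G.lev ρ ≤ (L + 1) * n := by
      intro ρ
      have h1 := G.lev_le ρ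
      rw [gL] at h1
      calc 2 ^ G.lev ρ ≤ 2 ^ L := Nat.pow_le_pow_right (by norm_num) h1
        _ ≤ n := hn'
        _ ≤ (L + 1) * n := Nat.le_mul_of_pos_left _ (by omega)
    have hup : 2 ^ eH L ≤ 2 ^ 61 * (L + 1) := by
      unfold eH
      rw [pow_add]
      calc 2 ^ eC L * 2 ^ 60 ≤ 2 * (L + 1) * 2 ^ 60 := Nat.mul_le_mul_right _ hC.2
        _ = 2 ^ 61 * (L + 1) := by ring
    refine
      { hL := by rw [gL, gν]; exact hV.1
        h4 := by rw [gh]; unfold eH; omega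
        h11 := by rw [gh]; unfold eH; omega
        hR := ?_
        hcap := ?_
        hrn := ?_
        hnum := ⟨2 ^ 26 * eI L ^ 4, hN, by
          rw [gL, gh]
          exact Pool.Agent.X217.e_num hℓ'⟩
        herr := by
          rw [gL, gh, gH]
          exact eg_err hℓ' (Nat.sub_le _ _)
        costA := ⟨2 ^ 35 * (L + 1), ?_, ?_⟩ }
    · unfold Geo.nRun
      have h1 : 0 < 2 ^ (G.A.ν0 + G.hf) := by positivity
      have h2 : 2 * 1 ≤ 64 * (G.A.L + 1) * 2 ^ (G.A.ν0 + G.hf) :=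
        Nat.mul_le_mul (by omega) h1
      omega
    · unfold Geo.nRun
      have h1 := G.H_eq
      rw [Nat.add_sub_cancel_left, ← h1]
      refine le_of_eq ?_
      rw [show G.H + G.A.ν0 + G.hf = G.A.ν0 + G.hf + G.H by omega, pow_add _ _ G.H]
      ring
    · unfold Geo.nRun
      rw [gL, gν, gH, gh]
      have h1 : L + 1 ≤ 2 ^ L := Nat.lt_two_pow_self
      have h2 : 2 ^ 6 * 2 ^ (eV L + eH L) ≤ 2 ^ L := by
        rw [← pow_add]
        exact Nat.pow_le_pow_right (by norm_num) (by omega)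
      calc L - eV L + 64 * (L + 1) * 2 ^ (eV L + eH L)
          ≤ 2 ^ L * 1 + (L + 1) * (2 ^ 6 * 2 ^ (eV L + eH L)) := by
            refine Nat.add_le_add (by omega) (le_of_eq (by ring))
        _ ≤ 2 ^ L * 2 ^ L + 2 ^ L * 2 ^ L :=
            Nat.add_le_add (Nat.mul_le_mul_left _ (by omega)) (Nat.mul_le_mul h1 h2)
        _ = 2 ^ (2 * L + 1) := by rw [pow_succ, two_mul, pow_add]; ring
        _ ≤ 2 ^ (2 * (L + 1)) := Nat.pow_le_pow_right (by norm_num) (by omega)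
    · intro ρ
      suffices hc : G.cost ρ * 2 ^ G.lev ρ ≤ 2 ^ 34 * ((L + 1) * n) by
        have h1 : G.lev ρ + min ρ G.H = L := by
          have h2 := G.H_eq
          rw [gL] at h2
          unfold Geo.lev
          rw [gL]
          have h3 : min ρ G.H ≤ G.H := min_le_right _ _
          omega
        refine Nat.le_of_mul_le_mul_right ?_ (show 0 < 2 ^ G.lev ρ by positivity)
        calc G.cost ρ * 2 ^ G.lev ρ ≤ 2 ^ 34 * ((L + 1) * n) := hc
          _ ≤ 2 ^ 34 * ((L + 1) * 2 ^ (L + 1)) :=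
              Nat.mul_le_mul_left _ (Nat.mul_le_mul_left _ hn.le)
          _ = 2 ^ 34 * ((L + 1) * 2 ^ (G.lev ρ + min ρ G.H + 1)) := by rw [h1]
          _ = 2 ^ 35 * (L + 1) * 2 ^ min ρ G.H * 2 ^ G.lev ρ := by
              rw [pow_succ, pow_add]
              ring
      have e1 := hext ρ
      have e2 := hpow ρ
      by_cases h1 : G.H ≤ ρ
      · rw [G.eg_bot h1]
        calc 2 * G.A.len (G.lev ρ) * 2 ^ G.lev ρ = 2 * (2 ^ G.lev ρ * G.A.len (G.lev ρ)) := by ring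
          _ ≤ 2 * (256 * ((L + 1) * n)) := Nat.mul_le_mul_left _ e1
          _ ≤ 2 ^ 34 * ((L + 1) * n) := by omega
      · have hH : ρ < G.H := by omega
        have e3 := glev ρ hH
        by_cases h2 : ρ < G.top
        · rw [G.eg_top h2]
          have e4 : 2 ^ G.lev ρ * ∑ t ∈ Icc 1 G.It, G.tn ρ t ≤ 8 * ((L + 5) * n) := by
            rw [e3]
            exact (htop ρ h2).2
          calc 2 * (G.A.len (G.lev ρ) + ∑ t ∈ Icc 1 G.It, G.tn ρ t + 1) * 2 ^ G.lev ρ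
              = 2 * (2 ^ G.lev ρ * G.A.len (G.lev ρ) +
                  2 ^ G.lev ρ * ∑ t ∈ Icc 1 G.It, G.tn ρ t + 2 ^ G.lev ρ) := by ring
            _ ≤ 2 ^ 34 * ((L + 1) * n) := by omega
        · have e4 := G.eg_mid (not_lt.1 h2) hH
          have e5 := (hmid ρ (not_lt.1 h2) hH).2
          rw [← e3] at e5
          calc G.cost ρ * 2 ^ G.lev ρ
              ≤ 2 * (G.A.len (G.lev ρ) + (2 * ((G.mid ρ).Rn * (G.mid ρ).X.mx +
                (G.mid ρ).N * ((G.mid ρ).Rn * (3 * (G.mid ρ).Lam))) + 2 * (G.mid ρ).m0 + 1)) *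
                  2 ^ G.lev ρ := Nat.mul_le_mul_right _ e4
            _ = 2 * (2 ^ G.lev ρ * G.A.len (G.lev ρ) +
                2 ^ G.lev ρ * (2 * ((G.mid ρ).Rn * (G.mid ρ).X.mx +
                (G.mid ρ).N * ((G.mid ρ).Rn * (3 * (G.mid ρ).Lam))) + 2 * (G.mid ρ).m0 + 1)) := by
                ring
            _ ≤ 2 ^ 34 * ((L + 1) * n) := by
                change 2 ^ G.lev ρ * (2 * ((G.mid ρ).Rn * (G.mid ρ).X.mx +
                  (G.mid ρ).N * ((G.mid ρ).Rn * (3 * (G.mid ρ).Lam))) + 2 * (G.mid ρ).m0 + 1) ≤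
                    2 ^ 31 * ((L + 5) * n) at e5
                omega
    · rw [gL, gh]
      calc 2 ^ (L + eH L) * (2 ^ 35 * (L + 1))
          = 2 ^ L * 2 ^ eH L * (2 ^ 35 * (L + 1)) := by rw [pow_add]
        _ ≤ n * (2 ^ 61 * (L + 1)) * (2 ^ 35 * (L + 1)) :=
            Nat.mul_le_mul_right _ (Nat.mul_le_mul hn' hup)
        _ = 2 ^ 96 * (n * (L + 1) ^ 2) := by ring

namespace Geo

/-- EXISTENCE OF THE PARAMETERS (helper55, helper60).
`ν0 = clog (16 (L + 1))`, `hf = clog (L + 1) + 60`, `H = L - ν0`,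
`nR = H + 64 (L + 1) 2 ^ (ν0 + hf)`, `top = 30 log (L + 1)`. -/
theorem exists_geo : ∃ n0 Cc : ℕ, ∀ n, n0 ≤ n → ∃ (G : Geo n) (nR : ℕ) (N : ℕ → ℕ) (Nt Nm : ℕ),
    G.Good N Nt Nm ∧ G.Num nR N Cc := by
  obtain ⟨m, hm⟩ : ∃ m : ℕ, m = 2 ^ 100 := ⟨_, rfl⟩
  refine ⟨2 ^ m, 2 ^ 96, fun n hn => ?_⟩
  have h1 : m ≤ Nat.log 2 n := Nat.le_log_of_pow_le (by norm_num) hn
  have h2 : 100 ≤ Nat.log 2 (Nat.log 2 n + 1) :=
    Nat.le_log_of_pow_le (by norm_num) (by omega)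
  obtain ⟨G, N, Nt, h3, h4⟩ := eg_main h2
  exact ⟨G, G.nRun, N, Nt, 2 ^ 25, h3, h4⟩

end Geo

end Pool.Agent.E217
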