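import Pool.Agent.MP217Exact.CFam2
import Pool.Agent.MP217Exact.CSuc
import Pool.Agent.MP217Exact.MLoc
import Pool.Agent.MP217Exact.EvCnt
import Pool.Agent.MP217Exact.Numb
import Pool.Agent.MP217Exact.Law
import Pool.Agent.X217.CWFe
import Pool.Agent.X217.XCov3

set_option autoImplicit false

/-!
# The probability bounds for the conciliator
-/

namespace Pool.Agent.E217

open Finset
open Pool.Agent.X217 (CW CWF FC flt)

attribute [local instance 10] Classical.propDecidable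

variable {n : ℕ}

/-- The family of worlds of the conciliator over the tables `Om G`. -/
def cfam (G : Geo n) {nR : ℕ} (hR : G.H + 2 ≤ nR) (x : Fin n → Bool) {σ : ℕ → Option (Fin n)}
    (hσ : Fair σ) : CF n (Om G) where
  G := G
  nR := nR
  σ := σ
  fair := hσ
  hR := hR
  x := x
  sd w := sdV G w.1
  pk w := pkV G w.2

variable (G : Geo n) {nR : ℕ} (hR : G.H + 2 ≤ nR) (x : Fin n → Bool) {σ : ℕ → Option (Fin n)}
  (hσ : Fair σ)

theorem cfam_tab (w : Om G) (f : Fin n × Fin nR → Bool) :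
    (cfam G hR x hσ).tab w f = tabV G nR x w f := rfl

theorem cfam_N : (cfam G hR x hσ).cwf.N = NF G nR := rfl

theorem cfam_ok {N : ℕ → ℕ} {Nt Nm Cc : ℕ} (hG : G.Good N Nt Nm) (hN : G.Num nR N Cc) :
    (cfam G hR x hσ).cwf.Ok N where
  ok := fun ω f => by
    rw [CF.cwf_W]
    exact CD.cw_ok _ hN.hL hG.A.hn
  loc := fun ω f f' h p ρ => CF.cwf_loc _ ω f f' h p ρ
  hL := hN.hL
  h4 := hN.h4
  h11 := hN.h11
  hcap := by
    have h := hN.hcap
    have e : (cfam G hR x hσ).cwf.H = G.H := by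
      show G.A.L - G.A.ν0 = G.H
      have := G.H_eq
      omega
    rw [e]
    exact h
  hrn := hN.hrn
  hnum := hN.hnum
  herr := by
    have h := hN.herr
    have e : (cfam G hR x hσ).cwf.H = G.H := by
      show G.A.L - G.A.ν0 = G.H
      have := G.H_eq
      omega
    rw [e]
    exact h

/-! ### Coverage -/

/-- The world with the teams of the runs `ρ < H` only. -/
private def prC_mod (X : CW (Fin n)) : CW (Fin n) :=
  { X with MS := fun p ρ => if ρ < X.H then X.MS p ρ else ∅ }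

private theorem prC_mod_cov {X : CW (Fin n)} (h : (prC_mod X).Cov) : X.Cov := by
  have hMS : ∀ p ρ, ρ < X.H → (prC_mod X).MS p ρ = X.MS p ρ := fun p ρ hρ => if_pos hρ
  have hDD : ∀ x ρ t, ρ < X.H → (prC_mod X).DD x ρ t = X.DD x ρ t := by
    intro x ρ t hρ
    unfold CW.DD
    refine filter_congr fun b _ => ?_
    rw [hMS b ρ hρ]
    exact Iff.rfl
  have hPub : ∀ x ρ t, ρ < X.H → ((prC_mod X).Pub x ρ t ↔ X.Pub x ρ t) := by
    intro x ρ t hρ
    unfold CW.Pub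
    rw [hDD x ρ t hρ]
    exact Iff.rfl
  constructor
  · intro x ρ t hρ h1 h2
    have h3 := h.c1 x ρ t hρ ((hPub x ρ t hρ).mpr h1) fun t' ht' h' =>
      h2 t' ht' ((hPub x ρ t' hρ).mp h')
    rw [hDD x ρ t hρ] at h3
    exact h3
  · intro b ρ t hρ h1
    have h3 := h.c2 b ρ t hρ
    rw [hMS b ρ hρ] at h3
    exact h3 h1

/-- The seeds do not change the lists of the ticks. -/
private theorem prC_lst (T T' : Tab n) (hpk : T'.pk = T.pk) (b : Bool) (p : Fin n) {i : ℕ}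
    (hi : G.jOf i ≠ 0) (M : Finset (Stp n)) : T'.lst G b p i M = T.lst G b p i M := by
  unfold Tab.lst
  rcases hk : G.kd (G.rOf i) (G.jOf i) with _ | t | ⟨f, s⟩ | _ | _
  · exfalso
    unfold Geo.kd at hk
    rw [if_neg hi] at hk
    split_ifs at hk
  · rfl
  · have hpv : T'.pv G p (G.rOf i) f b s = T.pv G p (G.rOf i) f b s := by
      funext r c
      apply Fin.ext
      show T'.pk p (G.rOf i) f b s r.val c.val % 2 ^ (G.mid (G.rOf i)).om =
        T.pk p (G.rOf i) f b s r.val c.val % 2 ^ (G.mid (G.rOf i)).om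
      rw [hpk]
    show (if s = 1 then (G.mid (G.rOf i)).X.lst1 p
      else (G.mid (G.rOf i)).X.tl (G.p0 (G.rOf i) f) (T'.pv G p (G.rOf i) f b s) p M) =
      (if s = 1 then (G.mid (G.rOf i)).X.lst1 p
      else (G.mid (G.rOf i)).X.tl (G.p0 (G.rOf i) f) (T.pv G p (G.rOf i) f b s) p M)
    rw [hpv]
  · rfl
  · rfl

/-- The teams of the skeleton do not depend on the seeds. -/
private theorem prC_MS (w w' : SD G) (v : PK G) (f : Fin n × Fin nR → Bool) {p : Fin n} {ρ : ℕ}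
    (hρ : ρ < nR) : ((cfam G hR x hσ).cd (w', v) f).K.Mf p ρ =
      ((cfam G hR x hσ).cd (w, v) f).K.Mf p ρ := by
  set C := (cfam G hR x hσ).cd (w, v) f with hC
  set C' := (cfam G hR x hσ).cd (w', v) f with hC'
  have hs : Sys.Same C.K.S C'.K.S := ⟨rfl, rfl, rfl, rfl, rfl, rfl⟩
  have hE : C.K.S.E = G.st nR := rfl
  have htm : ∀ i, C.K.S.tm i = true → G.jOf i ≠ 0 := fun i h => of_decide_eq_true h
  have hla : G.la ρ < C.K.S.E := by
    rw [hE]
    have h1 := G.la_succ ρ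
    have h2 := G.st_le (show ρ + 1 ≤ nR from hρ)
    omega
  have h := (Sys.loc C.K.ok C'.K.ok hs hσ C.K.S.E (C.K.S.en σ p (G.la ρ)) le_rfl
    (fun i j hi ht hch => by
      have h1 : G.chan i = G.chan j := hch
      have h2 : G.rOf i = G.rOf j := G.chan_run h1 fun h0 => htm i ht (G.chan_zero.1 h0)
      rw [hE] at hi ⊢
      have h3 := G.rOf_spec i
      have h4 := G.rOf_spec j
      have h5 : G.rOf i < nR := G.st_lt_iff.1 (lt_of_le_of_lt h3.1 hi)
      have h6 := G.st_le (show G.rOf j + 1 ≤ nR by omega)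
      omega)
    (fun q i M _ ht => prC_lst G C.T C'.T rfl false q (htm i ht) M)
    (fun q i M _ ht => prC_lst G C.T C'.T rfl true q (htm i ht) M)
    (fun q i hi _ => ⟨fun _ => C'.K_go q (i := i) hi.le, fun _ => C.K_go q (i := i) hi.le⟩)).2
      p (G.la ρ) hla le_rfl (C.K_go p hla.le)
  show names (C'.K.S.ME σ p (G.la ρ)) = names (C.K.S.ME σ p (G.la ρ))
  rw [h]

/-- The picks of the two developments are the same. -/
private theorem prC_pick (hf : ∀ ν ≤ G.A.ν0, ∀ y, G.A.nest.N ν y = univ) (p : Fin n) (l j s : ℕ) :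
    G.A.pick p (G.A.sc l j) s =
      G.A.nest.pick (A217.sca G.A.L G.A.g G.A.ν0 l j) p s := by
  unfold Q217.Geo.pick A217.Nest.pick Q217.Geo.sc A217.sca
  have e1 : G.A.kap0 l = A217.kap0 G.A.L G.A.g l := rfl
  have e2 : G.A.kap l = A217.kap G.A.L l := rfl
  rw [e1, e2]
  by_cases h : j < A217.kap0 G.A.L G.A.g l
  · rw [if_pos h, if_pos h, hf 0 (Nat.zero_le _), hf G.A.ν0 le_rfl, Nat.zero_max]
  · rw [if_neg h, if_neg h, max_eq_left ((Nat.le_succ _).trans (Nat.le_add_right _ _))]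

/-- The ext lists of the two developments are the same. -/
private theorem prC_ext (hf : ∀ ν ≤ G.A.ν0, ∀ y, G.A.nest.N ν y = univ) (w : Om G)
    (f : Fin n × Fin nR → Bool) (p : Fin n) (ρ : ℕ) :
    ((cfam G hR x hσ).cd w f).T.ext G p ρ =
      X217.xl G.A.nest G.A.g (G.A.L - min ρ (G.A.L - G.A.ν0)) p (X217.sdr w.1 ρ p) := by
  have hH : G.A.L - G.A.ν0 = G.H := by
    have := G.H_eq
    omega
  rw [hH]
  show G.A.extList p (G.lev ρ) (sdV G w.1 p (G.lev ρ)) =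
    X217.xl G.A.nest G.A.g (G.lev ρ) p (X217.sdr w.1 ρ p)
  unfold Q217.Geo.extList X217.xl
  by_cases h : G.lev ρ ≤ G.A.ν0
  · rw [if_pos h, if_pos h]
  · rw [if_neg h, if_neg h]
    congr 1
    have hρ : ρ < G.H := by
      by_contra hc
      exact h (G.lev_bot (not_lt.1 hc)).le
    have hl := (G.lev_tick hρ).2
    have hρL : ρ ≤ G.A.L := by
      have := G.H_eq
      omega
    have e : A217.nsl G.A.L G.A.g G.A.ν0 (G.lev ρ) = G.A.ns (G.lev ρ) := rfl
    rw [e]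
    refine List.map_congr_left fun j hj => ?_
    rw [List.mem_range] at hj
    rw [prC_pick G hf]
    congr 1
    unfold sdV
    rw [if_pos ⟨G.lev_le ρ, hj⟩, hl, Nat.sub_sub_self hρL]

/-- The worlds for fixed picks. -/
private noncomputable def prC_X (v : PK G) (w : SD G) : CW (Fin n) :=
  prC_mod ((cfam G hR x hσ).cd (w, v) fun _ => false).cw

private theorem prC_X_MS (v : PK G) (w w' : SD G) :
    (prC_X G hR x hσ v w).MS = (prC_X G hR x hσ v w').MS := by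
  have hH : G.A.L - G.A.ν0 = G.H := by
    have := G.H_eq
    omega
  funext p ρ
  show (if ρ < G.A.L - G.A.ν0 then ((cfam G hR x hσ).cd (w, v) fun _ => false).K.Mf p ρ else ∅) =
    (if ρ < G.A.L - G.A.ν0 then ((cfam G hR x hσ).cd (w', v) fun _ => false).K.Mf p ρ else ∅)
  by_cases hρ : ρ < G.A.L - G.A.ν0
  · rw [if_pos hρ, if_pos hρ]
    exact prC_MS G hR x hσ w' w v (fun _ => false) (by omega)
  · rw [if_neg hρ, if_neg hρ]

private theorem prC_X_Ext (hf : ∀ ν ≤ G.A.ν0, ∀ y, G.A.nest.N ν y = univ) (v : PK G) (w : SD G)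
    (p : Fin n) (ρ : ℕ) (y : Fin n) : y ∈ (prC_X G hR x hσ v w).Ext p ρ ↔
      y ∈ X217.xl G.A.nest G.A.g (G.A.L - min ρ (G.A.L - G.A.ν0)) p (X217.sdr w ρ p) := by
  show y ∈ (((cfam G hR x hσ).cd (w, v) fun _ => false).T.ext G p ρ).toFinset ↔ _
  rw [List.mem_toFinset, prC_ext G hR x hσ hf]

private theorem prC_X_S (v : PK G) (w : SD G) :
    (prC_X G hR x hσ v w).S = (cfam G hR x hσ).cwf.S :=
  (congrArg CW.S (CF.cwf_W (cfam G hR x hσ) (w, v) fun _ => false)).symm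

private theorem prC_X_F (v : PK G) (w : SD G) :
    (prC_X G hR x hσ v w).F = (cfam G hR x hσ).cwf.F :=
  (congrArg CW.F (CF.cwf_W (cfam G hR x hσ) (w, v) fun _ => false)).symm

/-- The coverage for the seeds only. -/
private theorem prC_cov {n L ν0 Q : ℕ} (G : A217.Nest n L ν0 Q) (hQ : Q = 4 * n * 2 ^ ν0)
    {g K R : ℕ}
    (hn : n < 2 ^ (L + 1)) (hg : L + 1 ≤ 2 ^ g) (hν0 : 16 * (L + 1) ≤ 2 ^ ν0)
    (hfull : ∀ ν ≤ ν0, ∀ x, G.N ν x = univ) (hL : ν0 ≤ L) (hR : L - ν0 < R)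
    (hK : ∀ l ≤ L, A217.nsl L g ν0 l ≤ K)
    (X : (Fin R → Fin K → Fin n → Fin (2 ^ (L + 3))) → CW (Fin n)) (X0 : CW (Fin n))
    (h0L : X0.L = L) (h0ν : X0.ν0 = ν0) (hXL : ∀ w, (X w).L = L) (hXν : ∀ w, (X w).ν0 = ν0)
    (hMS : ∀ w, (X w).MS = X0.MS) (hS : ∀ w, (X w).S = X0.S) (hF : ∀ w, (X w).F = X0.F)
    (hE : ∀ w p ρ x, x ∈ (X w).Ext p ρ ↔
      x ∈ X217.xl G g (L - min ρ (L - ν0)) p (X217.sdr w ρ p))
    (hN : ∀ w ν x, (X w).Nb ν x = G.N ν x) :
    2 ^ (16 * (L + 1)) * (univ.filter fun w => ¬ (X w).Cov).card ≤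
      (n * (L - ν0) * (n + 2)) * Fintype.card (Fin R → Fin K → Fin n → Fin (2 ^ (L + 3))) := by
  subst hQ
  exact X217.cov_bad G hn hg hν0 hfull hL hR hK X X0 h0L h0ν hXL hXν hMS hS hF hE hN

/-- The coverage fails for few tables.
PROOF: `X217.cov_bad` for fixed picks; `MS` does not depend on the seeds (`Sys.loc` for the
skeleton, `K_go`). -/
theorem cov_cnt {N : ℕ → ℕ} {Nt Nm Cc : ℕ} (hG : G.Good N Nt Nm) (hN : G.Num nR N Cc) :
    2 ^ (16 * (G.A.L + 1)) * (univ.filter fun w : Om G =>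
      ¬ ((cfam G hR x hσ).cwf.W w fun _ => false).Cov).card ≤
      (n * G.H * (n + 2)) * Fintype.card (Om G) := by
  have hH : G.A.L - G.A.ν0 = G.H := by
    have := G.H_eq
    omega
  have hf : ∀ ν ≤ G.A.ν0, ∀ y, G.A.nest.N ν y = univ := fun ν hν y =>
    hG.A.full ν hν (by have := hN.hL; omega) y
  have key : ∀ v : PK G, 2 ^ (16 * (G.A.L + 1)) * (univ.filter fun w : SD G =>
      ¬ ((cfam G hR x hσ).cwf.W (w, v) fun _ => false).Cov).card ≤
      (n * G.H * (n + 2)) * Fintype.card (SD G) := by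
    intro v
    have h1 : 2 ^ (16 * (G.A.L + 1)) *
        (univ.filter fun w : SD G => ¬ (prC_X G hR x hσ v w).Cov).card ≤
          (n * (G.A.L - G.A.ν0) * (n + 2)) * Fintype.card (SD G) :=
      prC_cov G.A.nest hG.A.hQ hG.A.hn hG.A.hg hG.A.hν0 hf (by have := hN.hL; omega)
        (by omega) (fun l hl => ns_le G hl) (prC_X G hR x hσ v)
        (prC_X G hR x hσ v fun _ _ _ => ⟨0, Nat.two_pow_pos _⟩) rfl rfl
        (fun _ => rfl) (fun _ => rfl) (fun w => prC_X_MS G hR x hσ v w _)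
        (fun w => (prC_X_S G hR x hσ v w).trans (prC_X_S G hR x hσ v _).symm)
        (fun w => (prC_X_F G hR x hσ v w).trans (prC_X_F G hR x hσ v _).symm)
        (fun w p ρ y => prC_X_Ext G hR x hσ hf v w p ρ y)
        (fun _ _ _ => rfl)
    rw [hH] at h1
    refine le_trans (Nat.mul_le_mul_left _ (card_le_card ?_)) h1
    intro w hw
    rw [mem_filter] at hw ⊢
    refine ⟨mem_univ _, fun hc => hw.2 ?_⟩
    rw [CF.cwf_W]
    exact prC_mod_cov hc
  have hsum : (univ.filter fun w : Om G =>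
      ¬ ((cfam G hR x hσ).cwf.W w fun _ => false).Cov).card =
      ∑ v : PK G, (univ.filter fun w : SD G =>
        ¬ ((cfam G hR x hσ).cwf.W (w, v) fun _ => false).Cov).card := by
    simp only [card_filter]
    rw [Fintype.sum_prod_type_right]
  rw [hsum, mul_sum]
  calc ∑ v : PK G, 2 ^ (16 * (G.A.L + 1)) * (univ.filter fun w : SD G =>
        ¬ ((cfam G hR x hσ).cwf.W (w, v) fun _ => false).Cov).card
      ≤ ∑ _v : PK G, (n * G.H * (n + 2)) * Fintype.card (SD G) := sum_le_sum fun v _ => key v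
    _ = (n * G.H * (n + 2)) * Fintype.card (Om G) := by
        rw [sum_const, card_univ, smul_eq_mul, Fintype.card_prod]
        ring

/-! ### The statement `(G')` -/

/-- The conciliator with variable tables. -/
private noncomputable def prC_V (f : Fin n × Fin nR → Bool) : Vd n DC where
  G := G
  nR := nR
  x := x
  f := f
  d0 := fun p => ⟨x p, none, false⟩
  nd := (⟨x, fun _ _ _ => 0, fun _ _ _ _ _ _ _ => 0,
    fun p ρ => if h : ρ < nR then f (p, ⟨ρ, h⟩) else false⟩ : Tab n).ndC G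
  sp := DC.out
  σ := σ
  fair := hσ
  hR := by omega
  hsp := fun p i K M d h => by simp [Tab.ndC, h]
  hd0 := fun _ => rfl

private theorem prC_V_W (f : Fin n × Fin nR → Bool) (w : Om G) :
    (prC_V G hR x hσ f).W w = ((cfam G hR x hσ).cd w f).W := rfl

/-- The skeleton with variable tables. -/
private def prC_U (f : Fin n × Fin nR → Bool) : Vd n Unit where
  G := G
  nR := nR
  x := x
  f := f
  d0 := fun _ => ()
  nd := fun _ _ _ _ d => d
  sp := fun _ => false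
  σ := σ
  fair := hσ
  hR := by omega
  hsp := fun _ _ _ _ _ _ => rfl
  hd0 := fun _ => rfl

private theorem prC_U_W (f : Fin n × Fin nR → Bool) (w : Om G) :
    (prC_U G hR x hσ f).W w = ((cfam G hR x hσ).cd w f).K := rfl

private theorem prC_k {N : ℕ → ℕ} {Nt Nm : ℕ} (hG : G.Good N Nt Nm) :
    32 * (G.A.L + 1) ≤ 2 ^ (G.A.ν0 + 1) := by
  have := hG.A.hν0
  rw [pow_succ]
  omega

/-- `(G')` fails for few tables. PROOF: `gr_all`, `evA_count` with `k = 32 (L + 1)`, `hz = hmax`. -/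
theorem gr_cnt {N : ℕ → ℕ} {Nt Nm Cc : ℕ} (hG : G.Good N Nt Nm) (hN : G.Num nR N Cc)
    (f : Fin n × Fin nR → Bool) :
    2 ^ (32 * (G.A.L + 1)) * (univ.filter fun w : Om G =>
      ¬ ((cfam G hR x hσ).cwf.W w f).Gr N).card ≤ 4 * G.H * Fintype.card (Om G) := by
  have h := (prC_V G hR x hσ f).evA_count (32 * (G.A.L + 1)) (Wd.hmax G σ nR)
  rw [mul_comm] at h
  refine le_trans (Nat.mul_le_mul_left _ (card_le_card ?_)) h
  intro w hw
  refine mem_filter.mpr ⟨mem_univ _, fun hc => (mem_filter.mp hw).2 ?_⟩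
  rw [CF.cwf_W]
  intro ρ hρ hy A hA hM
  have hρ' : ρ < G.H := by
    have h2 : ((cfam G hR x hσ).cd w f).cw.H = G.H := CD.cw_H ((cfam G hR x hσ).cd w f)
    rw [← h2]
    exact hρ
  have hρn : ρ < nR := by omega
  have hlev : ((cfam G hR x hσ).cd w f).cw.lev ρ = G.lev ρ :=
    CD.cw_lev ((cfam G hR x hσ).cd w f) ρ
  have hPt := Wd.Pt_hmax ((prC_V G hR x hσ f).W w) (ρ := ρ) hρn
  have hy' : ((cfam G hR x hσ).cd w f).cw.y ρ =
      (((prC_V G hR x hσ f).W w).Pt ρ (Wd.hmax G σ nR)).card := by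
    rw [show Wd.hmax G σ nR = Wd.hmax ((prC_V G hR x hσ f).W w).G ((prC_V G hR x hσ f).W w).σ
      ((prC_V G hR x hσ f).W w).nR from rfl, hPt]
    unfold CW.y
    congr 1
    refine filter_congr fun p _ => ?_
    exact ⟨fun h => h.2, fun h => ⟨hρn, h⟩⟩
  have h1 := Wd.gr_all ((prC_V G hR x hσ f).W w) hG (hz := Wd.hmax G σ nR) (prC_k G hG) hc hρ'
    (by
      rw [← hy']
      rw [hlev] at hy
      exact hy)
    (A := A) (fun b hb => ⟨(hA b hb).2, Wd.eT_le_hmax _ hρn⟩)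
    (fun b hb => by
      have h2 := hM b hb
      rw [hlev] at h2
      exact h2)
  rw [← hy'] at h1
  rw [hlev]
  exact h1

private theorem prC_grs {N : ℕ → ℕ} {Nt Nm : ℕ} (hG : G.Good N Nt Nm)
    (f : Fin n × Fin nR → Bool) (w : Om G) {t : ℕ}
    (hc : (prC_U G hR x hσ f).EvA (32 * (G.A.L + 1)) t w) :
    ((cfam G hR x hσ).cd w f).cw.GrS N t := by
  intro ρ hρ hy A hA hM
  have hρ' : ρ < G.H := by
    have h2 : ((cfam G hR x hσ).cd w f).cw.H = G.H :=
      CD.cw_H ((cfam G hR x hσ).cd w f)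
    rw [← h2]
    exact hρ
  have hρn : ρ < nR := by omega
  have hlev : ((cfam G hR x hσ).cd w f).cw.lev ρ = G.lev ρ :=
    CD.cw_lev ((cfam G hR x hσ).cd w f) ρ
  have hgo : ∀ p, ((prC_U G hR x hσ f).W w).go p ρ := fun p =>
    CD.K_go ((cfam G hR x hσ).cd w f) p (i := G.st ρ) (G.st_le hρn.le)
  have hy' : (univ.filter fun p => ((cfam G hR x hσ).cd w f).cw.S p ρ ≤ t).card =
      (((prC_U G hR x hσ f).W w).Pt ρ t).card := by
    unfold Wd.Pt
    congr 1
    refine filter_congr fun p _ => ?_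
    exact ⟨fun h => ⟨hgo p, h⟩, fun h => h.2⟩
  have h1 := Wd.gr_all ((prC_U G hR x hσ f).W w) hG (hz := t) (prC_k G hG) hc hρ'
    (by
      rw [← hy']
      rw [hlev] at hy
      exact hy)
    (A := A) (fun b hb => ⟨hgo b, hA b hb⟩)
    (fun b hb => by
      have h2 := hM b hb
      rw [hlev] at h2
      exact h2)
  rw [← hy'] at h1
  rw [hlev]
  exact h1

theorem grs_cnt {N : ℕ → ℕ} {Nt Nm Cc : ℕ} (hG : G.Good N Nt Nm) (hN : G.Num nR N Cc) (t : ℕ) :
    2 ^ (32 * (G.A.L + 1)) * (univ.filter fun w : Om G =>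
      ¬ ((cfam G hR x hσ).cwf.W w fun _ => false).GrS N t).card ≤
        4 * G.H * Fintype.card (Om G) := by
  have h := (prC_U G hR x hσ fun _ => false).evA_count (32 * (G.A.L + 1)) t
  rw [mul_comm] at h
  refine le_trans (Nat.mul_le_mul_left _ (card_le_card ?_)) h
  intro w hw
  refine mem_filter.mpr ⟨mem_univ _, fun hc => (mem_filter.mp hw).2 ?_⟩
  exact (iff_of_eq (congrArg (fun X => CW.GrS X N t)
    (CF.cwf_W (cfam G hR x hσ) w fun _ => false))).mpr (prC_grs G hR x hσ hG _ w hc)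

/-- The probability bounds. PROOF: `cov_cnt`, `gr_cnt`, `grs_cnt`. -/
theorem cfam_pr {N : ℕ → ℕ} {Nt Nm Cc : ℕ} (hG : G.Good N Nt Nm) (hN : G.Num nR N Cc) :
    (cfam G hR x hσ).cwf.Pr N (1 / 2 ^ (8 * (G.A.L + 1))) := by
  have hx : ∀ {m b c d : ℕ}, 2 ^ d * m ≤ b * c → b * 2 ^ (8 * (G.A.L + 1)) ≤ 2 ^ d →
      (m : ℝ) ≤ 1 / 2 ^ (8 * (G.A.L + 1)) * c := by
    intro m b c d h1 h2
    have h3 : 2 ^ d * (2 ^ (8 * (G.A.L + 1)) * m) ≤ 2 ^ d * c := by
      calc 2 ^ d * (2 ^ (8 * (G.A.L + 1)) * m) = 2 ^ (8 * (G.A.L + 1)) * (2 ^ d * m) := by ring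
        _ ≤ 2 ^ (8 * (G.A.L + 1)) * (b * c) := Nat.mul_le_mul_left _ h1
        _ = (b * 2 ^ (8 * (G.A.L + 1))) * c := by ring
        _ ≤ 2 ^ d * c := Nat.mul_le_mul_right _ h2
    have h4 : 2 ^ (8 * (G.A.L + 1)) * m ≤ c := Nat.le_of_mul_le_mul_left h3 (by positivity)
    have h5 : (2 : ℝ) ^ (8 * (G.A.L + 1)) * m ≤ c := by exact_mod_cast h4
    rw [one_div, inv_mul_eq_div, le_div_iff₀ (by positivity)]
    linarith
  have hL2 : G.A.L + 1 < 2 ^ (G.A.L + 1) := Nat.lt_two_pow_self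
  have hH : G.H ≤ 2 ^ (G.A.L + 1) := by
    have := G.H_eq
    omega
  have hn := hG.A.hn
  have hgr : 4 * G.H * 2 ^ (8 * (G.A.L + 1)) ≤ 2 ^ (32 * (G.A.L + 1)) := by
    calc 4 * G.H * 2 ^ (8 * (G.A.L + 1))
        ≤ 2 ^ (2 * (G.A.L + 1)) * 2 ^ (G.A.L + 1) * 2 ^ (8 * (G.A.L + 1)) := by
          refine Nat.mul_le_mul_right _ (Nat.mul_le_mul ?_ hH)
          calc 4 = 2 ^ 2 := rfl
            _ ≤ 2 ^ (2 * (G.A.L + 1)) := Nat.pow_le_pow_right (by norm_num) (by omega)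
      _ = 2 ^ (11 * (G.A.L + 1)) := by
          rw [← pow_add, ← pow_add]
          congr 1
          omega
      _ ≤ 2 ^ (32 * (G.A.L + 1)) := Nat.pow_le_pow_right (by norm_num) (by omega)
  have hcv : n * G.H * (n + 2) * 2 ^ (8 * (G.A.L + 1)) ≤ 2 ^ (16 * (G.A.L + 1)) := by
    have h2 : n + 2 ≤ 2 ^ (2 * (G.A.L + 1)) := by
      have h3 : 2 ^ (2 * (G.A.L + 1)) = 2 ^ (G.A.L + 1) * 2 ^ (G.A.L + 1) := by
        rw [← pow_add]
        congr 1
        omega
      rw [h3]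
      have h4 : 2 ≤ 2 ^ (G.A.L + 1) := by
        calc 2 = 2 ^ 1 := rfl
          _ ≤ 2 ^ (G.A.L + 1) := Nat.pow_le_pow_right (by norm_num) (by omega)
      nlinarith
    calc n * G.H * (n + 2) * 2 ^ (8 * (G.A.L + 1))
        ≤ 2 ^ (G.A.L + 1) * 2 ^ (G.A.L + 1) * 2 ^ (2 * (G.A.L + 1)) * 2 ^ (8 * (G.A.L + 1)) :=
          Nat.mul_le_mul_right _ (Nat.mul_le_mul (Nat.mul_le_mul hn.le hH) h2)
      _ = 2 ^ (12 * (G.A.L + 1)) := by
          rw [← pow_add, ← pow_add, ← pow_add]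
          congr 1
          omega
      _ ≤ 2 ^ (16 * (G.A.L + 1)) := Nat.pow_le_pow_right (by norm_num) (by omega)
  refine ⟨by positivity, ?_, ?_, fun t => ?_, fun f => ?_⟩
  · show (1 / 2 ^ (8 * (G.A.L + 1)) : ℝ) * 2 ^ (8 * (G.A.L + 1)) ≤ 1
    rw [one_div, inv_mul_cancel₀ (by positivity)]
  · exact hx (cov_cnt G hR x hσ hG hN) hcv
  · exact hx (grs_cnt G hR x hσ hG hN t) hgr
  · exact hx (gr_cnt G hR x hσ hG hN f) hgr

end Pool.Agent.E217
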