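import Pool.Agent.MP217Exact.RpC
import Pool.Agent.MP217Exact.PrC
import Pool.Agent.MP217Exact.HPmain

set_option autoImplicit false

/-!
# The conciliator: success probability and expected work
-/

namespace Pool.Agent.E217

open Finset MeasureTheory
open scoped ENNReal
open Pool.Agent.MP217Upper.Model (coins)
open Pool.Agent.A217 (RP)
open Pool.Agent.X217 (CW CWF FC flt)

attribute [local instance 10] Classical.propDecidable

variable {n : ℕ}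

/-- Success of the conciliator with tables `T`. -/
def SucT (G : Geo n) (nR : ℕ) (σ : ℕ → Option (Fin n)) (T : Tab n) : Prop :=
  ∃ v : Bool, ∀ t p, (T.sysC G nR).Idle (((T.sysC G nR).run σ t).st p) →
    (((T.sysC G nR).run σ t).st p).d.cand.getD (((T.sysC G nR).run σ t).st p).d.bit = v

/-- The bound for the number of steps. -/
noncomputable def workT (G : Geo n) (nR : ℕ) (σ : ℕ → Option (Fin n)) (T : Tab n) : ℕ :=
  ∑ ρ ∈ range nR, G.cost ρ * (univ.filter fun p => (T.sysC G nR).Al σ p (G.st ρ)).card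

namespace CF

variable {Ω : Type} [Fintype Ω] (F : CF n Ω)

/-- The law of the tables of the conciliator. -/
def Law : Prop := ∀ g : Tab n → ℝ≥0∞,
  ∫⁻ c, g (tabc F.G F.nR F.x c) ∂coins n =
    ((Fintype.card Ω : ℝ≥0∞) * (Fintype.card (FC F.cwf.N) : ℝ≥0∞))⁻¹ *
      ∑ y : Ω × FC F.cwf.N, g (F.tab y.1 (flt y.2))

theorem card_pos [Nonempty Ω] : 0 < Fintype.card Ω * Fintype.card (FC F.cwf.N) := by
  haveI : ∀ e, Nonempty (Fin (F.cwf.N e)) := fun e => ⟨⟨0, by unfold CWF.N; positivity⟩⟩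
  exact Nat.mul_pos Fintype.card_pos Fintype.card_pos

theorem suc_ge [Nonempty Ω] [Nonempty (Fin n)] {Nc : ℕ → ℕ} {η : ℝ} (hX : F.cwf.Ok Nc)
    (hP : F.cwf.Pr Nc η) (hl : F.Law) :
    (2 ^ 10)⁻¹ ≤ coins n {c | SucT F.G F.nR F.σ (tabc F.G F.nR F.x c)} := by
  set Q := SucT F.G F.nR F.σ with hQ
  have h1 : coins n {c | Q (tabc F.G F.nR F.x c)} =
      ∫⁻ c, (if Q (tabc F.G F.nR F.x c) then (1 : ℝ≥0∞) else 0) ∂coins n := by
    rw [← lintegral_indicator_one (meas_tabc F.G F.nR F.x Q)]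
    refine lintegral_congr fun c => ?_
    simp only [Set.indicator, Set.mem_setOf_eq, Pi.one_apply]
  rw [h1, hl fun T => if Q T then 1 else 0]
  have h2 : (univ.filter fun y : Ω × FC F.cwf.N => F.cwf.Suc y.1 (flt y.2)).card ≤
      (univ.filter fun y : Ω × FC F.cwf.N => Q (F.tab y.1 (flt y.2))).card := by
    refine card_le_card fun y hy => ?_
    rw [mem_filter] at hy ⊢
    exact ⟨mem_univ _, F.suc_val hy.2⟩
  have h3 := CWF.agree hX hP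
  have h4 : Fintype.card Ω * Fintype.card (FC F.cwf.N) ≤
      2 ^ 10 * (univ.filter fun y : Ω × FC F.cwf.N => Q (F.tab y.1 (flt y.2))).card := by
    have h5 : ((Fintype.card Ω : ℝ) * Fintype.card (FC F.cwf.N)) ≤
        2 ^ 10 * ((univ.filter fun y : Ω × FC F.cwf.N => F.cwf.Suc y.1 (flt y.2)).card : ℝ) := by
      have : ((Fintype.card Ω : ℝ) * Fintype.card (FC F.cwf.N)) =
        2 ^ 10 * ((1 / 2 ^ 10 : ℝ) * ((Fintype.card Ω : ℝ) * Fintype.card (FC F.cwf.N))) := by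
        ring
      rw [this]
      exact mul_le_mul_of_nonneg_left h3 (by positivity)
    have h6 : Fintype.card Ω * Fintype.card (FC F.cwf.N) ≤
        2 ^ 10 * (univ.filter fun y : Ω × FC F.cwf.N => F.cwf.Suc y.1 (flt y.2)).card := by
      exact_mod_cast h5
    exact h6.trans (Nat.mul_le_mul_left _ h2)
  have h7 : ∑ y : Ω × FC F.cwf.N, (if Q (F.tab y.1 (flt y.2)) then (1 : ℝ≥0∞) else 0) =
      ((univ.filter fun y : Ω × FC F.cwf.N => Q (F.tab y.1 (flt y.2))).card : ℝ≥0∞) := by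
    rw [sum_boole]
  have hpos := F.card_pos
  have h8 : ((Fintype.card Ω : ℝ≥0∞) * (Fintype.card (FC F.cwf.N) : ℝ≥0∞)) ≤
      2 ^ 10 * ((univ.filter fun y : Ω × FC F.cwf.N => Q (F.tab y.1 (flt y.2))).card : ℝ≥0∞) := by
    exact_mod_cast h4
  rw [h7]
  set T : ℝ≥0∞ := (Fintype.card Ω : ℝ≥0∞) * (Fintype.card (FC F.cwf.N) : ℝ≥0∞) with hT
  have hT0 : T ≠ 0 := by
    rw [hT]
    exact_mod_cast hpos.ne'
  have hTt : T ≠ ⊤ := by
    rw [hT]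
    exact ENNReal.mul_ne_top (ENNReal.natCast_ne_top _) (ENNReal.natCast_ne_top _)
  have h9 : (2 ^ 10 : ℝ≥0∞)⁻¹ = (2 ^ 10 : ℝ≥0∞)⁻¹ * (T⁻¹ * T) := by
    rw [ENNReal.inv_mul_cancel hT0 hTt, mul_one]
  rw [h9]
  calc (2 ^ 10 : ℝ≥0∞)⁻¹ * (T⁻¹ * T)
      ≤ (2 ^ 10 : ℝ≥0∞)⁻¹ * (T⁻¹ * (2 ^ 10 *
        ((univ.filter fun y : Ω × FC F.cwf.N => Q (F.tab y.1 (flt y.2))).card : ℝ≥0∞))) := by
        gcongr
    _ = ((2 ^ 10 : ℝ≥0∞)⁻¹ * 2 ^ 10) * (T⁻¹ *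
        ((univ.filter fun y : Ω × FC F.cwf.N => Q (F.tab y.1 (flt y.2))).card : ℝ≥0∞)) := by ring
    _ = _ := by
        rw [ENNReal.inv_mul_cancel (by norm_num) (by simp), one_mul]

theorem work_exp [Nonempty Ω] [Nonempty (Fin n)] {Nc : ℕ → ℕ} {η : ℝ} (hX : F.cwf.Ok Nc)
    (hP : F.cwf.Pr Nc η) (hl : F.Law) {B : ℕ}
    (hB : ∀ ρ < F.nR, 2 ^ (F.G.A.L + F.G.hf) * F.G.cost ρ ≤ B * 2 ^ min ρ F.G.H) :
    ∫⁻ c, (workT F.G F.nR F.σ (tabc F.G F.nR F.x c) : ℝ≥0∞) ∂coins n ≤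
      ((B * 2 ^ 15 : ℕ) : ℝ≥0∞) := by
  rw [hl fun T => (workT F.G F.nR F.σ T : ℝ≥0∞)]
  have hH : F.cwf.H = F.G.H := by
    have := F.G.H_eq
    show F.G.A.L - F.G.A.ν0 = F.G.H
    omega
  have h1 : ∀ (ω : Ω) (f : Fin n × Fin F.nR → Bool),
      2 ^ (F.G.A.L + F.G.hf) * workT F.G F.nR F.σ (F.tab ω f) ≤ B * (F.cwf.W ω f).Ytot := by
    intro ω f
    unfold workT CW.Ytot
    rw [mul_sum, mul_sum]
    show ∑ ρ ∈ range F.nR, _ ≤ ∑ ρ ∈ range F.nR, _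
    refine sum_le_sum fun ρ hρ => ?_
    rw [mem_range] at hρ
    rw [← mul_assoc, ← mul_assoc]
    refine Nat.mul_le_mul ?_ ?_
    · have : (F.cwf.W ω f).wt ρ = 2 ^ min ρ F.G.H := by
        show 2 ^ min ρ F.cwf.H = _
        rw [hH]
      rw [this]
      exact hB ρ hρ
    · refine card_le_card fun p hp => ?_
      rw [mem_filter] at hp ⊢
      exact ⟨mem_univ _, hρ, hp.2⟩
  have h2 := CWF.expect hX hP
  have h3 : ∑ y : Ω × FC F.cwf.N, (F.cwf.W y.1 (flt y.2)).Ytot ≤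
      2 ^ 15 * 2 ^ (F.G.A.L + F.G.hf) * (Fintype.card Ω * Fintype.card (FC F.cwf.N)) := by
    have h4 : ((∑ y : Ω × FC F.cwf.N, (F.cwf.W y.1 (flt y.2)).Ytot : ℕ) : ℝ) ≤
        ((2 ^ 15 * 2 ^ (F.G.A.L + F.G.hf) * (Fintype.card Ω * Fintype.card (FC F.cwf.N)) : ℕ) : ℝ) := by
      calc ((∑ y : Ω × FC F.cwf.N, (F.cwf.W y.1 (flt y.2)).Ytot : ℕ) : ℝ)
          = ∑ y : Ω × FC F.cwf.N, ((F.cwf.W y.1 (flt y.2)).Ytot : ℝ) := by push_cast; rfl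
        _ ≤ 2 ^ 15 * 2 ^ (F.G.A.L + F.G.hf) *
            ((Fintype.card Ω : ℝ) * (Fintype.card (FC F.cwf.N) : ℝ)) := h2
        _ = _ := by push_cast; norm_num
    exact_mod_cast h4
  have h5 : ∑ y : Ω × FC F.cwf.N, workT F.G F.nR F.σ (F.tab y.1 (flt y.2)) ≤
      B * 2 ^ 15 * (Fintype.card Ω * Fintype.card (FC F.cwf.N)) := by
    have hU : 0 < 2 ^ (F.G.A.L + F.G.hf) := by positivity
    refine Nat.le_of_mul_le_mul_left ?_ hU
    calc 2 ^ (F.G.A.L + F.G.hf) *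
          ∑ y : Ω × FC F.cwf.N, workT F.G F.nR F.σ (F.tab y.1 (flt y.2))
        = ∑ y : Ω × FC F.cwf.N,
          2 ^ (F.G.A.L + F.G.hf) * workT F.G F.nR F.σ (F.tab y.1 (flt y.2)) := by rw [mul_sum]
      _ ≤ ∑ y : Ω × FC F.cwf.N, B * (F.cwf.W y.1 (flt y.2)).Ytot :=
          sum_le_sum fun y _ => h1 y.1 (flt y.2)
      _ = B * ∑ y : Ω × FC F.cwf.N, (F.cwf.W y.1 (flt y.2)).Ytot := by rw [mul_sum]
      _ ≤ B * (2 ^ 15 * 2 ^ (F.G.A.L + F.G.hf) *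
          (Fintype.card Ω * Fintype.card (FC F.cwf.N))) := Nat.mul_le_mul_left _ h3
      _ = _ := by ring
  have hpos := F.card_pos
  set T : ℝ≥0∞ := (Fintype.card Ω : ℝ≥0∞) * (Fintype.card (FC F.cwf.N) : ℝ≥0∞) with hT
  have hT0 : T ≠ 0 := by
    rw [hT]
    exact_mod_cast hpos.ne'
  have hTt : T ≠ ⊤ := by
    rw [hT]
    exact ENNReal.mul_ne_top (ENNReal.natCast_ne_top _) (ENNReal.natCast_ne_top _)
  calc T⁻¹ * ∑ y : Ω × FC F.cwf.N, (workT F.G F.nR F.σ (F.tab y.1 (flt y.2)) : ℝ≥0∞)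
      = T⁻¹ * ((∑ y : Ω × FC F.cwf.N, workT F.G F.nR F.σ (F.tab y.1 (flt y.2)) : ℕ) : ℝ≥0∞) := by
        rw [Nat.cast_sum]
    _ ≤ T⁻¹ * ((B * 2 ^ 15 * (Fintype.card Ω * Fintype.card (FC F.cwf.N)) : ℕ) : ℝ≥0∞) := by
        gcongr
    _ = (T⁻¹ * T) * ((B * 2 ^ 15 : ℕ) : ℝ≥0∞) := by
        rw [hT]
        push_cast
        ring
    _ = _ := by rw [ENNReal.inv_mul_cancel hT0 hTt, one_mul]

end CF

variable (G : Geo n) {nR : ℕ} (hR : G.H + 2 ≤ nR)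

theorem cfam_law (x : Fin n → Bool) {σ : ℕ → Option (Fin n)} (hσ : Fair σ) :
    (cfam G hR x hσ).Law := by
  intro g
  have h := law_tab G nR x g
  have hc : ((crd G nR : ℕ) : ℝ≥0∞) =
      (Fintype.card (Om G) : ℝ≥0∞) * (Fintype.card (FC (NF G nR)) : ℝ≥0∞) := by
    unfold crd
    push_cast
    rfl
  rw [hc] at h
  exact h

theorem om_nonempty (G : Geo n) : Nonempty (Om G) :=
  ⟨(fun _ _ _ => ⟨0, by positivity⟩, fun _ => (fun _ _ _ => ⟨0, by positivity⟩,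
    fun _ _ _ => ⟨0, by positivity⟩))⟩

theorem C_succ {N : ℕ → ℕ} {Nt Nm Cc : ℕ} (hG : G.Good N Nt Nm) (hN : G.Num nR N Cc)
    (x : Fin n → Bool) (σ : ℕ → Option (Fin n)) :
    ((2 : ℝ≥0∞) ^ 10)⁻¹ ≤ coins n {c | (rpC G hR).Same x c σ} := by
  obtain ⟨σ', Hz, hfair, _, hfin⟩ := Prg.rp_hor (prgC_ok G nR (by omega)) σ
  haveI := om_nonempty G
  haveI : Nonempty (Fin n) := ⟨⟨0, G.n_pos⟩⟩
  have h := CF.suc_ge (cfam G hR x hfair) (cfam_ok G hR x hfair hG hN)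
    (cfam_pr G hR x hfair hG hN) (cfam_law G hR x hfair)
  refine h.trans (measure_mono ?_)
  rintro c ⟨v, hv⟩
  refine ⟨v, fun t p v' d' hf => ?_⟩
  obtain ⟨h1, h2, _⟩ := hfin x c t p v' d' hf
  rw [← h2]
  exact hv Hz p h1

theorem C_work {N : ℕ → ℕ} {Nt Nm Cc : ℕ} (hG : G.Good N Nt Nm) (hN : G.Num nR N Cc)
    (x : Fin n → Bool) (σ : ℕ → Option (Fin n)) :
    ∫⁻ c, (rpC G hR).work x c σ ∂coins n ≤
      ((2 ^ 16 * Cc * (n * (G.A.L + 1) ^ 2) : ℕ) : ℝ≥0∞) := by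
  obtain ⟨σ', Hz, hfair, _, hw⟩ := Prg.rp_work (prgC_ok G nR (by omega)) σ
  haveI := om_nonempty G
  haveI : Nonempty (Fin n) := ⟨⟨0, G.n_pos⟩⟩
  have h := CF.work_exp (cfam G hR x hfair) (cfam_ok G hR x hfair hG hN)
    (cfam_pr G hR x hfair hG hN) (cfam_law G hR x hfair)
    (B := Cc * (n * (G.A.L + 1) ^ 2)) hN.cost
  refine (lintegral_mono fun c => ?_).trans (h.trans ?_)
  · refine (hw x c).trans ?_
    have h2 := (wC G hR x c hfair).W.steps_run Hz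
    exact_mod_cast h2
  · norm_cast
    calc Cc * (n * (G.A.L + 1) ^ 2) * 2 ^ 15
        ≤ Cc * (n * (G.A.L + 1) ^ 2) * 2 ^ 16 :=
          Nat.mul_le_mul_left _ (Nat.pow_le_pow_right (by norm_num) (by norm_num))
      _ = 2 ^ 16 * Cc * (n * (G.A.L + 1) ^ 2) := by ring

end Pool.Agent.E217
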