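import Pool.Agent.MP217Exact.MPass

set_option autoImplicit false

/-!
# The machine: programs with the same static part
-/

namespace Pool.Agent.E217

open Finset

attribute [local instance 10] Classical.propDecidable

variable {n : ℕ} {D D' : Type}

namespace Sys

/-- Two programs with the same static part. -/
structure Same (S : Sys n D) (S' : Sys n D') : Prop where
  E : S'.E = S.E
  lw : S'.lw = S.lw
  lr : S'.lr = S.lr
  ch : S'.ch = S.ch
  tm : S'.tm = S.tm
  rs : S'.rs = S.rs

theorem Same.off {S : Sys n D} {S' : Sys n D'} (h : Same S S') : S'.off = S.off := by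
  unfold Sys.off
  rw [h.lw, h.lr]

theorem Same.al {S : Sys n D} {S' : Sys n D'} (h : Same S S') : S'.al = S.al := by
  unfold Sys.al
  rw [h.off]

end Sys

end Pool.Agent.E217
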