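import Pool.Agent.MP217Exact.MPass
import Pool.Agent.MP217Exact.MSame

set_option autoImplicit false

/-!
# The machine: programs which differ only in the rules for the data
-/

namespace Pool.Agent.E217

open Finset

attribute [local instance 10] Classical.propDecidable

variable {n : ℕ} {D : Type}

namespace Sys

variable {S : Sys n D} {σ : ℕ → Option (Fin n)}

private theorem nd_lt_iff (hσ : Fair σ) (p : Fin n) {m t : ℕ} :
    tme σ p m < t ↔ m < cnt σ p t := by
  have := le_tme_iff hσ p (k := m) (t := t)
  constructor
  · intro h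
    by_contra hc
    exact absurd (this.2 (not_lt.1 hc)) (not_le.2 h)
  · intro h
    by_contra hc
    exact absurd (this.1 (not_lt.1 hc)) (not_le.2 h)

/-- What is known at the last read step of a pass. -/
theorem last_read (hS : S.Ok) (hσ : Fair σ) {p : Fin n} {t : ℕ} (hp : σ t = some p)
    (hid : ¬ S.Idle ((S.run σ t).st p))
    (hl : ¬ ((S.run σ t).st p).pos + 1 <
      S.lw ((S.run σ t).st p).i + S.lr ((S.run σ t).st p).i) :
    outK ((S.run σ t).st p)
      ((S.run σ t).mem (S.rt p ((S.run σ t).st p)) p (S.ch ((S.run σ t).st p).i)) =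
      S.KE σ p ((S.run σ t).st p).i ∧
    outM ((S.run σ t).st p)
      ((S.run σ t).mem (S.rt p ((S.run σ t).st p)) p (S.ch ((S.run σ t).st p).i)) =
      S.ME σ p ((S.run σ t).st p).i ∧
    ((S.run σ t).st p).d = (S.sI σ p ((S.run σ t).st p).i).d := by
  obtain ⟨hi, h, h1, h2⟩ := al_of hS hσ hid
  obtain ⟨hpos, hpos'⟩ := pos_cnt hS hid
  obtain ⟨si, spos, sd, sK, sM⟩ := st_in hS hσ hi h h1 h2
  obtain ⟨aK, aM⟩ := acc_in hS hσ hi h h1 h2
  generalize hii : ((S.run σ t).st p).i = i at *
  have hoff := off_succ S i
  have hlw := hS.lw_pos i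
  have hlr := hS.lr_pos i
  have hct : cnt σ p t = S.off (i + 1) - 1 := by omega
  have hrt : S.rt p ((S.run σ t).st p) =
      (S.tr p i (S.sI σ p i).M).getD (S.lr i - 1) p := by
    unfold rt
    rw [spos, hii, sM]
    congr 1
    omega
  have htm : tme σ p (S.off i + S.lw i + (S.lr i - 1)) = t := by
    have : S.off i + S.lw i + (S.lr i - 1) = cnt σ p t := by omega
    rw [this]
    exact tme_cnt hp
  have hfil : insert (S.lr i - 1) ((range (S.lr i)).filter fun k =>
      tme σ p (S.off i + S.lw i + k) < t) = range (S.lr i) := by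
    ext k
    simp only [mem_filter, mem_insert, mem_range, nd_lt_iff hσ, hct]
    constructor
    · rintro (hk | ⟨hk1, _⟩)
      · omega
      · exact hk1
    · intro hk
      by_cases hkk : k = S.lr i - 1
      · exact Or.inl hkk
      · exact Or.inr ⟨hk, by omega⟩
  refine ⟨?_, ?_, sd⟩
  · unfold outK KE inK
    rw [aK, sK, hrt]
    congr 1
    rw [← hfil, biUnion_insert, htm, hfil]
    exact union_comm _ _
  · unfold outM ME inM
    rw [aM, sM, hrt]
    congr 1
    rw [← hfil, biUnion_insert, htm, hfil]
    exact union_comm _ _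

/-- Two programs which differ only in the rules for the data, and agree whenever a pass is
finished, have the same runs. -/
theorem locN {S' : Sys n D} (hS : S.Ok) (hs : Same S S')
    (htw : S'.tw = S.tw) (htr : S'.tr = S.tr) (hsh : S'.sh = S.sh) (hd0 : S'.d0 = S.d0)
    (hsp : S'.sp = S.sp) (hσ : Fair σ)
    (hnd : ∀ p i, i < S.E → S.Al σ p i →
      S'.nd p i (S.KE σ p i) (S.ME σ p i) (S.sI σ p i).d =
      S.nd p i (S.KE σ p i) (S.ME σ p i) (S.sI σ p i).d) (t : ℕ) :
    S'.run σ t = S.run σ t := by
  have hbeg : S'.beg = S.beg := by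
    funext p i d K M
    unfold beg bM
    rw [hs.rs, hsh]
  induction t with
  | zero =>
    show S'.init = S.init
    unfold init
    rw [hbeg, hd0]
  | succ t ih =>
    cases hp : σ t with
    | none =>
      have h1 : S'.run σ (t + 1) = S'.run σ t := by simp only [run, hp]
      have h2 : S.run σ (t + 1) = S.run σ t := by simp only [run, hp]
      rw [h1, h2, ih]
    | some p =>
      have h1 : S'.run σ (t + 1) = S'.step p (S'.run σ t) := by simp only [run, hp]
      have h2 : S.run σ (t + 1) = S.step p (S.run σ t) := by simp only [run, hp]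
      rw [h1, h2, ih]
      have hidle : S'.Idle ((S.run σ t).st p) ↔ S.Idle ((S.run σ t).st p) := by
        unfold Idle
        rw [hsp, hs.E]
      unfold step
      by_cases hid : S.Idle ((S.run σ t).st p)
      · rw [if_pos (hidle.mpr hid), if_pos hid]
      · rw [if_neg (fun h => hid (hidle.mp h)), if_neg hid, hs.lw]
        by_cases hw : ((S.run σ t).st p).pos < S.lw ((S.run σ t).st p).i
        · rw [if_pos hw, if_pos hw]
          have hwt : S'.wt p ((S.run σ t).st p) = S.wt p ((S.run σ t).st p) := by
            unfold wt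
            rw [htw]
          have hmsg : S'.msg ((S.run σ t).st p) = S.msg ((S.run σ t).st p) := by
            unfold msg
            rw [hs.tm]
          rw [hwt, hmsg, hs.ch]
        · rw [if_neg hw, if_neg hw]
          have hrt : S'.rt p ((S.run σ t).st p) = S.rt p ((S.run σ t).st p) := by
            unfold rt
            rw [htr, hs.lw]
          have hrd : S'.rd p ((S.run σ t).st p)
              ((S.run σ t).mem (S'.rt p ((S.run σ t).st p)) p (S'.ch ((S.run σ t).st p).i)) =
              S.rd p ((S.run σ t).st p)
              ((S.run σ t).mem (S.rt p ((S.run σ t).st p)) p (S.ch ((S.run σ t).st p).i)) := by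
            rw [hrt, hs.ch]
            unfold rd
            rw [hs.lw, hs.lr]
            by_cases hl : ((S.run σ t).st p).pos + 1 <
              S.lw ((S.run σ t).st p).i + S.lr ((S.run σ t).st p).i
            · rw [if_pos hl, if_pos hl]
            · rw [if_neg hl, if_neg hl]
              obtain ⟨h3, h4, h5⟩ := last_read hS hσ hp hid hl
              obtain ⟨hi, h, _, _⟩ := al_of hS hσ hid
              unfold fin
              rw [hbeg, h3, h4, h5, hnd p _ hi h]
          rw [hrd]

end Sys

end Pool.Agent.E217
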