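import Pool.Agent.MP217Exact.CWOk
import Pool.Agent.MP217Exact.MNd
import Pool.Agent.X217.CWF

set_option autoImplicit false

/-!
# The family of worlds of the conciliator
-/

namespace Pool.Agent.E217

open Finset
open Pool.Agent.X217 (CW CWF)

attribute [local instance 10] Classical.propDecidable

variable {n : ℕ}

/-- Tables with varying seeds, picks and flips. -/
structure CF (n : ℕ) (Ω : Type) where
  G : Geo n
  nR : ℕ
  σ : ℕ → Option (Fin n)
  fair : Fair σ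
  hR : G.H + 2 ≤ nR
  x : Fin n → Bool
  sd : Ω → Fin n → ℕ → ℕ → ℕ
  pk : Ω → Fin n → ℕ → ℕ → Bool → ℕ → ℕ → ℕ → ℕ

namespace CF

variable {Ω : Type} (F : CF n Ω)

/-- The tables. -/
def tab (ω : Ω) (f : Fin n × Fin F.nR → Bool) : Tab n where
  x := F.x
  sd := F.sd ω
  pk := F.pk ω
  fl p ρ := if h : ρ < F.nR then f (p, ⟨ρ, h⟩) else false

/-- The data of a world. -/
def cd (ω : Ω) (f : Fin n × Fin F.nR → Bool) : CD n where
  T := F.tab ω f
  G := F.G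
  nR := F.nR
  σ := F.σ
  fair := F.fair
  hR := F.hR

/-- The number of steps before pass `i`. -/
def off (i : ℕ) : ℕ := ∑ j ∈ range i, (F.G.ln j + F.G.ln j)

/-- The family. -/
noncomputable def cwf : CWF (Fin n) Ω where
  L := F.G.A.L
  ν0 := F.G.A.ν0
  rn := F.nR
  h := F.G.hf
  who t := (F.σ t).getD ⟨0, F.G.n_pos⟩
  Nb := F.G.A.nest.N
  S p ρ := tme F.σ p (F.off (F.G.st ρ))
  F p ρ := tme F.σ p (F.off (F.G.st ρ + 1) - 1)
  E p ρ := tme F.σ p (F.off (F.G.la ρ + 1) - 1)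
  Ext ω := (F.cd ω fun _ => false).cw.Ext
  MS ω := (F.cd ω fun _ => false).cw.MS
  M ω f := (F.cd ω f).cw.M
  go ω f := (F.cd ω f).cw.go
  aw ω f := (F.cd ω f).cw.aw
  awf ω f := (F.cd ω f).cw.awf
  awe ω f := (F.cd ω f).cw.awe
  lv ω f := (F.cd ω f).cw.lv

theorem cwf_W (ω : Ω) (f : Fin n × Fin F.nR → Bool) : F.cwf.W ω f = (F.cd ω f).cw := by
  have h : (fun p ρ => ∃ hρ : ρ < F.nR, f (p, ⟨ρ, hρ⟩) = true) = (F.cd ω f).cw.fl := by
    funext p ρ
    show (∃ hρ : ρ < F.nR, f (p, ⟨ρ, hρ⟩) = true) =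
      ((if h : ρ < F.nR then f (p, ⟨ρ, h⟩) else false) = true)
    apply propext
    constructor
    · rintro ⟨hρ, h⟩
      rw [dif_pos hρ]; exact h
    · intro h
      by_cases hρ : ρ < F.nR
      · rw [dif_pos hρ] at h; exact ⟨hρ, h⟩
      · rw [dif_neg hρ] at h; exact absurd h (by simp)
  show CW.mk _ _ _ _ _ _ _ _ _ _ _ _ _ _ _ _ (fun p ρ => ∃ hρ : ρ < F.nR, f (p, ⟨ρ, hρ⟩) = true)
    = _
  rw [h]
  rfl

end CF

end Pool.Agent.E217
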