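import Pool.Agent.MP217Exact.CFam

set_option autoImplicit false

/-!
# The family of worlds of the conciliator: locality
-/

namespace Pool.Agent.E217

open Finset
open Pool.Agent.X217 (CW CWF)

attribute [local instance 10] Classical.propDecidable

variable {n : ℕ}

namespace CF

variable {Ω : Type} (F : CF n Ω)

theorem run_eq (ω : Ω) (f f' : Fin n × Fin F.nR → Bool)
    (h : ∀ e : Fin n × Fin F.nR, (F.cd ω f).cw.go e.1 e.2.val → ¬ (F.cd ω f).cw.awe e.1 e.2.val →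
      f e = f' e) (t : ℕ) : (F.cd ω f').W.S.run F.σ t = (F.cd ω f).W.S.run F.σ t := by
  have hS := (F.cd ω f).W.ok
  have hs : Sys.Same (F.cd ω f).W.S (F.cd ω f').W.S := ⟨rfl, rfl, rfl, rfl, rfl, rfl⟩
  refine Sys.locN hS hs rfl rfl rfl rfl rfl F.fair ?_ t
  intro p i hi hal
  have hgo := (F.cd ω f).W.al_go hi hal
  show (F.tab ω f').ndC F.G p i ((F.cd ω f).W.S.KE F.σ p i) ((F.cd ω f).W.S.ME F.σ p i)
      ((F.cd ω f).W.S.sI F.σ p i).d =
    (F.tab ω f).ndC F.G p i ((F.cd ω f).W.S.KE F.σ p i) ((F.cd ω f).W.S.ME F.σ p i)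
      ((F.cd ω f).W.S.sI F.σ p i).d
  unfold Tab.ndC
  by_cases hl : F.G.Last i
  · rw [if_pos hl, if_pos hl]
    by_cases he : F.G.Evid ((F.cd ω f).W.S.KE F.σ p i) (F.G.rOf i) ∨
        (F.G.H ≤ F.G.rOf i ∧ ((F.cd ω f).W.S.sI F.σ p i).d.cand ≠ none)
    · rw [if_pos he, if_pos he]
    · rw [if_neg he, if_neg he]
      by_cases hn : Geo.newc ((F.cd ω f).W.S.KE F.σ p i)
          ((F.cd ω f).W.S.sI F.σ p i).d.cand = none
      · have hρ : F.G.rOf i < F.nR := hgo.2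
        have hla : i = F.G.la (F.G.rOf i) := F.G.last_iff.mp hl
        have hd : ((F.cd ω f).W.S.sI F.σ p i).d = (F.cd ω f).W.dS p (F.G.rOf i) := by
          refine (F.cd ω f).W.dI_run (F.cd ω f).W_nd hgo.2 hgo.1 (F.G.rOf_spec i).1 ?_
          exact hla.le
        have hgo' : (F.cd ω f).cw.go p (F.G.rOf i) := ⟨hgo.2, hgo.1⟩
        have hawe : ¬ (F.cd ω f).cw.awe p (F.G.rOf i) := by
          intro ha
          apply ha
          have h1 : (F.cd ω f).W.KR p (F.G.rOf i) = (F.cd ω f).W.S.KE F.σ p i := by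
            show (F.cd ω f).W.S.KE F.σ p (F.G.la (F.G.rOf i)) = _
            rw [← hla]
          rw [h1, ← hd]
          exact hn
        have hf := h (p, ⟨F.G.rOf i, hρ⟩) hgo' hawe
        have hfl : (F.tab ω f').fl p (F.G.rOf i) = (F.tab ω f).fl p (F.G.rOf i) := by
          show (if h : F.G.rOf i < F.nR then f' (p, ⟨F.G.rOf i, h⟩) else false) =
            (if h : F.G.rOf i < F.nR then f (p, ⟨F.G.rOf i, h⟩) else false)
          rw [dif_pos hρ, dif_pos hρ, hf]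
        rw [hfl]
      · rw [if_neg (fun hh => hn hh.1), if_neg (fun hh => hn hh.1)]
  · rw [if_neg hl, if_neg hl]

theorem sI_eq (ω : Ω) (f f' : Fin n × Fin F.nR → Bool)
    (h : ∀ t, (F.cd ω f').W.S.run F.σ t = (F.cd ω f).W.S.run F.σ t) (p : Fin n) (i : ℕ) :
    (F.cd ω f').W.S.sI F.σ p i = (F.cd ω f).W.S.sI F.σ p i := by
  show ((F.cd ω f').W.S.run F.σ _).st p = ((F.cd ω f).W.S.run F.σ _).st p
  rw [h]
  rfl

theorem KE_eq (ω : Ω) (f f' : Fin n × Fin F.nR → Bool)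
    (h : ∀ t, (F.cd ω f').W.S.run F.σ t = (F.cd ω f).W.S.run F.σ t) (p : Fin n) (i : ℕ) :
    (F.cd ω f').W.S.KE F.σ p i = (F.cd ω f).W.S.KE F.σ p i := by
  unfold Sys.KE
  rw [F.sI_eq ω f f' h]
  congr 1
  unfold Sys.inK
  refine biUnion_congr rfl fun k _ => ?_
  rw [h, F.sI_eq ω f f' h]
  rfl

/-- The worlds depend on the flips made only. -/
theorem cwf_loc (ω : Ω) (f f' : Fin n × Fin F.nR → Bool)
    (h : ∀ e : Fin n × Fin F.nR, F.cwf.go ω f e.1 e.2.val → ¬ F.cwf.awe ω f e.1 e.2.val →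
      f e = f' e) (p : Fin n) (ρ : ℕ) :
    (F.cwf.go ω f' p ρ ↔ F.cwf.go ω f p ρ) ∧ (F.cwf.awe ω f' p ρ ↔ F.cwf.awe ω f p ρ) := by
  have hr := F.run_eq ω f f' h
  have h1 := F.sI_eq ω f f' hr
  have h2 := F.KE_eq ω f f' hr
  constructor
  · show (ρ < F.nR ∧ (F.cd ω f').W.S.Al F.σ p (F.G.st ρ)) ↔
      (ρ < F.nR ∧ (F.cd ω f).W.S.Al F.σ p (F.G.st ρ))
    unfold Sys.Al
    rw [h1]
    rfl
  · show (Geo.newc ((F.cd ω f').W.S.KE F.σ p (F.G.la ρ))
      ((F.cd ω f').W.S.sI F.σ p (F.G.st ρ)).d.cand ≠ none) ↔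
      (Geo.newc ((F.cd ω f).W.S.KE F.σ p (F.G.la ρ))
      ((F.cd ω f).W.S.sI F.σ p (F.G.st ρ)).d.cand ≠ none)
    rw [h1, h2]

end CF

end Pool.Agent.E217
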