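import Pool.Agent.MP217Exact.CWorld

set_option autoImplicit false

/-!
# The world of the conciliator: flow of information and evidence
-/

namespace Pool.Agent.E217

open Finset
open Pool.Agent.X217 (CW)

attribute [local instance 10] Classical.propDecidable

variable {n : ℕ}

namespace CD

variable (C : CD n)

theorem w_2 (b : Fin n) (ρ : ℕ) (h : ρ < C.cw.H) (hg : C.cw.go b ρ) (a : Fin n)
    (ha : a ∈ C.cw.M b ρ) :
    C.cw.go a ρ ∧ C.cw.F a ρ < C.cw.E b ρ ∧ (C.cw.awf a ρ → C.cw.awe b ρ) := by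
  rw [C.cw_H] at h
  obtain ⟨h1, h2, h3, _⟩ := C.W.team (show ρ < C.W.G.H from h) hg.2 ha
  refine ⟨⟨hg.1, h1⟩, h2, ?_⟩
  rintro ⟨f, hf, hc⟩
  exact (newc_ne _ _).mpr (Or.inr ⟨f, h3 hf, hc⟩)

theorem w_3 (d : Fin n) (ρ' : ℕ) (b : Fin n) (ρ : ℕ) (hd : C.cw.go d ρ') (hb : C.cw.go b ρ)
    (h1 : b ∈ C.cw.Ext d ρ') (h2 : d ∈ C.cw.Ext b ρ) (ht : C.cw.F d ρ' < C.cw.S b ρ)
    (ha : C.cw.aw d ρ') : C.cw.awf b ρ := by
  have h1' : b ∈ C.W.Ext d ρ' := List.mem_toFinset.mp h1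
  have h2' : d ∈ C.W.Ext b ρ := List.mem_toFinset.mp h2
  have hsub := C.W.flow_time (show ρ' < C.W.nR from hd.1) (show ρ < C.W.nR from hb.1) hd.2 hb.2
    h1' h2' ht
  have hown := C.W.own_lab (le_of_lt (show ρ' < C.W.nR from hd.1)) hd.2
  exact ⟨_, hsub hown, ha⟩

/-- The team in the label of run `ρ + 1`. -/
private theorem CWB_names {b x : Fin n} {ρ : ℕ} (h : ρ + 1 ≤ C.nR) (hg : C.W.go b (ρ + 1)) :
    x ∈ names (C.W.S.sI C.W.σ b (C.W.G.st (ρ + 1))).M ↔ x ∈ C.W.Mf b ρ := by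
  have hgo : C.W.go b ρ := C.W.go_mono (Nat.le_succ ρ) h hg
  have hlt : ρ < C.W.nR := h
  rw [C.W.names_M hlt hgo, mem_insert]
  constructor
  · rintro (rfl | h)
    · exact C.W.self_Mf hlt hgo
    · exact h
  · exact Or.inr

/-- PROOF: `dS_succ`: `Evid` for `KR p ρ`; the facts are genuine (`lab_KR`, `done_KR`); `names f.M`
is `insert b (Mf b ρ')` (`names_M`), and `b ∈ Mf b ρ'` (`self_Mf`). -/
theorem w_4 (p : Fin n) (ρ : ℕ) (h : C.cw.lv p ρ) :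
    (∃ x ρ', ρ' + 1 ≤ ρ ∧ ρ' < C.cw.H ∧ C.cw.go x ρ' ∧ C.cw.aw x ρ' ∧
      16 * 2 ^ C.cw.lev ρ' ≤ (univ.filter fun b => C.cw.go b (ρ' + 1) ∧ x ∈ C.cw.M b ρ' ∧
        C.cw.F b (ρ' + 1) ≤ C.cw.E p ρ).card) ∨ (C.cw.H ≤ ρ ∧ C.cw.aw p ρ) := by
  obtain ⟨⟨hρ, hg⟩, hout⟩ := h
  have hs := C.dS_succ hρ hg
  by_cases hev : C.G.Evid (C.W.KR p ρ) ρ ∨ (C.G.H ≤ ρ ∧ (C.W.dS p ρ).cand ≠ none)
  · rcases hev with hev | hev
    · left
      obtain ⟨x, ρ', h1, h2, ⟨f, hf, hfa, hfi, hfc⟩, hcard⟩ := hev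
      have hlab := C.W.lab_KR (show ρ < C.W.nR from hρ) hg hf hfi
      rw [hfa] at hlab
      refine ⟨x, ρ', h1, by rw [C.cw_H]; exact h2, ⟨hlab.1, hlab.2.1⟩, ?_, ?_⟩
      · show (C.W.dS x ρ').cand ≠ none
        rw [← hlab.2.2.1]; exact hfc
      · rw [C.cw_lev]
        refine hcard.trans (card_le_card fun b hb => ?_)
        simp only [mem_filter, mem_univ, true_and] at hb ⊢
        obtain ⟨⟨f1, hf1, ha1, hi1⟩, ⟨f2, hf2, ha2, hi2, hx2⟩⟩ := hb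
        have hd := C.W.done_KR (show ρ < C.W.nR from hρ) hg hf1 hi1
        have hl := C.W.lab_KR (show ρ < C.W.nR from hρ) hg hf2 hi2
        rw [ha1] at hd
        rw [ha2] at hl
        refine ⟨⟨hl.1, hl.2.1⟩, ?_, hd.2.2.2.le⟩
        rw [hl.2.2.2.1] at hx2
        exact (C.CWB_names (show ρ' + 1 ≤ C.nR from le_of_lt hl.1) hl.2.1).mp hx2
    · right
      exact ⟨by rw [C.cw_H]; exact hev.1, hev.2⟩
  · exfalso
    rw [if_neg hev] at hs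
    split_ifs at hs with h2
    · rw [hs] at hout; simp at hout
    · rw [hs] at hout; simp at hout

/-- PROOF: `Evid (KR q ρ) ρ` with `x`, `ρ'`: for `d` in the set, `a ∈ Mf q ρ` as stated:
`KS d (ρ' + 2) ⊆ KF a ρ ⊆ KR q ρ` (`flow_time`, `team`); `KS d (ρ' + 2)` contains the label of `x` at
run `ρ'` (`team` for `x ∈ Mf d ρ'`, `own_lab`), the own label of `d` at run `ρ' + 1` (`names_M`) and
the own fact of `d` at the pass after its ext pass of run `ρ' + 1` (`Sys.own_K`). -/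
theorem w_5 (q : Fin n) (ρ : ℕ) (x : Fin n) (ρ' : ℕ) (hg : C.cw.go q ρ) (h : ρ < C.cw.H)
    (h' : ρ' + 1 ≤ ρ) (hx : C.cw.go x ρ') (ha : C.cw.aw x ρ')
    (hc : 16 * 2 ^ C.cw.lev ρ' ≤ (univ.filter fun d => x ∈ C.cw.M d ρ' ∧ C.cw.go d (ρ' + 2) ∧
      ∃ a ∈ C.cw.M q ρ, a ∈ C.cw.Ext d (ρ' + 2) ∧ d ∈ C.cw.Ext a ρ ∧
        C.cw.F d (ρ' + 2) < C.cw.S a ρ).card) : C.cw.lv q ρ := by
  rw [C.cw_H] at h
  have hρ'H : ρ' < C.W.G.H := by
    have : ρ' < C.G.H := by omega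
    exact this
  -- what is known
  have key : ∀ d ∈ (univ.filter fun d => x ∈ C.cw.M d ρ' ∧ C.cw.go d (ρ' + 2) ∧
      ∃ a ∈ C.cw.M q ρ, a ∈ C.cw.Ext d (ρ' + 2) ∧ d ∈ C.cw.Ext a ρ ∧
        C.cw.F d (ρ' + 2) < C.cw.S a ρ),
      x ∈ C.W.Mf d ρ' ∧ C.W.go d (ρ' + 2) ∧ ρ' + 2 < C.nR ∧ C.W.KS d (ρ' + 2) ⊆ C.W.KR q ρ := by
    intro d hd
    simp only [mem_filter, mem_univ, true_and] at hd
    obtain ⟨hxd, hgd, a, haM, had, hda, ht⟩ := hd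
    refine ⟨hxd, hgd.2, hgd.1, ?_⟩
    obtain ⟨t1, t2, t3, _⟩ := C.W.team (show ρ < C.W.G.H from h) hg.2 haM
    exact (C.W.flow_time (show ρ' + 2 < C.W.nR from hgd.1) (show ρ < C.W.nR from hg.1) hgd.2 t1
      (List.mem_toFinset.mp had) (List.mem_toFinset.mp hda) ht).trans t3
  have hev : C.G.Evid (C.W.KR q ρ) ρ := by
    refine ⟨x, ρ', h', hρ'H, ?_, ?_⟩
    · -- the label of `x`
      have hne : (univ.filter fun d => x ∈ C.cw.M d ρ' ∧ C.cw.go d (ρ' + 2) ∧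
          ∃ a ∈ C.cw.M q ρ, a ∈ C.cw.Ext d (ρ' + 2) ∧ d ∈ C.cw.Ext a ρ ∧
            C.cw.F d (ρ' + 2) < C.cw.S a ρ).Nonempty := by
        rw [← card_pos]
        have : 0 < 16 * 2 ^ C.cw.lev ρ' := by positivity
        omega
      obtain ⟨d, hd⟩ := hne
      obtain ⟨k1, k2, k3, k4⟩ := key d hd
      have hgd : C.W.go d ρ' := C.W.go_mono (by omega : ρ' ≤ ρ' + 2)
        (show ρ' + 2 ≤ C.W.nR from k3.le) k2
      obtain ⟨t1, t2, t3, _⟩ := C.W.team hρ'H hgd k1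
      have hown := C.W.own_lab (le_of_lt (show ρ' < C.W.nR from hx.1)) hx.2
      have hmem := k4 (C.W.KR_sub_KS (by omega : ρ' < ρ' + 2)
        (show ρ' + 2 ≤ C.W.nR from k3.le) k2 (t3 (C.W.KS_sub_KF hown)))
      exact ⟨_, hmem, rfl, rfl, ha⟩
    · rw [C.cw_lev] at hc
      refine hc.trans (card_le_card fun d hd => ?_)
      obtain ⟨k1, k2, k3, k4⟩ := key d hd
      have k3' : ρ' + 2 ≤ C.W.nR := k3.le
      have hg1 : C.W.go d (ρ' + 1) := C.W.go_mono (by omega : ρ' + 1 ≤ ρ' + 2) k3' k2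
      have hSE : C.W.S.E = C.W.G.st C.W.nR := rfl
      have hstE : C.W.G.st (ρ' + 2) ≤ C.W.S.E := by
        rw [hSE]; exact C.W.G.st_le k3'
      refine mem_filter.mpr ⟨mem_univ _, ?_, ?_⟩
      · -- the fact after the ext pass
        have hle : C.W.G.st (ρ' + 1) + 1 ≤ C.W.G.st (ρ' + 2) := by
          have := C.W.G.st_lt (show ρ' + 1 < ρ' + 2 by omega)
          omega
        have hAl : C.W.S.Al C.W.σ d (C.W.G.st (ρ' + 1) + 1) :=
          Sys.al_mono C.W.ok C.W.fair k2 hle hstE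
        have hown := Sys.own_K C.W.ok C.W.fair (hle.trans hstE) hAl
        have hmem := k4 (Sys.K_mono C.W.ok C.W.fair hle hstE k2 hown)
        exact ⟨_, hmem, rfl, rfl⟩
      · have hown := C.W.own_lab (show ρ' + 1 ≤ C.W.nR by omega) hg1
        have hmem := k4 (Sys.K_mono C.W.ok C.W.fair
          (C.W.G.st_le (show ρ' + 1 ≤ ρ' + 2 by omega)) hstE k2 hown)
        exact ⟨_, hmem, rfl, rfl, (C.CWB_names (show ρ' + 1 ≤ C.nR by
          have : C.W.nR = C.nR := rfl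
          omega) hg1).mpr k1⟩
  refine ⟨hg, ?_⟩
  have hs := C.dS_succ hg.1 hg.2
  rw [if_pos (Or.inl hev)] at hs
  rw [hs]

theorem w_past (b : Fin n) (ρ : ℕ) (h : ρ < C.cw.H) (a : Fin n) (ha : a ∈ C.cw.MS b ρ) :
    C.cw.F a ρ < C.cw.E b ρ := by
  rw [C.cw_H] at h
  have hg : C.K.go b ρ := C.K_go b (by
    have : C.K.S.E = C.K.G.st C.K.nR := rfl
    rw [this]
    have h2 : ρ ≤ C.K.nR := by
      have := C.hR
      have e1 : C.K.nR = C.nR := rfl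
      omega
    exact C.K.G.st_le h2)
  obtain ⟨_, t2, _⟩ := C.K.team (show ρ < C.K.G.H from h) hg ha
  exact t2

end CD

end Pool.Agent.E217
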