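import Pool.Agent.MP217Exact.CWorld
import Pool.Agent.MP217Exact.MLoc

set_option autoImplicit false

/-!
# The world of the conciliator: skeleton and origin of candidates
-/

namespace Pool.Agent.E217

open Finset
open Pool.Agent.X217 (CW)

attribute [local instance 10] Classical.propDecidable

variable {n : ℕ}

namespace CD

variable (C : CD n)

private theorem cc_al_mono (p : Fin n) {i j : ℕ} (h : i ≤ j) :
    C.W.S.al C.σ p i ≤ C.W.S.al C.σ p j := by
  unfold Sys.al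
  rw [tme_le C.fair]
  exact Sys.off_mono _ h

/-- The data at the beginning of a run with a candidate. -/
private theorem cc_pre {q : Fin n} {k : ℕ} (hk : k ≤ C.nR) (hg : C.W.go q k) {v : Bool}
    (hc : (C.W.dS q k).cand = some v) : ∃ k0, k = k0 + 1 ∧ C.W.go q k0 ∧
      ((Geo.newc (C.W.KR q k0) (C.W.dS q k0).cand = none ∧ C.T.fl q k0 = true ∧
        (C.W.dS q k0).bit = v) ∨
        Geo.newc (C.W.KR q k0) (C.W.dS q k0).cand = some v) := by
  rcases k with _ | k0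
  · exfalso
    have h0 : C.W.dS q 0 = ⟨C.T.x q, none, false⟩ := by
      have hst : C.G.st 0 = 0 := by simp [Geo.st]
      unfold Wd.dS
      show (C.W.S.sI C.σ q (C.G.st 0)).d = _
      rw [hst, Sys.sI_zero _ C.fair]
      rfl
    rw [h0] at hc
    cases hc
  · have hg0 : C.W.go q k0 := C.W.go_mono (Nat.le_succ k0) hk hg
    refine ⟨k0, rfl, hg0, ?_⟩
    have hlt : k0 < C.nR := by omega
    have hs := C.dS_succ hlt hg0
    have hout : (C.W.dS q (k0 + 1)).out = false := (C.W.go_succ C.W_nd hlt hg0).1 hg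
    rw [hs] at hc hout
    split_ifs at hc hout with h1 h2
    · exact Or.inl ⟨h2.1, h2.2, Option.some.inj hc⟩
    · exact Or.inr hc

/-- A fact in the knowledge after a run with a candidate comes from a run. -/
private theorem cc_fact {p : Fin n} {ρ : ℕ} (h : ρ < C.nR) (hg : C.W.go p ρ)
    {f : Fact n DC} (hf : f ∈ C.W.KR p ρ) : ∃ k, k < C.nR ∧ C.W.go f.a k ∧
      f.d = C.W.dS f.a k ∧ C.W.sT f.a k < C.W.eT p ρ := by
  have hE : C.W.S.E = C.G.st C.nR := rfl
  have hla : C.G.la ρ + 1 = C.G.st (ρ + 1) := C.G.la_succ ρ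
  have hst : C.G.st (ρ + 1) ≤ C.G.st C.nR := C.G.st_le (by omega)
  have hAl : C.W.S.Al C.σ p (C.G.la ρ) := C.W.go_pass h hg (C.G.st_le_la ρ) le_rfl
  obtain ⟨h1, h2, h3, h4, h5, h6, h7, h8⟩ :=
    Sys.gen_KE C.W.ok C.fair (by rw [hE]; omega) hAl hf
  obtain ⟨h9, h10⟩ := C.W.al_go h1 h2
  obtain ⟨s1, s2⟩ := C.G.rOf_spec f.i
  have s3 := C.G.la_succ (C.G.rOf f.i)
  refine ⟨C.G.rOf f.i, h10, h9, ?_, ?_⟩
  · rw [h3]
    exact C.W.dI_run C.W_nd h10 h9 s1 (by
      show f.i ≤ C.G.la (C.G.rOf f.i)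
      omega)
  · have := C.cc_al_mono f.a s1
    exact lt_of_le_of_lt this h7

/-- All candidates are inputs of processors with a successful flip. -/
private theorem cc_val (t : ℕ) : ∀ {p : Fin n} {ρ : ℕ}, C.W.sT p ρ < t → ρ ≤ C.nR →
    C.W.go p ρ → ∀ {v : Bool}, (C.W.dS p ρ).cand = some v → ∃ q ρ', C.cw.go q ρ' ∧
      ¬ C.cw.awe q ρ' ∧ C.cw.fl q ρ' ∧ C.T.x q = v ∧ C.cw.E q ρ' < C.cw.S p ρ := by
  induction t with
  | zero => intro p ρ h; omega
  | succ t ih =>
    intro p ρ hlt h hg v hv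
    obtain ⟨k, rfl, hgk, hc⟩ := C.cc_pre h hg hv
    have hes : C.W.eT p k < C.W.sT p (k + 1) := C.W.eT_lt_sT p (Nat.lt_succ_self k)
    have hse : C.W.sT p k < C.W.eT p k := lt_of_lt_of_le (C.W.sT_lt_fT p k) (C.W.fT_le_eT p k)
    have hkR : k < C.nR := by omega
    rcases hc with ⟨hn, hfl, hb⟩ | hn
    · refine ⟨p, k, ⟨hkR, hgk⟩, ?_, hfl, ?_, hes⟩
      · intro ha
        exact ha hn
      · rw [← hb, C.bit_eq hkR.le hgk]
    · have hor : (C.W.dS p k).cand = some v ∨ ∃ f ∈ C.W.KR p k, f.d.cand = some v := by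
        unfold Geo.newc at hn
        split_ifs at hn with h1 h2 h3
        · exact Or.inl hn
        · right
          rw [← hn]
          exact h2
        · right
          rw [← hn]
          exact h3
      rcases hor with h1 | ⟨f, hf, hfv⟩
      · obtain ⟨q, ρ', a1, a2, a3, a4, a5⟩ := ih (p := p) (ρ := k) (by omega) hkR.le hgk h1
        refine ⟨q, ρ', a1, a2, a3, a4, lt_trans a5 ?_⟩
        show C.W.sT p k < C.W.sT p (k + 1)
        omega
      · obtain ⟨k', b1, b2, b3, b4⟩ := C.cc_fact hkR hgk hf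
        rw [b3] at hfv
        obtain ⟨q, ρ', a1, a2, a3, a4, a5⟩ := ih (p := f.a) (ρ := k') (by omega) b1.le b2 hfv
        refine ⟨q, ρ', a1, a2, a3, a4, lt_trans a5 ?_⟩
        show C.W.sT f.a k' < C.W.sT p (k + 1)
        omega

/-- PROOF: `Sys.loc` for the conciliator and the skeleton with `B = st (ρ + 1)`, `τ = eT b ρ`; a
processor `p` which does not take part in pass `i < B` with `al p i ≤ τ` has left at the end of some
run `ρ' < ρ` (`not_al`, `go_pass`), `eT p ρ' < al p i ≤ eT b ρ`, contradiction. -/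
theorem w_6 (b : Fin n) (ρ : ℕ) (h : ρ < C.cw.H) (hg : C.cw.go b ρ)
    (hq : ∀ q ρ', ρ' < ρ → C.cw.lv q ρ' → C.cw.E b ρ ≤ C.cw.E q ρ') :
    C.cw.M b ρ = C.cw.MS b ρ := by
  obtain ⟨hρ, hgo⟩ := hg
  have hE : C.W.S.E = C.G.st C.nR := rfl
  have hla : C.G.la ρ + 1 = C.G.st (ρ + 1) := C.G.la_succ ρ
  have hst : C.G.st (ρ + 1) ≤ C.G.st C.nR := C.G.st_le (by omega)
  have hAl : C.W.S.Al C.σ b (C.G.la ρ) := C.W.go_pass hρ hgo (C.G.st_le_la ρ) le_rfl
  have key := Sys.loc (S := C.W.S) (S' := C.K.S) C.W.ok C.K.ok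
    ⟨rfl, rfl, rfl, rfl, rfl, rfl⟩ C.fair (C.G.st (ρ + 1)) (C.W.eT b ρ) hst
    (fun i j hi htm hch => by
      have htm' : decide (C.G.jOf i ≠ 0) = true := htm
      have hj : C.G.jOf i ≠ 0 := of_decide_eq_true htm'
      have hc0 : C.G.chan i ≠ 0 := fun h0 => hj (C.G.chan_zero.1 h0)
      have hr : C.G.rOf i = C.G.rOf j := C.G.chan_run hch hc0
      obtain ⟨s1, _⟩ := C.G.rOf_spec i
      obtain ⟨_, s4⟩ := C.G.rOf_spec j
      have h1 : C.G.rOf i < ρ + 1 := C.G.st_lt_iff.1 (lt_of_le_of_lt s1 hi)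
      have h2 : C.G.st (C.G.rOf j + 1) ≤ C.G.st (ρ + 1) := C.G.st_le (by omega)
      omega)
    (fun _ _ _ _ _ => rfl) (fun _ _ _ _ _ => rfl)
    (fun p i hi hal => by
      have hK : C.K.S.Al C.σ p i := C.K_go p (by
        show i ≤ C.G.st C.nR
        omega)
      refine ⟨fun _ => hK, fun _ => ?_⟩
      obtain ⟨s1, s2⟩ := C.G.rOf_spec i
      have s3 := C.G.la_succ (C.G.rOf i)
      have h1 : C.G.rOf i < ρ + 1 := C.G.st_lt_iff.1 (lt_of_le_of_lt s1 hi)
      by_cases hgi : C.W.go p (C.G.rOf i)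
      · exact C.W.go_pass (by show C.G.rOf i < C.nR; omega) hgi s1 (by
          show i ≤ C.G.la (C.G.rOf i)
          omega)
      · exfalso
        have hex : ∃ k, ¬ C.W.go p k := ⟨_, hgi⟩
        have hmin := Nat.find_spec hex
        have hle : Nat.find hex ≤ C.G.rOf i := Nat.find_min' hex hgi
        have hpos : Nat.find hex ≠ 0 := fun h0 => by
          rw [h0] at hmin
          exact hmin (C.W.go_zero p)
        obtain ⟨k, hk⟩ := Nat.exists_eq_succ_of_ne_zero hpos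
        have hgk : C.W.go p k := by
          by_contra hc
          have := Nat.find_min' hex hc
          omega
        rw [hk] at hmin hle
        have hkR : k < C.nR := by omega
        have hout : (C.W.dS p (k + 1)).out = true := by
          have h3 := C.W.go_succ C.W_nd hkR hgk
          by_contra hc
          have h4 : (C.W.dS p (k + 1)).out = false := by simpa using hc
          exact hmin (h3.2 h4)
        have h5 := hq p k (by omega) ⟨⟨hkR, hgk⟩, hout⟩
        have h6 : C.W.eT p k < C.W.sT p (k + 1) := C.W.eT_lt_sT p (Nat.lt_succ_self k)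
        have h7 : C.W.sT p (k + 1) ≤ C.W.S.al C.σ p i :=
          C.cc_al_mono p (le_trans (C.G.st_le hle) s1)
        have h8 : C.W.eT b ρ ≤ C.W.eT p k := h5
        omega)
  have h2 := key.2 b (C.G.la ρ) (by omega) le_rfl hAl
  show names (C.W.S.ME C.σ b (C.G.la ρ)) = names (C.K.S.ME C.σ b (C.G.la ρ))
  rw [h2]

/-- PROOF: strong induction on `eT p ρ`: a fact with a candidate in `KR p ρ` is the data of its
author at the beginning of its run (`gen_KE`, `dI_run`), or `cand` of `p` itself; this data was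
set at the end of the run before (`dS_succ`), by a flip or by `newc`. -/
theorem w_7 (p : Fin n) (ρ : ℕ) (hg : C.cw.go p ρ) (ha : C.cw.awe p ρ) :
    ∃ q ρ', C.cw.go q ρ' ∧ ¬ C.cw.awe q ρ' ∧ C.cw.fl q ρ' ∧ C.cw.E q ρ' < C.cw.E p ρ := by
  obtain ⟨hρ, hgo⟩ := hg
  have hse : C.W.sT p ρ < C.W.eT p ρ := lt_of_lt_of_le (C.W.sT_lt_fT p ρ) (C.W.fT_le_eT p ρ)
  rcases (newc_ne _ _).1 ha with h1 | ⟨f, hf, hfv⟩
  · obtain ⟨v, hv⟩ := Option.ne_none_iff_exists'.1 h1
    obtain ⟨q, ρ', a1, a2, a3, _, a5⟩ := C.cc_val _ (Nat.lt_succ_self _) hρ.le hgo hv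
    exact ⟨q, ρ', a1, a2, a3, lt_trans a5 hse⟩
  · obtain ⟨k, b1, b2, b3, b4⟩ := C.cc_fact hρ hgo hf
    rw [b3] at hfv
    obtain ⟨v, hv⟩ := Option.ne_none_iff_exists'.1 hfv
    obtain ⟨q, ρ', a1, a2, a3, _, a5⟩ := C.cc_val _ (Nat.lt_succ_self _) b1.le b2 hv
    exact ⟨q, ρ', a1, a2, a3, lt_trans a5 b4⟩

/-- All candidates are inputs of processors with a successful flip.
PROOF: as `w_7`. -/
theorem cand_val {p : Fin n} {ρ : ℕ} (h : ρ ≤ C.nR) (hg : C.W.go p ρ) {v : Bool}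
    (hv : (C.W.dS p ρ).cand = some v) : ∃ q ρ', C.cw.go q ρ' ∧ ¬ C.cw.awe q ρ' ∧
      C.cw.fl q ρ' ∧ C.T.x q = v ∧ C.cw.E q ρ' < C.cw.S p ρ :=
  C.cc_val _ (Nat.lt_succ_self _) h hg hv

end CD

end Pool.Agent.E217
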