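import Pool.Agent.MP217Exact.CW_A
import Pool.Agent.MP217Exact.CW_B
import Pool.Agent.MP217Exact.CW_C

set_option autoImplicit false

/-!
# The world of the conciliator
-/

namespace Pool.Agent.E217

open Finset
open Pool.Agent.X217 (CW)

attribute [local instance 10] Classical.propDecidable

variable {n : ℕ}

namespace CD

variable (C : CD n)

theorem cw_ok (hL : C.G.A.ν0 + 8 ≤ C.G.A.L) (hn : n < 2 ^ (C.G.A.L + 1)) : C.cw.Ok where
  hL := hL
  hr := by rw [C.cw_H]; exact C.hR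
  hn := by rw [Fintype.card_fin]; exact hn
  tS := C.w_times.1
  tF := C.w_times.2.1
  tE := C.w_times.2.2.1
  SF := C.w_times.2.2.2.1
  FE := C.w_times.2.2.2.2.1
  ES := C.w_times.2.2.2.2.2
  nb_symm := C.w_graphs.1
  nb_anti := C.w_graphs.2.1
  rich := C.w_graphs.2.2.1
  ext_nb := C.w_graphs.2.2.2.1
  ext_bot := C.w_graphs.2.2.2.2
  go0 := fun p => ⟨by have := C.hR; omega, C.W.go_zero p⟩
  goS := C.w_goS
  lv_go := fun _ _ h => h.1
  aw0 := C.w_aw0
  awS := C.w_awS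
  aw_awf := C.w_aw_awf
  awf_awe := C.w_awf_awe
  W2 := C.w_2
  W3 := C.w_3
  W4 := C.w_4
  W4b := C.w_4b
  W5 := fun q ρ x ρ' h1 h2 h3 h4 h5 h6 => C.w_5 q ρ x ρ' h1 h2 h3 h4 h5 (by convert h6)
  past := C.w_past
  W6 := C.w_6
  W7 := C.w_7

end CD

end Pool.Agent.E217
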