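import Pool.Agent.MP217Exact.CWorld

set_option autoImplicit false

/-!
# The world of the conciliator: participation and awareness
-/

namespace Pool.Agent.E217

open Finset
open Pool.Agent.X217 (CW)

attribute [local instance 10] Classical.propDecidable

variable {n : ℕ}

namespace CD

variable (C : CD n)

theorem w_goS (p : Fin n) (ρ : ℕ) :
    C.cw.go p (ρ + 1) ↔ C.cw.go p ρ ∧ ¬ C.cw.lv p ρ ∧ ρ + 1 < C.cw.rn := by
  have hgo : ∀ ρ', C.cw.go p ρ' ↔ (ρ' < C.nR ∧ C.W.go p ρ') := fun _ => Iff.rfl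
  have hlv : C.cw.lv p ρ ↔ ((ρ < C.nR ∧ C.W.go p ρ) ∧ (C.W.dS p (ρ + 1)).out = true) := Iff.rfl
  have hrn : C.cw.rn = C.nR := rfl
  rw [hgo, hgo, hlv, hrn]
  constructor
  · rintro ⟨h1, h2⟩
    have h0 : ρ < C.nR := by omega
    have hg : C.W.go p ρ := C.W.go_mono (Nat.le_succ ρ) (le_of_lt h1) h2
    refine ⟨⟨h0, hg⟩, ?_, h1⟩
    rintro ⟨-, h3⟩
    have h4 := (C.W.go_succ C.W_nd h0 hg).mp h2
    have h5 : C.W.sp (C.W.dS p (ρ + 1)) = (C.W.dS p (ρ + 1)).out := rfl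
    rw [h5, h3] at h4
    exact absurd h4 (by decide)
  · rintro ⟨⟨h0, hg⟩, h1, h2⟩
    refine ⟨h2, (C.W.go_succ C.W_nd h0 hg).mpr ?_⟩
    have h5 : C.W.sp (C.W.dS p (ρ + 1)) = (C.W.dS p (ρ + 1)).out := rfl
    rw [h5]
    rcases Bool.eq_false_or_eq_true (C.W.dS p (ρ + 1)).out with h | h
    · exact absurd ⟨⟨h0, hg⟩, h⟩ h1
    · exact h

theorem w_aw0 (p : Fin n) : ¬ C.cw.aw p 0 := by
  intro h
  apply h
  have h0 : C.G.st 0 = 0 := rfl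
  show ((C.W.S.sI C.W.σ p (C.G.st 0)).d).cand = none
  rw [h0, Sys.sI_zero C.W.S C.W.fair p]
  rfl

theorem w_awS (p : Fin n) (ρ : ℕ) (h : C.cw.go p (ρ + 1)) :
    C.cw.aw p (ρ + 1) ↔ C.cw.awe p ρ ∨ C.cw.fl p ρ := by
  have h1 : ρ + 1 < C.nR := h.1
  have h2 : C.W.go p (ρ + 1) := h.2
  have h0 : ρ < C.nR := by omega
  have hg : C.W.go p ρ := C.W.go_mono (Nat.le_succ ρ) (le_of_lt h1) h2
  have h4 := (C.W.go_succ C.W_nd h0 hg).mp h2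
  have h5 : C.W.sp (C.W.dS p (ρ + 1)) = (C.W.dS p (ρ + 1)).out := rfl
  rw [h5] at h4
  show (C.W.dS p (ρ + 1)).cand ≠ none ↔
    Geo.newc (C.W.KR p ρ) (C.W.dS p ρ).cand ≠ none ∨ C.T.fl p ρ = true
  have h6 := C.dS_succ h0 hg
  rw [h6] at h4 ⊢
  split_ifs at h4 ⊢ with ha hb
  · simp [hb.2]
  · constructor
    · intro hc
      exact Or.inl hc
    · rintro (hc | hc)
      · exact hc
      · intro hd
        exact hb ⟨hd, hc⟩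

theorem w_aw_awf (p : Fin n) (ρ : ℕ) (h : C.cw.go p ρ) (ha : C.cw.aw p ρ) : C.cw.awf p ρ := by
  exact ⟨_, C.W.KS_sub_KF (C.W.own_lab (le_of_lt h.1) h.2), ha⟩

theorem w_awf_awe (p : Fin n) (ρ : ℕ) (h : C.cw.go p ρ) (ha : C.cw.awf p ρ) :
    C.cw.awe p ρ := by
  obtain ⟨f, hf, hc⟩ := ha
  exact (newc_ne _ _).mpr (Or.inr ⟨f, C.W.KF_sub_KR h.1 h.2 hf, hc⟩)

theorem w_4b (p : Fin n) (ρ : ℕ) (h : C.cw.H ≤ ρ) (hg : C.cw.go p ρ) (ha : C.cw.aw p ρ) :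
    C.cw.lv p ρ := by
  refine ⟨hg, ?_⟩
  rw [C.cw_H] at h
  rw [C.dS_succ hg.1 hg.2, if_pos (Or.inr ⟨h, ha⟩)]

/-- The times and the graphs. -/
theorem w_times : (∀ p ρ, C.cw.who (C.cw.S p ρ) = p) ∧ (∀ p ρ, C.cw.who (C.cw.F p ρ) = p) ∧
    (∀ p ρ, C.cw.who (C.cw.E p ρ) = p) ∧ (∀ p ρ, C.cw.S p ρ < C.cw.F p ρ) ∧
    (∀ p ρ, C.cw.F p ρ ≤ C.cw.E p ρ) ∧ ∀ p ρ, C.cw.E p ρ < C.cw.S p (ρ + 1) := by
  have key : ∀ (p : Fin n) (k : ℕ), (C.σ (tme C.σ p k)).getD ⟨0, C.G.n_pos⟩ = p := by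
    intro p k
    rw [sched_tme C.fair p k]
    rfl
  refine ⟨fun p ρ => key p _, fun p ρ => key p _, fun p ρ => key p _, fun p ρ => C.W.sT_lt_fT p ρ,
    fun p ρ => C.W.fT_le_eT p ρ, fun p ρ => C.W.eT_lt_sT p (Nat.lt_succ_self ρ)⟩

theorem w_graphs : (∀ ν x y, y ∈ C.cw.Nb ν x → x ∈ C.cw.Nb ν y) ∧
    (∀ ν ν' x, ν ≤ ν' → C.cw.Nb ν' x ⊆ C.cw.Nb ν x) ∧
    (∀ ν ≤ C.cw.L, ∀ A : Finset (Fin n), 2 ^ ν ≤ A.card →
      (univ.filter fun x => Disjoint (C.cw.Nb ν x) A).card < 2 ^ ν) ∧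
    (∀ p ρ, C.cw.Nb (C.cw.lev ρ) p ⊆ C.cw.Ext p ρ) ∧
    ∀ p ρ, C.cw.H ≤ ρ → C.cw.Ext p ρ = univ := by
  refine ⟨fun ν x y h => C.G.A.nest.symm ν x y h, fun ν ν' x h => C.G.A.nest.mono h x, ?_, ?_, ?_⟩
  · intro ν hν A hA
    refine lt_of_le_of_lt (card_le_card ?_) (C.G.A.nest.rich ν hν A hA)
    intro x hx
    rw [mem_filter] at hx ⊢
    refine ⟨hx.1, ?_⟩
    have h0 : A ∩ C.G.A.nest.N ν x = ∅ := by
      rw [inter_comm]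
      exact disjoint_iff_inter_eq_empty.mp hx.2
    rw [h0, card_empty, mul_zero, mul_zero]
    have : 0 < A.card := lt_of_lt_of_le (by positivity) hA
    positivity
  · intro p ρ x hx
    rw [C.cw_lev] at hx
    exact List.mem_toFinset.mpr (Tab.nb_ext C.T C.G hx)
  · intro p ρ h
    rw [C.cw_H] at h
    ext x
    simp only [mem_univ, iff_true]
    exact List.mem_toFinset.mpr (Tab.ext_bot C.T C.G h)

end CD

end Pool.Agent.E217
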