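import Pool.Agent.MP217Exact.RunsK
import Pool.Agent.X217.CWDefs

set_option autoImplicit false

/-!
# The world of the conciliator: definitions
-/

namespace Pool.Agent.E217

open Finset
open Pool.Agent.X217 (CW)

attribute [local instance 10] Classical.propDecidable

variable {n : ℕ}

/-- Data of a world: tables, parameters, number of runs, fair schedule. -/
structure CD (n : ℕ) where
  T : Tab n
  G : Geo n
  nR : ℕ
  σ : ℕ → Option (Fin n)
  fair : Fair σ
  hR : G.H + 2 ≤ nR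

namespace CD

variable (C : CD n)

/-- The conciliator. -/
noncomputable def W : Wd n DC where
  T := C.T
  G := C.G
  nR := C.nR
  d0 := fun p => ⟨C.T.x p, none, false⟩
  nd := C.T.ndC C.G
  sp := DC.out
  σ := C.σ
  fair := C.fair
  hR := by have := C.hR; omega
  hsp := fun p i K M d h => by simp [Tab.ndC, h]
  hd0 := fun _ => rfl

theorem W_S : C.W.S = C.T.sysC C.G C.nR := rfl

theorem W_nd (p : Fin n) (i : ℕ) (K : Finset (Fact n DC)) (M : Finset (Stp n)) (d : DC)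
    (h : ¬ C.W.G.Last i) : C.W.nd p i K M d = d := if_neg h

/-- The skeleton. -/
noncomputable def K : Wd n Unit where
  T := C.T
  G := C.G
  nR := C.nR
  d0 := fun _ => ()
  nd := fun _ _ _ _ d => d
  sp := fun _ => false
  σ := C.σ
  fair := C.fair
  hR := by have := C.hR; omega
  hsp := fun _ _ _ _ _ _ => rfl
  hd0 := fun _ => rfl

/-- The world. -/
noncomputable def cw : CW (Fin n) where
  L := C.G.A.L
  ν0 := C.G.A.ν0
  rn := C.nR
  who t := (C.σ t).getD ⟨0, C.G.n_pos⟩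
  Nb := C.G.A.nest.N
  Ext p ρ := (C.T.ext C.G p ρ).toFinset
  S := C.W.sT
  F := C.W.fT
  E := C.W.eT
  MS := C.K.Mf
  M := C.W.Mf
  go p ρ := ρ < C.nR ∧ C.W.go p ρ
  aw p ρ := (C.W.dS p ρ).cand ≠ none
  awf p ρ := ∃ f ∈ C.W.KF p ρ, f.d.cand ≠ none
  awe p ρ := Geo.newc (C.W.KR p ρ) (C.W.dS p ρ).cand ≠ none
  lv p ρ := (ρ < C.nR ∧ C.W.go p ρ) ∧ (C.W.dS p (ρ + 1)).out = true
  fl p ρ := C.T.fl p ρ = true

theorem cw_H : C.cw.H = C.G.H := by
  have := C.G.H_eq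
  show C.G.A.L - C.G.A.ν0 = C.G.H
  omega

theorem cw_lev (ρ : ℕ) : C.cw.lev ρ = C.G.lev ρ := by
  unfold CW.lev Geo.lev
  rw [C.cw_H]
  rfl

/-- Nobody stops in the skeleton. -/
theorem K_go (p : Fin n) {i : ℕ} (hi : i ≤ C.K.S.E) : C.K.S.Al C.σ p i := by
  induction i with
  | zero => exact (Sys.al_zero C.K.S C.fair p).2 rfl
  | succ i ih =>
    have h1 := ih (by omega)
    exact (Sys.al_succ C.K.ok C.fair (show i < C.K.S.E from hi) h1).2 rfl

/-- The rule. -/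
theorem dS_succ {p : Fin n} {ρ : ℕ} (h : ρ < C.nR) (hg : C.W.go p ρ) :
    C.W.dS p (ρ + 1) =
      if C.G.Evid (C.W.KR p ρ) ρ ∨ (C.G.H ≤ ρ ∧ (C.W.dS p ρ).cand ≠ none) then
        ⟨(C.W.dS p ρ).bit, Geo.newc (C.W.KR p ρ) (C.W.dS p ρ).cand, true⟩
      else if Geo.newc (C.W.KR p ρ) (C.W.dS p ρ).cand = none ∧ C.T.fl p ρ = true then
        ⟨(C.W.dS p ρ).bit, some (C.W.dS p ρ).bit, false⟩
      else ⟨(C.W.dS p ρ).bit, Geo.newc (C.W.KR p ρ) (C.W.dS p ρ).cand, false⟩ := by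
  have h1 := Wd.dS_succ C.W (fun p i K M d h => C.W_nd p i K M d h) h hg
  rw [h1]
  show C.T.ndC C.G p (C.G.la ρ) (C.W.KR p ρ) (C.W.S.ME C.W.σ p (C.G.la ρ)) (C.W.dS p ρ) = _
  unfold Tab.ndC
  rw [if_pos (C.G.last_la ρ), C.G.rOf_la]

theorem newc_ne (X : Finset (Fact n DC)) (c : Option Bool) :
    Geo.newc X c ≠ none ↔ c ≠ none ∨ ∃ f ∈ X, f.d.cand ≠ none := by
  unfold Geo.newc
  by_cases hc : c = none
  · subst hc
    by_cases h1 : ∃ f ∈ X, f.d.cand = some true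
    · obtain ⟨f, hf, hf'⟩ := h1
      have h2 : ∃ f ∈ X, f.d.cand ≠ none := ⟨f, hf, by rw [hf']; simp⟩
      simp [h2, show ∃ f ∈ X, f.d.cand = some true from ⟨f, hf, hf'⟩]
    · by_cases h3 : ∃ f ∈ X, f.d.cand = some false
      · obtain ⟨f, hf, hf'⟩ := h3
        have h2 : ∃ f ∈ X, f.d.cand ≠ none := ⟨f, hf, by rw [hf']; simp⟩
        simp [h1, h2, show ∃ f ∈ X, f.d.cand = some false from ⟨f, hf, hf'⟩]
      · have h4 : ¬ ∃ f ∈ X, f.d.cand ≠ none := by
          rintro ⟨f, hf, hf'⟩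
          rcases hcd : f.d.cand with _ | b
          · exact hf' hcd
          · cases b
            · exact h3 ⟨f, hf, hcd⟩
            · exact h1 ⟨f, hf, hcd⟩
        simp only [ne_eq, not_true_eq_false, if_false, if_neg h1, if_neg h3, false_or]
        simpa using h4
  · simp [hc]

theorem bit_eq {p : Fin n} {ρ : ℕ} (h : ρ ≤ C.nR) (hg : C.W.go p ρ) :
    (C.W.dS p ρ).bit = C.T.x p := by
  induction ρ with
  | zero =>
    have h0 : C.W.G.st 0 = 0 := by simp [Geo.st]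
    unfold Wd.dS
    rw [h0, Sys.sI_zero C.W.S C.W.fair p]
    rfl
  | succ ρ ih =>
    have h1 := Wd.go_mono C.W (Nat.le_succ ρ) h hg
    have h2 := ih (by omega) h1
    rw [C.dS_succ (show ρ < C.nR from h) h1]
    split_ifs <;> exact h2

end CD

end Pool.Agent.E217
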