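import Pool.Agent.MP217Exact.CW_C

set_option autoImplicit false

/-!
# The world of the conciliator: final candidates
-/

namespace Pool.Agent.E217

open Finset
open Pool.Agent.X217 (CW)

attribute [local instance 10] Classical.propDecidable

variable {n : ℕ}

namespace CD

variable (C : CD n)

/-- A fact in the knowledge after a run comes from a run. -/
private theorem cf_fact {p : Fin n} {ρ : ℕ} (h : ρ < C.nR) (hg : C.W.go p ρ)
    {f : Fact n DC} (hf : f ∈ C.W.KR p ρ) : ∃ k, k < C.nR ∧ C.W.go f.a k ∧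
      f.d = C.W.dS f.a k ∧ C.W.sT f.a k < C.W.eT p ρ := by
  have hE : C.W.S.E = C.G.st C.nR := rfl
  have hla : C.G.la ρ + 1 = C.G.st (ρ + 1) := C.G.la_succ ρ
  have hst : C.G.st (ρ + 1) ≤ C.G.st C.nR := C.G.st_le (by omega)
  have hAl : C.W.S.Al C.σ p (C.G.la ρ) := C.W.go_pass h hg (C.G.st_le_la ρ) le_rfl
  obtain ⟨h1, h2, h3, h4, h5, h6, h7, h8⟩ :=
    Sys.gen_KE C.W.ok C.fair (by rw [hE]; omega) hAl hf
  obtain ⟨h9, h10⟩ := C.W.al_go h1 h2
  obtain ⟨s1, s2⟩ := C.G.rOf_spec f.i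
  have s3 := C.G.la_succ (C.G.rOf f.i)
  refine ⟨C.G.rOf f.i, h10, h9, ?_, ?_⟩
  · rw [h3]
    exact C.W.dI_run C.W_nd h10 h9 s1 (by
      show f.i ≤ C.G.la (C.G.rOf f.i)
      omega)
  · have h11 : C.W.S.al C.σ f.a (C.G.st (C.G.rOf f.i)) ≤ C.W.S.al C.σ f.a f.i := by
      unfold Sys.al
      rw [tme_le C.fair]
      exact Sys.off_mono _ s1
    exact lt_of_le_of_lt h11 h7

/-- A candidate at the end of a run is the input of a processor with a successful flip.
PROOF: `dS_succ`; a flip: `q = p`, `ρ' = ρ`; otherwise the candidate is the one at the beginning of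
the run (`cand_val`), or the candidate of a known fact: this is the data of its author at the
beginning of its run (`gen_KE`, `dI_run`), which started before `eT p ρ`; `cand_val`. -/
theorem cand_fin {p : Fin n} {ρ : ℕ} (h : ρ < C.nR) (hg : C.W.go p ρ) {v : Bool}
    (hv : (C.W.dS p (ρ + 1)).cand = some v) : ∃ q ρ', C.cw.go q ρ' ∧ ¬ C.cw.awe q ρ' ∧
      C.cw.fl q ρ' ∧ C.T.x q = v ∧ C.cw.E q ρ' ≤ C.cw.E p ρ := by
  have hse : C.W.sT p ρ < C.W.eT p ρ := lt_of_lt_of_le (C.W.sT_lt_fT p ρ) (C.W.fT_le_eT p ρ)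
  have key : Geo.newc (C.W.KR p ρ) (C.W.dS p ρ).cand = some v → ∃ q ρ', C.cw.go q ρ' ∧
      ¬ C.cw.awe q ρ' ∧ C.cw.fl q ρ' ∧ C.T.x q = v ∧ C.cw.E q ρ' ≤ C.cw.E p ρ := by
    intro hn
    have hor : (C.W.dS p ρ).cand = some v ∨ ∃ f ∈ C.W.KR p ρ, f.d.cand = some v := by
      unfold Geo.newc at hn
      split_ifs at hn with h1 h2 h3
      · exact Or.inl hn
      · right
        rw [← hn]
        exact h2
      · right
        rw [← hn]
        exact h3
    rcases hor with h1 | ⟨f, hf, hfv⟩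
    · obtain ⟨q, ρ', a1, a2, a3, a4, a5⟩ := C.cand_val h.le hg h1
      exact ⟨q, ρ', a1, a2, a3, a4, (lt_trans a5 hse).le⟩
    · obtain ⟨k, b1, b2, b3, b4⟩ := C.cf_fact h hg hf
      rw [b3] at hfv
      obtain ⟨q, ρ', a1, a2, a3, a4, a5⟩ := C.cand_val b1.le b2 hfv
      exact ⟨q, ρ', a1, a2, a3, a4, (lt_trans a5 b4).le⟩
  rw [C.dS_succ h hg] at hv
  split_ifs at hv with h1 h2
  · exact key hv
  · refine ⟨p, ρ, ⟨h, hg⟩, fun ha => ha h2.1, h2.2, ?_, le_rfl⟩
    rw [← C.bit_eq h.le hg]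
    exact Option.some.inj hv
  · exact key hv

/-- The value of a processor after run `ρ`: its input, or the input of a processor with a
successful flip. -/
theorem val_fin {p : Fin n} {ρ : ℕ} (h : ρ < C.nR) (hg : C.W.go p ρ) {v : Bool}
    (hv : (C.W.dS p (ρ + 1)).cand.getD (C.W.dS p (ρ + 1)).bit = v) :
    (C.T.x p = v ∧ ¬ C.cw.awe p ρ) ∨ ∃ q ρ', C.cw.go q ρ' ∧ ¬ C.cw.awe q ρ' ∧
      C.cw.fl q ρ' ∧ C.T.x q = v ∧ C.cw.E q ρ' ≤ C.cw.E p ρ := by
  rcases hc : (C.W.dS p (ρ + 1)).cand with _ | w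
  · left
    rw [hc, Option.getD_none] at hv
    have hs := C.dS_succ h hg
    have hn : Geo.newc (C.W.KR p ρ) (C.W.dS p ρ).cand = none := by
      rw [hs] at hc
      split_ifs at hc with h1 h2
      · exact hc
      · exact hc
    refine ⟨?_, fun ha => ha hn⟩
    rw [← C.bit_eq h.le hg, ← hv, hs]
    split_ifs <;> rfl
  · right
    rw [hc, Option.getD_some] at hv
    rw [hv] at hc
    exact C.cand_fin h hg hc

end CD

end Pool.Agent.E217
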