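import Pool.Agent.MP217Exact.Dec

set_option autoImplicit false

/-!
# The common part of the programs: basic facts
-/

namespace Pool.Agent.E217

open Finset
open Pool.Agent.X217 (Tb)

attribute [local instance 10] Classical.propDecidable

variable {n : ℕ} {D : Type}

theorem length_padl (m : ℕ) (p : Fin n) (A : Finset (Fin n)) (h : A.card ≤ m) :
    (padl m p A).length = m := by
  unfold padl
  rw [List.length_append, Finset.length_toList, List.length_replicate]
  omega

theorem mem_padl {m : ℕ} {p x : Fin n} {A : Finset (Fin n)} (h : x ∈ A) : x ∈ padl m p A := by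
  unfold padl
  exact List.mem_append_left _ (Finset.mem_toList.2 h)

namespace Tab

variable (T : Tab n) (G : Geo n)

theorem length_lst (b : Bool) (p : Fin n) (i : ℕ) (M : Finset (Stp n)) :
    (T.lst G b p i M).length = G.ln i := by
  unfold lst Geo.ln
  split
  · exact G.A.length_extList (G.lev_le _) p _
  · exact length_padl _ _ _ (G.TT_card _ _ _)
  · split_ifs
    · exact Blk.length_lst1 _ _
    · exact Blk.length_tl _ _ _ _ _
  · exact length_padl _ _ _ ((G.mid _).l0_card p)
  · rfl

theorem ln_pos (G : Geo n) (i : ℕ) : 0 < G.ln i := by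
  unfold Geo.ln
  split
  · rw [← G.A.length_extList (G.lev_le (G.rOf i)) ⟨0, G.n_pos⟩ (fun _ => 0)]
    exact List.length_pos_of_mem (G.A.N_sub_ext _ (G.A.nest.self _ _))
  · exact G.tn_pos _ _
  · split_ifs
    · exact Nat.mul_pos (G.mid _).Rn_pos (G.mid _).mx_pos
    · exact Nat.mul_pos (G.mid _).Rn_pos (Nat.mul_pos (by norm_num) (G.mid _).Lam_pos)
  · exact (G.mid _).m0_pos
  · exact Nat.one_pos

/-- The list of an ext pass. -/
theorem lst_st (b : Bool) (p : Fin n) (ρ : ℕ) (M : Finset (Stp n)) :
    T.lst G b p (G.st ρ) M = T.ext G p ρ := by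
  have h1 : G.kd (G.rOf (G.st ρ)) (G.jOf (G.st ρ)) = .ext := by
    rw [G.jOf_st]
    unfold Geo.kd
    rw [if_pos rfl]
  unfold lst
  rw [h1, G.rOf_st]

theorem core_ok (nR : ℕ) (d0 : Fin n → D)
    (nd : Fin n → ℕ → Finset (Fact n D) → Finset (Stp n) → D → D) (sp : D → Bool) :
    (T.core G nR d0 nd sp).Ok := by
  constructor
  · exact fun i => ln_pos G i
  · exact fun i => ln_pos G i
  · exact fun p i M => T.length_lst G false p i M
  · exact fun p i M => T.length_lst G true p i M
  · intro i j h
    have h' : G.chan i = G.chan j := h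
    show decide (G.jOf i ≠ 0) = decide (G.jOf j ≠ 0)
    refine decide_eq_decide.2 ?_
    rw [ne_eq, ne_eq, ← G.chan_zero, ← G.chan_zero, h']
  · intro i j k h ht hik hkj
    have h' : G.chan i = G.chan j := h
    have ht' : G.jOf i ≠ 0 := by
      have h1 : decide (G.jOf i ≠ 0) = true := ht
      exact of_decide_eq_true h1
    have h2 : G.rOf i = G.rOf j := G.chan_run h' (fun h0 => ht' (G.chan_zero.1 h0))
    have h3 := G.rOf_spec i
    have h4 := G.rOf_spec j
    have h5 : G.rOf k = G.rOf i := G.rOf_eq (by omega) (by rw [h2]; omega)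
    show decide (G.jOf k = 1) = false
    refine decide_eq_false ?_
    unfold Geo.jOf at ht' ⊢
    rw [h5]
    omega

/-- The lists of an ext pass contain the neighbours at its level. -/
theorem nb_ext {p x : Fin n} {ρ : ℕ} (h : x ∈ G.A.nest.N (G.lev ρ) p) : x ∈ T.ext G p ρ := by
  exact G.A.N_sub_ext _ h

/-- The lists of bottom runs contain everybody. -/
theorem ext_bot {p x : Fin n} {ρ : ℕ} (h : G.H ≤ ρ) : x ∈ T.ext G p ρ := by
  exact G.A.ext_low (G.lev_bot h).le p x _

end Tab

end Pool.Agent.E217
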