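import Pool.Agent.MP217Exact.Core

set_option autoImplicit false

/-!
# The tick phases of the programs
-/

namespace Pool.Agent.E217

open Finset
open Pool.Agent.X217 (Tb)

attribute [local instance 10] Classical.propDecidable

variable {n : ℕ} {D : Type}

namespace Tab

variable (T : Tab n) (G : Geo n)

/-- The table of the picks of tick phase `f` of run `ρ`. -/
noncomputable def tbl (T : Tab n) (G : Geo n) (ρ f : ℕ) (b : Bool) :
    Tb (Fin n) (G.mid ρ).N (G.mid ρ).Rn (G.mid ρ).Lam (2 ^ (G.mid ρ).om) :=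
  fun q => T.pv G q.1 ρ f b q.2.val

/-- The family of programs where the picks of tick phase `f` of run `ρ` vary. -/
noncomputable def var (T : Tab n) (G : Geo n) (ρ f nR : ℕ) (d0 : Fin n → D)
    (nd : Fin n → ℕ → Finset (Fact n D) → Finset (Stp n) → D → D) (sp : D → Bool)
    (a b : Tb (Fin n) (G.mid ρ).N (G.mid ρ).Rn (G.mid ρ).Lam (2 ^ (G.mid ρ).om)) : Sys n D :=
  (T.repl ρ f a b).core G nR d0 nd sp

/-- The list of a pass of a tick phase. -/
private theorem ct_lst_ph {b : Bool} {p : Fin n} {i ρ f s : ℕ} {M : Finset (Stp n)}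
    (hr : G.rOf i = ρ) (hk : G.kd (G.rOf i) (G.jOf i) = .ph f s) :
    T.lst G b p i M = if s = 1 then (G.mid ρ).X.lst1 p
      else (G.mid ρ).X.tl (G.p0 ρ f) (T.pv G p ρ f b s) p M := by
  subst hr
  unfold lst
  rw [hk]

/-- The list of a pass which is not in a tick phase. -/
private theorem ct_lst_np {T' : Tab n} (hx : T'.sd = T.sd) {b : Bool} {p : Fin n} {i : ℕ}
    {M : Finset (Stp n)} (hk : ∀ f s, G.kd (G.rOf i) (G.jOf i) ≠ .ph f s) :
    T'.lst G b p i M = T.lst G b p i M := by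
  have he : T'.ext G p (G.rOf i) = T.ext G p (G.rOf i) := by
    unfold ext
    rw [hx]
  unfold lst
  split
  · exact he
  · rfl
  · rename_i f s h
    exact absurd h (hk f s)
  · rfl
  · rfl

/-- The picks after a replacement. -/
private theorem ct_pv_repl {ρ f : ℕ}
    (a b : Tb (Fin n) (G.mid ρ).N (G.mid ρ).Rn (G.mid ρ).Lam (2 ^ (G.mid ρ).om))
    (p : Fin n) (bb : Bool) (s : ℕ) (hs : s < (G.mid ρ).N + 1) :
    (T.repl ρ f a b).pv G p ρ f bb s = (cond bb b a) (p, ⟨s, hs⟩) := by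
  funext r c
  apply Fin.ext
  unfold pv repl
  dsimp only
  rw [if_pos ⟨rfl, rfl⟩, dif_pos ⟨hs, r.2, c.2⟩]
  exact Nat.mod_eq_of_lt (Fin.is_lt _)

private theorem ct_pv_other {ρ f : ℕ}
    (a b : Tb (Fin n) (G.mid ρ).N (G.mid ρ).Rn (G.mid ρ).Lam (2 ^ (G.mid ρ).om))
    (p : Fin n) (bb : Bool) (s ρ' f' : ℕ) (h : ¬ (ρ' = ρ ∧ f' = f)) :
    (T.repl ρ f a b).pv G p ρ' f' bb s = T.pv G p ρ' f' bb s := by
  funext r c
  apply Fin.ext
  unfold pv repl
  dsimp only
  rw [if_neg h]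

/-- The replacement changes only the lists of the tick phase. -/
private theorem ct_lst_other {ρ f : ℕ}
    (a b : Tb (Fin n) (G.mid ρ).N (G.mid ρ).Rn (G.mid ρ).Lam (2 ^ (G.mid ρ).om))
    (bb : Bool) (p : Fin n) (i : ℕ) (M : Finset (Stp n))
    (h : i < G.p0 ρ f ∨ G.p0 ρ f + (G.mid ρ).N ≤ i) :
    (T.repl ρ f a b).lst G bb p i M = T.lst G bb p i M := by
  by_cases hk : ∃ f' s, G.kd (G.rOf i) (G.jOf i) = .ph f' s
  · obtain ⟨f', s, hk⟩ := hk
    rw [ct_lst_ph _ G rfl hk, ct_lst_ph _ G rfl hk]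
    obtain ⟨h1, h2, h3, h4, h5⟩ := G.kd_ph hk
    rw [ct_pv_other]
    rintro ⟨e1, e2⟩
    rw [e1] at h4 h5
    rw [e2] at h5
    omega
  · push Not at hk
    exact ct_lst_np T G (T' := T.repl ρ f a b) rfl hk

/-- Replacing the picks by the old ones changes nothing. -/
theorem repl_self (ρ f nR : ℕ) (h1 : G.top ≤ ρ) (h2 : ρ < G.H) (d0 : Fin n → D)
    (nd : Fin n → ℕ → Finset (Fact n D) → Finset (Stp n) → D → D) (sp : D → Bool) :
    T.var G ρ f nR d0 nd sp (T.tbl G ρ f false) (T.tbl G ρ f true) =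
      T.core G nR d0 nd sp := by
  have hl : ∀ bb, (T.repl ρ f (T.tbl G ρ f false) (T.tbl G ρ f true)).lst G bb =
      T.lst G bb := by
    intro bb
    funext p i M
    by_cases hk : ∃ f' s, G.kd (G.rOf i) (G.jOf i) = .ph f' s
    · obtain ⟨f', s, hk⟩ := hk
      rw [ct_lst_ph _ G rfl hk, ct_lst_ph _ G rfl hk]
      obtain ⟨h3, h4, h5, h6, h7⟩ := G.kd_ph hk
      by_cases he : G.rOf i = ρ ∧ f' = f
      · obtain ⟨e1, e2⟩ := he
        subst e1
        subst e2
        rw [ct_pv_repl _ _ _ _ _ _ _ (by omega)]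
        cases bb <;> rfl
      · rw [ct_pv_other _ _ _ _ _ _ _ _ _ he]
    · push Not at hk
      exact ct_lst_np T G (T' := T.repl ρ f (T.tbl G ρ f false) (T.tbl G ρ f true)) rfl hk
  unfold var core
  rw [hl, hl]
  rfl

/-- The tick phases of a mid run are tick phases (`TickPh`). -/
theorem tick_ph {ρ f nR : ℕ} (h1 : G.top ≤ ρ) (h2 : ρ < G.H) (hf : f < 2) (hR : G.H ≤ nR)
    (d0 : Fin n → D) (nd : Fin n → ℕ → Finset (Fact n D) → Finset (Stp n) → D → D)
    (sp : D → Bool) (hsp : ∀ p i K M d, ¬ G.Last i → sp (nd p i K M d) = sp d) :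
    TickPh (G.mid ρ).X (G.p0 ρ f) (T.core G nR d0 nd sp) (T.var G ρ f nR d0 nd sp) := by
  have hN := (G.mid ρ).N_pos
  have hla := G.la_mid h1 h2
  have hls := G.la_succ ρ
  have hp00 := G.p0_zero ρ
  have hp01 := G.p0_one ρ
  have hlo : G.st ρ + 1 ≤ G.p0 ρ f := by
    unfold Geo.p0
    omega
  have hhi : G.p0 ρ f + (G.mid ρ).N ≤ G.la ρ := by
    interval_cases f <;> omega
  have hrun : ∀ i, G.p0 ρ f ≤ i → i ≤ G.p0 ρ f + (G.mid ρ).N → G.rOf i = ρ := fun i ha hb =>
    G.rOf_eq (by omega) (by omega)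
  have hj : ∀ i, G.p0 ρ f ≤ i → i ≤ G.p0 ρ f + (G.mid ρ).N → G.jOf i = i - G.st ρ := fun i ha hb =>
    by unfold Geo.jOf; rw [hrun i ha hb]
  have hkd : ∀ s, 1 ≤ s → s ≤ (G.mid ρ).N →
      G.kd (G.rOf (G.p0 ρ f + s - 1)) (G.jOf (G.p0 ρ f + s - 1)) = .ph f s := fun s ha hb =>
    (G.dec_ph h1 h2 hf ha hb).2
  have hch : ∀ s, 1 ≤ s → s ≤ (G.mid ρ).N → G.chan (G.p0 ρ f + s - 1) = 4 * ρ + 1 + 2 * f := by
    intro s ha hb
    unfold Geo.chan
    rw [hkd s ha hb, hrun _ (by omega) (by omega)]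
  have hch0 : G.chan (G.p0 ρ f) = 4 * ρ + 1 + 2 * f := hch 1 le_rfl hN
  have hkd1 : G.kd (G.rOf (G.p0 ρ f)) (G.jOf (G.p0 ρ f)) = .ph f 1 := hkd 1 le_rfl hN
  refine ⟨hN, core_ok _ _ _ _ _ _, fun a b => core_ok _ _ _ _ _ _,
    fun a b => ⟨rfl, rfl, rfl, rfl, rfl, rfl⟩, ?_, ?_, ?_, ?_, ?_, ?_, ?_, ?_, ?_, ?_, ?_,
    fun a b => rfl, fun a b => rfl, fun a b => rfl, fun a b => rfl, ?_⟩
  · -- hE
    show G.p0 ρ f + (G.mid ρ).N ≤ G.st nR
    have := G.st_le (show ρ + 1 ≤ nR by omega)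
    omega
  · -- ch
    intro s hs
    show G.chan (G.p0 ρ f + s) = G.chan (G.p0 ρ f)
    rw [hch0]
    have := hch (s + 1) (by omega) (by omega)
    rwa [show G.p0 ρ f + (s + 1) - 1 = G.p0 ρ f + s by omega] at this
  · -- chx
    intro j _ hj'
    change G.chan j = G.chan (G.p0 ρ f) at hj'
    rw [hch0] at hj'
    rcases hk : G.kd (G.rOf j) (G.jOf j) with _ | t | ⟨f', s⟩ | _ | _
    · unfold Geo.chan at hj'
      rw [hk] at hj'
      dsimp only at hj'
      omega
    · have ht : G.rOf j < G.top := by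
        by_contra hc
        unfold Geo.kd at hk
        rw [if_neg hc] at hk
        split_ifs at hk
      unfold Geo.chan at hj'
      rw [hk] at hj'
      dsimp only at hj'
      omega
    · unfold Geo.chan at hj'
      rw [hk] at hj'
      dsimp only at hj'
      obtain ⟨h3, ⟨h4, h4'⟩, h5, h6, h7⟩ := G.kd_ph hk
      have e1 : G.rOf j = ρ := by omega
      have e2 : f' = f := by omega
      rw [e1, e2] at h7
      rw [e1] at h6
      omega
    · unfold Geo.chan at hj'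
      rw [hk] at hj'
      dsimp only at hj'
      omega
    · unfold Geo.chan at hj'
      rw [hk] at hj'
      dsimp only at hj'
      omega
  · -- tm
    show decide (G.jOf (G.p0 ρ f) ≠ 0) = true
    rw [hj _ le_rfl (by omega)]
    simp only [ne_eq, decide_not, Bool.not_eq_eq_eq_not, Bool.not_true, decide_eq_false_iff_not]
    omega
  · -- rs
    intro s ha hb
    show decide (G.jOf (G.p0 ρ f + s) = 1) = false
    rw [hj _ (by omega) (by omega)]
    simp only [decide_eq_false_iff_not]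
    omega
  · -- w1
    intro a b p M
    show (T.repl ρ f a b).lst G false p (G.p0 ρ f) M = _
    rw [ct_lst_ph _ G (hrun _ le_rfl (by omega)) hkd1, if_pos rfl]
  · -- r1
    intro a b p M
    show (T.repl ρ f a b).lst G true p (G.p0 ρ f) M = _
    rw [ct_lst_ph _ G (hrun _ le_rfl (by omega)) hkd1, if_pos rfl]
  · -- wt
    intro a b p M s hs hs2
    show (T.repl ρ f a b).lst G false p (G.p0 ρ f + s - 1) M = _
    rw [ct_lst_ph _ G (hrun _ (by omega) (by omega)) (hkd s (by omega) (by omega)),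
      if_neg (by omega), ct_pv_repl _ _ _ _ _ _ _ hs]
    rfl
  · -- rt
    intro a b p M s hs hs2
    show (T.repl ρ f a b).lst G true p (G.p0 ρ f + s - 1) M = _
    rw [ct_lst_ph _ G (hrun _ (by omega) (by omega)) (hkd s (by omega) (by omega)),
      if_neg (by omega), ct_pv_repl _ _ _ _ _ _ _ hs]
    rfl
  · -- wo
    intro a b p M i hi
    exact ct_lst_other T G a b false p i M hi
  · -- ro
    intro a b p M i hi
    exact ct_lst_other T G a b true p i M hi
  · -- stop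
    intro p i K M d ha hb
    refine hsp p i K M d ?_
    rw [G.last_iff, hrun i ha hb.le]
    omega

end Tab

end Pool.Agent.E217
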