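import Pool.Agent.MP217Exact.RpA
import Pool.Agent.MP217Exact.ALoc
import Pool.Agent.MP217Exact.EvCnt
import Pool.Agent.MP217Exact.Numb

set_option autoImplicit false

/-!
# The expected work of adopt-commit
-/

namespace Pool.Agent.E217

open Finset MeasureTheory
open scoped ENNReal
open Pool.Agent.MP217Upper.Model (coins)
open Pool.Agent.A217 (RP)
open Pool.Agent.X217 (Tb FC flt)

attribute [local instance 10] Classical.propDecidable

variable {n : ℕ} (G : Geo n)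

/-- The rules of adopt-commit with variable tables. -/
private noncomputable abbrev raV (x : Fin n → Bool) (f : Fin n × Fin (G.H + 2) → Bool)
    {σ : ℕ → Option (Fin n)} (hσ : Fair σ) : Vd n DA where
  G := G
  nR := G.H + 2
  x := x
  f := f
  d0 := fun p => ⟨x p, false, false, x p, false, false⟩
  nd := G.ndA
  sp := DA.out
  σ := σ
  fair := hσ
  hR := by omega
  hsp := fun p i K M d h => by simp [Geo.ndA, h]
  hd0 := fun _ => rfl

private theorem ra_gr {N : ℕ → ℕ} {Nt Nm : ℕ} (hG : G.Good N Nt Nm)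
    (x : Fin n → Bool) (f : Fin n × Fin (G.H + 2) → Bool) {σ : ℕ → Option (Fin n)}
    (hσ : Fair σ) (w : Om G)
    (hE : (raV G x f hσ).EvA (32 * (G.A.L + 1)) (Wd.hmax G σ (G.H + 2)) w) :
    (AD.mk (tabV G (G.H + 2) x w f) G σ hσ).Gr N := by
  intro ρ hρ hy A hA hM
  have hW : ((raV G x f hσ).W w) = (AD.mk (tabV G (G.H + 2) x w f) G σ hσ).W := rfl
  have hρ' : ρ < G.H := hρ
  have hP : (AD.mk (tabV G (G.H + 2) x w f) G σ hσ).W.Pt ρ (Wd.hmax G σ (G.H + 2)) =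
      univ.filter fun p => (AD.mk (tabV G (G.H + 2) x w f) G σ hσ).W.go p ρ :=
    Wd.Pt_hmax (AD.mk (tabV G (G.H + 2) x w f) G σ hσ).W
      (show ρ < G.H + 2 by omega)
  have hk : 32 * (G.A.L + 1) ≤ 2 ^ (G.A.ν0 + 1) := by
    have := hG.A.hν0
    rw [pow_succ]
    omega
  have h := Wd.gr_all (AD.mk (tabV G (G.H + 2) x w f) G σ hσ).W (N := N) (Nt := Nt) (Nm := Nm)
    hG (k := 32 * (G.A.L + 1)) (hz := Wd.hmax G σ (G.H + 2)) hk hE (ρ := ρ) hρ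
    (by rw [hP]; exact hy) (A := A)
    (fun b hb => ⟨hA b hb, Wd.eT_le_hmax (AD.mk (tabV G (G.H + 2) x w f) G σ hσ).W
      (show ρ < G.H + 2 by omega)⟩) hM
  rw [hP] at h
  exact h

private theorem ra_num {m H n c1 c2 C c : ℕ} (hm : 1 ≤ m) (hH : H ≤ 2 ^ m) (hn : n ≤ 2 ^ m)
    (h1 : 2 ^ (16 * m) * c1 ≤ 2 * (H * n) * C) (h2 : c2 * 2 ^ (32 * m) ≤ 4 * H * C)
    (hc : c ≤ c1 + c2) : 2 ^ (8 * m) * c ≤ C := by
  have k1 : 2 ^ (8 * m) * (2 * c1) ≤ C := by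
    have h3 : 4 * (H * n) ≤ 2 ^ (8 * m) := by
      calc 4 * (H * n) ≤ 4 * (2 ^ m * 2 ^ m) :=
            Nat.mul_le_mul_left _ (Nat.mul_le_mul hH hn)
        _ = 2 ^ (2 + m + m) := by rw [pow_add, pow_add]; ring
        _ ≤ 2 ^ (8 * m) := Nat.pow_le_pow_right (by norm_num) (by omega)
    have h4 : 2 ^ (8 * m) * (2 ^ (8 * m) * (2 * c1)) ≤ 2 ^ (8 * m) * C := by
      calc 2 ^ (8 * m) * (2 ^ (8 * m) * (2 * c1)) = 2 * (2 ^ (16 * m) * c1) := by
            rw [show 16 * m = 8 * m + 8 * m by ring, pow_add]; ring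
        _ ≤ 2 * (2 * (H * n) * C) := Nat.mul_le_mul_left _ h1
        _ = (4 * (H * n)) * C := by ring
        _ ≤ _ := Nat.mul_le_mul_right _ h3
    exact Nat.le_of_mul_le_mul_left h4 (Nat.two_pow_pos _)
  have k2 : 2 ^ (8 * m) * (2 * c2) ≤ C := by
    have h3 : 8 * H ≤ 2 ^ (24 * m) := by
      calc 8 * H ≤ 8 * 2 ^ m := Nat.mul_le_mul_left _ hH
        _ = 2 ^ (3 + m) := by rw [pow_add]; ring
        _ ≤ 2 ^ (24 * m) := Nat.pow_le_pow_right (by norm_num) (by omega)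
    have h4 : 2 ^ (24 * m) * (2 ^ (8 * m) * (2 * c2)) ≤ 2 ^ (24 * m) * C := by
      calc 2 ^ (24 * m) * (2 ^ (8 * m) * (2 * c2)) = 2 * (c2 * 2 ^ (32 * m)) := by
            rw [show 32 * m = 24 * m + 8 * m by ring, pow_add]; ring
        _ ≤ 2 * (4 * H * C) := Nat.mul_le_mul_left _ h2
        _ = (8 * H) * C := by ring
        _ ≤ _ := Nat.mul_le_mul_right _ h3
    exact Nat.le_of_mul_le_mul_left h4 (Nat.two_pow_pos _)
  have h3 := Nat.mul_le_mul_left (2 ^ (8 * m)) hc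
  rw [mul_left_comm] at k1 k2
  rw [mul_add] at h3
  omega

/-- The total mass is small for most tables.
PROOF: for fixed flips: `ytot` for `w` with `Cov` (`cov_count`) and `EvA k hz`, `hz = hmax`,
`k = 32 (L + 1)` (`gr_all`, `evA_count`); `herr`. -/
theorem A_good {nR : ℕ} {N : ℕ → ℕ} {Nt Nm Cc : ℕ} (hG : G.Good N Nt Nm) (hN : G.Num nR N Cc)
    (x : Fin n → Bool) (f : Fin n × Fin (G.H + 2) → Bool) {σ : ℕ → Option (Fin n)}
    (hσ : Fair σ) : 2 ^ (8 * (G.A.L + 1)) * (univ.filter fun w : Om G =>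
      ¬ ∑ ρ ∈ range (G.H + 2), 2 ^ min ρ G.H *
        (AD.mk (tabV G (G.H + 2) x w f) G σ hσ).y ρ ≤ 2 ^ (G.A.L + G.hf)).card ≤
      Fintype.card (Om G) := by
  have hH := G.H_eq
  obtain ⟨Nm', hNm', hnum⟩ := hN.hnum
  have hc := (VA.mk G x f σ hσ).cov_count hG
  have he := (raV G x f hσ).evA_count (32 * (G.A.L + 1)) (Wd.hmax G σ (G.H + 2))
  have hLm : G.A.L < 2 ^ (G.A.L + 1) := lt_trans (Nat.lt_succ_self _) Nat.lt_two_pow_self
  have hn := hG.A.hn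
  refine ra_num (m := G.A.L + 1) (H := G.H) (n := n) (by omega) (by omega) hn.le hc he ?_
  refine le_trans (card_le_card ?_) (card_union_le _ _)
  intro w hw
  rw [mem_filter] at hw
  rw [mem_union, mem_filter, mem_filter]
  by_contra hcon
  push Not at hcon
  obtain ⟨h1, h2⟩ := hcon
  have h1 := h1 (mem_univ _)
  have h2 := h2 (mem_univ _)
  apply hw.2
  have hg := ra_gr G hG x f hσ w h2
  have hy := AD.ytot (AD.mk (tabV G (G.H + 2) x w f) G σ hσ) hG.A.hn hg h1 hNm' (by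
    have e : 16 * Nm' + 16 ≤ 2 * (2 ^ 15 * ((G.A.L + 1) * 2 ^ G.hf) + 2 ^ 12 + 2 ^ 7 * Nm') := by
      omega
    exact e.trans hnum)
  refine hy.trans ?_
  have h3 := hN.herr
  have h4 : 2 ^ (G.A.L + 5) * (∑ ρ ∈ range G.H, N ρ + 1) ≤
      64 * (2 ^ (G.A.L + 14) * (G.H + ∑ ρ ∈ range G.H, N ρ + 1)) := by
    have h5 : 2 ^ (G.A.L + 5) ≤ 2 ^ (G.A.L + 14) := Nat.pow_le_pow_right (by norm_num) (by omega)
    calc 2 ^ (G.A.L + 5) * (∑ ρ ∈ range G.H, N ρ + 1)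
        ≤ 2 ^ (G.A.L + 14) * (G.H + ∑ ρ ∈ range G.H, N ρ + 1) :=
          Nat.mul_le_mul h5 (by omega)
      _ ≤ _ := Nat.le_mul_of_pos_left _ (by norm_num)
  exact h4.trans h3

private theorem ra_avg {Ω : Type} [Fintype Ω] (S : Ω → ℕ) {T M : ℕ} (hmax : ∀ w, S w ≤ M)
    (hT : 1 ≤ T) (hgood : M * (univ.filter fun w => ¬ S w ≤ T).card ≤ Fintype.card Ω) :
    ∑ w, S w ≤ 2 * T * Fintype.card Ω := by
  have e4 : ∑ w, S w ≤ ∑ w, (T + if ¬ S w ≤ T then M else 0) := by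
    refine sum_le_sum fun w _ => ?_
    by_cases h : S w ≤ T
    · exact h.trans (Nat.le_add_right _ _)
    · rw [if_pos h]
      exact (hmax w).trans (Nat.le_add_left _ _)
  refine e4.trans ?_
  rw [sum_add_distrib, sum_const, card_univ, smul_eq_mul, ← sum_filter, sum_const, smul_eq_mul]
  have e6 : Fintype.card Ω ≤ Fintype.card Ω * T := Nat.le_mul_of_pos_right _ hT
  have e7 : 2 * T * Fintype.card Ω = Fintype.card Ω * T + Fintype.card Ω * T := by ring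
  rw [e7, mul_comm _ M]
  exact Nat.add_le_add_left (hgood.trans e6) _

/-- The total mass, summed over all tables.
PROOF: `A_good`; for all tables the mass is at most `(H + 2) 2 ^ H n ≤ 2 ^ (8 (L + 1))`. -/
theorem A_sum {nR : ℕ} {N : ℕ → ℕ} {Nt Nm Cc : ℕ} (hG : G.Good N Nt Nm) (hN : G.Num nR N Cc)
    (x : Fin n → Bool) {σ : ℕ → Option (Fin n)} (hσ : Fair σ) :
    ∑ y : Om G × FC (NF G (G.H + 2)), ∑ ρ ∈ range (G.H + 2), 2 ^ min ρ G.H *
      (AD.mk (tabV G (G.H + 2) x y.1 (flt y.2)) G σ hσ).y ρ ≤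
        2 * 2 ^ (G.A.L + G.hf) * crd G (G.H + 2) := by
  have hH := G.H_eq
  have hn := hG.A.hn
  have h1 : ∀ c : FC (NF G (G.H + 2)), ∑ w : Om G, ∑ ρ ∈ range (G.H + 2), 2 ^ min ρ G.H *
      (AD.mk (tabV G (G.H + 2) x w (flt c)) G σ hσ).y ρ ≤
        2 * 2 ^ (G.A.L + G.hf) * Fintype.card (Om G) := by
    intro c
    refine ra_avg (fun w : Om G => ∑ ρ ∈ range (G.H + 2), 2 ^ min ρ G.H *
      (AD.mk (tabV G (G.H + 2) x w (flt c)) G σ hσ).y ρ) (M := 2 ^ (8 * (G.A.L + 1)))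
      (fun w => ?_) (Nat.one_le_two_pow) (A_good G hG hN x (flt c) hσ)
    have e1 : ∑ ρ ∈ range (G.H + 2), 2 ^ min ρ G.H *
        (AD.mk (tabV G (G.H + 2) x w (flt c)) G σ hσ).y ρ ≤
        ∑ ρ ∈ range (G.H + 2), 2 ^ G.H * n := by
      refine sum_le_sum fun ρ _ => Nat.mul_le_mul
        (Nat.pow_le_pow_right (by norm_num) (min_le_right _ _)) ?_
      exact (card_le_univ _).trans (by rw [Fintype.card_fin])
    refine e1.trans ?_
    rw [sum_const, card_range, smul_eq_mul]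
    have e2 : G.H + 2 ≤ 2 ^ (G.A.L + 1) := by
      have : G.A.L + 1 < 2 ^ (G.A.L + 1) := Nat.lt_two_pow_self
      omega
    have e3 : 2 ^ G.H ≤ 2 ^ (G.A.L + 1) := Nat.pow_le_pow_right (by norm_num) (by omega)
    calc (G.H + 2) * (2 ^ G.H * n)
        ≤ 2 ^ (G.A.L + 1) * (2 ^ (G.A.L + 1) * 2 ^ (G.A.L + 1)) :=
          Nat.mul_le_mul e2 (Nat.mul_le_mul e3 hn.le)
      _ = 2 ^ (G.A.L + 1 + (G.A.L + 1) + (G.A.L + 1)) := by rw [pow_add, pow_add]; ring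
      _ ≤ _ := Nat.pow_le_pow_right (by norm_num) (by omega)
  rw [Fintype.sum_prod_type_right]
  refine (sum_le_sum fun c _ => h1 c).trans (le_of_eq ?_)
  rw [sum_const, card_univ, smul_eq_mul, crd]
  ring

/-- The expected work. PROOF: `A_work_le`, `law_tab`, `Num.cost`, `A_sum`. -/
theorem A_work {nR : ℕ} {N : ℕ → ℕ} {Nt Nm Cc : ℕ} (hG : G.Good N Nt Nm) (hN : G.Num nR N Cc)
    (x : Fin n → Bool) (σ : ℕ → Option (Fin n)) :
    ∫⁻ c, (rpA G).work x c σ ∂coins n ≤ ((2 ^ 16 * Cc * (n * (G.A.L + 1) ^ 2) : ℕ) : ℝ≥0∞) := by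
  obtain ⟨σ', hσ', h⟩ := A_work_le G σ
  have hlaw := law_tab G (G.H + 2) x (fun T => ((∑ ρ ∈ range (G.H + 2),
    G.cost ρ * (AD.mk T G σ' hσ').y ρ : ℕ) : ℝ≥0∞))
  have hsum := A_sum G hG hN x hσ'
  have hcost : ∀ y : Om G × FC (NF G (G.H + 2)), 2 ^ (G.A.L + G.hf) * ∑ ρ ∈ range (G.H + 2),
      G.cost ρ * (AD.mk (tabV G (G.H + 2) x y.1 (flt y.2)) G σ' hσ').y ρ ≤
      Cc * (n * (G.A.L + 1) ^ 2) * ∑ ρ ∈ range (G.H + 2), 2 ^ min ρ G.H *
      (AD.mk (tabV G (G.H + 2) x y.1 (flt y.2)) G σ' hσ').y ρ := by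
    intro y
    rw [mul_sum, mul_sum]
    refine sum_le_sum fun ρ hρ => ?_
    have h1 : ρ < nR := lt_of_lt_of_le (mem_range.1 hρ) hN.hR
    have h2 := Nat.mul_le_mul_right
      ((AD.mk (tabV G (G.H + 2) x y.1 (flt y.2)) G σ' hσ').y ρ) (hN.cost ρ h1)
    refine le_trans (le_of_eq ?_) (h2.trans (le_of_eq ?_)) <;> ring
  have hfin : ∑ y : Om G × FC (NF G (G.H + 2)), ∑ ρ ∈ range (G.H + 2),
      G.cost ρ * (AD.mk (tabV G (G.H + 2) x y.1 (flt y.2)) G σ' hσ').y ρ ≤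
      (2 * Cc * (n * (G.A.L + 1) ^ 2)) * crd G (G.H + 2) := by
    have h1 : 2 ^ (G.A.L + G.hf) * ∑ y : Om G × FC (NF G (G.H + 2)), ∑ ρ ∈ range (G.H + 2),
        G.cost ρ * (AD.mk (tabV G (G.H + 2) x y.1 (flt y.2)) G σ' hσ').y ρ ≤
        2 ^ (G.A.L + G.hf) * ((2 * Cc * (n * (G.A.L + 1) ^ 2)) * crd G (G.H + 2)) := by
      rw [mul_sum]
      refine (sum_le_sum fun y _ => hcost y).trans ?_
      rw [← mul_sum]
      refine (Nat.mul_le_mul_left _ hsum).trans (le_of_eq ?_)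
      ring
    exact Nat.le_of_mul_le_mul_left h1 (Nat.two_pow_pos _)
  calc ∫⁻ c, (rpA G).work x c σ ∂coins n
      ≤ ∫⁻ c, ((∑ ρ ∈ range (G.H + 2), G.cost ρ * (wA G x c hσ').y ρ : ℕ) : ℝ≥0∞) ∂coins n :=
        lintegral_mono fun c => h x c
    _ = ((crd G (G.H + 2) : ℕ) : ℝ≥0∞)⁻¹ * ∑ y : Om G × FC (NF G (G.H + 2)),
        ((∑ ρ ∈ range (G.H + 2), G.cost ρ *
          (AD.mk (tabV G (G.H + 2) x y.1 (flt y.2)) G σ' hσ').y ρ : ℕ) : ℝ≥0∞) := hlaw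
    _ ≤ _ := by
        rw [mul_comm, ← div_eq_mul_inv]
        refine ENNReal.div_le_of_le_mul ?_
        rw [← Nat.cast_sum, ← Nat.cast_mul]
        refine Nat.cast_le.2 (hfin.trans (Nat.mul_le_mul_right _ ?_))
        rw [mul_assoc 2 Cc, mul_assoc (2 ^ 16) Cc]
        exact Nat.mul_le_mul_right _ (by norm_num)

end Pool.Agent.E217
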