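import Pool.Agent.MP217Exact.CEnd
import Pool.Agent.MP217Exact.RpAW
import Pool.Agent.MP217Exact.HPmain
import Pool.Agent.MP217Two.AMain

set_option autoImplicit false

/-!
# `W(n) = O(n (log n)^2)`
-/

namespace Pool.Agent.E217

open MeasureTheory
open scoped ENNReal
open Pool.Agent.MP217Upper.Model (coins W)
open Pool.Agent.A217 (RP)

variable {n : ℕ}

/-- Conciliators and adopt-commit protocols in turn. -/
noncomputable def hp (G : Geo n) {nR : ℕ} (hR : G.H + 2 ≤ nR) : Hp n :=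
  ⟨fun r => if r % 2 = 0 then rpC G hR else rpA G⟩

theorem hp_even (G : Geo n) {nR : ℕ} (hR : G.H + 2 ≤ nR) {r : ℕ} (h : r % 2 = 0) :
    (hp G hR).R r = rpC G hR := if_pos h

theorem hp_odd (G : Geo n) {nR : ℕ} (hR : G.H + 2 ≤ nR) {r : ℕ} (h : ¬ r % 2 = 0) :
    (hp G hR).R r = rpA G := if_neg h

theorem hp_good (G : Geo n) {nR : ℕ} {N : ℕ → ℕ} {Nt Nm Cc : ℕ} (hG : G.Good N Nt Nm)
    (hN : G.Num nR N Cc) : (hp G hN.hR).Good ((2 : ℝ≥0∞) ^ 10)⁻¹
      ((2 ^ 16 * Cc * (n * (G.A.L + 1) ^ 2) : ℕ) : ℝ≥0∞) where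
  agree := by
    intro r x c σ t t' p p' v v' d' h h'
    by_cases hr : r % 2 = 0
    · rw [hp_even G hN.hR hr] at h
      obtain ⟨σ', hσ', hh⟩ := exists_fair σ t
      have := (C_fin G hN.hR h hσ' hh).1
      exact absurd this (by decide)
    · rw [hp_odd G hN.hR hr] at h h'
      exact A_agree G x c σ t t' p p' v v' d' h h'
  unan := by
    intro r x c σ v hv t p v' d' h
    by_cases hr : r % 2 = 0
    · rw [hp_even G hN.hR hr] at h
      exact C_unan G hN.hR x c σ v hv t p v' d' h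
    · rw [hp_odd G hN.hR hr] at h
      exact (A_unan G x c σ v hv t p v' d' h).1
  dec := by
    intro r x c σ v hr hv t p v' d' h
    rw [hp_odd G hN.hR (by omega)] at h
    exact (A_unan G x c σ v hv t p v' d' h).2
  bdd := by
    obtain ⟨B1, h1⟩ := C_bdd G hN.hR
    obtain ⟨B2, h2⟩ := A_bdd G
    refine ⟨max B1 B2, fun r x c σ t p => ?_⟩
    by_cases hr : r % 2 = 0
    · rw [hp_even G hN.hR hr]
      exact (h1 x c σ t p).trans (le_max_left _ _)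
    · rw [hp_odd G hN.hR hr]
      exact (h2 x c σ t p).trans (le_max_right _ _)
  succ := by
    intro r x σ hr
    rw [hp_even G hN.hR hr]
    exact C_succ G hN.hR hG hN x σ
  work_le := by
    intro r x σ
    by_cases hr : r % 2 = 0
    · rw [hp_even G hN.hR hr]
      exact C_work G hN.hR hG hN x σ
    · rw [hp_odd G hN.hR hr]
      exact A_work G hG hN x σ

theorem W_geo (G : Geo n) {nR : ℕ} {N : ℕ → ℕ} {Nt Nm Cc : ℕ} (hG : G.Good N Nt Nm)
    (hN : G.Num nR N Cc) :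
    W n ≤ ((2 ^ 27 * Cc * (n * (G.A.L + 1) ^ 2) : ℕ) : ℝ≥0∞) := by
  have h := Hp.W_le (s := ((2 : ℝ≥0∞) ^ 10)⁻¹) (by simp) (by
    rw [ENNReal.inv_le_one]
    exact one_le_pow₀ (by norm_num)) (hp_good G hG hN)
  refine h.trans (le_of_eq ?_)
  rw [inv_inv]
  push_cast
  ring

/-- The upper bound. -/
theorem W_bound : ∃ C : ℕ, ∀ n : ℕ, 4 ≤ n →
    W n ≤ ((C * n * (Nat.log 2 n) ^ 2 : ℕ) : ℝ≥0∞) := by
  obtain ⟨n0, Cc, hgeo⟩ := Geo.exists_geo
  obtain ⟨C1, h1⟩ := Pool.Agent.Q217.W_bound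
  refine ⟨max (2 ^ 29 * Cc) (C1 * (Nat.log 2 (Nat.log 2 n0)) ^ 5), fun n hn => ?_⟩
  rcases Nat.lt_or_ge n n0 with h | h
  · refine (h1 n hn).trans ?_
    norm_cast
    have h2 : Nat.log 2 (Nat.log 2 n) ≤ Nat.log 2 (Nat.log 2 n0) :=
      Nat.log_mono_right (Nat.log_mono_right h.le)
    calc C1 * n * (Nat.log 2 n) ^ 2 * (Nat.log 2 (Nat.log 2 n)) ^ 5
        ≤ C1 * n * (Nat.log 2 n) ^ 2 * (Nat.log 2 (Nat.log 2 n0)) ^ 5 :=
          Nat.mul_le_mul_left _ (Nat.pow_le_pow_left h2 5)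
      _ = C1 * (Nat.log 2 (Nat.log 2 n0)) ^ 5 * n * (Nat.log 2 n) ^ 2 := by ring
      _ ≤ _ := Nat.mul_le_mul_right _ (Nat.mul_le_mul_right _ (le_max_right _ _))
  · obtain ⟨G, nR, N, Nt, Nm, hG, hN⟩ := hgeo n h
    refine (W_geo G hG hN).trans ?_
    norm_cast
    have hL : G.A.L = Nat.log 2 n := by
      symm
      rw [Nat.log_eq_iff]
      · exact ⟨hG.A.hn', hG.A.hn⟩
      · right; omega
    have hL1 : 1 ≤ Nat.log 2 n := by
      rw [← hL]
      have := hN.hL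
      omega
    rw [hL]
    have h3 : (Nat.log 2 n + 1) ^ 2 ≤ 4 * (Nat.log 2 n) ^ 2 := by nlinarith
    calc 2 ^ 27 * Cc * (n * (Nat.log 2 n + 1) ^ 2)
        ≤ 2 ^ 27 * Cc * (n * (4 * (Nat.log 2 n) ^ 2)) :=
          Nat.mul_le_mul_left _ (Nat.mul_le_mul_left _ h3)
      _ = 2 ^ 29 * Cc * n * (Nat.log 2 n) ^ 2 := by ring
      _ ≤ _ := Nat.mul_le_mul_right _ (Nat.mul_le_mul_right _ (le_max_left _ _))

end Pool.Agent.E217
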