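import Pool.Agent.MP217Exact.MTick
import Pool.Agent.MP217Two.Lists

set_option autoImplicit false

/-!
# The common part of the programs: runs and lists
-/

namespace Pool.Agent.E217

open Finset
open Pool.Agent.X217 (Tb)

attribute [local instance 10] Classical.propDecidable

/-- Parameters of a mid run: the number `N` of passes of a tick phase, the number `J` of steps of
the peeling, the labels `X` of the ticks, and the lists of the two passes between the phases. -/
structure MidP (n : ℕ) where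
  N : ℕ
  J : ℕ
  Rn : ℕ
  Lam : ℕ
  om : ℕ
  X : Blk n Rn Lam (2 ^ om)
  l0 : Fin n → Finset (Fin n)
  m0 : ℕ
  N_pos : 0 < N
  Rn_pos : 0 < Rn
  Lam_pos : 0 < Lam
  mx_pos : 0 < X.mx
  m0_pos : 0 < m0
  l0_card : ∀ p, (l0 p).card ≤ m0

/-- Static parameters of the programs. The runs `ρ < top` are top runs (`It` ticks with the
static lists `TT ρ t`), the runs `top ≤ ρ < H` are mid runs, the others are bottom runs. -/
structure Geo (n : ℕ) where
  A : Q217.Geo n
  H : ℕ
  top : ℕ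
  It : ℕ
  TT : ℕ → ℕ → Fin n → Finset (Fin n)
  tn : ℕ → ℕ → ℕ
  mid : ℕ → MidP n
  hf : ℕ
  top_le : top ≤ H
  H_eq : H + A.ν0 = A.L
  tn_pos : ∀ ρ t, 0 < tn ρ t
  TT_card : ∀ ρ t p, (TT ρ t p).card ≤ tn ρ t
  n_pos : 0 < n

/-- Kinds of passes: ext pass, tick `t` of a top run, pass `s` of tick phase `f`, hop, and an
idle pass. -/
inductive Kd : Type
  | ext
  | top (t : ℕ)
  | ph (f s : ℕ)
  | hop
  | idle

namespace Geo

variable {n : ℕ} (G : Geo n)

/-- The level of run `ρ`. -/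
def lev (ρ : ℕ) : ℕ := G.A.L - min ρ G.H

/-- The number of passes of run `ρ`. -/
def rl (ρ : ℕ) : ℕ :=
  if G.H ≤ ρ then 1 else if ρ < G.top then G.It + 2 else 2 * (G.mid ρ).N + 4

/-- The first pass of run `ρ`. -/
def st (ρ : ℕ) : ℕ := ∑ k ∈ range ρ, G.rl k

/-- The last pass of run `ρ`. -/
def la (ρ : ℕ) : ℕ := G.st (ρ + 1) - 1

/-- The run of pass `i`. -/
def rOf (i : ℕ) : ℕ := Nat.findGreatest (fun ρ => G.st ρ ≤ i) i

/-- The number of pass `i` in its run. -/
def jOf (i : ℕ) : ℕ := i - G.st (G.rOf i)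

/-- The first pass of tick phase `f` (`0` or `1`) of run `ρ`. -/
def p0 (ρ f : ℕ) : ℕ := G.st ρ + 1 + f * ((G.mid ρ).N + 2)

/-- The kind of pass `j` of run `ρ`. -/
def kd (ρ j : ℕ) : Kd :=
  if j = 0 then .ext
  else if ρ < G.top then (if j ≤ G.It then .top j else .idle)
  else if j ≤ (G.mid ρ).N then .ph 0 j
  else if j ≤ (G.mid ρ).N + 2 then .hop
  else if j ≤ 2 * (G.mid ρ).N + 2 then .ph 1 (j - ((G.mid ρ).N + 2))
  else .idle

/-- The length of the lists of pass `i`. -/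
def ln (i : ℕ) : ℕ :=
  match G.kd (G.rOf i) (G.jOf i) with
  | .ext => G.A.len (G.lev (G.rOf i))
  | .top t => G.tn (G.rOf i) t
  | .ph _ s => if s = 1 then (G.mid (G.rOf i)).Rn * (G.mid (G.rOf i)).X.mx
      else (G.mid (G.rOf i)).Rn * (3 * (G.mid (G.rOf i)).Lam)
  | .hop => (G.mid (G.rOf i)).m0
  | .idle => 1

/-- The channel of pass `i`. -/
def chan (i : ℕ) : ℕ :=
  match G.kd (G.rOf i) (G.jOf i) with
  | .ext => 0
  | .top _ => 4 * G.rOf i + 1
  | .ph f _ => 4 * G.rOf i + 1 + 2 * f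
  | .hop => 4 * G.rOf i + 2
  | .idle => 4 * G.rOf i + 4

end Geo

/-- Tables: inputs, seeds (level, number), picks (run, phase, read, pass, label, class) and
flips. -/
structure Tab (n : ℕ) where
  x : Fin n → Bool
  sd : Fin n → ℕ → ℕ → ℕ
  pk : Fin n → ℕ → ℕ → Bool → ℕ → ℕ → ℕ → ℕ
  fl : Fin n → ℕ → Bool

namespace Tab

variable {n : ℕ} (T : Tab n) (G : Geo n)

/-- The ext list. -/
noncomputable def ext (p : Fin n) (ρ : ℕ) : List (Fin n) :=
  G.A.extList p (G.lev ρ) (T.sd p (G.lev ρ))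

/-- The picks of one tick. -/
noncomputable def pv (p : Fin n) (ρ f : ℕ) (b : Bool) (s : ℕ) :
    Fin (G.mid ρ).Rn → Fin (G.mid ρ).Lam → Fin (2 ^ (G.mid ρ).om) :=
  fun r c => ⟨T.pk p ρ f b s r.val c.val % 2 ^ (G.mid ρ).om, Nat.mod_lt _ (by positivity)⟩

/-- The list of pass `i` for writing (`b = false`) and for reading (`b = true`). -/
noncomputable def lst (b : Bool) (p : Fin n) (i : ℕ) (M : Finset (Stp n)) : List (Fin n) :=
  match G.kd (G.rOf i) (G.jOf i) with
  | .ext => T.ext G p (G.rOf i)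
  | .top t => padl (G.tn (G.rOf i) t) p (G.TT (G.rOf i) t p)
  | .ph f s => if s = 1 then (G.mid (G.rOf i)).X.lst1 p
      else (G.mid (G.rOf i)).X.tl (G.p0 (G.rOf i) f) (T.pv G p (G.rOf i) f b s) p M
  | .hop => padl (G.mid (G.rOf i)).m0 p ((G.mid (G.rOf i)).l0 p)
  | .idle => [p]

/-- The program with `nR` runs and given rules for the data. -/
noncomputable def core {D : Type} (nR : ℕ) (d0 : Fin n → D)
    (nd : Fin n → ℕ → Finset (Fact n D) → Finset (Stp n) → D → D) (sp : D → Bool) :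
    Sys n D where
  E := G.st nR
  lw := G.ln
  lr := G.ln
  ch := G.chan
  tm i := decide (G.jOf i ≠ 0)
  rs i := decide (G.jOf i = 1)
  tw := T.lst G false
  tr := T.lst G true
  sh p i := if G.jOf i = 0 then T.ext G p (G.rOf i) else []
  d0 := d0
  nd := nd
  sp := sp

/-- Replace the picks of tick phase `f` of run `ρ`. -/
noncomputable def repl (ρ f : ℕ) {N Rn Lam w : ℕ} (a b : Tb (Fin n) N Rn Lam w) : Tab n where
  x := T.x
  sd := T.sd
  pk p ρ' f' bb s r c := if ρ' = ρ ∧ f' = f then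
      if h : s < N + 1 ∧ r < Rn ∧ c < Lam then
        (cond bb b a (p, ⟨s, h.1⟩) ⟨r, h.2.1⟩ ⟨c, h.2.2⟩).val
      else 0
    else T.pk p ρ' f' bb s r c
  fl := T.fl

end Tab

end Pool.Agent.E217
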