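import Pool.Agent.MP217Exact.GrMidA

set_option autoImplicit false

/-!
# The statement (G') for mid runs
-/

namespace Pool.Agent.E217

open Finset
open Pool.Agent.X217 (s2_few)

attribute [local instance 10] Classical.propDecidable

variable {n : ℕ} {D : Type}

namespace Wd

variable (W : Wd n D)

private theorem grm_nr_lt {i j k : ℕ} (h1 : i < k) (h2 : k ≤ j) (h : W.S.rs k = true) :
    W.S.nr i < W.S.nr j := by
  refine card_lt_card ?_
  rw [Finset.ssubset_iff_of_subset]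
  · refine ⟨k, mem_filter.2 ⟨mem_range.2 (by omega), h⟩, fun hk => ?_⟩
    have := mem_range.1 (mem_filter.1 hk).1
    omega
  · intro z hz
    obtain ⟨hz1, hz2⟩ := mem_filter.1 hz
    exact mem_filter.2 ⟨mem_range.2 (by have := mem_range.1 hz1; omega), hz2⟩

/-- No resets inside a run. -/
private theorem grm_rs {ρ k : ℕ} (h1 : W.G.st ρ + 1 < k) (h2 : k ≤ W.G.la ρ + 1) :
    W.S.rs k = false := by
  show decide (W.G.jOf k = 1) = false
  rw [decide_eq_false_iff_not]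
  have hla := W.G.la_succ ρ
  by_cases hk : k = W.G.la ρ + 1
  · rw [hk, hla, W.G.jOf_st]
    norm_num
  · have hr : W.G.rOf k = ρ := W.G.rOf_eq (by omega) (by omega)
    unfold Geo.jOf
    rw [hr]
    omega

private theorem grm_hop {ρ k : ℕ} (h1 : W.G.top ≤ ρ) (h2 : ρ < W.G.H) (hk : k < 2) :
    W.S.ch (W.G.p0 ρ 0 + (W.G.mid ρ).N + k) = 4 * ρ + 2 ∧
      W.S.tm (W.G.p0 ρ 0 + (W.G.mid ρ).N + k) = true ∧
      ∀ b p M, W.T.lst W.G b p (W.G.p0 ρ 0 + (W.G.mid ρ).N + k) M =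
        padl (W.G.mid ρ).m0 p ((W.G.mid ρ).l0 p) := by
  obtain ⟨d1, d2⟩ := W.G.dec_hop h1 h2 hk
  set i := W.G.p0 ρ 0 + (W.G.mid ρ).N + k with hi
  refine ⟨?_, ?_, ?_⟩
  · show W.G.chan i = _
    unfold Geo.chan
    rw [d2, d1]
  · show decide (W.G.jOf i ≠ 0) = true
    rw [decide_eq_true_iff]
    intro h0
    have h3 := W.G.jOf_zero.1 h0
    rw [d1] at h3
    have h4 := W.G.p0_zero ρ
    omega
  · intro b p M
    unfold Tab.lst
    rw [d2, d1]

/-- `(G')` for mid runs.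
PROOF: `phase` for both phases and `s2_few` with `S = A`, `e1 b = en b h1`, `h1 = p0 ρ 0 + N` (first
hop pass), `K1 b w`: a stamp `(w, j)` in the team of `b` at the beginning of pass `h1`; `K2 q w`: a
stamp `(w, j)` in the team of `q` at the beginning of pass `p0 ρ 1`; `K3 p q`: a stamp
`(q, p0 ρ 1 + u)` in the team of `p` at the beginning of pass `la ρ`; `Kf p w`: `w ∈ Mf p ρ`.
hop: `Sys.flow` with passes `h1`, `h1 + 1` (list `l0`), h3: `gen_M`, `M_mono`. The constant `N1` is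
`3 nb J + |Pt| / 4096 + 2 ^ l + 1`. -/
theorem gr_mid {ρ k hz Nm : ℕ} (h1 : W.G.top ≤ ρ) (h2 : ρ < W.G.H)
    (hP : (W.G.mid ρ).Good W.G.A.L (W.G.lev ρ) Nm) (hE : W.EvR ρ k hz)
    (hk : k ≤ 2 ^ W.G.lev ρ)
    (hp : (W.Pt ρ hz).card ≤ (W.G.A.L + 1) ^ 3 * 2 ^ W.G.lev ρ)
    {A : Finset (Fin n)} (hA : ∀ b ∈ A, W.go b ρ ∧ W.eT b ρ ≤ hz)
    (hM : ∀ b ∈ A, (W.Mf b ρ ∩ A).card < 64 * 2 ^ W.G.lev ρ) :
    1024 * A.card ≤ 1024 * ((Nm + 4) * 2 ^ W.G.lev ρ) + (W.Pt ρ hz).card := by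
  classical
  set l := W.G.lev ρ with hl
  set P := W.G.mid ρ with hPd
  obtain ⟨nb, R0, Q, j1, J2, F, g, hP1, hnb, hlo, hll, hbad, ⟨hj1, hJ2, hF⟩, hl0, hnum⟩ := hP
  have hJ := hP1.2.2.1
  have h2J : 2 * 2 ^ (P.J - 1) = 2 ^ P.J := by
    rw [← pow_succ']
    congr 1
    omega
  have hnR : ρ < W.nR := h2.trans W.hR
  have e0 : W.G.p0 ρ 0 = W.G.st ρ + 1 := W.G.p0_zero ρ
  have e1 : W.G.p0 ρ 1 = W.G.st ρ + P.N + 3 := W.G.p0_one ρ
  have hla : W.G.la ρ = W.G.p0 ρ 1 + P.N := W.G.la_mid h1 h2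
  have hlas := W.G.la_succ ρ
  have hE' : W.G.la ρ + 1 ≤ W.S.E := by
    rw [hlas]
    exact W.G.st_le (show ρ + 1 ≤ W.nR from hnR)
  have hNp := P.N_pos
  set h := W.G.p0 ρ 0 + P.N with hh
  obtain ⟨c0, t0, w0⟩ := W.grm_hop h1 h2 (k := 0) (by norm_num)
  obtain ⟨c1, t1, w1⟩ := W.grm_hop h1 h2 (k := 1) (by norm_num)
  rw [← hPd, ← hh] at c0 t0 w0 c1 t1 w1
  rw [add_zero] at c0 t0 w0
  have hal : ∀ b ∈ A, ∀ i, W.G.st ρ ≤ i → i ≤ W.G.la ρ → W.S.Al W.σ b i := fun b hb i hi1 hi2 =>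
    W.go_pass hnR (hA b hb).1 hi1 hi2
  obtain ⟨d, hd⟩ : ∃ d, d = (W.Pt ρ hz).card / 4096 := ⟨_, rfl⟩
  have hd1 : 4096 * d ≤ (W.Pt ρ hz).card := by
    rw [hd]
    exact Nat.mul_div_le _ _
  have hfew := s2_few g A (fun b => W.S.en W.σ b h)
    (fun b w => ∃ u, (w, W.G.p0 ρ 0 + u) ∈ (W.S.sI W.σ b h).M)
    (fun q w => ∃ j, (w, j) ∈ (W.S.sI W.σ q (W.G.p0 ρ 1)).M)
    (fun p q => ∃ u, (q, W.G.p0 ρ 1 + u) ∈ (W.S.sI W.σ p (W.G.p0 ρ 1 + P.N)).M)
    (fun p w => w ∈ W.Mf p ρ) (h2 := 2 ^ (P.J - 1))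
    (N1 := 3 * (nb * P.J) + (W.Pt ρ hz).card / 4096 + 2 ^ l + 1) (gg := 64 * 2 ^ l)
    (j1 := j1) (J2 := J2) (F := F)
    (fun q _ b _ heq => (tme_inj W.fair heq).1)
    (by
      rintro q hq b hb hlt ⟨r, hr⟩ w hw ⟨u, hu⟩
      have hfl := Sys.flow W.ok W.fair (w := b) (x := q) (i := h) (j := h + 1) (by omega) (by omega)
        (by rw [c0, c1]) (hal b hb h (by omega) (by omega)) (hal q hq (h + 1) (by omega) (by omega))
        (by
          show q ∈ W.T.lst W.G false b h _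
          rw [w0]
          exact mem_padl (hl0 b q ⟨r, hr.symm⟩))
        (by
          show b ∈ W.T.lst W.G true q (h + 1) _
          rw [w1]
          exact mem_padl (hl0 q b ⟨r, hr⟩))
        (by
          have g1 : W.S.be W.σ b h ≤ W.S.en W.σ b h := by
            refine (tme_le W.fair b).2 ?_
            have s1 := Sys.off_succ W.S h
            have s2 := W.ok.lr_pos h
            omega
          have g2 : W.S.en W.σ q h ≤ W.S.be W.σ q (h + 1) := by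
            refine (tme_le W.fair q).2 ?_
            omega
          exact g1.trans (hlt.le.trans g2))
      have hsub := Sys.ME_sub W.ok W.fair (p := q) (i := h + 1) (j := h + 2) (by omega) (by omega)
        (hal q hq (h + 2) (by omega) (by omega)) (fun k hk1 hk2 => W.grm_rs (ρ := ρ) (k := k) (by omega) (by omega))
      refine ⟨W.G.p0 ρ 0 + u, ?_⟩
      have e2 : W.G.p0 ρ 1 = h + 2 := by omega
      rw [e2]
      exact hsub (hfl.2 t0 hu))
    (by
      rintro p hp q hq ⟨u, hu⟩ w hw ⟨j, hj⟩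
      rw [← hla] at hu
      have hpal := hal p hp (W.G.la ρ) (by omega) le_rfl
      obtain ⟨g1, g2, g3, -, -, -, g7⟩ := Sys.gen_M W.ok W.fair (by omega) hpal hu
      have hmono := Sys.M_mono W.ok W.fair (p := q) (i := W.G.p0 ρ 1) (j := W.G.p0 ρ 1 + u)
        (by omega) g1 g2 (fun k hk1 hk2 => by
          by_contra hrs
          rw [Bool.not_eq_false] at hrs
          have hkla : W.G.la ρ < k := by
            by_contra hcon
            have := W.grm_rs (ρ := ρ) (k := k) (by omega) (by omega)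
            rw [this] at hrs
            exact absurd hrs (by decide)
          have := W.grm_nr_lt hkla hk2 hrs
          omega)
      have h5 : (w, j) ∈ (W.S.sI W.σ p (W.G.la ρ)).M := g3 (hmono hj)
      show w ∈ names (W.S.ME W.σ p (W.G.la ρ))
      refine mem_image.2 ⟨(w, j), ?_, rfl⟩
      exact mem_union_left _ h5)
    (fun S' hS' hc => by
      rw [h2J]
      exact W.phase (Nm := Nm) h1 h2 (f := 0) (by norm_num) hP1 hnb hlo hll hE hk hp
        (fun b hb => hA b (hS' hb)) hc)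
    (fun S' hS' hc => by
      rw [h2J]
      exact W.phase (Nm := Nm) h1 h2 (f := 1) (by norm_num) hP1 hnb hlo hll hE hk hp
        (fun b hb => hA b (hS' hb)) hc)
    hF hj1 hJ2 hbad
  replace hfew := lt_of_le_of_lt (card_le_card (s := A) (by
    intro p hp
    simp only [mem_filter]
    refine ⟨hp, lt_of_le_of_lt (card_le_card ?_) (hM p hp)⟩
    intro w hw
    simp only [mem_filter] at hw
    exact mem_inter.2 ⟨hw.2, hw.1⟩)) hfew
  rw [← hd] at hfew
  have e9 : (Nm + 4) * 2 ^ l = Nm * 2 ^ l + 4 * 2 ^ l := by ring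
  rw [e9]
  omega

end Wd

end Pool.Agent.E217
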