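import Pool.Agent.MP217Exact.Good
import Pool.Agent.MP217Exact.RunsK
import Pool.Agent.MP217Exact.CoreT
import Pool.Agent.X217.PhM3

set_option autoImplicit false

/-!
# The tick phases of mid runs
-/

namespace Pool.Agent.E217

open Finset
open Pool.Agent.X217 (Fam)

attribute [local instance 10] Classical.propDecidable

variable {n : ℕ} {D : Type}

namespace Wd

variable (W : Wd n D)

/-- The family of tick phase `f` of run `ρ` with horizon `hz`. -/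
noncomputable def fm (ρ f hz : ℕ) : Fam (Fin n) (W.G.mid ρ).N (W.G.mid ρ).Rn (W.G.mid ρ).Lam
    (2 ^ (W.G.mid ρ).om) :=
  fam (W.G.mid ρ).X (W.G.p0 ρ f) W.S (W.T.var W.G ρ f W.nR W.d0 W.nd W.sp) W.σ hz

/-- The good event of the two tick phases of run `ρ`. -/
def EvR (ρ k hz : ℕ) : Prop := ∀ f < 2, (W.fm ρ f hz).Ev 4096 (W.G.mid ρ).J k
  (W.T.tbl W.G ρ f false) (W.T.tbl W.G ρ f true)

/-- The participants of run `ρ` which begin it before time `hz`. -/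
noncomputable def Pt (ρ hz : ℕ) : Finset (Fin n) := univ.filter fun p => W.go p ρ ∧ W.sT p ρ ≤ hz

theorem fm_ok {ρ f hz : ℕ} (h1 : W.G.top ≤ ρ) (h2 : ρ < W.G.H) (hf : f < 2) :
    (W.fm ρ f hz).Ok :=
  fam_ok (W.T.tick_ph W.G h1 h2 hf W.hR.le W.d0 W.nd W.sp W.hsp) W.fair hz

private theorem gma_off_lt {i j : ℕ} (h : i ≤ j) : W.S.off i ≤ W.S.off (j + 1) - 1 := by
  have h1 := Sys.off_mono W.S h
  have h2 := Sys.off_lt W.ok (Nat.lt_succ_self j)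
  have h3 : j.succ = j + 1 := rfl
  rw [h3] at h2
  omega

private theorem gma_al_le (p : Fin n) {i j : ℕ} (h : i ≤ j) :
    W.S.al W.σ p i ≤ W.S.en W.σ p j :=
  (tme_le W.fair p).2 (W.gma_off_lt h)

private theorem gma_al_mono (p : Fin n) {i j : ℕ} (h : i ≤ j) :
    W.S.al W.σ p i ≤ W.S.al W.σ p j :=
  (tme_le W.fair p).2 (Sys.off_mono W.S h)

private theorem gma_p0 {ρ f : ℕ} (h1 : W.G.top ≤ ρ) (h2 : ρ < W.G.H) (hf : f < 2) :
    W.G.st ρ ≤ W.G.p0 ρ f ∧ W.G.p0 ρ f + (W.G.mid ρ).N ≤ W.G.la ρ := by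
  have hla := W.G.la_mid h1 h2
  have e0 := W.G.p0_zero ρ
  have e1 := W.G.p0_one ρ
  obtain rfl | rfl : f = 0 ∨ f = 1 := by omega
  · omega
  · omega

/-- The conclusion of the theorem on tick phases.
PROOF: `Fam.main` with `D = 4096`; if `|R| < 2 ^ l` or `|R| < k` there is nothing to prove since
`A ⊆ R`; otherwise `2 ^ l ≤ |R| ≤ |Pt| ≤ (L + 1) ^ 3 * 2 ^ l` and `hll`.  `repl_self` identifies the
program with the member `(tbl false, tbl true)` of the family; the stamps `(q, p0 ρ f + u)` known to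
`p` at the beginning of pass `p0 ρ f + N`. -/
theorem phase {ρ f k hz Nm : ℕ} (h1 : W.G.top ≤ ρ) (h2 : ρ < W.G.H) (hf : f < 2)
    {nb : ℕ} (hP : (W.G.mid ρ).N = 256 * 4096 * 2 ^ (W.G.mid ρ).om ∧
      9 * 4096 * (W.G.mid ρ).Lam ≤ 2 ^ (W.G.mid ρ).om ∧ 1 ≤ (W.G.mid ρ).J ∧
      (W.G.mid ρ).J ≤ 4 * 4096 * 2 ^ (W.G.mid ρ).om)
    (hnb : ∀ r < (W.G.mid ρ).Rn, ∀ S : Finset (Fin n),
      (S.image ((W.G.mid ρ).X.bl r)).card ≤ nb)
    (hlo : ∀ U : Finset (Fin n), U.card ≤ 4 * 2 ^ (W.G.mid ρ).J →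
      15 * ((W.G.mid ρ).Rn * U.card) ≤
        16 * ∑ r ∈ range (W.G.mid ρ).Rn, (U.image ((W.G.mid ρ).X.bl r)).card)
    (hll : ∀ U : Finset (Fin n), 2 ^ W.G.lev ρ ≤ U.card →
      U.card ≤ (W.G.A.L + 1) ^ 3 * 2 ^ W.G.lev ρ →
      64 * 4096 * ((W.G.mid ρ).Rn * U.card) ≤
        64 * 4096 * ∑ r ∈ range (W.G.mid ρ).Rn,
          (U.image fun x => ((W.G.mid ρ).X.bl r x, (W.G.mid ρ).X.κ r x)).card +
          (W.G.mid ρ).Rn * U.card)
    (hE : W.EvR ρ k hz) (hk : k ≤ 2 ^ W.G.lev ρ)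
    (hp : (W.Pt ρ hz).card ≤ (W.G.A.L + 1) ^ 3 * 2 ^ W.G.lev ρ)
    {A : Finset (Fin n)} (hA : ∀ b ∈ A, W.go b ρ ∧ W.eT b ρ ≤ hz)
    (hc : 3 * (nb * (W.G.mid ρ).J) + (W.Pt ρ hz).card / 4096 + 2 ^ W.G.lev ρ + 1 ≤ A.card) :
    ∃ p ∈ A, 2 ^ (W.G.mid ρ).J ≤ (A.filter fun q => ∃ u,
      (q, W.G.p0 ρ f + u) ∈ (W.S.sI W.σ p (W.G.p0 ρ f + (W.G.mid ρ).N)).M).card := by
  classical
  set l := W.G.lev ρ with hl
  set P := W.G.mid ρ with hPd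
  set i0 := W.G.p0 ρ f with hi0
  obtain ⟨hP1, hP2, hP3, hP4⟩ := hP
  obtain ⟨g1, g2⟩ := W.gma_p0 h1 h2 hf
  have hS : W.T.var W.G ρ f W.nR W.d0 W.nd W.sp (W.T.tbl W.G ρ f false)
      (W.T.tbl W.G ρ f true) = W.S := W.T.repl_self W.G ρ f W.nR h1 h2 W.d0 W.nd W.sp
  have hnR : ρ < W.nR := h2.trans W.hR
  -- the participants
  have hR : (W.fm ρ f hz).R (W.T.tbl W.G ρ f false) (W.T.tbl W.G ρ f true) =
      univ.filter fun x => W.S.Al W.σ x i0 ∧ W.S.al W.σ x i0 ≤ hz := by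
    show (univ.filter fun x => (W.T.var W.G ρ f W.nR W.d0 W.nd W.sp (W.T.tbl W.G ρ f false)
      (W.T.tbl W.G ρ f true)).Al W.σ x i0 ∧ W.S.al W.σ x i0 ≤ hz) = _
    rw [hS]
  have hAR : A ⊆ (W.fm ρ f hz).R (W.T.tbl W.G ρ f false) (W.T.tbl W.G ρ f true) ∩
      (W.fm ρ f hz).C0 := by
    intro p hp
    obtain ⟨hgo, he⟩ := hA p hp
    rw [mem_inter, hR]
    refine ⟨mem_filter.2 ⟨mem_univ _, ?_, ?_⟩, ?_⟩
    · exact W.go_pass hnR hgo g1 (by omega)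
    · exact (W.gma_al_le p (by omega : i0 ≤ W.G.la ρ)).trans he
    · show p ∈ univ.filter fun y => W.S.al W.σ y (i0 + P.N) ≤ hz
      exact mem_filter.2 ⟨mem_univ _, (W.gma_al_le p (by omega : i0 + P.N ≤ W.G.la ρ)).trans he⟩
  have hRP : ((W.fm ρ f hz).R (W.T.tbl W.G ρ f false) (W.T.tbl W.G ρ f true)).card ≤
      (W.Pt ρ hz).card := by
    refine card_le_card fun x hx => ?_
    rw [hR] at hx
    obtain ⟨-, hx1, hx2⟩ := mem_filter.1 hx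
    refine mem_filter.2 ⟨mem_univ _, ?_, (W.gma_al_mono x g1).trans hx2⟩
    have hE' : i0 ≤ W.S.E := by
      show i0 ≤ W.G.st W.nR
      have h3 := W.G.la_succ ρ
      have h4 := W.G.st_le (show ρ + 1 ≤ W.nR from hnR)
      omega
    exact Sys.al_mono W.ok W.fair hx1 g1 hE'
  have hAc : A.card ≤ ((W.fm ρ f hz).R (W.T.tbl W.G ρ f false) (W.T.tbl W.G ρ f true)).card :=
    card_le_card fun x hx => (mem_inter.1 (hAR hx)).1
  obtain ⟨d, hd⟩ : ∃ d, d = (W.Pt ρ hz).card / 4096 := ⟨_, rfl⟩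
  have hd1 : (W.Pt ρ hz).card < 4096 * (d + 1) := by
    rw [hd]
    exact Nat.lt_mul_div_succ _ (by norm_num)
  rw [← hd] at hc
  have hm := Fam.main (W.fm_ok (hz := hz) h1 h2 hf) (D := 4096) (J := P.J) (k := k) (nb := nb)
    (by norm_num) hP1 hP2 Nat.one_le_two_pow P.Lam_pos hP4 P.Rn_pos (hE f hf) (by omega)
    hnb (hll _ (by omega) (hRP.trans hp)) hlo hAR (by omega)
  obtain ⟨p, hpA, hpc⟩ := hm
  refine ⟨p, hpA, hpc.trans (card_le_card ?_)⟩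
  intro q hq
  simp only [mem_filter] at hq ⊢
  refine ⟨hq.1, ?_⟩
  obtain ⟨u, hu⟩ := hq.2
  have hu' : (q, u) ∈ ((((W.T.var W.G ρ f W.nR W.d0 W.nd W.sp (W.T.tbl W.G ρ f false)
      (W.T.tbl W.G ρ f true)).sI W.σ p (i0 + P.N)).M.filter fun q => i0 ≤ q.2).image
    fun q => (q.1, q.2 - i0)) := hu
  rw [hS, mem_image] at hu'
  obtain ⟨z, hz1, hz2⟩ := hu'
  rw [mem_filter] at hz1
  refine ⟨u, ?_⟩
  have e1 : z.1 = q := congrArg Prod.fst hz2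
  have e2 : z.2 - i0 = u := congrArg Prod.snd hz2
  have e3 : z = (q, i0 + u) := by
    refine Prod.ext e1 ?_
    show z.2 = i0 + u
    have := hz1.2
    omega
  rw [← e3]
  exact hz1.1

end Wd

end Pool.Agent.E217
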