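import Pool.Agent.MP217Area.RPlev

set_option autoImplicit false

/-!
# Sequences of round protocols

`Hp.alg` performs the round protocols `R 0`, `R 1`, … one after another; the value with which a
round is left is the preference in the next round.
-/

namespace Pool.Agent.E217

open MeasureTheory
open scoped ENNReal
open Pool.Agent.MP217Upper.Model (Act Alg Config coins W Solves cost totalWork)
open Pool.Agent.A217 (RP RAct RCfg)

/-- A sequence of round protocols. -/
structure Hp (n : ℕ) where
  R : ℕ → RP n

variable {n : ℕ}

namespace Hp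

variable (P : Hp n)

/-- Local states of the composed algorithm: in round `r` with state `s`, or finished. -/
inductive CSt : Type
  | act (r : ℕ) (s : (P.R r).S)
  | out (v : Bool)

/-- Leave a finished round. -/
def norm (i : Fin n) (c : ℕ → Bool) (r : ℕ) (s : (P.R r).S) : CSt P :=
  match (P.R r).next i s with
  | .fin v true => .out v
  | .fin v false => .act (r + 1) ((P.R (r + 1)).init i v (RP.blk c (r + 1)))
  | _ => .act r s

/-- The local state after the history `h`. -/
def cs (i : Fin n) (b : Bool) (c : ℕ → Bool) : List (Option ℕ) → CSt P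
  | [] => .act 0 ((P.R 0).init i b (RP.blk c 0))
  | x :: h => match cs i b c h with
    | .act r s => P.norm i c r ((P.R r).upd i (RP.blk c r) s x)
    | .out v => .out v

/-- The next action. -/
def nxt (i : Fin n) : CSt P → Act n
  | .out v => .output v
  | .act r s => match (P.R r).next i s with
    | .read w k => .read w (Nat.pair r k)
    | .write y k v => .write y (Nat.pair r k) v
    | .fin v _ => .output v

/-- Preferences and entering times of round `r`. -/
noncomputable def lev (b : Fin n → Bool) (c : Fin n → ℕ → Bool) (σ : ℕ → Fin n) :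
    ℕ → (Fin n → Bool) × (Fin n → Option ℕ)
  | 0 => (b, fun _ => some 0)
  | r + 1 => (P.R r).nextLev (lev b c σ r).1 (RP.blks c r) (RP.sched σ (lev b c σ r).2)

/-- The run of round `r`. -/
noncomputable def rrun (b : Fin n → Bool) (c : Fin n → ℕ → Bool) (σ : ℕ → Fin n) (r t : ℕ) :
    RCfg (P.R r) :=
  (P.R r).run (P.lev b c σ r).1 (RP.blks c r) (RP.sched σ (P.lev b c σ r).2) t

/-- Success of a round: everybody who leaves it leaves with the same value. -/
def _root_.Pool.Agent.A217.RP.Same (Q : RP n) (x : Fin n → Bool) (c : Fin n → ℕ → Bool)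
    (σ : ℕ → Option (Fin n)) : Prop :=
  ∃ v, ∀ t p v' d', Q.next p ((Q.run x c σ t).st p) = .fin v' d' → v' = v

/-- Even rounds are conciliators (success probability at least `s`), odd rounds are adopt-commit
protocols. -/
structure Good (s W1 : ℝ≥0∞) : Prop where
  agree : ∀ r x c σ t t' p p' v v' d', (P.R r).next p (((P.R r).run x c σ t).st p) = .fin v true →
    (P.R r).next p' (((P.R r).run x c σ t').st p') = .fin v' d' → v' = v
  unan : ∀ r x c σ v, (∀ t p, σ t = some p → x p = v) → ∀ t p v' d',
    (P.R r).next p (((P.R r).run x c σ t).st p) = .fin v' d' → v' = v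
  dec : ∀ r x c σ v, r % 2 = 1 → (∀ t p, σ t = some p → x p = v) → ∀ t p v' d',
    (P.R r).next p (((P.R r).run x c σ t).st p) = .fin v' d' → d' = true
  bdd : ∃ Bd : ℕ, ∀ r x c σ t p, (P.R r).steps x c σ t p ≤ Bd
  succ : ∀ r x σ, r % 2 = 0 → s ≤ coins n {c | (P.R r).Same x c σ}
  work_le : ∀ r x σ, ∫⁻ c, (P.R r).work x c σ ∂coins n ≤ W1

end Hp

end Pool.Agent.E217
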