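import Pool.Agent.MP217Exact.HPlev
import Pool.Agent.MP217Area.Ind

set_option autoImplicit false

/-!
# Independence of the rounds
-/

namespace Pool.Agent.E217

open MeasureTheory
open scoped ENNReal
open Pool.Agent.MP217Upper.Model (Act Alg coins)
open Pool.Agent.A217 (RP RAct RCfg coins_map coins_mul)

namespace Hp

variable {n : ℕ} {P : Hp n} {s W1 : ℝ≥0∞}

private theorem RPind_prob (n : ℕ) : IsProbabilityMeasure (coins n) := by
  have h1 : IsProbabilityMeasure (Measure.infinitePi fun _ : ℕ =>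
      (PMF.uniformOfFintype Bool).toMeasure) := inferInstance
  unfold coins
  infer_instance

/-- Events determined by the level data are measurable. -/
private theorem RPind_meas (b : Fin n → Bool) (σ : ℕ → Fin n) (r : ℕ)
    (S : Set ((Fin n → Bool) × (Fin n → Option ℕ))) :
    MeasurableSet {c : Fin n → ℕ → Bool | P.lev b c σ r ∈ S} := by
  have h : {c : Fin n → ℕ → Bool | P.lev b c σ r ∈ S}
      = ⋃ y ∈ S, {c | P.lev b c σ r = y} := by
    ext c; simp
  rw [h]
  exact MeasurableSet.biUnion (Set.to_countable S) fun y _ => P.meas_lev b σ r y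

private theorem RPind_fun (P : Hp n) (b : Fin n → Bool) (σ : ℕ → Fin n) (r : ℕ)
    (f : (Fin n → ℕ → Bool) → ℝ≥0∞) :
    ∫⁻ c, f c ∂coins n
      = ∑' y : (Fin n → Bool) × (Fin n → Option ℕ),
          ∫⁻ c in {c | P.lev b c σ r = y}, f c ∂coins n := by
  have hU : (⋃ y : (Fin n → Bool) × (Fin n → Option ℕ), {c | P.lev b c σ r = y})
      = (Set.univ : Set (Fin n → ℕ → Bool)) := by
    ext c; simp
  rw [← lintegral_iUnion (fun y => P.meas_lev b σ r y), hU, Measure.restrict_univ]
  intro y y' hy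
  rw [Function.onFun, Set.disjoint_left]
  intro c hc hc'
  exact hy (hc.symm.trans hc')

private theorem RPind_split (P : Hp n) (b : Fin n → Bool) (σ : ℕ → Fin n) (r : ℕ)
    (F : (Fin n → Bool) × (Fin n → Option ℕ) → (Fin n → ℕ → Bool) → ℝ≥0∞)
    (hF : ∀ y, Measurable (F y)) (K : ℝ≥0∞)
    (h0 : ∀ y, (∀ p, y.2 p = none) → ∀ c, F y c = 0)
    (hK : ∀ y, ∫⁻ c, F y c ∂coins n ≤ K) :
    ∫⁻ c, F (P.lev b c σ r) (RP.blks c r) ∂coins n ≤
      coins n {c | ∃ p, (P.lev b c σ r).2 p ≠ none} * K := by
  have hmp := coins_map (n := n) (fun j => Nat.pair r j) (fun i j h => (Nat.pair_eq_pair.1 h).2)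
  have hblk : ∀ c : Fin n → ℕ → Bool, RP.blks c r = fun p j => c p (Nat.pair r j) := fun c => rfl
  have hterm : ∀ y, ∫⁻ c in {c | P.lev b c σ r = y}, F (P.lev b c σ r) (RP.blks c r) ∂coins n
      = coins n {c | P.lev b c σ r = y} * ∫⁻ c, F y c ∂coins n := by
    intro y
    have h1 : ∫⁻ c in {c | P.lev b c σ r = y}, F (P.lev b c σ r) (RP.blks c r) ∂coins n
        = ∫⁻ c in {c | P.lev b c σ r = y}, F y (fun p j => c p (Nat.pair r j)) ∂coins n := by
      refine setLIntegral_congr_fun (P.meas_lev b σ r y) fun c hc => ?_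
      have hc' : P.lev b c σ r = y := hc
      simp only [hc', hblk]
    rw [h1, coins_mul {q : Fin n × ℕ | (Nat.unpair q.2).1 = r} {c | P.lev b c σ r = y}
      (fun c => F y (fun p j => c p (Nat.pair r j))) (P.meas_lev b σ r y)
      ((hF y).comp hmp.measurable)]
    · congr 1
      exact hmp.lintegral_comp (hF y)
    · intro c c' h
      have : P.lev b c σ r = P.lev b c' σ r := by
        apply P.lev_congr
        intro r' hr' p j
        apply h
        simp only [Set.mem_ofPred_eq, Nat.unpair_pair]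
        exact hr'.ne
      simp only [Set.mem_ofPred_eq, this]
    · intro c c' h
      have : (fun (p : Fin n) (j : ℕ) => c p (Nat.pair r j)) = fun p j => c' p (Nat.pair r j) := by
        funext p j
        apply h
        simp only [Set.mem_ofPred_eq, Nat.unpair_pair]
      simp only [this]
  rw [RPind_fun P b σ r]
  have hle : ∀ y, ∫⁻ c in {c | P.lev b c σ r = y}, F (P.lev b c σ r) (RP.blks c r) ∂coins n
      ≤ ∫⁻ c in {c | P.lev b c σ r = y},
        ({c | ∃ p, (P.lev b c σ r).2 p ≠ none} : Set (Fin n → ℕ → Bool)).indicator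
          (fun _ => K) c ∂coins n := by
    intro y
    rw [hterm y]
    by_cases hy : ∀ p, y.2 p = none
    · have : ∫⁻ c, F y c ∂coins n = 0 := by
        rw [lintegral_congr (g := fun _ => 0) (fun c => h0 y hy c)]
        simp
      rw [this, mul_zero]
      exact zero_le
    · have h2 : ∫⁻ c in {c | P.lev b c σ r = y},
          ({c | ∃ p, (P.lev b c σ r).2 p ≠ none} : Set (Fin n → ℕ → Bool)).indicator
            (fun _ => K) c ∂coins n
          = ∫⁻ c in {c | P.lev b c σ r = y}, K ∂coins n := by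
        refine setLIntegral_congr_fun (P.meas_lev b σ r y) fun c hc => ?_
        have hc' : P.lev b c σ r = y := hc
        refine Set.indicator_of_mem ?_ _
        simp only [Set.mem_ofPred_eq, hc']
        push Not at hy
        exact hy
      rw [h2, setLIntegral_const, mul_comm K]
      exact mul_le_mul_right (hK y) _
  have hmeas : MeasurableSet {c : Fin n → ℕ → Bool | ∃ p, (P.lev b c σ r).2 p ≠ none} :=
    RPind_meas b σ r {y | ∃ p, y.2 p ≠ none}
  calc ∑' y, ∫⁻ c in {c | P.lev b c σ r = y}, F (P.lev b c σ r) (RP.blks c r) ∂coins n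
      ≤ ∑' y : (Fin n → Bool) × (Fin n → Option ℕ), ∫⁻ c in {c | P.lev b c σ r = y},
        ({c | ∃ p, (P.lev b c σ r).2 p ≠ none} : Set (Fin n → ℕ → Bool)).indicator
          (fun _ => K) c ∂coins n := ENNReal.tsum_le_tsum hle
    _ = ∫⁻ c, ({c | ∃ p, (P.lev b c σ r).2 p ≠ none} : Set (Fin n → ℕ → Bool)).indicator
          (fun _ => K) c ∂coins n := (RPind_fun P b σ r _).symm
    _ = K * coins n {c | ∃ p, (P.lev b c σ r).2 p ≠ none} := by
        rw [lintegral_indicator hmeas, setLIntegral_const]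
    _ = _ := mul_comm _ _

/-- If nobody takes part, then nothing happens. -/
private theorem RPind_none (σ : ℕ → Fin n) (τ : Fin n → Option ℕ) (hτ : ∀ p, τ p = none)
    (t : ℕ) : RP.sched σ τ t = none := by
  unfold RP.sched
  rw [hτ]

private theorem RPind_run (Q : RP n) (x : Fin n → Bool) (c : Fin n → ℕ → Bool) (σ : ℕ → Fin n)
    (τ : Fin n → Option ℕ) (hτ : ∀ p, τ p = none) (t : ℕ) :
    Q.run x c (RP.sched σ τ) t = Q.run x c (RP.sched σ τ) 0 := by
  induction t with
  | zero => rfl
  | succ t ih =>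
    have h : Q.run x c (RP.sched σ τ) (t + 1) = Q.run x c (RP.sched σ τ) t := by
      rw [RP.run]
      simp only [RPind_none σ τ hτ t]
    rw [h, ih]

private theorem RPind_work (Q : RP n) (x : Fin n → Bool) (c : Fin n → ℕ → Bool) (σ : ℕ → Fin n)
    (τ : Fin n → Option ℕ) (hτ : ∀ p, τ p = none) : Q.work x c (RP.sched σ τ) = 0 := by
  classical
  unfold RP.work
  simp only [ENNReal.iSup_eq_zero]
  intro t
  have : ∀ p, Q.steps x c (RP.sched σ τ) t p = 0 := by
    intro p
    unfold RP.steps
    rw [Finset.card_eq_zero, Finset.filter_eq_empty_iff]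
    rintro t' _ ⟨h, _⟩
    rw [RPind_none σ τ hτ t'] at h
    exact absurd h (by simp)
  simp only [this, Finset.sum_const_zero, Nat.cast_zero]

/-- What it means to enter the next round. -/
theorem lev_some {b : Fin n → Bool} {c : Fin n → ℕ → Bool} {σ : ℕ → Fin n} {r : ℕ}
    {p : Fin n} (h : (P.lev b c σ (r + 1)).2 p ≠ none) :
    ∃ t v, (P.R r).next p ((P.rrun b c σ r t).st p) = .fin v false := by
  by_contra hc
  apply h
  rw [lev, RP.nextLev]
  simp only
  rw [dif_neg]
  rintro ⟨t, v, hv⟩
  exact hc ⟨t, v, hv⟩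

/-- If nobody leaves round `r` undecided, nobody enters round `r + 1`. -/
theorem lev_none {b : Fin n → Bool} {c : Fin n → ℕ → Bool} {σ : ℕ → Fin n} {r : ℕ}
    (h : ∀ t p v, (P.R r).next p ((P.rrun b c σ r t).st p) ≠ .fin v false) (p : Fin n) :
    (P.lev b c σ (r + 1)).2 p = none := by
  rw [lev, RP.nextLev]
  simp only
  rw [dif_neg]
  rintro ⟨t, v, hv⟩
  exact h t p v hv

theorem not_fin_of_none {Q : RP n} {x : Fin n → Bool} {c : Fin n → ℕ → Bool} {σ : ℕ → Fin n}
    {τ : Fin n → Option ℕ} (hτ : ∀ p, τ p = none) (t : ℕ) (p : Fin n) (v d : Bool) :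
    Q.next p ((Q.run x c (RP.sched σ τ) t).st p) ≠ .fin v d := by
  rw [RPind_run Q x c σ τ hτ t]
  exact Q.init_fin p (x p) (c p) v d

theorem lev_none_succ {b : Fin n → Bool} {c : Fin n → ℕ → Bool} {σ : ℕ → Fin n} {r : ℕ}
    (h : ∀ p, (P.lev b c σ r).2 p = none) (p : Fin n) :
    (P.lev b c σ (r + 1)).2 p = none :=
  lev_none (fun t q v => not_fin_of_none h t q v false) p

/-- The participants of a round are the processors that enter it. -/
theorem lev_of_sched {σ : ℕ → Fin n} {τ : Fin n → Option ℕ} {t : ℕ} {p : Fin n}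
    (h : RP.sched σ τ t = some p) : τ p ≠ none := by
  unfold RP.sched at h
  cases hs : τ (σ t) with
  | none => rw [hs] at h; simp at h
  | some e =>
    rw [hs] at h
    simp only at h
    split_ifs at h with h1
    have h2 : σ t = p := by simpa using h
    rw [← h2, hs]
    simp

/-- After a round in which everybody who leaves has the same value, the next round is
unanimous. -/
theorem next_pref {b : Fin n → Bool} {c : Fin n → ℕ → Bool} {σ : ℕ → Fin n} {r : ℕ} {v : Bool}
    (h : ∀ t p v' d', (P.R r).next p ((P.rrun b c σ r t).st p) = .fin v' d' → v' = v)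
    {t : ℕ} {q : Fin n}
    (hq : RP.sched σ (P.lev b c σ (r + 1)).2 t = some q) : (P.lev b c σ (r + 1)).1 q = v := by
  classical
  obtain ⟨t1, v1, h1⟩ := lev_some (lev_of_sched hq)
  have h2 : v1 = v := h _ _ _ _ h1
  subst h2
  rw [lev, RP.nextLev]
  simp only
  cases v1 with
  | true =>
    rw [decide_eq_true_iff]
    exact ⟨t1, h1⟩
  | false =>
    rw [decide_eq_false_iff_not]
    rintro ⟨t2, h2⟩
    have h3 : true = false := h _ _ _ _ h2
    simp at h3

/-- If somebody enters the round after the next one, then the round was not successful, and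
somebody took part. -/
private theorem RPind_ent (hP : P.Good s W1) {b : Fin n → Bool} {c : Fin n → ℕ → Bool}
    {σ : ℕ → Fin n} {r : ℕ} (hr : r % 2 = 0) {p : Fin n}
    (h : (P.lev b c σ (r + 1 + 1)).2 p ≠ none) :
    (¬ (P.R r).Same (P.lev b c σ r).1 (RP.blks c r) (RP.sched σ (P.lev b c σ r).2)) ∧
      ¬ (∀ p, (P.lev b c σ r).2 p = none) := by
  constructor
  · rintro ⟨v, hv⟩
    apply h
    apply lev_none
    intro t q v1 h1
    have h2 := hP.dec (r + 1) _ _ _ v (by omega) (fun t' q' hq' => next_pref hv hq') t q v1 false h1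
    simp at h2
  · intro hn
    exact h (lev_none_succ (lev_none_succ hn) p)

theorem ent_two (hP : P.Good s W1) (b : Fin n → Bool) (σ : ℕ → Fin n) (r : ℕ)
    (hr : r % 2 = 0) :
    coins n {c | ∃ p, (P.lev b c σ (r + 1 + 1)).2 p ≠ none} ≤
      (1 - s) * coins n {c | ∃ p, (P.lev b c σ r).2 p ≠ none} := by
  classical
  have := RPind_prob n
  set F : (Fin n → Bool) × (Fin n → Option ℕ) → (Fin n → ℕ → Bool) → ℝ≥0∞ := fun y =>
    if (∀ p, y.2 p = none) then 0 else
      ({c | (P.R r).Same y.1 c (RP.sched σ y.2)}ᶜ : Set (Fin n → ℕ → Bool)).indicator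
        (fun _ => 1) with hFdef
  have hF : ∀ y, Measurable (F y) := by
    intro y
    rw [hFdef]
    simp only
    split_ifs
    · exact measurable_zero
    · exact measurable_const.indicator (meas_Same (P.R r) y.1 _).compl
  have h0 : ∀ y, (∀ p, y.2 p = none) → ∀ c, F y c = 0 := by
    intro y hy c
    rw [hFdef]
    simp only [hy, implies_true, if_true, Pi.zero_apply]
  have hK : ∀ y, ∫⁻ c, F y c ∂coins n ≤ 1 - s := by
    intro y
    by_cases hy : ∀ p, y.2 p = none
    · rw [lintegral_congr (g := fun _ => 0) (fun c => h0 y hy c)]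
      simp
    · have h1 : ∀ c, F y c = ({c | (P.R r).Same y.1 c (RP.sched σ y.2)}ᶜ :
          Set (Fin n → ℕ → Bool)).indicator (fun _ => 1) c := by
        intro c
        rw [hFdef]
        simp only [if_neg hy]
      rw [lintegral_congr h1, lintegral_indicator (meas_Same (P.R r) y.1 _).compl,
        setLIntegral_const, one_mul, prob_compl_eq_one_sub (meas_Same (P.R r) y.1 _)]
      have h2 := hP.succ r y.1 (RP.sched σ y.2) hr
      exact tsub_le_tsub_left h2 _
  have hmeas : MeasurableSet {c : Fin n → ℕ → Bool | ∃ p, (P.lev b c σ (r + 1 + 1)).2 p ≠ none} :=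
    RPind_meas b σ (r + 1 + 1) {y | ∃ p, y.2 p ≠ none}
  calc coins n {c | ∃ p, (P.lev b c σ (r + 1 + 1)).2 p ≠ none}
      = ∫⁻ c, ({c | ∃ p, (P.lev b c σ (r + 1 + 1)).2 p ≠ none} :
          Set (Fin n → ℕ → Bool)).indicator (fun _ => 1) c ∂coins n := by
        rw [lintegral_indicator hmeas, setLIntegral_const, one_mul]
    _ ≤ ∫⁻ c, F (P.lev b c σ r) (RP.blks c r) ∂coins n := by
        refine lintegral_mono fun c => ?_
        by_cases hc : c ∈ {c : Fin n → ℕ → Bool | ∃ p, (P.lev b c σ (r + 1 + 1)).2 p ≠ none}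
        · obtain ⟨p, hp⟩ := hc
          obtain ⟨h1, h2⟩ := RPind_ent hP hr hp
          have h3 : F (P.lev b c σ r) (RP.blks c r) = 1 := by
            rw [hFdef]
            simp only [if_neg h2]
            exact Set.indicator_of_mem (by simpa using h1) _
          rw [h3]
          exact Set.indicator_le_self' (fun _ _ => zero_le) c
        · rw [Set.indicator_of_notMem hc]
          exact zero_le
    _ ≤ coins n {c | ∃ p, (P.lev b c σ r).2 p ≠ none} * (1 - s) :=
        RPind_split P b σ r F hF _ h0 hK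
    _ = _ := mul_comm _ _

theorem work_round (hP : P.Good s W1) (b : Fin n → Bool) (σ : ℕ → Fin n) (r : ℕ) :
    ∫⁻ c, (P.R r).work (P.lev b c σ r).1 (RP.blks c r)
      (RP.sched σ (P.lev b c σ r).2) ∂coins n ≤
      coins n {c | ∃ p, (P.lev b c σ r).2 p ≠ none} * W1 := by
  exact RPind_split P b σ r (fun y c => (P.R r).work y.1 c (RP.sched σ y.2))
    (fun y => (P.R r).measurable_work y.1 _) W1
    (fun y hy c => RPind_work (P.R r) y.1 c σ y.2 hy) (fun y => hP.work_le r y.1 _)

end Hp

end Pool.Agent.E217
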