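import Pool.Agent.MP217Exact.HP

set_option autoImplicit false

/-!
# Measurability for sequences of round protocols, and the composed algorithm
-/

namespace Pool.Agent.E217

open MeasureTheory
open scoped ENNReal
open Pool.Agent.MP217Upper.Model (Act Alg coins)
open Pool.Agent.A217 (RP RAct RCfg)

private theorem meas_split {Ω S : Type} [MeasurableSpace Ω] [Countable S] (f : Ω → S)
    (hf : ∀ s, MeasurableSet {c | f c = s}) (A : S → Set Ω) (hA : ∀ s, MeasurableSet (A s)) :
    MeasurableSet {c | c ∈ A (f c)} := by
  have h : {c | c ∈ A (f c)} = ⋃ s, ({c | f c = s} ∩ A s) := by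
    ext c
    simp
  rw [h]
  exact MeasurableSet.iUnion fun s => (hf s).inter (hA s)

private theorem meas_pred {Ω S : Type} [MeasurableSpace Ω] [Countable S] (f : Ω → S)
    (hf : ∀ s, MeasurableSet {c | f c = s}) (Q : S → Prop) : MeasurableSet {c | Q (f c)} := by
  have h := meas_split f hf (fun s => {_c | Q s}) (fun s => MeasurableSet.const (Q s))
  exact h

private theorem pre_blk (r : ℕ) (Q : (ℕ → Bool) → Prop)
    (hQ : MeasurableSet {c | Q c}) : MeasurableSet {c : ℕ → Bool | Q (RP.blk c r)} := by
  have h : Measurable fun c : ℕ → Bool => RP.blk c r :=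
    measurable_pi_lambda _ fun j => measurable_pi_apply (Nat.pair r j)
  exact h hQ

/-- The event that everybody leaves with the same value is measurable. -/
theorem meas_Same {n : ℕ} (P : RP n) (x : Fin n → Bool) (σ : ℕ → Option (Fin n)) :
    MeasurableSet {c : Fin n → ℕ → Bool | P.Same x c σ} := by
  have := P.cnt
  have h : {c : Fin n → ℕ → Bool | P.Same x c σ} = ⋃ v : Bool, ⋂ t : ℕ, ⋂ p : Fin n,
      {c | ∀ v' d', P.next p ((P.run x c σ t).st p) = .fin v' d' → v' = v} := by
    ext c
    simp [RP.Same]
  rw [h]
  refine MeasurableSet.iUnion fun v => MeasurableSet.iInter fun t => MeasurableSet.iInter fun p => ?_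
  exact meas_pred (fun c => (P.run x c σ t).st p) (P.meas_st x σ t p)
    (fun s => ∀ v' d', P.next p s = .fin v' d' → v' = v)

namespace Hp

variable {n : ℕ} (P : Hp n)

private theorem cnt_CSt : Countable (CSt P) := by
  have : ∀ r, Countable (P.R r).S := fun r => (P.R r).cnt
  have hf : Function.Injective (fun y : CSt P => (match y with
      | .act r s => Sum.inl ⟨r, s⟩
      | .out v => Sum.inr v : (Σ r, (P.R r).S) ⊕ Bool)) := by
    intro a b hab
    rcases a with ⟨r, s⟩ | v <;> rcases b with ⟨r', s'⟩ | v' <;> simp_all
  exact hf.countable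

private theorem meas_norm (i : Fin n) (r : ℕ) (s : (P.R r).S) (y : CSt P) :
    MeasurableSet {c : ℕ → Bool | P.norm i c r s = y} := by
  unfold norm
  rcases hn : (P.R r).next i s with ⟨w, k⟩ | ⟨r', k, v⟩ | ⟨v, d⟩
  · exact MeasurableSet.const (CSt.act r s = y)
  · exact MeasurableSet.const (CSt.act r s = y)
  · rcases d with _ | _
    · simp only
      rcases y with ⟨r', s'⟩ | v'
      · by_cases hr : r + 1 = r'
        · subst hr
          have h : {c : ℕ → Bool | CSt.act (P := P) (r + 1)
              ((P.R (r + 1)).init i v (RP.blk c (r + 1))) = CSt.act (r + 1) s'} =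
                {c : ℕ → Bool | (P.R (r + 1)).init i v (RP.blk c (r + 1)) = s'} := by
            ext c
            simp
          rw [h]
          exact pre_blk (r + 1) (fun c => (P.R (r + 1)).init i v c = s')
            ((P.R (r + 1)).init_meas i v s')
        · have h : {c : ℕ → Bool | CSt.act (P := P) (r + 1)
              ((P.R (r + 1)).init i v (RP.blk c (r + 1))) = CSt.act r' s'} = ∅ := by
            ext c
            simp only [Set.mem_ofPred_eq, Set.mem_empty_iff_false, iff_false]
            intro h
            injection h with h1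
            exact hr h1
          rw [h]
          exact MeasurableSet.empty
      · have h : {c : ℕ → Bool | CSt.act (P := P) (r + 1)
            ((P.R (r + 1)).init i v (RP.blk c (r + 1))) = CSt.out v'} = ∅ := by
          ext c
          simp
        rw [h]
        exact MeasurableSet.empty
    · exact MeasurableSet.const (CSt.out v = y)

private theorem meas_cs (i : Fin n) (b : Bool) (h : List (Option ℕ)) (y : CSt P) :
    MeasurableSet {c : ℕ → Bool | P.cs i b c h = y} := by
  have : ∀ r, Countable (P.R r).S := fun r => (P.R r).cnt
  have := P.cnt_CSt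
  induction h generalizing y with
  | nil =>
    rcases y with ⟨r', s'⟩ | v'
    · by_cases hr : 0 = r'
      · subst hr
        have h : {c : ℕ → Bool | P.cs i b c [] = CSt.act 0 s'} =
              {c : ℕ → Bool | (P.R 0).init i b (RP.blk c 0) = s'} := by
          ext c
          simp [cs]
        rw [h]
        exact pre_blk 0 (fun c => (P.R 0).init i b c = s') ((P.R 0).init_meas i b s')
      · have h : {c : ℕ → Bool | P.cs i b c [] = CSt.act r' s'} = ∅ := by
          ext c
          simp only [cs, Set.mem_ofPred_eq, Set.mem_empty_iff_false, iff_false]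
          intro h
          injection h with h1
          exact hr h1
        rw [h]
        exact MeasurableSet.empty
    · have h : {c : ℕ → Bool | P.cs i b c [] = CSt.out v'} = ∅ := by
        ext c
        simp [cs]
      rw [h]
      exact MeasurableSet.empty
  | cons a h ih =>
    let nx : (ℕ → Bool) → CSt P → CSt P := fun c z => match z with
      | .act r s => P.norm i c r ((P.R r).upd i (RP.blk c r) s a)
      | .out v => .out v
    have hcs : {c : ℕ → Bool | P.cs i b c (a :: h) = y} =
        {c | c ∈ (fun z : CSt P => {c : ℕ → Bool | nx c z = y}) (P.cs i b c h)} := rfl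
    rw [hcs]
    refine meas_split (fun c => P.cs i b c h) ih
      (fun z : CSt P => {c : ℕ → Bool | nx c z = y}) fun z => ?_
    rcases z with ⟨r, s⟩ | v
    · refine meas_split (fun c : ℕ → Bool => (P.R r).upd i (RP.blk c r) s a) (fun s' => ?_)
        (fun s' => {c : ℕ → Bool | P.norm i c r s' = y}) fun s' => P.meas_norm i r s' y
      exact pre_blk r (fun c => (P.R r).upd i c s a = s') ((P.R r).upd_meas i s a s')
    · exact MeasurableSet.const (CSt.out v = y)

theorem nxt_meas (i : Fin n) (b : Bool) (h : List (Option ℕ)) (a : Act n) :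
    MeasurableSet {c : ℕ → Bool | P.nxt i (P.cs i b c h) = a} := by
  have := P.cnt_CSt
  exact meas_pred (fun c => P.cs i b c h) (P.meas_cs i b h) (fun y => P.nxt i y = a)

/-- The composed algorithm. -/
def alg : Alg n where
  next i b c h := P.nxt i (P.cs i b c h)
  measurable_next := P.nxt_meas

end Hp

end Pool.Agent.E217
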