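import Pool.Agent.MP217Exact.HPlev

set_option autoImplicit false

/-!
# The composed algorithm runs the round protocol in every round
-/

namespace Pool.Agent.E217

open MeasureTheory
open scoped ENNReal
open Pool.Agent.MP217Upper.Model (Act Alg coins)
open Pool.Agent.A217 (RP RAct RCfg)

section

variable {n : ℕ} (P : RP n) (c : Fin n → ℕ → Bool)

/-! ### Runs of a round protocol -/

private theorem step_st_ne {p q : Fin n} (h : q ≠ p) (C : RCfg P) :
    (P.step c p C).st q = C.st q := by
  unfold RP.step
  split <;> simp [Function.update_of_ne h]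

private theorem step_fin {p : Fin n} {C : RCfg P} {v d : Bool}
    (h : P.next p (C.st p) = .fin v d) : P.step c p C = C := by
  unfold RP.step
  rw [h]

private theorem run_succ_none {x : Fin n → Bool} {s : ℕ → Option (Fin n)} {t : ℕ}
    (h : s t = none) : P.run x c s (t + 1) = P.run x c s t := by
  rw [RP.run, h]

private theorem run_succ_some {x : Fin n → Bool} {s : ℕ → Option (Fin n)} {t : ℕ} {p : Fin n}
    (h : s t = some p) : P.run x c s (t + 1) = P.step c p (P.run x c s t) := by
  rw [RP.run, h]

private theorem run_succ_ne {x : Fin n → Bool} {s : ℕ → Option (Fin n)} {t : ℕ} {q : Fin n}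
    (h : s t ≠ some q) : (P.run x c s (t + 1)).st q = (P.run x c s t).st q := by
  rcases hs : s t with _ | p
  · rw [run_succ_none P c hs]
  · rw [run_succ_some P c hs]
    exact step_st_ne P c (by rintro rfl; exact h hs) _

private theorem run_abs1 {x : Fin n → Bool} {s : ℕ → Option (Fin n)} {t : ℕ} {p : Fin n}
    {v d : Bool} (h : P.next p ((P.run x c s t).st p) = .fin v d) :
    (P.run x c s (t + 1)).st p = (P.run x c s t).st p := by
  by_cases hs : s t = some p
  · rw [run_succ_some P c hs, step_fin P c h]
  · exact run_succ_ne P c hs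

private theorem run_abs {x : Fin n → Bool} {s : ℕ → Option (Fin n)} {t : ℕ} {p : Fin n}
    {v d : Bool} (h : P.next p ((P.run x c s t).st p) = .fin v d) {t' : ℕ} (ht : t ≤ t') :
    (P.run x c s t').st p = (P.run x c s t).st p := by
  induction t', ht using Nat.le_induction with
  | base => rfl
  | succ m hm ih => rw [run_abs1 P c (v := v) (d := d) (by rw [ih]; exact h), ih]

/-- Two finished states of the same processor are equal. -/
private theorem fin_unique {x : Fin n → Bool} {s : ℕ → Option (Fin n)} {t t' : ℕ} {p : Fin n}
    {v d v' d' : Bool} (h : P.next p ((P.run x c s t).st p) = .fin v d)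
    (h' : P.next p ((P.run x c s t').st p) = .fin v' d') : v = v' ∧ d = d' := by
  have e1 := run_abs P c h (le_max_left t t')
  have e2 := run_abs P c h' (le_max_right t t')
  rw [← e1, e2, h'] at h
  injection h with h1 h2
  exact ⟨h1.symm, h2.symm⟩

private theorem run_init {x : Fin n → Bool} {s : ℕ → Option (Fin n)} {t : ℕ} {p : Fin n}
    (h : ∀ t' < t, s t' ≠ some p) : (P.run x c s t).st p = P.init p (x p) (c p) := by
  induction t with
  | zero => rfl
  | succ t ih =>
    rw [run_succ_ne P c (h t (Nat.lt_succ_self t))]
    exact ih fun t' ht' => h t' (Nat.lt_succ_of_lt ht')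

end

namespace Hp

variable {n : ℕ} (P : Hp n) (b : Fin n → Bool) (c : Fin n → ℕ → Bool) (σ : ℕ → Fin n)

/-! ### Entering -/

/-- Processor `p` has entered round `r` by time `t`. -/
private def Ent (r t : ℕ) (p : Fin n) : Prop := ∃ e ≤ t, (P.lev b c σ r).2 p = some e

private theorem sched_some {τ : Fin n → Option ℕ} {t : ℕ} {p : Fin n} :
    RP.sched σ τ t = some p ↔ σ t = p ∧ ∃ e ≤ t, τ p = some e := by
  unfold RP.sched
  constructor
  · intro h
    rcases hτ : τ (σ t) with _ | e
    · rw [hτ] at h
      exact absurd h (by simp)
    · rw [hτ] at h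
      simp only at h
      split_ifs at h with he
      injection h with h
      subst h
      exact ⟨rfl, e, he, hτ⟩
  · rintro ⟨rfl, e, he, hτ⟩
    rw [hτ]
    simp [he]

private theorem sched_ent {r t : ℕ} {p : Fin n} :
    RP.sched σ (P.lev b c σ r).2 t = some p ↔ σ t = p ∧ P.Ent b c σ r t p :=
  sched_some σ

variable {b c σ}

private theorem Ent.mono {r t t' : ℕ} {p : Fin n} (h : P.Ent b c σ r t p) (ht : t ≤ t') :
    P.Ent b c σ r t' p := by
  obtain ⟨e, he, h⟩ := h
  exact ⟨e, he.trans ht, h⟩

private theorem ent_zero (t : ℕ) (p : Fin n) : P.Ent b c σ 0 t p :=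
  ⟨0, Nat.zero_le t, rfl⟩

private theorem ent_succ {r t : ℕ} {p : Fin n} :
    P.Ent b c σ (r + 1) t p ↔ ∃ v, (P.R r).next p ((P.rrun b c σ r t).st p) = .fin v false := by
  classical
  have key : (P.lev b c σ (r + 1)).2 p =
      if h : ∃ t, ∃ v, (P.R r).next p ((P.rrun b c σ r t).st p) = .fin v false then
        some (Nat.find h) else none := rfl
  unfold Ent
  rw [key]
  constructor
  · rintro ⟨e, he, h⟩
    split_ifs at h with h1
    injection h with h
    obtain ⟨v, hv⟩ := Nat.find_spec h1
    refine ⟨v, ?_⟩
    have := run_abs (P.R r) (RP.blks c r) hv (h.le.trans he)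
    unfold rrun
    rw [this]
    exact hv
  · intro h
    have h1 : ∃ t, ∃ v, (P.R r).next p ((P.rrun b c σ r t).st p) = .fin v false := ⟨t, h⟩
    rw [dif_pos h1]
    exact ⟨_, Nat.find_min' h1 h, rfl⟩

private theorem not_ent_init {r t : ℕ} {p : Fin n} (h : ∀ t' < t, ¬ P.Ent b c σ r t' p) :
    (P.rrun b c σ r t).st p = (P.R r).init p ((P.lev b c σ r).1 p) (RP.blk (c p) r) := by
  have := run_init (P.R r) (RP.blks c r) (x := (P.lev b c σ r).1) (s := RP.sched σ (P.lev b c σ r).2)
    (t := t) (p := p) (fun t' ht' hs => h t' ht' ((P.sched_ent b c σ).1 hs).2)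
  exact this

private theorem ent_pred {r t : ℕ} {p : Fin n} (h : P.Ent b c σ (r + 1) t p) :
    P.Ent b c σ r t p := by
  by_contra hn
  have h1 := P.not_ent_init (b := b) (c := c) (σ := σ) (r := r) (t := t) (p := p)
    (fun t' ht' he => hn (Ent.mono P he ht'.le))
  obtain ⟨v, hv⟩ := (P.ent_succ).1 h
  rw [h1] at hv
  exact (P.R r).init_fin _ _ _ _ _ hv

private theorem ent_anti {r r' t : ℕ} {p : Fin n} (h : P.Ent b c σ r t p) (hr : r' ≤ r) :
    P.Ent b c σ r' t p := by
  induction r, hr using Nat.le_induction with
  | base => exact h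
  | succ m hm ih => exact ih (P.ent_pred h)

private theorem ent_lt {r r' t : ℕ} {p : Fin n} (h : P.Ent b c σ r t p) (hr : r' < r) :
    ∃ v, (P.R r').next p ((P.rrun b c σ r' t).st p) = .fin v false :=
  (P.ent_succ).1 (P.ent_anti h hr)

/-- In the rounds other than the current one nothing happens. -/
private theorem rrun_other {r r' t : ℕ} (h : P.Ent b c σ r t (σ t))
    (hf : ¬ P.Ent b c σ (r + 1) t (σ t)) (hr : r' ≠ r) :
    P.rrun b c σ r' (t + 1) = P.rrun b c σ r' t := by
  unfold rrun
  rcases lt_or_gt_of_ne hr with hlt | hgt
  · obtain ⟨v, hv⟩ := P.ent_lt h hlt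
    have hs : RP.sched σ (P.lev b c σ r').2 t = some (σ t) :=
      (P.sched_ent b c σ).2 ⟨rfl, P.ent_anti h hlt.le⟩
    rw [run_succ_some (P.R r') (RP.blks c r') hs]
    exact step_fin (P.R r') (RP.blks c r') hv
  · have hs : RP.sched σ (P.lev b c σ r').2 t = none := by
      rcases hx : RP.sched σ (P.lev b c σ r').2 t with _ | q
      · rfl
      · obtain ⟨h1, h2⟩ := (P.sched_ent b c σ).1 hx
        rw [← h1] at h2
        exact absurd (P.ent_anti h2 hgt) hf
    rw [run_succ_none (P.R r') (RP.blks c r') hs]

private theorem rrun_st_ne {r t : ℕ} {q : Fin n} (h : q ≠ σ t) :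
    (P.rrun b c σ r (t + 1)).st q = (P.rrun b c σ r t).st q :=
  run_succ_ne (P.R r) (RP.blks c r) fun hs => h ((P.sched_ent b c σ).1 hs).1.symm

/-! ### The simulation -/

/-- The state of `p` in the composed algorithm is described by the rounds. -/
private def Sim (t : ℕ) (p : Fin n) : CSt P → Prop
  | .act r s => P.Ent b c σ r t p ∧ (P.rrun b c σ r t).st p = s ∧
      ∀ v d, (P.R r).next p s ≠ .fin v d
  | .out v => ∃ r, P.Ent b c σ r t p ∧ (P.R r).next p ((P.rrun b c σ r t).st p) = .fin v true

private theorem sim_other {t : ℕ} {q : Fin n} (hq : q ≠ σ t) {S : CSt P}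
    (h : P.Sim (b := b) (c := c) (σ := σ) t q S) :
    P.Sim (b := b) (c := c) (σ := σ) (t + 1) q S := by
  cases S with
  | act r s =>
    obtain ⟨h1, h2, h3⟩ := h
    exact ⟨Ent.mono P h1 (Nat.le_succ t), by rw [P.rrun_st_ne hq, h2], h3⟩
  | out v =>
    obtain ⟨r, h1, h2⟩ := h
    exact ⟨r, Ent.mono P h1 (Nat.le_succ t), by rw [P.rrun_st_ne hq, h2]⟩

/-- After a step of round `r`. -/
private theorem sim_norm {r t : ℕ} {s : (P.R r).S} (h1 : P.Ent b c σ r t (σ t))
    (h2 : ¬ P.Ent b c σ (r + 1) t (σ t)) (h3 : (P.rrun b c σ r (t + 1)).st (σ t) = s) :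
    P.Sim (b := b) (c := c) (σ := σ) (t + 1) (σ t) (P.norm (σ t) (c (σ t)) r s) := by
  have hE : P.Ent b c σ r (t + 1) (σ t) := Ent.mono P h1 (Nat.le_succ t)
  unfold norm
  rcases hs : (P.R r).next (σ t) s with ⟨w, k⟩ | ⟨y, k, v⟩ | ⟨v, d⟩
  · refine ⟨hE, h3, ?_⟩
    intro v d
    rw [hs]
    simp
  · refine ⟨hE, h3, ?_⟩
    intro v' d
    rw [hs]
    simp
  · cases d with
    | true =>
      refine ⟨r, hE, ?_⟩
      rw [h3, hs]
    | false =>
      have hE' : P.Ent b c σ (r + 1) (t + 1) (σ t) := (P.ent_succ).2 ⟨v, by rw [h3, hs]⟩
      have hi := P.not_ent_init (b := b) (c := c) (σ := σ) (r := r + 1) (t := t + 1) (p := σ t)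
        (fun t' ht' he => h2 (Ent.mono P he (Nat.lt_succ_iff.1 ht')))
      have hx : (P.lev b c σ (r + 1)).1 (σ t) = v := by
        classical
        have key : (P.lev b c σ (r + 1)).1 (σ t) =
            decide (∃ t', (P.R r).next (σ t) ((P.rrun b c σ r t').st (σ t)) = .fin true false) := by
          rfl
        rw [key]
        have hv : (P.R r).next (σ t) ((P.rrun b c σ r (t + 1)).st (σ t)) = .fin v false := by
          rw [h3, hs]
        cases v with
        | true => exact decide_eq_true ⟨t + 1, hv⟩
        | false =>
          refine decide_eq_false ?_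
          rintro ⟨t', ht'⟩
          have := (fin_unique (P.R r) (RP.blks c r) hv ht').1
          exact absurd this (by simp)
      rw [hx] at hi
      refine ⟨hE', hi, ?_⟩
      intro v' d
      exact (P.R (r + 1)).init_fin _ _ _ _ _

variable (b c σ)

/-- The whole invariant. -/
private theorem sim_all (t : ℕ) :
    (∀ p, P.Sim (b := b) (c := c) (σ := σ) t p
      (P.cs p (b p) (c p) ((MP217Upper.Model.run P.alg b c σ t).hist p))) ∧
    (∀ w y r k, (MP217Upper.Model.run P.alg b c σ t).mem w y (Nat.pair r k) =
      (P.rrun b c σ r t).mem w y k) := by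
  induction t with
  | zero =>
    refine ⟨fun p => ⟨P.ent_zero 0 p, rfl, fun v d => (P.R 0).init_fin _ _ _ _ _⟩, ?_⟩
    intro w y r k
    rfl
  | succ t ih =>
    obtain ⟨ih1, ih2⟩ := ih
    set C := MP217Upper.Model.run P.alg b c σ t with hC
    have hrun : MP217Upper.Model.run P.alg b c σ (t + 1) =
        MP217Upper.Model.step P.alg b c (σ t) C := rfl
    have hp := ih1 (σ t)
    have hnext : P.alg.next (σ t) (b (σ t)) (c (σ t)) (C.hist (σ t)) =
        P.nxt (σ t) (P.cs (σ t) (b (σ t)) (c (σ t)) (C.hist (σ t))) := rfl
    rw [hrun]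
    rcases hS : P.cs (σ t) (b (σ t)) (c (σ t)) (C.hist (σ t)) with ⟨r, s⟩ | v
    · rw [hS] at hp hnext
      obtain ⟨h1, h2, h3⟩ := hp
      have h4 : ¬ P.Ent b c σ (r + 1) t (σ t) := by
        intro h
        obtain ⟨v, hv⟩ := (P.ent_succ).1 h
        rw [h2] at hv
        exact h3 _ _ hv
      have hs : RP.sched σ (P.lev b c σ r).2 t = some (σ t) := (P.sched_ent b c σ).2 ⟨rfl, h1⟩
      have hrr : P.rrun b c σ r (t + 1) = (P.R r).step (RP.blks c r) (σ t) (P.rrun b c σ r t) :=
        run_succ_some (P.R r) (RP.blks c r) hs
      rcases hn : (P.R r).next (σ t) s with ⟨w, k⟩ | ⟨y, k, v⟩ | ⟨v, d⟩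
      · have hnx : P.alg.next (σ t) (b (σ t)) (c (σ t)) (C.hist (σ t)) =
            .read w (Nat.pair r k) := by
          rw [hnext]
          simp only [nxt, hn]
        have hst : MP217Upper.Model.step P.alg b c (σ t) C =
            ⟨C.mem, Function.update C.hist (σ t)
              (some (C.mem w (σ t) (Nat.pair r k)) :: C.hist (σ t))⟩ := by
          unfold MP217Upper.Model.step
          rw [hnx]
        have hst' : (P.R r).step (RP.blks c r) (σ t) (P.rrun b c σ r t) =
            ⟨Function.update (P.rrun b c σ r t).st (σ t) ((P.R r).upd (σ t) (RP.blks c r (σ t))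
              ((P.rrun b c σ r t).st (σ t)) (some ((P.rrun b c σ r t).mem w (σ t) k))),
              (P.rrun b c σ r t).mem⟩ := by
          unfold RP.step
          rw [h2, hn]
        rw [hst]
        constructor
        · intro p
          by_cases hpq : p = σ t
          · subst hpq
            simp only [Function.update_self]
            have : P.cs (σ t) (b (σ t)) (c (σ t))
                (some (C.mem w (σ t) (Nat.pair r k)) :: C.hist (σ t)) =
                P.norm (σ t) (c (σ t)) r ((P.R r).upd (σ t) (RP.blk (c (σ t)) r) s
                  (some (C.mem w (σ t) (Nat.pair r k)))) := by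
              simp only [cs, hS]
            rw [this]
            apply P.sim_norm h1 h4
            rw [hrr, hst', ih2, h2]
            simp only [Function.update_self]
            rfl
          · simp only [Function.update_of_ne hpq]
            exact P.sim_other hpq (ih1 p)
        · intro w' y' r' k'
          simp only
          rw [ih2]
          by_cases hr : r' = r
          · subst hr
            rw [hrr, hst']
          · rw [P.rrun_other h1 h4 hr]
      · have hnx : P.alg.next (σ t) (b (σ t)) (c (σ t)) (C.hist (σ t)) =
            .write y (Nat.pair r k) v := by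
          rw [hnext]
          simp only [nxt, hn]
        have hst : MP217Upper.Model.step P.alg b c (σ t) C =
            ⟨Function.update C.mem (σ t) (Function.update (C.mem (σ t)) y
              (Function.update (C.mem (σ t) y) (Nat.pair r k) v)),
              Function.update C.hist (σ t) (none :: C.hist (σ t))⟩ := by
          unfold MP217Upper.Model.step
          rw [hnx]
        have hst' : (P.R r).step (RP.blks c r) (σ t) (P.rrun b c σ r t) =
            ⟨Function.update (P.rrun b c σ r t).st (σ t) ((P.R r).upd (σ t) (RP.blks c r (σ t))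
              ((P.rrun b c σ r t).st (σ t)) none),
              Function.update (P.rrun b c σ r t).mem (σ t) (Function.update
                ((P.rrun b c σ r t).mem (σ t)) y
                (Function.update ((P.rrun b c σ r t).mem (σ t) y) k v))⟩ := by
          unfold RP.step
          rw [h2, hn]
        rw [hst]
        constructor
        · intro p
          by_cases hpq : p = σ t
          · subst hpq
            simp only [Function.update_self]
            have : P.cs (σ t) (b (σ t)) (c (σ t)) (none :: C.hist (σ t)) =
                P.norm (σ t) (c (σ t)) r ((P.R r).upd (σ t) (RP.blk (c (σ t)) r) s none) := by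
              simp only [cs, hS]
            rw [this]
            apply P.sim_norm h1 h4
            rw [hrr, hst', h2]
            simp only [Function.update_self]
            rfl
          · simp only [Function.update_of_ne hpq]
            exact P.sim_other hpq (ih1 p)
        · intro w' y' r' k'
          simp only
          by_cases hr : r' = r
          · subst hr
            rw [hrr, hst']
            simp only
            by_cases hw : w' = σ t
            · subst hw
              simp only [Function.update_self]
              by_cases hy : y' = y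
              · subst hy
                simp only [Function.update_self]
                by_cases hk : k' = k
                · subst hk
                  simp only [Function.update_self]
                · have hk' : Nat.pair r' k' ≠ Nat.pair r' k := by
                    intro h
                    exact hk (Nat.pair_eq_pair.1 h).2
                  rw [Function.update_of_ne hk', Function.update_of_ne hk, ih2]
              · rw [Function.update_of_ne hy, Function.update_of_ne hy, ih2]
            · rw [Function.update_of_ne hw, Function.update_of_ne hw, ih2]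
          · rw [P.rrun_other h1 h4 hr]
            by_cases hw : w' = σ t
            · subst hw
              simp only [Function.update_self]
              by_cases hy : y' = y
              · subst hy
                simp only [Function.update_self]
                have hk' : Nat.pair r' k' ≠ Nat.pair r k := by
                  intro h
                  exact hr (Nat.pair_eq_pair.1 h).1
                rw [Function.update_of_ne hk', ih2]
              · rw [Function.update_of_ne hy, ih2]
            · rw [Function.update_of_ne hw, ih2]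
      · exact absurd hn (h3 v d)
    · rw [hS] at hp hnext
      obtain ⟨r, h1, h2⟩ := hp
      have h4 : ¬ P.Ent b c σ (r + 1) t (σ t) := by
        intro h
        obtain ⟨v', hv'⟩ := (P.ent_succ).1 h
        rw [h2] at hv'
        exact absurd hv' (by simp)
      have hnx : P.alg.next (σ t) (b (σ t)) (c (σ t)) (C.hist (σ t)) = .output v := hnext
      have hst : MP217Upper.Model.step P.alg b c (σ t) C = C := by
        unfold MP217Upper.Model.step
        rw [hnx]
      have hrr : ∀ r', P.rrun b c σ r' (t + 1) = P.rrun b c σ r' t := by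
        intro r'
        by_cases hr : r' = r
        · subst hr
          have hs : RP.sched σ (P.lev b c σ r').2 t = some (σ t) :=
            (P.sched_ent b c σ).2 ⟨rfl, h1⟩
          have := run_succ_some (P.R r') (RP.blks c r') (x := (P.lev b c σ r').1) hs
          unfold rrun
          rw [this]
          exact step_fin (P.R r') (RP.blks c r') h2
        · exact P.rrun_other h1 h4 hr
      rw [hst]
      constructor
      · intro p
        by_cases hpq : p = σ t
        · subst hpq
          rw [hS]
          exact ⟨r, Ent.mono P h1 (Nat.le_succ t), by rw [hrr]; exact h2⟩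
        · exact P.sim_other hpq (ih1 p)
      · intro w' y' r' k'
        rw [ih2, hrr]

theorem sim_act {t : ℕ} {p : Fin n} {r : ℕ} {s : (P.R r).S}
    (h : P.cs p (b p) (c p) ((MP217Upper.Model.run P.alg b c σ t).hist p) = .act r s) :
    (P.rrun b c σ r t).st p = s ∧ (∀ v d, (P.R r).next p s ≠ .fin v d) ∧
      ∃ e ≤ t, (P.lev b c σ r).2 p = some e := by
  have h1 := (P.sim_all b c σ t).1 p
  rw [h] at h1
  obtain ⟨h2, h3, h4⟩ := h1
  exact ⟨h3, h4, h2⟩

theorem sim_out {t : ℕ} {p : Fin n} {v : Bool}
    (h : P.cs p (b p) (c p) ((MP217Upper.Model.run P.alg b c σ t).hist p) = .out v) :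
    ∃ r, (∃ e ≤ t, (P.lev b c σ r).2 p = some e) ∧
      (P.R r).next p ((P.rrun b c σ r t).st p) = .fin v true := by
  have h1 := (P.sim_all b c σ t).1 p
  rw [h] at h1
  exact h1

theorem sim_len (t : ℕ) (p : Fin n) :
    (((MP217Upper.Model.run P.alg b c σ t).hist p).length : ℝ≥0∞) ≤
      ∑' r, ((P.R r).steps (P.lev b c σ r).1 (RP.blks c r) (RP.sched σ (P.lev b c σ r).2) t p : ℝ≥0∞) := by
  classical
  induction t with
  | zero =>
    have : ((MP217Upper.Model.run P.alg b c σ 0).hist p).length = 0 := rfl
    rw [this]
    simp
  | succ t ih =>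
    set C := MP217Upper.Model.run P.alg b c σ t with hC
    have hrun : MP217Upper.Model.run P.alg b c σ (t + 1) =
        MP217Upper.Model.step P.alg b c (σ t) C := rfl
    have hmono : ∀ r, (P.R r).steps (P.lev b c σ r).1 (RP.blks c r) (RP.sched σ (P.lev b c σ r).2) t p ≤
        (P.R r).steps (P.lev b c σ r).1 (RP.blks c r) (RP.sched σ (P.lev b c σ r).2) (t + 1) p := by
      intro r
      unfold RP.steps
      apply Finset.card_le_card
      apply Finset.filter_subset_filter
      exact Finset.range_mono (Nat.le_succ t)
    have hle : (∑' r, ((P.R r).steps (P.lev b c σ r).1 (RP.blks c r)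
          (RP.sched σ (P.lev b c σ r).2) t p : ℝ≥0∞)) ≤
        ∑' r, ((P.R r).steps (P.lev b c σ r).1 (RP.blks c r)
          (RP.sched σ (P.lev b c σ r).2) (t + 1) p : ℝ≥0∞) :=
      ENNReal.tsum_le_tsum fun r => by exact_mod_cast hmono r
    -- the length is unchanged or grows by one
    have hlen : ((MP217Upper.Model.run P.alg b c σ (t + 1)).hist p).length ≤
        (C.hist p).length ∨ (p = σ t ∧ ∃ r s, P.cs p (b p) (c p) (C.hist p) = .act r s ∧
          ((MP217Upper.Model.run P.alg b c σ (t + 1)).hist p).length =
            (C.hist p).length + 1) := by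
      by_cases hpq : p = σ t
      · subst hpq
        rw [hrun]
        have hnext : P.alg.next (σ t) (b (σ t)) (c (σ t)) (C.hist (σ t)) =
            P.nxt (σ t) (P.cs (σ t) (b (σ t)) (c (σ t)) (C.hist (σ t))) := rfl
        rcases hS : P.cs (σ t) (b (σ t)) (c (σ t)) (C.hist (σ t)) with ⟨r, s⟩ | v
        · rw [hS] at hnext
          unfold MP217Upper.Model.step
          rw [hnext]
          rcases hn : (P.R r).next (σ t) s with ⟨w, k⟩ | ⟨y, k, v⟩ | ⟨v, d⟩
          · right
            refine ⟨rfl, r, s, rfl, ?_⟩
            simp [nxt, hn]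
          · right
            refine ⟨rfl, r, s, rfl, ?_⟩
            simp [nxt, hn]
          · left
            simp [nxt, hn]
        · left
          rw [hS] at hnext
          unfold MP217Upper.Model.step
          rw [hnext]
          simp [nxt]
      · left
        rw [hrun]
        unfold MP217Upper.Model.step
        split <;> simp [Function.update_of_ne hpq]
    rcases hlen with hlen | ⟨hpq, r, s, hS, hlen⟩
    · refine le_trans ?_ (ih.trans hle)
      exact_mod_cast hlen
    · subst hpq
      obtain ⟨h2, h3, h1⟩ := P.sim_act b c σ hS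
      have hs : RP.sched σ (P.lev b c σ r).2 t = some (σ t) := (P.sched_ent b c σ).2 ⟨rfl, h1⟩
      have hgrow : (P.R r).steps (P.lev b c σ r).1 (RP.blks c r)
          (RP.sched σ (P.lev b c σ r).2) t (σ t) + 1 ≤
          (P.R r).steps (P.lev b c σ r).1 (RP.blks c r)
          (RP.sched σ (P.lev b c σ r).2) (t + 1) (σ t) := by
        unfold RP.steps
        rw [Finset.range_add_one, Finset.filter_insert, if_pos, Finset.card_insert_of_notMem]
        · simp
        · refine ⟨hs, ?_⟩
          intro v d hv
          have h2' : ((P.R r).run (P.lev b c σ r).1 (RP.blks c r)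
              (RP.sched σ (P.lev b c σ r).2) t).st (σ t) = s := h2
          rw [h2'] at hv
          exact h3 v d hv
      have hsum : (∑' r', ((P.R r').steps (P.lev b c σ r').1 (RP.blks c r')
          (RP.sched σ (P.lev b c σ r').2) t (σ t) : ℝ≥0∞)) + 1 ≤
          ∑' r', ((P.R r').steps (P.lev b c σ r').1 (RP.blks c r')
          (RP.sched σ (P.lev b c σ r').2) (t + 1) (σ t) : ℝ≥0∞) := by
        have h1' : (1 : ℝ≥0∞) = ∑' r', (if r' = r then (1 : ℝ≥0∞) else 0) := by
          rw [tsum_ite_eq]
        rw [h1', ← ENNReal.tsum_add]
        apply ENNReal.tsum_le_tsum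
        intro r'
        by_cases hr : r' = r
        · subst hr
          rw [if_pos rfl]
          exact_mod_cast hgrow
        · rw [if_neg hr, add_zero]
          exact_mod_cast hmono r'
      rw [hlen]
      push_cast
      exact le_trans (by gcongr) hsum

end Hp

end Pool.Agent.E217
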