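import Pool.Agent.MP217Exact.HPsim
import Pool.Agent.MP217Exact.HPind

set_option autoImplicit false

/-!
# The composed algorithm solves consensus
-/

namespace Pool.Agent.E217

open MeasureTheory
open scoped ENNReal
open Pool.Agent.MP217Upper.Model (Act Alg coins Solves)
open Pool.Agent.A217 (RP RAct RCfg)

namespace Hp

variable {n : ℕ} {P : Hp n} {s W1 : ℝ≥0∞}

private theorem coins_univ (n : ℕ) : coins n Set.univ ≤ 1 := by
  have h1 : ∀ _ : Fin n, IsProbabilityMeasure
      (Measure.infinitePi fun _ : ℕ => (PMF.uniformOfFintype Bool).toMeasure) :=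
    fun _ => inferInstance
  have h2 : IsProbabilityMeasure (coins n) := by
    unfold coins
    infer_instance
  exact prob_le_one

/-- Outputs come from the state `out`. -/
private theorem out_of_outputs {b : Fin n → Bool} {c : Fin n → ℕ → Bool} {σ : ℕ → Fin n} {t : ℕ}
    {p : Fin n} {v : Bool} (h : MP217Upper.Model.Outputs P.alg b c σ t p v) :
    P.cs p (b p) (c p) ((MP217Upper.Model.run P.alg b c σ t).hist p) = .out v := by
  unfold MP217Upper.Model.Outputs at h
  change P.nxt p (P.cs p (b p) (c p) ((MP217Upper.Model.run P.alg b c σ t).hist p)) = _ at h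
  cases hs : P.cs p (b p) (c p) ((MP217Upper.Model.run P.alg b c σ t).hist p) with
  | act r s =>
    rw [hs] at h
    have h1 := (P.sim_act b c σ hs).2.1
    unfold nxt at h
    cases hn : (P.R r).next p s with
    | read w k => simp [hn] at h
    | write y k w => simp [hn] at h
    | fin w d => exact absurd hn (h1 w d)
  | out w =>
    rw [hs] at h
    unfold nxt at h
    simp only [Act.output.injEq] at h
    rw [h]

theorem lev_none_le {b : Fin n → Bool} {c : Fin n → ℕ → Bool} {σ : ℕ → Fin n} {r r' : ℕ}
    (h : ∀ p, (P.lev b c σ r).2 p = none) (hr : r ≤ r') (p : Fin n) :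
    (P.lev b c σ r').2 p = none := by
  induction r', hr using Nat.le_induction generalizing p with
  | base => exact h p
  | succ r' _ ih => exact lev_none_succ ih p

/-- If everybody leaves round `r` with the value `v`, then also every later round. -/
private theorem all_v (hP : P.Good s W1) {b : Fin n → Bool} {c : Fin n → ℕ → Bool}
    {σ : ℕ → Fin n} {r r' : ℕ} {v : Bool} (hr : r ≤ r')
    (h : ∀ t p v' d', (P.R r).next p ((P.rrun b c σ r t).st p) = .fin v' d' → v' = v) :
    ∀ t p v' d', (P.R r').next p ((P.rrun b c σ r' t).st p) = .fin v' d' → v' = v := by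
  induction r', hr using Nat.le_induction with
  | base => exact h
  | succ r' _ ih =>
    intro t p v' d' h1
    exact hP.unan (r' + 1) _ _ _ v (fun t' q' hq' => next_pref ih hq') t p v' d' h1

private theorem agree_lt (hP : P.Good s W1) {b : Fin n → Bool} {c : Fin n → ℕ → Bool}
    {σ : ℕ → Fin n} {r r' t t' : ℕ} {p p' : Fin n} {v v' : Bool} (hr : r ≤ r')
    (h : (P.R r).next p ((P.rrun b c σ r t).st p) = .fin v true)
    (h' : (P.R r').next p' ((P.rrun b c σ r' t').st p') = .fin v' true) : v' = v :=
  all_v hP hr (fun _ _ _ _ h1 => hP.agree r _ _ _ _ _ _ _ _ _ _ h h1) _ _ _ _ h'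

/-- With bounded rounds the histories are bounded if some round is not entered. -/
private theorem len_bdd {b : Fin n → Bool} {c : Fin n → ℕ → Bool} {σ : ℕ → Fin n} {r Bd : ℕ}
    (hB : ∀ r x c σ t p, (P.R r).steps x c σ t p ≤ Bd) (h : ∀ p, (P.lev b c σ r).2 p = none)
    (t : ℕ) (p : Fin n) :
    ((MP217Upper.Model.run P.alg b c σ t).hist p).length ≤ r * Bd := by
  classical
  have h1 := P.sim_len b c σ t p
  have h2 : ∑' r', ((P.R r').steps (P.lev b c σ r').1 (RP.blks c r')
      (RP.sched σ (P.lev b c σ r').2) t p : ℝ≥0∞) ≤ ((r * Bd : ℕ) : ℝ≥0∞) := by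
    rw [tsum_eq_sum (s := Finset.range r)]
    · calc ∑ r' ∈ Finset.range r, ((P.R r').steps (P.lev b c σ r').1 (RP.blks c r')
            (RP.sched σ (P.lev b c σ r').2) t p : ℝ≥0∞)
          ≤ ∑ r' ∈ Finset.range r, (Bd : ℝ≥0∞) :=
            Finset.sum_le_sum fun r' _ => by exact_mod_cast hB _ _ _ _ _ _
        _ = ((r * Bd : ℕ) : ℝ≥0∞) := by
            rw [Finset.sum_const, Finset.card_range, nsmul_eq_mul]
            push_cast
            rfl
    · intro r' hr'
      have h3 : r ≤ r' := by simpa using hr'
      have h4 := lev_none_le h h3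
      have h5 : (P.R r').steps (P.lev b c σ r').1 (RP.blks c r')
          (RP.sched σ (P.lev b c σ r').2) t p = 0 := by
        unfold RP.steps
        rw [Finset.card_eq_zero, Finset.filter_eq_empty_iff]
        rintro t' _ ⟨h6, _⟩
        have h7 := lev_of_sched h6
        exact h7 (h4 p)
      rw [h5]
      simp
  exact_mod_cast h1.trans h2

theorem ent_pow (hP : P.Good s W1) (b : Fin n → Bool) (σ : ℕ → Fin n) (r : ℕ) :
    coins n {c | ∃ p, (P.lev b c σ (2 * r)).2 p ≠ none} ≤ (1 - s) ^ r := by
  induction r with
  | zero =>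
    rw [pow_zero]
    exact (measure_mono (Set.subset_univ _)).trans (coins_univ n)
  | succ r ih =>
    calc coins n {c | ∃ p, (P.lev b c σ (2 * (r + 1))).2 p ≠ none}
        ≤ (1 - s) * coins n {c | ∃ p, (P.lev b c σ (2 * r)).2 p ≠ none} :=
          ent_two hP b σ (2 * r) (by omega)
      _ ≤ (1 - s) * (1 - s) ^ r := by gcongr
      _ = (1 - s) ^ (r + 1) := by rw [pow_succ, mul_comm]

private theorem exists_none (hs : s ≠ 0) (hP : P.Good s W1) (b : Fin n → Bool) (σ : ℕ → Fin n) :
    ∀ᵐ c ∂coins n, ∃ r, ∀ p, (P.lev b c σ r).2 p = none := by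
  rw [ae_iff]
  have h1 : ∀ r, coins n {c | ¬ ∃ r, ∀ p, (P.lev b c σ r).2 p = none} ≤ (1 - s) ^ r := by
    intro r
    refine (measure_mono ?_).trans (ent_pow hP b σ r)
    intro c hc
    simp only [not_exists, not_forall] at hc
    exact hc (2 * r)
  have h2 : Filter.Tendsto (fun r : ℕ => (1 - s : ℝ≥0∞) ^ r) Filter.atTop (nhds 0) :=
    ENNReal.tendsto_pow_atTop_nhds_zero_of_lt_one
      (ENNReal.sub_lt_self ENNReal.one_ne_top one_ne_zero hs)
  exact le_antisymm (ge_of_tendsto' h2 h1) bot_le

theorem solves (hs : s ≠ 0) (hP : P.Good s W1) : Solves P.alg := by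
  refine ⟨?_, ?_, ?_⟩
  · intro b σ
    refine Filter.Eventually.of_forall ?_
    intro c t t' i j v v' h h'
    obtain ⟨r, _, h1⟩ := P.sim_out b c σ (out_of_outputs h)
    obtain ⟨r', _, h1'⟩ := P.sim_out b c σ (out_of_outputs h')
    rcases le_total r r' with hr | hr
    · exact (agree_lt hP hr h1 h1').symm
    · exact agree_lt hP hr h1' h1
  · intro b σ
    refine Filter.Eventually.of_forall ?_
    intro c t i v h
    by_contra hc
    have hb : ∀ j, b j = !v := by
      intro j
      have : b j ≠ v := fun h => hc ⟨j, h⟩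
      cases hj : b j <;> cases v <;> simp_all
    obtain ⟨r, -, h1⟩ := P.sim_out b c σ (out_of_outputs h)
    have hu : ∀ t' q v' d', (P.R 0).next q ((P.rrun b c σ 0 t').st q) = .fin v' d' →
        v' = (!v) := by
      apply hP.unan
      intro t' q _
      exact hb q
    have := all_v hP (Nat.zero_le r) hu _ _ _ _ h1
    cases v <;> simp at this
  · intro b σ i hi
    obtain ⟨Bd, hBd⟩ := hP.bdd
    filter_upwards [exists_none hs hP b σ] with c hc
    obtain ⟨r, hr⟩ := hc
    by_contra hno
    have hstep : ∀ t, σ t = i →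
        ((MP217Upper.Model.run P.alg b c σ (t + 1)).hist i).length =
          ((MP217Upper.Model.run P.alg b c σ t).hist i).length + 1 := by
      intro t ht
      rw [MP217Upper.Model.run, ht, MP217Upper.Model.step]
      cases hn : P.alg.next i (b i) (c i) ((MP217Upper.Model.run P.alg b c σ t).hist i) with
      | read w k => simp
      | write y k w => simp
      | output v => exact absurd ⟨t, v, hn⟩ hno
    have hmono : ∀ t, ((MP217Upper.Model.run P.alg b c σ t).hist i).length ≤
        ((MP217Upper.Model.run P.alg b c σ (t + 1)).hist i).length := by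
      intro t
      rw [MP217Upper.Model.run, MP217Upper.Model.step]
      cases hn : P.alg.next (σ t) (b (σ t)) (c (σ t))
          ((MP217Upper.Model.run P.alg b c σ t).hist (σ t)) with
      | read w k =>
        simp only
        by_cases h : i = σ t
        · subst h; simp
        · rw [Function.update_of_ne h]
      | write y k w =>
        simp only
        by_cases h : i = σ t
        · subst h; simp
        · rw [Function.update_of_ne h]
      | output v => simp
    have hm := monotone_nat_of_le_succ hmono
    have hgrow : ∀ N, ∃ t, N ≤ ((MP217Upper.Model.run P.alg b c σ t).hist i).length := by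
      intro N
      induction N with
      | zero => exact ⟨0, Nat.zero_le _⟩
      | succ N ih =>
        obtain ⟨t, ht⟩ := ih
        obtain ⟨t', ht', h'⟩ := hi t
        refine ⟨t' + 1, ?_⟩
        rw [hstep t' h']
        have := hm ht'
        simp only at this
        omega
    obtain ⟨t, ht⟩ := hgrow (r * Bd + 1)
    have := len_bdd hBd hr t i
    omega

end Hp

end Pool.Agent.E217
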