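import Pool.Agent.MP217Exact.Mach

set_option autoImplicit false

/-!
# The machine: steps and times
-/

namespace Pool.Agent.E217

open Finset

attribute [local instance 10] Classical.propDecidable

variable {n : ℕ} {D : Type}

/-! ### Steps and times -/

theorem cnt_succ_self {σ : ℕ → Option (Fin n)} {p : Fin n} {t : ℕ} (h : σ t = some p) :
    cnt σ p (t + 1) = cnt σ p t + 1 := by
  unfold cnt
  rw [Nat.count_succ, if_pos h]

theorem cnt_succ_ne {σ : ℕ → Option (Fin n)} {p : Fin n} {t : ℕ} (h : σ t ≠ some p) :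
    cnt σ p (t + 1) = cnt σ p t := by
  unfold cnt
  rw [Nat.count_succ, if_neg h, Nat.add_zero]

theorem cnt_mono (σ : ℕ → Option (Fin n)) (p : Fin n) {t t' : ℕ} (h : t ≤ t') :
    cnt σ p t ≤ cnt σ p t' := by
  unfold cnt
  exact Nat.count_monotone _ h

theorem cnt_tme {σ : ℕ → Option (Fin n)} (hσ : Fair σ) (p : Fin n) (k : ℕ) :
    cnt σ p (tme σ p k) = k := by
  unfold cnt tme
  exact Nat.count_nth_of_infinite (hσ p) k

theorem sched_tme {σ : ℕ → Option (Fin n)} (hσ : Fair σ) (p : Fin n) (k : ℕ) :
    σ (tme σ p k) = some p := by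
  unfold tme
  exact Nat.nth_mem_of_infinite (p := fun t => σ t = some p) (hσ p) k

theorem tme_cnt {σ : ℕ → Option (Fin n)} {p : Fin n} {t : ℕ} (h : σ t = some p) :
    tme σ p (cnt σ p t) = t := by
  unfold cnt tme
  exact Nat.nth_count (p := fun t => σ t = some p) h

theorem tme_lt {σ : ℕ → Option (Fin n)} (hσ : Fair σ) (p : Fin n) {k k' : ℕ} :
    tme σ p k < tme σ p k' ↔ k < k' := by
  unfold tme
  exact (Nat.nth_strictMono (hσ p)).lt_iff_lt

theorem tme_le {σ : ℕ → Option (Fin n)} (hσ : Fair σ) (p : Fin n) {k k' : ℕ} :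
    tme σ p k ≤ tme σ p k' ↔ k ≤ k' := by
  unfold tme
  exact (Nat.nth_strictMono (hσ p)).le_iff_le

/-- `k` steps are finished before time `t` iff step `k` is not before `t`. -/
theorem le_tme_iff {σ : ℕ → Option (Fin n)} (hσ : Fair σ) (p : Fin n) {k t : ℕ} :
    t ≤ tme σ p k ↔ cnt σ p t ≤ k := by
  constructor
  · intro h
    have h1 := cnt_mono σ p h
    rwa [cnt_tme hσ p k] at h1
  · intro h
    by_contra h2
    have h3 : tme σ p k + 1 ≤ t := by omega
    have h4 := cnt_mono σ p h3
    rw [cnt_succ_self (sched_tme hσ p k), cnt_tme hσ p k] at h4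
    omega

theorem tme_inj {σ : ℕ → Option (Fin n)} (hσ : Fair σ) {p q : Fin n} {k k' : ℕ}
    (h : tme σ p k = tme σ q k') : p = q ∧ k = k' := by
  have h1 := sched_tme hσ p k
  have h2 := sched_tme hσ q k'
  rw [h] at h1
  rw [h1] at h2
  have h3 : p = q := by
    simpa using h2
  subst h3
  refine ⟨rfl, ?_⟩
  have h4 := cnt_tme hσ p k
  rw [h, cnt_tme hσ p k'] at h4
  exact h4.symm

namespace Sys

variable {S : Sys n D} {σ : ℕ → Option (Fin n)}

/-- The run up to time `t` depends only on the schedule before `t`. -/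
theorem run_congr (S : Sys n D) {σ σ' : ℕ → Option (Fin n)} {t : ℕ}
    (h : ∀ t' < t, σ t' = σ' t') : S.run σ t = S.run σ' t := by
  induction t with
  | zero => rfl
  | succ t ih =>
    have h1 : S.run σ t = S.run σ' t := ih fun t' ht' => h t' (by omega)
    have h2 : σ t = σ' t := h t (by omega)
    simp only [run]
    rw [h1, h2]

theorem off_succ (S : Sys n D) (i : ℕ) : S.off (i + 1) = S.off i + (S.lw i + S.lr i) := by
  unfold off
  rw [Finset.sum_range_succ]

theorem off_lt (h : S.Ok) {i j : ℕ} (hij : i < j) : S.off i < S.off j := by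
  induction j, hij using Nat.le_induction with
  | base =>
    rw [off_succ]
    have := h.lw_pos i
    omega
  | succ j hj ih =>
    rw [off_succ]
    omega

theorem off_mono (S : Sys n D) {i j : ℕ} (hij : i ≤ j) : S.off i ≤ S.off j := by
  unfold off
  exact Finset.sum_le_sum_of_subset (Finset.range_mono hij)

/-- Nothing changes for a processor without a step. -/
theorem st_ne {p : Fin n} {t : ℕ} (h : σ t ≠ some p) :
    (S.run σ (t + 1)).st p = (S.run σ t).st p := by
  simp only [run]
  cases hs : σ t with
  | none => rfl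
  | some q =>
    have hq : p ≠ q := by
      intro hpq
      rw [hs, hpq] at h
      exact h rfl
    simp only [step]
    split_ifs
    · rfl
    · exact Function.update_of_ne hq _ _
    · exact Function.update_of_ne hq _ _

/-- Nothing changes for an idle processor. -/
theorem st_idle {p : Fin n} {t t' : ℕ} (h : S.Idle ((S.run σ t).st p)) (ht : t ≤ t') :
    (S.run σ t').st p = (S.run σ t).st p := by
  induction t', ht using Nat.le_induction with
  | base => rfl
  | succ u hu ih =>
    by_cases hs : σ u = some p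
    · simp only [run]
      rw [hs]
      simp only [step]
      rw [ih, if_pos h, ih]
    · rw [st_ne hs, ih]

end Sys

end Pool.Agent.E217
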