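import Pool.Agent.MP217Exact.MFlow

set_option autoImplicit false

/-!
# The machine: all information is genuine and closed
-/

namespace Pool.Agent.E217

open Finset

attribute [local instance 10] Classical.propDecidable

variable {n : ℕ} {D : Type}

namespace Sys

variable {S : Sys n D} {σ : ℕ → Option (Fin n)}

/-- The state of `p` at the beginning of pass `i` is genuine and closed. -/
private def GSt (S : Sys n D) (σ : ℕ → Option (Fin n)) (p : Fin n) (i : ℕ) : Prop :=
  (∀ f ∈ (S.sI σ p i).K, f.i ≤ S.E ∧ S.Al σ f.a f.i ∧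
      f.d = (S.sI σ f.a f.i).d ∧ f.M = (S.sI σ f.a f.i).M ∧ f.T = S.sh f.a f.i ∧
      (S.sI σ f.a f.i).K ⊆ (S.sI σ p i).K ∧ (f.a ≠ p → f.i < S.E ∧ S.al σ f.a f.i < S.al σ p i) ∧
      (f.a = p → f.i ≤ i)) ∧
  ∀ q j, (q, j) ∈ (S.sI σ p i).M → j ≤ S.E ∧ S.Al σ q j ∧
      (S.sI σ q j).M ⊆ (S.sI σ p i).M ∧ (S.sI σ q j).K ⊆ (S.sI σ p i).K ∧
      (q ≠ p → j < S.E ∧ S.al σ q j < S.al σ p i) ∧ (q = p → j ≤ i) ∧ S.nr j = S.nr i

/-- The same after pass `i`. -/
private def GEn (S : Sys n D) (σ : ℕ → Option (Fin n)) (p : Fin n) (i : ℕ) : Prop :=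
  (∀ f ∈ S.KE σ p i, f.i < S.E ∧ S.Al σ f.a f.i ∧
      f.d = (S.sI σ f.a f.i).d ∧ f.M = (S.sI σ f.a f.i).M ∧ f.T = S.sh f.a f.i ∧
      (S.sI σ f.a f.i).K ⊆ S.KE σ p i ∧ S.al σ f.a f.i < S.en σ p i ∧
      (f.a = p → f.i ≤ i)) ∧
  ∀ q j, (q, j) ∈ S.ME σ p i → j < S.E ∧ S.Al σ q j ∧
      (S.sI σ q j).M ⊆ S.ME σ p i ∧ (S.sI σ q j).K ⊆ S.KE σ p i ∧ S.al σ q j < S.en σ p i ∧
      (q = p → j ≤ i) ∧ S.nr j = S.nr i

private theorem ge_nr {i j : ℕ} (hij : i ≤ j) (h : ∀ k, i < k → k ≤ j → S.rs k = false) :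
    S.nr i = S.nr j := by
  unfold nr
  congr 1
  ext k
  rw [mem_filter, mem_filter, mem_range, mem_range]
  constructor
  · rintro ⟨h1, h2⟩
    exact ⟨by omega, h2⟩
  · rintro ⟨h1, h2⟩
    refine ⟨?_, h2⟩
    by_contra hcon
    rw [h k (by omega) (by omega)] at h2
    exact Bool.false_ne_true h2

private theorem ge_nr_ch (hS : S.Ok) {i j : ℕ} (hc : S.ch i = S.ch j) (ht : S.tm i = true) :
    S.nr i = S.nr j := by
  rcases le_total i j with h | h
  · exact ge_nr h fun k h1 h2 => hS.rs_ch i j k hc ht h1 h2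
  · exact (ge_nr h fun k h1 h2 =>
      hS.rs_ch j i k hc.symm (by rw [← hS.tm_ch i j hc, ht]) h1 h2).symm

private theorem ge_al_en (hS : S.Ok) (hσ : Fair σ) (p : Fin n) (i : ℕ) :
    S.al σ p i < S.en σ p i := by
  refine (tme_lt hσ p).2 ?_
  have h1 := off_succ S i
  have h2 := hS.lw_pos i
  have h3 := hS.lr_pos i
  omega

private theorem ge_en_al (hS : S.Ok) (hσ : Fair σ) (p : Fin n) (i : ℕ) :
    S.en σ p i < S.al σ p (i + 1) := by
  refine (tme_lt hσ p).2 ?_
  have h1 := off_succ S i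
  have h2 := hS.lw_pos i
  omega

private theorem ge_le (hS : S.Ok) (hσ : Fair σ) {p : Fin n} {i j : ℕ}
    (h : S.al σ p j < S.en σ p i) : j ≤ i := by
  have h1 := (tme_lt hσ p).1 h
  by_contra hcon
  have h2 := off_mono S (show i + 1 ≤ j by omega)
  omega

private theorem ge_al_le (hσ : Fair σ) (p : Fin n) {i j : ℕ} (h : i ≤ j) :
    S.al σ p i ≤ S.al σ p j := (tme_le hσ p).2 (off_mono S h)

/-- What is read. -/
private theorem ge_read (hS : S.Ok) (hσ : Fair σ) {p : Fin n} {i k : ℕ} (hk : k < S.lr i) :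
    (S.run σ (tme σ p (S.off i + S.lw i + k))).mem
        ((S.tr p i (S.sI σ p i).M).getD k p) p (S.ch i) = (∅, ∅) ∨
    ∃ w i', i' < S.E ∧ S.Al σ w i' ∧ S.ch i' = S.ch i ∧ S.al σ w i' < S.en σ p i ∧
      (S.run σ (tme σ p (S.off i + S.lw i + k))).mem
        ((S.tr p i (S.sI σ p i).M).getD k p) p (S.ch i) =
      (if S.tm i' = true then (S.sI σ w i').M else ∅, (S.sI σ w i').K) := by
  set w := (S.tr p i (S.sI σ p i).M).getD k p with hw
  by_cases hwp : p = w
  · left
    rw [← hwp]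
    exact mem_self _ _ _
  · rcases mem_cases hS hσ hwp (S.ch i) (tme σ p (S.off i + S.lw i + k)) with
      ⟨h, -⟩ | ⟨j, hj, hj', hc, h1, -, h3, -⟩
    · exact Or.inl h
    · refine Or.inr ⟨w, j, hj, hj', hc, lt_of_lt_of_le h1 ((tme_le hσ p).2 ?_), h3⟩
      have h4 := off_succ S i
      omega

private theorem ge_end (hS : S.Ok) (hσ : Fair σ) {p : Fin n} {i : ℕ} (hi : i < S.E)
    (h : S.Al σ p i)
    (IH : ∀ w i', i' ≤ S.E → S.Al σ w i' → S.al σ w i' < S.en σ p i → GSt S σ w i') :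
    GEn S σ p i := by
  have h0 := IH p i hi.le h (ge_al_en hS hσ p i)
  constructor
  · intro f hf
    unfold KE at hf
    rcases mem_union.1 hf with hf | hf
    · obtain ⟨a1, a2, a3, a4, a5, a6, a7, a8⟩ := h0.1 f hf
      have hlt : f.i < S.E := by
        by_cases hp : f.a = p
        · exact lt_of_le_of_lt (a8 hp) hi
        · exact (a7 hp).1
      refine ⟨hlt, a2, a3, a4, a5, a6.trans subset_union_left, ?_, a8⟩
      by_cases hp : f.a = p
      · have h1 := ge_al_le (S := S) hσ p (a8 hp)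
        have h2 := ge_al_en hS hσ p i
        rw [hp]
        omega
      · have h1 := (a7 hp).2
        have h2 := ge_al_en hS hσ p i
        omega
    · obtain ⟨k, hk, hf⟩ := mem_biUnion.1 hf
      rw [mem_range] at hk
      have hsub : ((S.run σ (tme σ p (S.off i + S.lw i + k))).mem
          ((S.tr p i (S.sI σ p i).M).getD k p) p (S.ch i)).2 ⊆ S.KE σ p i := fun g hg =>
        mem_union_right _ (mem_biUnion.2 ⟨k, mem_range.2 hk, hg⟩)
      rcases ge_read hS hσ (p := p) (i := i) hk with h1 | ⟨w, i', b1, b2, b3, b4, b5⟩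
      · rw [h1] at hf
        exact absurd hf (notMem_empty _)
      · rw [b5] at hf hsub
        obtain ⟨a1, a2, a3, a4, a5, a6, a7, a8⟩ := (IH w i' b1.le b2 b4).1 f hf
        have hlt : f.i < S.E ∧ S.al σ f.a f.i < S.en σ p i := by
          by_cases hp : f.a = w
          · have h1 := ge_al_le (S := S) hσ w (a8 hp)
            refine ⟨lt_of_le_of_lt (a8 hp) b1, ?_⟩
            rw [hp]
            omega
          · have h1 := a7 hp
            exact ⟨h1.1, by omega⟩
        refine ⟨hlt.1, a2, a3, a4, a5, a6.trans hsub, hlt.2, fun hp => ?_⟩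
        have h1 := hlt.2
        rw [hp] at h1
        exact ge_le hS hσ h1
  · intro q j hf
    unfold ME at hf
    rcases mem_union.1 hf with hf | hf
    · obtain ⟨a1, a2, a3, a4, a5, a6, a7⟩ := h0.2 q j hf
      have hlt : j < S.E := by
        by_cases hp : q = p
        · exact lt_of_le_of_lt (a6 hp) hi
        · exact (a5 hp).1
      refine ⟨hlt, a2, a3.trans subset_union_left, a4.trans subset_union_left, ?_, a6, a7⟩
      by_cases hp : q = p
      · have h1 := ge_al_le (S := S) hσ p (a6 hp)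
        have h2 := ge_al_en hS hσ p i
        rw [hp]
        omega
      · have h1 := (a5 hp).2
        have h2 := ge_al_en hS hσ p i
        omega
    · obtain ⟨k, hk, hf⟩ := mem_biUnion.1 hf
      rw [mem_range] at hk
      have hsub1 : ((S.run σ (tme σ p (S.off i + S.lw i + k))).mem
          ((S.tr p i (S.sI σ p i).M).getD k p) p (S.ch i)).1 ⊆ S.ME σ p i := fun g hg =>
        mem_union_right _ (mem_biUnion.2 ⟨k, mem_range.2 hk, hg⟩)
      have hsub2 : ((S.run σ (tme σ p (S.off i + S.lw i + k))).mem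
          ((S.tr p i (S.sI σ p i).M).getD k p) p (S.ch i)).2 ⊆ S.KE σ p i := fun g hg =>
        mem_union_right _ (mem_biUnion.2 ⟨k, mem_range.2 hk, hg⟩)
      rcases ge_read hS hσ (p := p) (i := i) hk with h1 | ⟨w, i', b1, b2, b3, b4, b5⟩
      · rw [h1] at hf
        exact absurd hf (notMem_empty _)
      · rw [b5] at hf hsub1 hsub2
        by_cases htm : S.tm i' = true
        · rw [if_pos htm] at hf hsub1
          obtain ⟨a1, a2, a3, a4, a5, a6, a7⟩ := (IH w i' b1.le b2 b4).2 q j hf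
          have hlt : j < S.E ∧ S.al σ q j < S.en σ p i := by
            by_cases hp : q = w
            · have h1 := ge_al_le (S := S) hσ w (a6 hp)
              refine ⟨lt_of_le_of_lt (a6 hp) b1, ?_⟩
              rw [hp]
              omega
            · have h1 := a5 hp
              exact ⟨h1.1, by omega⟩
          refine ⟨hlt.1, a2, a3.trans hsub1, a4.trans hsub2, hlt.2, fun hp => ?_, ?_⟩
          · have h1 := hlt.2
            rw [hp] at h1
            exact ge_le hS hσ h1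
          · rw [a7]
            exact ge_nr_ch hS b3 htm
        · rw [if_neg htm] at hf
          exact absurd hf (notMem_empty _)

private theorem ge_all (hS : S.Ok) (hσ : Fair σ) : ∀ t, ∀ p i, i ≤ S.E → S.Al σ p i →
    S.al σ p i ≤ t → GSt S σ p i := by
  intro t
  induction t using Nat.strong_induction_on with
  | _ t IH =>
    intro p i hi h hle
    have own : ∀ f : Fact n D,
        f = ⟨p, i, (S.sI σ p i).d, (S.sI σ p i).M, S.sh p i⟩ → f.i ≤ S.E ∧ S.Al σ f.a f.i ∧
        f.d = (S.sI σ f.a f.i).d ∧ f.M = (S.sI σ f.a f.i).M ∧ f.T = S.sh f.a f.i ∧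
        (S.sI σ f.a f.i).K ⊆ (S.sI σ p i).K ∧
        (f.a ≠ p → f.i < S.E ∧ S.al σ f.a f.i < S.al σ p i) ∧ (f.a = p → f.i ≤ i) := by
      rintro f rfl
      exact ⟨hi, h, rfl, rfl, rfl, Subset.refl _, fun h' => absurd rfl h', fun _ => le_rfl⟩
    have ownM : ∀ q j, (q, j) = (p, i) → j ≤ S.E ∧ S.Al σ q j ∧
        (S.sI σ q j).M ⊆ (S.sI σ p i).M ∧ (S.sI σ q j).K ⊆ (S.sI σ p i).K ∧
        (q ≠ p → j < S.E ∧ S.al σ q j < S.al σ p i) ∧ (q = p → j ≤ i) ∧ S.nr j = S.nr i := by
      intro q j hq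
      rw [Prod.mk.injEq] at hq
      obtain ⟨rfl, rfl⟩ := hq
      exact ⟨hi, h, Subset.refl _, Subset.refl _, fun h' => absurd rfl h', fun _ => le_rfl, rfl⟩
    cases i with
    | zero =>
      have hs := sI_zero S hσ p
      constructor
      · intro f hf
        refine own f ?_
        rw [hs] at hf
        rw [hs]
        simpa [beg] using hf
      · intro q j hf
        refine ownM q j ?_
        rw [hs] at hf
        simpa [beg, bM] using hf
    | succ i =>
      have hal : S.Al σ p i := al_mono hS hσ h (Nat.le_succ i) hi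
      have hlt : S.en σ p i < t := lt_of_lt_of_le (ge_en_al hS hσ p i) hle
      have hE := ge_end hS hσ (show i < S.E by omega) hal fun w i' h1 h2 h3 =>
        IH (S.al σ w i') (h3.trans hlt) w i' h1 h2 le_rfl
      have hs := sI_succ hS hσ (show i < S.E by omega) hal
      have hKE : S.KE σ p i ⊆ (S.sI σ p (i + 1)).K := KE_sub hS hσ (Nat.lt_succ_self i) hi h
      have hen := ge_en_al hS hσ p i
      constructor
      · intro f hf
        have hf2 : f = ⟨p, i + 1, (S.sI σ p (i + 1)).d, (S.sI σ p (i + 1)).M, S.sh p (i + 1)⟩ ∨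
            f ∈ S.KE σ p i := by
          rw [hs] at hf
          rw [hs]
          simpa [beg] using hf
        rcases hf2 with hf2 | hf2
        · exact own f hf2
        · obtain ⟨a1, a2, a3, a4, a5, a6, a7, a8⟩ := hE.1 f hf2
          exact ⟨a1.le, a2, a3, a4, a5, a6.trans hKE, fun _ => ⟨a1, by omega⟩,
            fun hp => (a8 hp).trans (Nat.le_succ i)⟩
      · intro q j hf
        have hM : (S.sI σ p (i + 1)).M = insert (p, i + 1)
            (if S.rs (i + 1) = true then ∅ else S.ME σ p i) := by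
          rw [hs]
          rfl
        have hf' := hf
        rw [hM] at hf'
        rcases mem_insert.1 hf' with hf2 | hf2
        · exact ownM q j hf2
        · by_cases hr : S.rs (i + 1) = true
          · rw [if_pos hr] at hf2
            exact absurd hf2 (notMem_empty _)
          · rw [if_neg hr] at hf2 hM
            have hsub : S.ME σ p i ⊆ (S.sI σ p (i + 1)).M := by
              rw [hM]
              exact subset_insert _ _
            obtain ⟨a1, a2, a3, a4, a5, a6, a7⟩ := hE.2 q j hf2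
            refine ⟨a1.le, a2, a3.trans hsub, a4.trans hKE, fun _ => ⟨a1, by omega⟩,
              fun hp => (a6 hp).trans (Nat.le_succ i), ?_⟩
            rw [a7]
            refine ge_nr (Nat.le_succ i) fun k h1 h2 => ?_
            have h3 : k = i + 1 := by omega
            rw [h3]
            exact Bool.eq_false_iff.2 hr

/-- Facts known after a pass are genuine, whoever knows a fact knows everything which its author
knew, and facts of others are older.
PROOF: induction on `t` for the states and the registers at time `t`, for facts and for stamps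
together: for a register of `w` at time `t` every fact `f` in it has `Al σ f.a f.i`,
`al f.a f.i < t`, the stated equations and `(sI f.a f.i).K ⊆` the second component; every stamp
`(q, j)` has `Al σ q j`, `al q j < t`, `(sI q j).M ⊆` the first and `(sI q j).K ⊆` the second
component; for the state of `x` the same with `K ∪ aK` and `M ∪ aM`, where `al f.a f.i < t` is
required only for `f.a ≠ x` (or `f.i < ` the current pass). -/
theorem gen_KE (hS : S.Ok) (hσ : Fair σ) {p : Fin n} {i : ℕ} (hi : i < S.E) (h : S.Al σ p i)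
    {f : Fact n D} (hf : f ∈ S.KE σ p i) : f.i < S.E ∧ S.Al σ f.a f.i ∧
      f.d = (S.sI σ f.a f.i).d ∧ f.M = (S.sI σ f.a f.i).M ∧ f.T = S.sh f.a f.i ∧
      (S.sI σ f.a f.i).K ⊆ S.KE σ p i ∧ S.al σ f.a f.i < S.en σ p i ∧
      (f.a = p → f.i ≤ i) :=
  (ge_end hS hσ hi h fun w i' h1 h2 _ => ge_all hS hσ _ w i' h1 h2 le_rfl).1 f hf

theorem gen_K (hS : S.Ok) (hσ : Fair σ) {p : Fin n} {i : ℕ} (hi : i ≤ S.E) (h : S.Al σ p i)
    {f : Fact n D} (hf : f ∈ (S.sI σ p i).K) : f.i ≤ S.E ∧ S.Al σ f.a f.i ∧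
      f.d = (S.sI σ f.a f.i).d ∧ f.M = (S.sI σ f.a f.i).M ∧ f.T = S.sh f.a f.i ∧
      (S.sI σ f.a f.i).K ⊆ (S.sI σ p i).K ∧ (f.a ≠ p → f.i < S.E ∧ S.al σ f.a f.i < S.al σ p i) ∧
      (f.a = p → f.i ≤ i) :=
  (ge_all hS hσ _ p i hi h le_rfl).1 f hf

/-- The same for stamps. -/
theorem gen_ME (hS : S.Ok) (hσ : Fair σ) {p : Fin n} {i : ℕ} (hi : i < S.E) (h : S.Al σ p i)
    {q : Fin n} {j : ℕ} (hf : (q, j) ∈ S.ME σ p i) : j < S.E ∧ S.Al σ q j ∧
      (S.sI σ q j).M ⊆ S.ME σ p i ∧ (S.sI σ q j).K ⊆ S.KE σ p i ∧ S.al σ q j < S.en σ p i ∧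
      (q = p → j ≤ i) ∧ S.nr j = S.nr i :=
  (ge_end hS hσ hi h fun w i' h1 h2 _ => ge_all hS hσ _ w i' h1 h2 le_rfl).2 q j hf

theorem gen_M (hS : S.Ok) (hσ : Fair σ) {p : Fin n} {i : ℕ} (hi : i ≤ S.E) (h : S.Al σ p i)
    {q : Fin n} {j : ℕ} (hf : (q, j) ∈ (S.sI σ p i).M) : j ≤ S.E ∧ S.Al σ q j ∧
      (S.sI σ q j).M ⊆ (S.sI σ p i).M ∧ (S.sI σ q j).K ⊆ (S.sI σ p i).K ∧
      (q ≠ p → j < S.E ∧ S.al σ q j < S.al σ p i) ∧ (q = p → j ≤ i) ∧ S.nr j = S.nr i :=
  (ge_all hS hσ _ p i hi h le_rfl).2 q j hf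

end Sys

end Pool.Agent.E217
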