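import Pool.Agent.MP217Exact.MTime

set_option autoImplicit false

/-!
# The machine: fair schedules
-/

namespace Pool.Agent.E217

open Finset

attribute [local instance 10] Classical.propDecidable

variable {n : ℕ}

/-- The beginning of a schedule can be continued by a fair one. -/
theorem exists_fair (σ : ℕ → Option (Fin n)) (H : ℕ) :
    ∃ σ' : ℕ → Option (Fin n), Fair σ' ∧ ∀ t < H, σ' t = σ t := by
  refine ⟨fun t => if t < H then σ t else
    if h : 0 < n then some ⟨t % n, Nat.mod_lt _ h⟩ else none, ?_, fun t ht => if_pos ht⟩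
  intro p
  have hn : 0 < n := p.pos
  refine Set.infinite_of_forall_exists_gt fun a => ⟨n * (H + a + 1) + p.1, ?_, ?_⟩
  · have h1 : H + a + 1 ≤ n * (H + a + 1) := Nat.le_mul_of_pos_left _ hn
    have h2 : ¬ (n * (H + a + 1) + p.1 < H) := by omega
    change (if n * (H + a + 1) + p.1 < H then _ else
      if h : 0 < n then some ⟨(n * (H + a + 1) + p.1) % n, Nat.mod_lt _ h⟩ else none) = some p
    rw [if_neg h2, dif_pos hn]
    congr 1
    apply Fin.ext
    change (n * (H + a + 1) + p.1) % n = p.1
    rw [Nat.mul_add_mod, Nat.mod_eq_of_lt p.2]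
  · have h1 : H + a + 1 ≤ n * (H + a + 1) := Nat.le_mul_of_pos_left _ hn
    omega

private theorem hor_one (σ : ℕ → Option (Fin n)) (p : Fin n) (B : ℕ) :
    ∃ H, B ≤ cnt σ p H ∨ ∀ t, H ≤ t → σ t ≠ some p := by
  induction B with
  | zero => exact ⟨0, Or.inl (Nat.zero_le _)⟩
  | succ B ih =>
    obtain ⟨H, h | h⟩ := ih
    · by_cases h1 : ∃ t, H ≤ t ∧ σ t = some p
      · obtain ⟨t, ht, h2⟩ := h1
        refine ⟨t + 1, Or.inl ?_⟩
        rw [cnt_succ_self h2]
        exact Nat.succ_le_succ (h.trans (cnt_mono σ p ht))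
      · exact ⟨H, Or.inr fun t ht h2 => h1 ⟨t, ht, h2⟩⟩
    · exact ⟨H, Or.inr h⟩

/-- After some time everybody has taken `B` steps or does not take steps any more. -/
theorem exists_hor (σ : ℕ → Option (Fin n)) (B : ℕ) :
    ∃ H, ∀ p, B ≤ cnt σ p H ∨ ∀ t, H ≤ t → σ t ≠ some p := by
  choose f hf using fun p => hor_one σ p B
  refine ⟨univ.sup f, fun p => ?_⟩
  have h1 : f p ≤ univ.sup f := le_sup (mem_univ p)
  rcases hf p with h | h
  · exact Or.inl (h.trans (cnt_mono σ p h1))
  · exact Or.inr fun t ht => h t (h1.trans ht)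

/-- Nothing happens after such a time. -/
theorem run_hor {D : Type} {S : Sys n D} (hS : S.Ok) {σ : ℕ → Option (Fin n)} {H : ℕ}
    (hH : ∀ p, S.off S.E ≤ cnt σ p H ∨ ∀ t, H ≤ t → σ t ≠ some p) :
    ∀ t, H ≤ t → S.run σ t = S.run σ H := by
  intro t ht
  induction t, ht using Nat.le_induction with
  | base => rfl
  | succ t ht ih =>
    rw [Sys.run]
    rcases h : σ t with _ | p
    · exact ih
    · simp only
      rw [ih]
      rcases hH p with h1 | h1
      · have h2 : S.Idle ((S.run σ H).st p) := by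
          by_contra h3
          obtain ⟨h4, h5⟩ := Sys.pos_cnt hS h3
          have h6 : ((S.run σ H).st p).i < S.E := by
            by_contra h7
            exact h3 (Or.inr (not_lt.1 h7))
          have h7 := S.off_mono (show ((S.run σ H).st p).i + 1 ≤ S.E from h6)
          rw [Sys.off_succ] at h7
          omega
        rw [Sys.step, if_pos h2]
      · exact absurd h (h1 t ht)

end Pool.Agent.E217
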