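import Pool.Agent.MP217Exact.MSame

set_option autoImplicit false

/-!
# The machine: the influence of reads
-/

namespace Pool.Agent.E217

open Finset

attribute [local instance 10] Classical.propDecidable

variable {n : ℕ} {D : Type}

namespace Sys

/-- Partial agreement during the last pass which has begun: everything but the messages collected
in this pass. -/
private structure LrP (S : Sys n D) (σ : ℕ → Option (Fin n)) (τ : ℕ) (p : Fin n)
    (s' s : LSt n D) : Prop where
  i : s'.i = s.i
  pos : s'.pos = s.pos
  d : s'.d = s.d
  K : s'.K = s.K
  M : s'.M = s.M
  ni : ¬ S.Idle s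
  lt : τ < S.al σ p (s.i + 1)
  pp : 0 < s.pos

/-- Two programs which differ only in the read lists, in passes which are not finished at time
`τ`, have the same states at the beginning of all passes up to `τ`.
PROOF: induction on `t ≤ τ`: all registers agree; for every `p`: if `cnt σ p t = off i` and
`al p i ≤ τ` then the states of `p` agree, if `off i < cnt σ p t < off (i + 1)` then the fields
`i`, `pos`, `d`, `K`, `M` agree, and if moreover `al p (i + 1) ≤ τ` then `aK` and `aM` agree too (for
processors which have stopped the states agree). -/
theorem locR {S S' : Sys n D} (hS : S.Ok) (hS' : S'.Ok) (hs : Same S S')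
    (htw : S'.tw = S.tw) (hsh : S'.sh = S.sh) (hd0 : S'.d0 = S.d0) (hnd : S'.nd = S.nd)
    (hsp : S'.sp = S.sp) {σ : ℕ → Option (Fin n)} (hσ : Fair σ) (τ : ℕ)
    (htr : ∀ p i M, i < S.E → S.al σ p (i + 1) ≤ τ → S'.tr p i M = S.tr p i M) :
    ∀ p i, S.al σ p i ≤ τ → S'.sI σ p i = S.sI σ p i := by
  have e1 : ∀ s : LSt n D, S'.Idle s ↔ S.Idle s := by
    intro s
    unfold Sys.Idle
    rw [hsp, hs.E]
  have e2 : S'.msg = S.msg := by
    funext s
    simp only [Sys.msg, hs.tm]
  have e3 : S'.rd = S.rd := by
    funext p s m
    simp only [Sys.rd, Sys.fin, Sys.beg, Sys.bM, hs.lw, hs.lr, hnd, hsh, hs.rs]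
  have e5 : S'.wt = S.wt := by
    funext p s
    simp only [Sys.wt, htw]
  suffices H : ∀ t ≤ τ, (S'.run σ t).mem = (S.run σ t).mem ∧ ∀ p,
      τ < tme σ p (cnt σ p t) ∨ (S'.run σ t).st p = (S.run σ t).st p ∨
      LrP S σ τ p ((S'.run σ t).st p) ((S.run σ t).st p) by
    intro p i hi
    have hal : S'.al = S.al := hs.al
    unfold Sys.sI
    rw [hal]
    have hc : cnt σ p (S.al σ p i) = S.off i := cnt_tme hσ p _
    rcases (H (S.al σ p i) hi).2 p with h | h | h
    · rw [hc] at h
      exact absurd h (not_lt.2 hi)
    · exact h
    · exfalso
      obtain ⟨h1, h2⟩ := pos_cnt hS h.ni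
      have h3 := h.pp
      rw [hc] at h1
      rcases Nat.lt_or_ge ((S.run σ (S.al σ p i)).st p).i i with h4 | h4
      · have h5 := S.off_mono (show ((S.run σ (S.al σ p i)).st p).i + 1 ≤ i from h4)
        rw [off_succ] at h5
        omega
      · have h5 := S.off_mono h4
        omega
  intro t
  induction t with
  | zero =>
    intro _
    refine ⟨rfl, fun p => Or.inr (Or.inl ?_)⟩
    change S'.beg p 0 (S'.d0 p) ∅ ∅ = S.beg p 0 (S.d0 p) ∅ ∅
    simp only [Sys.beg, Sys.bM, hs.rs, hsh, hd0]
  | succ t ih =>
    intro ht
    obtain ⟨hmem, hst⟩ := ih (by omega)
    rw [Sys.run, Sys.run]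
    rcases hp : σ t with _ | p
    · refine ⟨hmem, fun q => ?_⟩
      rw [cnt_succ_ne (by rw [hp]; simp)]
      exact hst q
    · simp only
      have hoth : ∀ q, q ≠ p → cnt σ q (t + 1) = cnt σ q t := fun q hq =>
        cnt_succ_ne (by rw [hp]; simpa using fun h => hq h.symm)
      have hself : cnt σ p (t + 1) = cnt σ p t + 1 := cnt_succ_self hp
      by_cases hI : S.Idle ((S.run σ t).st p)
      · have h : (S'.run σ t).st p = (S.run σ t).st p := by
          rcases hst p with h | h | h
          · exfalso
            rw [tme_cnt hp] at h
            omega
          · exact h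
          · exact absurd hI h.ni
        rw [Sys.step, Sys.step, if_pos hI, if_pos (by rw [h, e1]; exact hI)]
        refine ⟨hmem, fun q => ?_⟩
        by_cases hq : q = p
        · subst hq
          exact Or.inr (Or.inl h)
        · rw [hoth q hq]
          exact hst q
      · -- the common fields
        have hF : (S'.run σ t).st p = (S.run σ t).st p ∨
            LrP S σ τ p ((S'.run σ t).st p) ((S.run σ t).st p) := by
          rcases hst p with h | h
          · exfalso
            rw [tme_cnt hp] at h
            omega
          · exact h
        obtain ⟨hiE, hAl, hoff, hoff'⟩ := al_of hS hσ hI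
        obtain ⟨hpos, hpos'⟩ := pos_cnt hS hI
        have hi : ((S'.run σ t).st p).i = ((S.run σ t).st p).i := by
          rcases hF with h | h
          · rw [h]
          · exact h.i
        have hps : ((S'.run σ t).st p).pos = ((S.run σ t).st p).pos := by
          rcases hF with h | h
          · rw [h]
          · exact h.pos
        have hd : ((S'.run σ t).st p).d = ((S.run σ t).st p).d := by
          rcases hF with h | h
          · rw [h]
          · exact h.d
        have hK : ((S'.run σ t).st p).K = ((S.run σ t).st p).K := by
          rcases hF with h | h
          · rw [h]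
          · exact h.K
        have hM : ((S'.run σ t).st p).M = ((S.run σ t).st p).M := by
          rcases hF with h | h
          · rw [h]
          · exact h.M
        have hI' : ¬ S'.Idle ((S'.run σ t).st p) := by
          rw [e1]
          unfold Sys.Idle at hI ⊢
          rw [hi, hd]
          exact hI
        have hwt : S'.wt p ((S'.run σ t).st p) = S.wt p ((S.run σ t).st p) := by
          rw [e5]
          unfold Sys.wt
          rw [hi, hps, hM]
        have hmsg : S'.msg ((S'.run σ t).st p) = S.msg ((S.run σ t).st p) := by
          rw [e2]
          unfold Sys.msg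
          rw [hi, hM, hK]
        rw [Sys.step, Sys.step, if_neg hI, if_neg hI']
        by_cases hw : ((S.run σ t).st p).pos < S.lw ((S.run σ t).st p).i
        · rw [if_pos hw, if_pos (by rw [hi, hps, hs.lw]; exact hw)]
          refine ⟨?_, fun q => ?_⟩
          · simp only [hwt, hmsg, hs.ch, hi, hmem]
          · by_cases hq : q = p
            · subst hq
              simp only [Function.update_self]
              rcases hF with h | h
              · exact Or.inr (Or.inl (by rw [h]))
              · refine Or.inr (Or.inr ⟨hi, ?_, hd, hK, hM, hI, h.lt, Nat.succ_pos _⟩)
                simp only [Sys.wr, hps]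
            · simp only [Function.update_of_ne hq]
              rw [hoth q hq]
              exact hst q
        · rw [if_neg hw, if_neg (by rw [hi, hps, hs.lw]; exact hw)]
          refine ⟨hmem, fun q => ?_⟩
          by_cases hq : q = p
          · subst hq
            simp only [Function.update_self, hmem, hi, hs.ch, e3]
            by_cases hlt : S.al σ q (((S.run σ t).st q).i + 1) ≤ τ
            · -- the read list is the same
              have h : (S'.run σ t).st q = (S.run σ t).st q := by
                rcases hF with h | h
                · exact h
                · exact absurd hlt (not_le.2 h.lt)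
              have hrt : S'.rt q ((S'.run σ t).st q) = S.rt q ((S.run σ t).st q) := by
                rw [h]
                unfold Sys.rt
                rw [htr _ _ _ hiE hlt, hs.lw]
              exact Or.inr (Or.inl (by rw [hrt, h]))
            · push Not at hlt
              by_cases hl : ((S.run σ t).st q).pos + 1 <
                  S.lw ((S.run σ t).st q).i + S.lr ((S.run σ t).st q).i
              · -- the pass goes on
                refine Or.inr (Or.inr ?_)
                unfold Sys.rd
                rw [if_pos hl, if_pos (by rw [hi, hps]; exact hl)]
                refine ⟨hi, ?_, hd, hK, hM, hI, hlt, Nat.succ_pos _⟩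
                simp only [hps]
              · -- the pass ends, the next one begins after `τ`
                left
                have h1 : cnt σ q (t + 1) = S.off (((S.run σ t).st q).i + 1) := by
                  rw [hself, off_succ]
                  omega
                rw [h1]
                exact hlt
          · simp only [Function.update_of_ne hq]
            rw [hoth q hq]
            exact hst q

end Sys

end Pool.Agent.E217
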