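import Pool.Agent.MP217Exact.MSame

set_option autoImplicit false

/-!
# The machine: the influence of writes
-/

namespace Pool.Agent.E217

open Finset

attribute [local instance 10] Classical.propDecidable

variable {n : ℕ} {D : Type}

namespace Sys

/-- `x` does not read in the passes from `i1` on before time `τ`. -/
def Hid (S : Sys n D) (σ : ℕ → Option (Fin n)) (i1 τ : ℕ) (x : Fin n) : Prop :=
  ¬ (S.Al σ x i1 ∧ S.be σ x i1 < τ)

/-- Two programs which differ only in the write lists, in one channel, and there only in the
addressees which have not yet read in this channel (or are the writer itself), have the same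
states.
PROOF: induction on `t ≤ τ`: all states agree, and all registers agree except those with channel
`c0` whose reader `x` is hidden (`Hid`); such a processor does not read in channel `c0` before
time `τ` (`hc0`, `al_of`, `al_mono`). -/
theorem locW {S S' : Sys n D} (hS : S.Ok) (hS' : S'.Ok) (hs : Same S S')
    (htr : S'.tr = S.tr) (hsh : S'.sh = S.sh) (hd0 : S'.d0 = S.d0) (hnd : S'.nd = S.nd)
    (hsp : S'.sp = S.sp) {σ : ℕ → Option (Fin n)} (hσ : Fair σ) (c0 i1 τ : ℕ)
    (hc0 : ∀ j < S.E, S.ch j = c0 → i1 ≤ j)
    (htw : ∀ p i M k, i < S.E → k < S.lw i →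
      (S'.tw p i M).getD k p = (S.tw p i M).getD k p ∨
      (S.ch i = c0 ∧ ((S.tw p i M).getD k p = p ∨ S.Hid σ i1 τ ((S.tw p i M).getD k p)) ∧
        ((S'.tw p i M).getD k p = p ∨ S.Hid σ i1 τ ((S'.tw p i M).getD k p)))) :
    ∀ t ≤ τ, ∀ p, (S'.run σ t).st p = (S.run σ t).st p := by
  have e1 : ∀ s : LSt n D, S'.Idle s ↔ S.Idle s := by
    intro s
    unfold Sys.Idle
    rw [hsp, hs.E]
  have e2 : S'.msg = S.msg := by
    funext s
    simp only [Sys.msg, hs.tm]
  have e3 : S'.rd = S.rd := by
    funext p s m
    simp only [Sys.rd, Sys.fin, Sys.beg, Sys.bM, hs.lw, hs.lr, hnd, hsh, hs.rs]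
  have e4 : S'.rt = S.rt := by
    funext p s
    simp only [Sys.rt, htr, hs.lw]
  suffices H : ∀ t ≤ τ, (∀ p, (S'.run σ t).st p = (S.run σ t).st p) ∧
      ∀ w x c, (S'.run σ t).mem w x c = (S.run σ t).mem w x c ∨
        (c = c0 ∧ S.Hid σ i1 τ x) from fun t ht => (H t ht).1
  intro t
  induction t with
  | zero =>
    intro _
    refine ⟨fun p => ?_, fun w x c => Or.inl rfl⟩
    change S'.beg p 0 (S'.d0 p) ∅ ∅ = S.beg p 0 (S.d0 p) ∅ ∅
    simp only [Sys.beg, Sys.bM, hs.rs, hsh, hd0]
  | succ t ih =>
    intro ht
    obtain ⟨hst, hmem⟩ := ih (by omega)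
    have hst' : (S'.run σ t).st = (S.run σ t).st := funext hst
    rw [Sys.run, Sys.run]
    rcases hp : σ t with _ | p
    · exact ⟨hst, hmem⟩
    · simp only
      by_cases hI : S.Idle ((S.run σ t).st p)
      · rw [Sys.step, Sys.step, if_pos hI, if_pos (by rw [hst, e1]; exact hI)]
        exact ⟨hst, hmem⟩
      · have hI' : ¬ S'.Idle ((S'.run σ t).st p) := by rw [hst, e1]; exact hI
        rw [Sys.step, Sys.step, if_neg hI, if_neg hI']
        obtain ⟨hiE, hAl, hoff, hoff'⟩ := al_of hS hσ hI
        obtain ⟨hpos, hpos'⟩ := pos_cnt hS hI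
        by_cases hw : ((S.run σ t).st p).pos < S.lw ((S.run σ t).st p).i
        · rw [if_pos hw, if_pos (by rw [hst, hs.lw]; exact hw)]
          refine ⟨fun q => ?_, fun w x c => ?_⟩
          · simp only [hst']
          · simp only [hst, e2, hs.ch]
            have key := htw p ((S.run σ t).st p).i ((S.run σ t).st p).M
              ((S.run σ t).st p).pos hiE hw
            change S'.wt p ((S.run σ t).st p) = S.wt p ((S.run σ t).st p) ∨
              (S.ch ((S.run σ t).st p).i = c0 ∧
                (S.wt p ((S.run σ t).st p) = p ∨ S.Hid σ i1 τ (S.wt p ((S.run σ t).st p))) ∧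
                (S'.wt p ((S.run σ t).st p) = p ∨
                  S.Hid σ i1 τ (S'.wt p ((S.run σ t).st p)))) at key
            rcases key with h | ⟨h1, h2, h3⟩
            · rw [h]
              split_ifs
              · exact Or.inl rfl
              · exact hmem w x c
            · by_cases a1 : (w = p ∧ x ≠ p) ∧ x = S'.wt p ((S.run σ t).st p) ∧
                c = S.ch ((S.run σ t).st p).i
              · refine Or.inr ⟨a1.2.2.trans h1, ?_⟩
                rcases h3 with h3 | h3
                · exact absurd (a1.2.1.trans h3) a1.1.2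
                · rw [a1.2.1]; exact h3
              · by_cases a2 : (w = p ∧ x ≠ p) ∧ x = S.wt p ((S.run σ t).st p) ∧
                  c = S.ch ((S.run σ t).st p).i
                · refine Or.inr ⟨a2.2.2.trans h1, ?_⟩
                  rcases h2 with h2 | h2
                  · exact absurd (a2.2.1.trans h2) a2.1.2
                  · rw [a2.2.1]; exact h2
                · rw [if_neg a1, if_neg a2]
                  exact hmem w x c
        · rw [if_neg hw, if_neg (by rw [hst, hs.lw]; exact hw)]
          refine ⟨fun q => ?_, hmem⟩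
          have key : (S'.run σ t).mem (S.rt p ((S.run σ t).st p)) p
              (S.ch ((S.run σ t).st p).i) = (S.run σ t).mem (S.rt p ((S.run σ t).st p)) p
              (S.ch ((S.run σ t).st p).i) := by
            rcases hmem (S.rt p ((S.run σ t).st p)) p (S.ch ((S.run σ t).st p).i) with h | ⟨h, h'⟩
            · exact h
            · exfalso
              apply h'
              have h1 := hc0 _ hiE h
              refine ⟨al_mono hS hσ hAl h1 hiE.le, ?_⟩
              have h2 : S.off i1 + S.lw i1 ≤ cnt σ p t := by
                rcases h1.eq_or_lt with h3 | h3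
                · rw [h3]; omega
                · have h4 := S.off_mono (show i1 + 1 ≤ ((S.run σ t).st p).i from h3)
                  rw [Sys.off_succ] at h4
                  omega
              have h3 : S.be σ p i1 ≤ t := by
                have h4 := (tme_le hσ p).2 h2
                rw [tme_cnt hp] at h4
                exact h4
              omega
          simp only [hst', e3, e4, hs.ch, key]

end Sys

end Pool.Agent.E217
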