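import Pool.Agent.MP217Exact.MTime

set_option autoImplicit false

/-!
# The machine: the end of a pass
-/

namespace Pool.Agent.E217

open Finset

attribute [local instance 10] Classical.propDecidable

variable {n : ℕ} {D : Type}

namespace Sys

variable {S : Sys n D} {σ : ℕ → Option (Fin n)}

private theorem run_succ_some {p : Fin n} {t : ℕ} (h : σ t = some p) :
    S.run σ (t + 1) = S.step p (S.run σ t) := by
  simp only [run, h]

private theorem run_succ_none {t : ℕ} (h : σ t = none) :
    S.run σ (t + 1) = S.run σ t := by
  simp only [run, h]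

private theorem inv_acc (p : Fin n) (t : ℕ) :
    ((S.run σ t).st p).pos ≤ S.lw ((S.run σ t).st p).i →
      ((S.run σ t).st p).aK = ∅ ∧ ((S.run σ t).st p).aM = ∅ := by
  induction t with
  | zero =>
    intro _
    simp only [run, init, beg, and_self]
  | succ t ih =>
    by_cases hp : σ t = some p
    · rw [run_succ_some hp]
      unfold step
      by_cases hid : S.Idle ((S.run σ t).st p)
      · rw [if_pos hid]
        exact ih
      · rw [if_neg hid]
        by_cases hw : ((S.run σ t).st p).pos < S.lw ((S.run σ t).st p).i
        · rw [if_pos hw]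
          intro _
          simp only [Function.update_self, wr]
          exact ih hw.le
        · rw [if_neg hw]
          simp only [Function.update_self]
          unfold rd
          split_ifs with hl
          · intro hh
            simp only at hh
            omega
          · intro _
            simp only [fin, beg, and_self]
    · rw [st_ne hp]
      exact ih

private theorem lt_iff (hσ : Fair σ) (p : Fin n) {m t : ℕ} :
    tme σ p m < t ↔ m < cnt σ p t := by
  have := le_tme_iff hσ p (k := m) (t := t)
  constructor
  · intro h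
    by_contra hc
    exact absurd (this.2 (not_lt.1 hc)) (not_le.2 h)
  · intro h
    by_contra hc
    exact absurd (this.1 (not_lt.1 hc)) (not_le.2 h)

/-- The messages collected during the read part of pass `i`. -/
theorem acc_in (hS : S.Ok) (hσ : Fair σ) {p : Fin n} {i t : ℕ} (hi : i < S.E)
    (h : S.Al σ p i) (h1 : S.off i ≤ cnt σ p t) (h2 : cnt σ p t < S.off (i + 1)) :
    ((S.run σ t).st p).aK = ((range (S.lr i)).filter fun k =>
        tme σ p (S.off i + S.lw i + k) < t).biUnion (fun k =>
      ((S.run σ (tme σ p (S.off i + S.lw i + k))).mem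
        ((S.tr p i (S.sI σ p i).M).getD k p) p (S.ch i)).2) ∧
    ((S.run σ t).st p).aM = ((range (S.lr i)).filter fun k =>
        tme σ p (S.off i + S.lw i + k) < t).biUnion (fun k =>
      ((S.run σ (tme σ p (S.off i + S.lw i + k))).mem
        ((S.tr p i (S.sI σ p i).M).getD k p) p (S.ch i)).1) := by
  have hfil : ∀ t, ((range (S.lr i)).filter fun k => tme σ p (S.off i + S.lw i + k) < t) =
      ((range (S.lr i)).filter fun k => S.off i + S.lw i + k < cnt σ p t) := by
    intro t
    ext k
    simp only [mem_filter, lt_iff hσ]
  rw [hfil]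
  revert h1 h2
  induction t with
  | zero =>
    intro h1 h2
    have h0 : cnt σ p 0 = 0 := by simp [cnt]
    have he : ((range (S.lr i)).filter fun k => S.off i + S.lw i + k < cnt σ p 0) = ∅ := by
      rw [h0]
      ext k
      simp
    rw [he]
    simp only [run, init, beg, biUnion_empty, and_self]
  | succ t ih =>
    intro h1 h2
    by_cases hp : σ t = some p
    · have hc := cnt_succ_self hp
      by_cases hb : S.off i ≤ cnt σ p t
      · have ih' := ih hb (by omega)
        obtain ⟨si, spos, sd, sK, sM⟩ := st_in hS hσ hi h hb (by omega)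
        have hid : ¬ S.Idle ((S.run σ t).st p) := by
          unfold Idle
          rw [sd, si, h.2.2]
          simp only [Bool.false_eq_true, false_or, not_le]
          exact hi
        have hoff := off_succ S i
        rw [run_succ_some hp, hc]
        unfold step
        rw [if_neg hid]
        by_cases hw : ((S.run σ t).st p).pos < S.lw ((S.run σ t).st p).i
        · rw [if_pos hw]
          simp only [Function.update_self, wr]
          rw [spos, si] at hw
          have he : ((range (S.lr i)).filter fun k => S.off i + S.lw i + k < cnt σ p t + 1) =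
              ((range (S.lr i)).filter fun k => S.off i + S.lw i + k < cnt σ p t) := by
            ext k
            simp only [mem_filter]
            constructor
            · rintro ⟨_, hk⟩
              omega
            · rintro ⟨_, hk⟩
              omega
          rw [he]
          exact ih'
        · rw [if_neg hw]
          simp only [Function.update_self]
          rw [spos, si] at hw
          have hrd : ((S.run σ t).st p).pos + 1 <
              S.lw ((S.run σ t).st p).i + S.lr ((S.run σ t).st p).i := by
            rw [spos, si]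
            omega
          unfold rd
          rw [if_pos hrd]
          simp only
          have hk0 : cnt σ p t = S.off i + S.lw i + (cnt σ p t - S.off i - S.lw i) := by omega
          have he : ((range (S.lr i)).filter fun k => S.off i + S.lw i + k < cnt σ p t + 1) =
              insert (cnt σ p t - S.off i - S.lw i)
                ((range (S.lr i)).filter fun k => S.off i + S.lw i + k < cnt σ p t) := by
            ext k
            simp only [mem_filter, mem_insert, mem_range]
            constructor
            · rintro ⟨hk1, hk⟩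
              by_cases hkk : k = cnt σ p t - S.off i - S.lw i
              · exact Or.inl hkk
              · exact Or.inr ⟨hk1, by omega⟩
            · rintro (hk | ⟨hk1, hk⟩)
              · exact ⟨by omega, by omega⟩
              · exact ⟨hk1, by omega⟩
          have htm : tme σ p (S.off i + S.lw i + (cnt σ p t - S.off i - S.lw i)) = t := by
            rw [← hk0]
            exact tme_cnt hp
          have hrt : S.rt p ((S.run σ t).st p) =
              (S.tr p i (S.sI σ p i).M).getD (cnt σ p t - S.off i - S.lw i) p := by
            unfold rt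
            rw [spos, si, sM]
          rw [he, biUnion_insert, biUnion_insert, htm, ih'.1, ih'.2, hrt, si]
          exact ⟨union_comm _ _, union_comm _ _⟩
      · have hce : cnt σ p (t + 1) = S.off i := by omega
        have hst := st_beg (S := S) hσ hce
        have hpos : ((S.run σ (t + 1)).st p).pos = 0 := by
          rw [hst]
          exact h.2.1
        have hinv := inv_acc (S := S) (σ := σ) p (t + 1) (by rw [hpos]; exact Nat.zero_le _)
        have he : ((range (S.lr i)).filter fun k => S.off i + S.lw i + k < cnt σ p (t + 1)) =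
            ∅ := by
          rw [hce]
          ext k
          simp only [mem_filter, notMem_empty, iff_false, not_and, not_lt]
          intro _
          omega
        rw [he]
        simp only [biUnion_empty]
        exact hinv
    · rw [st_ne hp, cnt_succ_ne hp]
      rw [cnt_succ_ne hp] at h1 h2
      exact ih h1 h2

/-- The state after pass `i`. -/
theorem sI_succ (hS : S.Ok) (hσ : Fair σ) {p : Fin n} {i : ℕ} (hi : i < S.E)
    (h : S.Al σ p i) : S.sI σ p (i + 1) =
      S.beg p (i + 1) (S.nd p i (S.KE σ p i) (S.ME σ p i) (S.sI σ p i).d) (S.KE σ p i)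
        (S.ME σ p i) := by
  have hoff := off_succ S i
  have hlw := hS.lw_pos i
  have hlr := hS.lr_pos i
  set t := tme σ p (S.off (i + 1) - 1) with ht
  have hct : cnt σ p t = S.off (i + 1) - 1 := cnt_tme hσ p _
  have hp : σ t = some p := sched_tme hσ p _
  have hc : cnt σ p (t + 1) = S.off (i + 1) := by
    rw [cnt_succ_self hp, hct]
    omega
  rw [← st_beg (S := S) hσ hc]
  have h1 : S.off i ≤ cnt σ p t := by omega
  have h2 : cnt σ p t < S.off (i + 1) := by omega
  obtain ⟨si, spos, sd, sK, sM⟩ := st_in hS hσ hi h h1 h2
  obtain ⟨aK, aM⟩ := acc_in hS hσ hi h h1 h2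
  have hid : ¬ S.Idle ((S.run σ t).st p) := by
    unfold Idle
    rw [sd, si, h.2.2]
    simp only [Bool.false_eq_true, false_or, not_le]
    exact hi
  rw [run_succ_some hp]
  unfold step
  rw [if_neg hid]
  have hw : ¬ ((S.run σ t).st p).pos < S.lw ((S.run σ t).st p).i := by
    rw [spos, si]
    omega
  rw [if_neg hw]
  simp only [Function.update_self]
  have hrd : ¬ ((S.run σ t).st p).pos + 1 <
      S.lw ((S.run σ t).st p).i + S.lr ((S.run σ t).st p).i := by
    rw [spos, si]
    omega
  unfold rd
  rw [if_neg hrd]
  have hrt : S.rt p ((S.run σ t).st p) =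
      (S.tr p i (S.sI σ p i).M).getD (S.lr i - 1) p := by
    unfold rt
    rw [spos, si, sM]
    congr 1
    omega
  have htm : tme σ p (S.off i + S.lw i + (S.lr i - 1)) = t := by
    rw [ht]
    congr 1
    omega
  have hfil : insert (S.lr i - 1) ((range (S.lr i)).filter fun k =>
      tme σ p (S.off i + S.lw i + k) < t) = range (S.lr i) := by
    ext k
    simp only [mem_filter, mem_insert, mem_range, lt_iff hσ, hct]
    constructor
    · rintro (hk | ⟨hk1, _⟩)
      · omega
      · exact hk1
    · intro hk
      by_cases hkk : k = S.lr i - 1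
      · exact Or.inl hkk
      · exact Or.inr ⟨hk, by omega⟩
  have hK : outK ((S.run σ t).st p)
      ((S.run σ t).mem (S.rt p ((S.run σ t).st p)) p (S.ch ((S.run σ t).st p).i)) =
      S.KE σ p i := by
    unfold outK KE inK
    rw [aK, sK, hrt, si]
    congr 1
    rw [← hfil, biUnion_insert, htm, hfil]
    exact union_comm _ _
  have hM : outM ((S.run σ t).st p)
      ((S.run σ t).mem (S.rt p ((S.run σ t).st p)) p (S.ch ((S.run σ t).st p).i)) =
      S.ME σ p i := by
    unfold outM ME inM
    rw [aM, sM, hrt, si]
    congr 1
    rw [← hfil, biUnion_insert, htm, hfil]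
    exact union_comm _ _
  unfold fin
  rw [hK, hM, si, sd]

theorem al_succ (hS : S.Ok) (hσ : Fair σ) {p : Fin n} {i : ℕ} (hi : i < S.E)
    (h : S.Al σ p i) : S.Al σ p (i + 1) ↔
      S.sp (S.nd p i (S.KE σ p i) (S.ME σ p i) (S.sI σ p i).d) = false := by
  unfold Al
  rw [sI_succ hS hσ hi h]
  simp only [beg, true_and]

theorem sI_zero (S : Sys n D) (hσ : Fair σ) (p : Fin n) : S.sI σ p 0 = S.beg p 0 (S.d0 p) ∅ ∅ := by
  have h0 : cnt σ p 0 = S.off 0 := by simp [cnt, off]
  rw [← st_beg (S := S) hσ h0]
  rfl

/-- The own fact. -/
theorem own_K (hS : S.Ok) (hσ : Fair σ) {p : Fin n} {i : ℕ} (hi : i ≤ S.E) (h : S.Al σ p i) :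
    (⟨p, i, (S.sI σ p i).d, (S.sI σ p i).M, S.sh p i⟩ : Fact n D) ∈ (S.sI σ p i).K := by
  cases i with
  | zero =>
    rw [sI_zero S hσ]
    simp only [beg]
    exact mem_insert_self _ _
  | succ i =>
    rw [sI_succ hS hσ (by omega) (al_mono hS hσ h (Nat.le_succ i) hi)]
    simp only [beg]
    exact mem_insert_self _ _

theorem own_M (hS : S.Ok) (hσ : Fair σ) {p : Fin n} {i : ℕ} (hi : i ≤ S.E) (h : S.Al σ p i) :
    (p, i) ∈ (S.sI σ p i).M := by
  cases i with
  | zero =>
    rw [sI_zero S hσ]
    simp only [beg, bM]
    exact mem_insert_self _ _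
  | succ i =>
    rw [sI_succ hS hσ (by omega) (al_mono hS hσ h (Nat.le_succ i) hi)]
    simp only [beg, bM]
    exact mem_insert_self _ _

private theorem K_step (hS : S.Ok) (hσ : Fair σ) {p : Fin n} {j : ℕ} (hj : j + 1 ≤ S.E)
    (h : S.Al σ p (j + 1)) : S.KE σ p j ⊆ (S.sI σ p (j + 1)).K := by
  rw [sI_succ hS hσ (by omega) (al_mono hS hσ h (Nat.le_succ j) hj)]
  simp only [beg]
  exact subset_insert _ _

private theorem M_step (hS : S.Ok) (hσ : Fair σ) {p : Fin n} {j : ℕ} (hj : j + 1 ≤ S.E)
    (h : S.Al σ p (j + 1)) (hr : S.rs (j + 1) = false) :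
    S.ME σ p j ⊆ (S.sI σ p (j + 1)).M := by
  rw [sI_succ hS hσ (by omega) (al_mono hS hσ h (Nat.le_succ j) hj)]
  simp only [beg, bM, hr, Bool.false_eq_true, if_false]
  exact subset_insert _ _

theorem K_mono (hS : S.Ok) (hσ : Fair σ) {p : Fin n} {i j : ℕ} (hij : i ≤ j) (hj : j ≤ S.E)
    (h : S.Al σ p j) : (S.sI σ p i).K ⊆ (S.sI σ p j).K := by
  induction j, hij using Nat.le_induction with
  | base => exact Subset.refl _
  | succ j hij ih =>
    refine (ih (by omega) (al_mono hS hσ h (Nat.le_succ j) hj)).trans ?_
    exact subset_union_left.trans (K_step hS hσ hj h)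

/-- `KE` for an earlier pass. -/
theorem KE_sub (hS : S.Ok) (hσ : Fair σ) {p : Fin n} {i j : ℕ} (hij : i < j) (hj : j ≤ S.E)
    (h : S.Al σ p j) : S.KE σ p i ⊆ (S.sI σ p j).K :=
  (K_step hS hσ (by omega) (al_mono hS hσ h hij hj)).trans (K_mono hS hσ hij hj h)

theorem M_mono (hS : S.Ok) (hσ : Fair σ) {p : Fin n} {i j : ℕ} (hij : i ≤ j) (hj : j ≤ S.E)
    (h : S.Al σ p j) (hr : ∀ k, i < k → k ≤ j → S.rs k = false) :
    (S.sI σ p i).M ⊆ (S.sI σ p j).M := by
  induction j, hij using Nat.le_induction with
  | base => exact Subset.refl _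
  | succ j hij ih =>
    refine (ih (by omega) (al_mono hS hσ h (Nat.le_succ j) hj)
      (fun k hk1 hk2 => hr k hk1 (by omega))).trans ?_
    exact subset_union_left.trans (M_step hS hσ hj h (hr (j + 1) (by omega) le_rfl))

theorem ME_sub (hS : S.Ok) (hσ : Fair σ) {p : Fin n} {i j : ℕ} (hij : i < j) (hj : j ≤ S.E)
    (h : S.Al σ p j) (hr : ∀ k, i < k → k ≤ j → S.rs k = false) :
    S.ME σ p i ⊆ (S.sI σ p j).M :=
  (M_step hS hσ (by omega) (al_mono hS hσ h hij hj) (hr (i + 1) (by omega) hij)).trans
    (M_mono hS hσ hij hj h (fun k hk1 hk2 => hr k (by omega) hk2))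

end Sys

end Pool.Agent.E217
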