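import Pool.Agent.MP217Exact.MWork
import Pool.Agent.MP217Area.RP

set_option autoImplicit false

/-!
# Programs with coins as round protocols: definitions
-/

namespace Pool.Agent.E217

open Finset MeasureTheory
open scoped ENNReal
open Pool.Agent.A217 (RP RAct)

attribute [local instance 10] Classical.propDecidable

/-- A program with coins; `val` and `dec` are the value and the decision of a processor with
given data. -/
structure Prg (n : ℕ) (D : Type) where
  E : ℕ
  lw : ℕ → ℕ
  lr : ℕ → ℕ
  ch : ℕ → ℕ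
  tm : ℕ → Bool
  rs : ℕ → Bool
  tw : (ℕ → Bool) → Fin n → ℕ → Finset (Stp n) → List (Fin n)
  tr : (ℕ → Bool) → Fin n → ℕ → Finset (Stp n) → List (Fin n)
  sh : (ℕ → Bool) → Fin n → ℕ → List (Fin n)
  d0 : Bool → Fin n → D
  nd : (ℕ → Bool) → Fin n → ℕ → Finset (Fact n D) → Finset (Stp n) → D → D
  sp : D → Bool
  val : D → Bool
  dec : D → Bool

namespace Prg

variable {n : ℕ} {D : Type}

/-- The program for given preferences and coins. -/
def sys (P : Prg n D) (x : Fin n → Bool) (c : Fin n → ℕ → Bool) : Sys n D where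
  E := P.E
  lw := P.lw
  lr := P.lr
  ch := P.ch
  tm := P.tm
  rs := P.rs
  tw p := P.tw (c p) p
  tr p := P.tr (c p) p
  sh p := P.sh (c p) p
  d0 p := P.d0 (x p) p
  nd p := P.nd (c p) p
  sp := P.sp

/-- The conditions on a program with coins. -/
structure Ok (P : Prg n D) : Prop where
  cD : Countable D
  sys : ∀ x c, (P.sys x c).Ok
  E_pos : 0 < P.E
  d0 : ∀ b p, P.sp (P.d0 b p) = false
  tw_meas : ∀ p i M T, MeasurableSet {c | P.tw c p i M = T}
  tr_meas : ∀ p i M T, MeasurableSet {c | P.tr c p i M = T}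
  sh_meas : ∀ p i T, MeasurableSet {c | P.sh c p i = T}
  nd_meas : ∀ p i K M d d', MeasurableSet {c | P.nd c p i K M d = d'}

/-- The program for one processor with preference `b` and coins `c`. -/
def own (P : Prg n D) (b : Bool) (c : ℕ → Bool) : Sys n D := P.sys (fun _ => b) (fun _ => c)

private theorem pr_cfact (n : ℕ) {D : Type} (hD : Countable D) : Countable (Fact n D) := by
  have := hD
  apply Function.Injective.countable (f := fun x : Fact n D => (x.a, x.i, x.d, x.M, x.T))
  rintro ⟨a, i, d, M, T⟩ ⟨a', i', d', M', T'⟩ h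
  simp only [Prod.mk.injEq] at h
  obtain ⟨rfl, rfl, rfl, rfl, rfl⟩ := h
  rfl

private theorem pr_clst (n : ℕ) {D : Type} (hD : Countable D) : Countable (LSt n D) := by
  have := hD
  have := pr_cfact n hD
  apply Function.Injective.countable (f := fun s : LSt n D =>
    (s.i, s.pos, s.d, s.K, s.M, s.aK, s.aM))
  rintro ⟨i, pos, d, K, M, aK, aM⟩ ⟨i', pos', d', K', M', aK', aM'⟩ h
  simp only [Prod.mk.injEq] at h
  obtain ⟨rfl, rfl, rfl, rfl, rfl, rfl, rfl⟩ := h
  rfl

section fib

variable {Ω X Y Z : Type} [MeasurableSpace Ω]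

/-- All fibres are measurable. -/
private def prFib (f : Ω → X) : Prop := ∀ x, MeasurableSet {c | f c = x}

private theorem pr_const (x : X) : prFib (fun _ : Ω => x) := by
  intro y
  by_cases h : x = y
  · simp [h]
  · simp [h]

private theorem pr_bind (hX : Countable X) {f : Ω → X} (hf : prFib f) {F : X → Ω → Z}
    (hF : ∀ x, prFib (F x)) : prFib (fun c => F (f c) c) := by
  have := hX
  intro z
  have : {c | F (f c) c = z} = ⋃ x, ({c | f c = x} ∩ {c | F x c = z}) := by
    ext c
    simp only [Set.mem_iUnion, Set.mem_inter_iff]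
    constructor
    · intro h
      exact ⟨f c, rfl, h⟩
    · rintro ⟨x, h1, h2⟩
      change f c = x at h1
      subst h1
      exact h2
  rw [this]
  exact MeasurableSet.iUnion fun x => (hf x).inter (hF x z)

private theorem pr_map (hX : Countable X) {f : Ω → X} (hf : prFib f) (g : X → Z) :
    prFib (fun c => g (f c)) :=
  pr_bind hX hf (F := fun x _ => g x) fun x => pr_const (g x)

end fib

theorem exists_enc (n : ℕ) {D : Type} (hD : Countable D) :
    ∃ (enc : Msg n D → ℕ) (dcd : ℕ → Msg n D), (∀ m, dcd (enc m) = m) ∧ dcd 0 = (∅, ∅) := by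
  have := hD
  have := pr_cfact n hD
  obtain ⟨f, hf⟩ := exists_injective_nat (Msg n D)
  refine ⟨fun K => f K + 1, fun m => if h : ∃ K, f K + 1 = m then h.choose else (∅, ∅), ?_, ?_⟩
  · intro K
    have h : ∃ K', f K' + 1 = f K + 1 := ⟨K, rfl⟩
    simp only
    rw [dif_pos h]
    have := h.choose_spec
    exact hf (by omega)
  · simp only
    rw [dif_neg]
    rintro ⟨K, h⟩
    omega

/-- Encoding and decoding of messages. -/
noncomputable def enc (hD : Countable D) (m : Msg n D) : ℕ := (exists_enc n hD).choose m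

noncomputable def dcd (hD : Countable D) (v : ℕ) : Msg n D :=
  (exists_enc n hD).choose_spec.choose v

theorem dcd_enc (hD : Countable D) (m : Msg n D) : dcd hD (enc hD m) = m :=
  (exists_enc n hD).choose_spec.choose_spec.1 m

theorem dcd_zero (hD : Countable D) : (dcd hD 0 : Msg n D) = (∅, ∅) :=
  (exists_enc n hD).choose_spec.choose_spec.2

/-- Local states of the round protocol: the state of the machine and the two lists of the
current pass. -/
abbrev RSt (n : ℕ) (D : Type) : Type := LSt n D × List (Fin n) × List (Fin n)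

/-- Add the lists at the beginning of a pass. -/
noncomputable def full (P : Prg n D) (p : Fin n) (c : ℕ → Bool) (s : LSt n D) : RSt n D :=
  (s, P.tw c p s.i s.M, P.tr c p s.i s.M)

theorem countable_rst (hD : Countable D) : Countable (RSt n D) := by
  have := hD
  have := pr_clst n hD
  infer_instance

private theorem pr_full (P : Prg n D) (hP : P.Ok) (p : Fin n) (b : Bool) (i : ℕ)
    {g : (ℕ → Bool) → D} (hg : prFib g) (K : Finset (Fact n D)) (M : Finset (Stp n)) :
    prFib (fun c : ℕ → Bool => P.full p c ((P.own b c).beg p i (g c) K M)) := by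
  have hcl : Countable (List (Fin n)) := inferInstance
  have h3 : ∀ (d : D) (T L : List (Fin n)), prFib (fun c : ℕ → Bool =>
      (((⟨i, 0, d, insert ⟨p, i, d, (P.own b (fun _ => false)).bM p i M, T⟩ K,
        (P.own b (fun _ => false)).bM p i M, ∅, ∅⟩ : LSt n D), L,
        P.tr c p i ((P.own b (fun _ => false)).bM p i M)) : RSt n D)) := by
    intro d T L
    exact pr_map hcl (f := fun c3 : ℕ → Bool => P.tr c3 p i ((P.own b (fun _ => false)).bM p i M))
      (fun T' => hP.tr_meas p i _ T')
      (fun (L' : List (Fin n)) =>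
        (((⟨i, 0, d, insert ⟨p, i, d, (P.own b (fun _ => false)).bM p i M, T⟩ K,
          (P.own b (fun _ => false)).bM p i M, ∅, ∅⟩ : LSt n D), L, L') : RSt n D))
  have h2 : ∀ (d : D) (T : List (Fin n)), prFib (fun c : ℕ → Bool =>
      (((⟨i, 0, d, insert ⟨p, i, d, (P.own b (fun _ => false)).bM p i M, T⟩ K,
        (P.own b (fun _ => false)).bM p i M, ∅, ∅⟩ : LSt n D),
        P.tw c p i ((P.own b (fun _ => false)).bM p i M),
        P.tr c p i ((P.own b (fun _ => false)).bM p i M)) : RSt n D)) := by
    intro d T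
    exact pr_bind hcl (f := fun c : ℕ → Bool => P.tw c p i ((P.own b (fun _ => false)).bM p i M))
      (F := fun (L : List (Fin n)) (c : ℕ → Bool) =>
        (((⟨i, 0, d, insert ⟨p, i, d, (P.own b (fun _ => false)).bM p i M, T⟩ K,
          (P.own b (fun _ => false)).bM p i M, ∅, ∅⟩ : LSt n D), L,
          P.tr c p i ((P.own b (fun _ => false)).bM p i M)) : RSt n D))
      (fun T' => hP.tw_meas p i _ T') (fun L => h3 d T L)
  have h1 : ∀ d : D, prFib (fun c : ℕ → Bool =>
      (((⟨i, 0, d, insert ⟨p, i, d, (P.own b (fun _ => false)).bM p i M, P.sh c p i⟩ K,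
        (P.own b (fun _ => false)).bM p i M, ∅, ∅⟩ : LSt n D),
        P.tw c p i ((P.own b (fun _ => false)).bM p i M),
        P.tr c p i ((P.own b (fun _ => false)).bM p i M)) : RSt n D)) := by
    intro d
    exact pr_bind hcl (f := fun c : ℕ → Bool => P.sh c p i)
      (F := fun (T : List (Fin n)) (c : ℕ → Bool) =>
        (((⟨i, 0, d, insert ⟨p, i, d, (P.own b (fun _ => false)).bM p i M, T⟩ K,
          (P.own b (fun _ => false)).bM p i M, ∅, ∅⟩ : LSt n D),
          P.tw c p i ((P.own b (fun _ => false)).bM p i M),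
          P.tr c p i ((P.own b (fun _ => false)).bM p i M)) : RSt n D))
      (fun T' => hP.sh_meas p i T') (fun T => h2 d T)
  exact pr_bind hP.cD hg (F := fun (d : D) (c : ℕ → Bool) =>
      (((⟨i, 0, d, insert ⟨p, i, d, (P.own b (fun _ => false)).bM p i M, P.sh c p i⟩ K,
        (P.own b (fun _ => false)).bM p i M, ∅, ∅⟩ : LSt n D),
        P.tw c p i ((P.own b (fun _ => false)).bM p i M),
        P.tr c p i ((P.own b (fun _ => false)).bM p i M)) : RSt n D)) h1

theorem init_meas (P : Prg n D) (hP : P.Ok) (p : Fin n) (b : Bool) (s : RSt n D) :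
    MeasurableSet {c | P.full p c ((P.own b c).beg p 0 (P.d0 b p) ∅ ∅) = s} := by
  exact pr_full P hP p b 0 (g := fun _ => P.d0 b p) (pr_const _) ∅ ∅ s

/-- The next state. -/
noncomputable def upd (P : Prg n D) (hD : Countable D) (p : Fin n) (c : ℕ → Bool) (s : RSt n D) :
    Option ℕ → RSt n D
  | none => (Sys.wr s.1, s.2)
  | some v => if s.1.pos + 1 < P.lw s.1.i + P.lr s.1.i then
      ((P.own true c).rd p s.1 (dcd hD v), s.2)
    else P.full p c ((P.own true c).rd p s.1 (dcd hD v))

theorem upd_meas (P : Prg n D) (hP : P.Ok) (p : Fin n) (s : RSt n D) (r : Option ℕ)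
    (s' : RSt n D) : MeasurableSet {c | P.upd hP.cD p c s r = s'} := by
  cases r with
  | none => exact pr_const (Sys.wr s.1, s.2) s'
  | some v =>
    by_cases h : s.1.pos + 1 < P.lw s.1.i + P.lr s.1.i
    · have e : ∀ c : ℕ → Bool, P.upd hP.cD p c s (some v) =
          (({ s.1 with pos := s.1.pos + 1, aK := s.1.aK ∪ (dcd hP.cD v : Msg n D).2,
                       aM := s.1.aM ∪ (dcd hP.cD v : Msg n D).1 } : LSt n D), s.2) := by
        intro c
        have e1 : (P.own true c).rd p s.1 (dcd hP.cD v) =
            { s.1 with pos := s.1.pos + 1, aK := s.1.aK ∪ (dcd hP.cD v : Msg n D).2,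
                       aM := s.1.aM ∪ (dcd hP.cD v : Msg n D).1 } := by
          unfold Sys.rd
          exact if_pos h
        have e2 : P.upd hP.cD p c s (some v) = ((P.own true c).rd p s.1 (dcd hP.cD v), s.2) := by
          unfold Prg.upd
          exact if_pos h
        rw [e2, e1]
      simp only [e]
      exact pr_const _ s'
    · have e : ∀ c : ℕ → Bool, P.upd hP.cD p c s (some v) =
          P.full p c ((P.own true c).beg p (s.1.i + 1)
            (P.nd c p s.1.i (outK s.1 (dcd hP.cD v)) (outM s.1 (dcd hP.cD v)) s.1.d)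
            (outK s.1 (dcd hP.cD v)) (outM s.1 (dcd hP.cD v))) := by
        intro c
        have e1 : (P.own true c).rd p s.1 (dcd hP.cD v) =
            (P.own true c).fin p s.1 (dcd hP.cD v) := by
          unfold Sys.rd
          exact if_neg h
        have e2 : P.upd hP.cD p c s (some v) =
            P.full p c ((P.own true c).rd p s.1 (dcd hP.cD v)) := by
          unfold Prg.upd
          exact if_neg h
        rw [e2, e1]
        rfl
      simp only [e]
      exact pr_full P hP p true (s.1.i + 1)
        (g := fun c => P.nd c p s.1.i (outK s.1 (dcd hP.cD v)) (outM s.1 (dcd hP.cD v)) s.1.d)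
        (fun d' => hP.nd_meas p _ _ _ _ d') _ _ s'

/-- The next action. -/
noncomputable def nxt (P : Prg n D) (hD : Countable D) (p : Fin n) (s : RSt n D) : RAct n :=
  if P.sp s.1.d = true ∨ P.E ≤ s.1.i then .fin (P.val s.1.d) (P.dec s.1.d)
  else if s.1.pos < P.lw s.1.i then
    .write (s.2.1.getD s.1.pos p) (P.ch s.1.i)
      (enc hD (if s.2.1.getD s.1.pos p = p then (∅, ∅)
        else (if P.tm s.1.i = true then s.1.M else ∅, s.1.K)))
  else .read (s.2.2.getD (s.1.pos - P.lw s.1.i) p) (P.ch s.1.i)

theorem init_fin (P : Prg n D) (hP : P.Ok) (p : Fin n) (b : Bool) (c : ℕ → Bool) (v d : Bool) :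
    P.nxt hP.cD p (P.full p c ((P.own b c).beg p 0 (P.d0 b p) ∅ ∅)) ≠ .fin v d := by
  have h : ¬ (P.sp (P.full p c ((P.own b c).beg p 0 (P.d0 b p) ∅ ∅)).1.d = true ∨
      P.E ≤ (P.full p c ((P.own b c).beg p 0 (P.d0 b p) ∅ ∅)).1.i) := by
    change ¬ (P.sp (P.d0 b p) = true ∨ P.E ≤ 0)
    have h1 := hP.d0 b p
    have h2 := hP.E_pos
    rw [h1]
    simp only [Bool.false_eq_true, false_or]
    omega
  unfold Prg.nxt
  rw [if_neg h]
  split_ifs <;> simp

/-- The round protocol of a program. -/
noncomputable def rp (P : Prg n D) (hP : P.Ok) : RP n where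
  S := RSt n D
  cnt := countable_rst hP.cD
  init p b c := P.full p c ((P.own b c).beg p 0 (P.d0 b p) ∅ ∅)
  next p s := P.nxt hP.cD p s
  upd p c s r := P.upd hP.cD p c s r
  init_meas p b s := P.init_meas hP p b s
  upd_meas p s r s' := P.upd_meas hP p s r s'
  init_fin p b c v d := P.init_fin hP p b c v d

end Prg

end Pool.Agent.E217
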