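import Pool.Agent.MP217Area.NumLaw

set_option autoImplicit false

/-!
# Resampling finitely many coins
-/

namespace Pool.Agent.E217

open MeasureTheory
open scoped ENNReal
open Pool.Agent.MP217Upper.Model (coins)
open Pool.Agent.A217 (num)

variable {n : ℕ} {ι : Type}

open Classical in
/-- The coins `c`, where the coin number `e i` is replaced by `v i`. -/
noncomputable def ovr (e : ι → Fin n × ℕ) (c : Fin n → ℕ → Bool) (v : ι → Bool) :
    Fin n → ℕ → Bool :=
  fun p j => if h : ∃ i, e i = (p, j) then v h.choose else c p j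

theorem ovr_self (e : ι → Fin n × ℕ) (he : Function.Injective e) (c : Fin n → ℕ → Bool)
    (v : ι → Bool) (i : ι) : ovr e c v (e i).1 (e i).2 = v i := by
  unfold ovr
  have h : ∃ i', e i' = ((e i).1, (e i).2) := ⟨i, rfl⟩
  rw [dif_pos h]
  exact congrArg v (he h.choose_spec)

theorem ovr_other (e : ι → Fin n × ℕ) (c : Fin n → ℕ → Bool) (v : ι → Bool) {p : Fin n} {j : ℕ}
    (h : ∀ i, e i ≠ (p, j)) : ovr e c v p j = c p j := by
  unfold ovr
  rw [dif_neg fun ⟨i, hi⟩ => h i hi]

/-! ### Independence of coordinates -/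

private theorem re_iIndep :
    ProbabilityTheory.iIndepFun (fun (i : Fin n × ℕ) (c : Fin n → ℕ → Bool) => c i.1 i.2)
    (coins n) := by
  have h := ProbabilityTheory.iIndepFun_uncurry_infinitePi' (ι := Fin n) (κ := ℕ)
    (Ω := fun _ _ => Bool) (X := fun _ _ x => x)
    (fun _ _ => (PMF.uniformOfFintype Bool).toMeasure) (fun _ _ => measurable_id)
  rw [Measure.infinitePi_eq_pi] at h
  exact h

/-- The sigma algebra of one coordinate. -/
private abbrev re_sg (i : Fin n × ℕ) : MeasurableSpace (Fin n → ℕ → Bool) :=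
  MeasurableSpace.comap (fun c : Fin n → ℕ → Bool => c i.1 i.2) inferInstance

private theorem re_sg_le (i : Fin n × ℕ) :
    re_sg i ≤ (inferInstance : MeasurableSpace (Fin n → ℕ → Bool)) := by
  apply Measurable.comap_le
  exact (measurable_pi_apply i.2).comp (measurable_pi_apply i.1)

open Classical in
/-- Keep the coordinates in `T`. -/
private noncomputable def re_keep (T : Set (Fin n × ℕ)) (c : Fin n → ℕ → Bool) :
    Fin n → ℕ → Bool := fun p j => if (p, j) ∈ T then c p j else false

private theorem re_measurable_keep (T : Set (Fin n × ℕ)) :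
    Measurable[⨆ i ∈ T, re_sg i] (re_keep T) := by
  refine @measurable_pi_lambda _ _ _ (⨆ i ∈ T, re_sg i) _ _ fun p => ?_
  refine @measurable_pi_lambda _ _ _ (⨆ i ∈ T, re_sg i) _ _ fun j => ?_
  by_cases h : (p, j) ∈ T
  · have h1 : (fun c : Fin n → ℕ → Bool => re_keep T c p j) = fun c => c p j := by
      funext c
      simp [re_keep, h]
    rw [h1]
    have h2 : Measurable[re_sg (p, j)] (fun c : Fin n → ℕ → Bool => c p j) :=
      comap_measurable _
    exact h2.mono (le_iSup₂ (f := fun (i : Fin n × ℕ) (_ : i ∈ T) => re_sg i) (p, j) h) le_rfl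
  · have h1 : (fun c : Fin n → ℕ → Bool => re_keep T c p j) = fun _ => false := by
      funext c
      simp [re_keep, h]
    rw [h1]
    exact @measurable_const _ _ _ (⨆ i ∈ T, re_sg i) _

private theorem re_mul (T : Set (Fin n × ℕ)) (E : Set (Fin n → ℕ → Bool))
    (g : (Fin n → ℕ → Bool) → ℝ≥0∞) (hE : MeasurableSet E) (hg : Measurable g)
    (hET : ∀ c c' : Fin n → ℕ → Bool, (∀ p j, (p, j) ∉ T → c p j = c' p j) →
      (c ∈ E ↔ c' ∈ E))
    (hgT : ∀ c c' : Fin n → ℕ → Bool, (∀ p j, (p, j) ∈ T → c p j = c' p j) → g c = g c') :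
    ∫⁻ c in E, g c ∂coins n = coins n E * ∫⁻ c, g c ∂coins n := by
  classical
  have hind : ProbabilityTheory.Indep (⨆ i ∈ Tᶜ, re_sg i) (⨆ i ∈ T, re_sg i) (coins n) :=
    ProbabilityTheory.indep_iSup_of_disjoint (fun i => re_sg_le i) (re_iIndep (n := n)).iIndep
      disjoint_compl_left
  have hle : ∀ U : Set (Fin n × ℕ), (⨆ i ∈ U, re_sg i) ≤
      (inferInstance : MeasurableSpace (Fin n → ℕ → Bool)) :=
    fun U => iSup₂_le fun i _ => re_sg_le i
  have hg' : Measurable[⨆ i ∈ T, re_sg i] g := by
    have h1 : g = g ∘ re_keep T := by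
      funext c
      refine hgT c (re_keep T c) fun p j h => ?_
      simp [re_keep, h]
    rw [h1]
    exact hg.comp (re_measurable_keep T)
  have hE' : MeasurableSet[⨆ i ∈ Tᶜ, re_sg i] E := by
    have h1 : E = re_keep Tᶜ ⁻¹' E := by
      ext c
      refine hET c (re_keep Tᶜ c) fun p j h => ?_
      have : (p, j) ∈ Tᶜ := h
      simp only [re_keep]
      rw [if_pos this]
    rw [h1]
    exact re_measurable_keep Tᶜ hE
  have hc : Measurable[⨆ i ∈ Tᶜ, re_sg i] (fun _ : Fin n → ℕ → Bool => (1 : ℝ≥0∞)) :=
    measurable_const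
  have hind' : ∫⁻ c, E.indicator (fun _ => (1 : ℝ≥0∞)) c * g c ∂coins n =
      (∫⁻ c, E.indicator (fun _ => (1 : ℝ≥0∞)) c ∂coins n) * ∫⁻ c, g c ∂coins n := by
    refine ProbabilityTheory.lintegral_mul_eq_lintegral_mul_lintegral_of_independent_measurableSpace
      (hle Tᶜ) (hle T) hind ?_ hg'
    exact Measurable.indicator (m := ⨆ i ∈ Tᶜ, re_sg i) hc hE'
  rw [lintegral_indicator_const hE, one_mul] at hind'
  rw [← hind', ← lintegral_indicator hE]
  refine lintegral_congr fun c => ?_
  by_cases h : c ∈ E <;> simp [h]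

private theorem re_meas_ovr (e : ι → Fin n × ℕ) (v : ι → Bool) :
    Measurable (fun c : Fin n → ℕ → Bool => ovr e c v) := by
  refine measurable_pi_lambda _ fun p => measurable_pi_lambda _ fun j => ?_
  by_cases h : ∃ i, e i = (p, j)
  · have h1 : (fun c : Fin n → ℕ → Bool => ovr e c v p j) = fun _ => v h.choose := by
      funext c
      simp only [ovr]
      rw [dif_pos h]
    rw [h1]
    exact measurable_const
  · have h1 : (fun c : Fin n → ℕ → Bool => ovr e c v p j) = fun c => c p j := by
      funext c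
      simp only [ovr]
      rw [dif_neg h]
    rw [h1]
    exact (measurable_pi_apply j).comp (measurable_pi_apply p)

private theorem re_ovr_id (e : ι → Fin n × ℕ) (he : Function.Injective e)
    (c : Fin n → ℕ → Bool) (v : ι → Bool) (h : ∀ i, c (e i).1 (e i).2 = v i) :
    ovr e c v = c := by
  funext p j
  by_cases hp : ∃ i, e i = (p, j)
  · obtain ⟨i, hi⟩ := hp
    have h1 := ovr_self e he c v i
    rw [hi] at h1
    have h2 := h i
    rw [hi] at h2
    rw [h1, h2]
  · exact ovr_other e c v fun i hi => hp ⟨i, hi⟩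

/-- Finitely many coins may be replaced by independent uniform ones.
PROOF: both sides are equal for indicators of cylinders (`pi` system), or: by independence
(`iIndepFun_uncurry_infinitePi'`, see MP217Area/Num.lean and Ind.lean) of the coordinates in the
range of `e` and the others. -/
theorem resample [Fintype ι] [DecidableEq ι] (e : ι → Fin n × ℕ) (he : Function.Injective e)
    (f : (Fin n → ℕ → Bool) → ℝ≥0∞) (hf : Measurable f) :
    ∫⁻ c, f c ∂coins n =
      ∫⁻ c, (2⁻¹ : ℝ≥0∞) ^ Fintype.card ι * ∑ v : ι → Bool, f (ovr e c v) ∂coins n := by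
  classical
  set Ev : (ι → Bool) → Set (Fin n → ℕ → Bool) := fun v => {c | ∀ i, c (e i).1 (e i).2 = v i}
    with hEv
  have hmE : ∀ v, MeasurableSet (Ev v) := by
    intro v
    have h1 : Ev v = ⋂ i, {c : Fin n → ℕ → Bool | c (e i).1 (e i).2 = v i} := by
      ext c
      simp [hEv]
    rw [h1]
    refine MeasurableSet.iInter fun i => ?_
    have h2 : Measurable (fun c : Fin n → ℕ → Bool => c (e i).1 (e i).2) :=
      (measurable_pi_apply _).comp (measurable_pi_apply _)
    exact h2 (measurableSet_singleton (v i))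
  have hmf : ∀ v, Measurable (fun c => f (ovr e c v)) := fun v => hf.comp (re_meas_ovr e v)
  have hpE : ∀ v, coins n (Ev v) = (2⁻¹ : ℝ≥0∞) ^ Fintype.card ι := by
    intro v
    have h1 := Pool.Agent.A217.unif_bits e he (fun w => if w = v then (1 : ℝ≥0∞) else 0)
    rw [Finset.sum_ite_eq' Finset.univ v, if_pos (Finset.mem_univ v), mul_one] at h1
    rw [← h1, ← lintegral_indicator_one (hmE v)]
    refine lintegral_congr fun c => ?_
    by_cases h : c ∈ Ev v
    · rw [Set.indicator_of_mem h, if_pos (funext h)]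
      rfl
    · rw [Set.indicator_of_notMem h, if_neg]
      intro h2
      exact h fun i => congrFun h2 i
  have hsplit : ∀ c, f c = ∑ v : ι → Bool, (Ev v).indicator (fun c => f (ovr e c v)) c := by
    intro c
    rw [Finset.sum_eq_single (fun i => c (e i).1 (e i).2)]
    · have h1 : c ∈ Ev fun i => c (e i).1 (e i).2 := fun i => rfl
      rw [Set.indicator_of_mem h1, re_ovr_id e he c _ fun i => rfl]
    · intro v _ hv
      rw [Set.indicator_of_notMem]
      intro h
      exact hv (funext fun i => (h i).symm)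
    · intro h
      exact absurd (Finset.mem_univ _) h
  calc ∫⁻ c, f c ∂coins n
      = ∫⁻ c, ∑ v : ι → Bool, (Ev v).indicator (fun c => f (ovr e c v)) c ∂coins n :=
        lintegral_congr hsplit
    _ = ∑ v : ι → Bool, ∫⁻ c, (Ev v).indicator (fun c => f (ovr e c v)) c ∂coins n :=
        lintegral_finsetSum _ fun v _ => (hmf v).indicator (hmE v)
    _ = ∑ v : ι → Bool, (2⁻¹ : ℝ≥0∞) ^ Fintype.card ι * ∫⁻ c, f (ovr e c v) ∂coins n := by
        refine Finset.sum_congr rfl fun v _ => ?_
        rw [lintegral_indicator (hmE v),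
          re_mul (Set.range e)ᶜ (Ev v) (fun c => f (ovr e c v)) (hmE v) (hmf v), hpE]
        · intro c c' hc
          have h1 : ∀ i, c (e i).1 (e i).2 = c' (e i).1 (e i).2 := by
            intro i
            refine hc _ _ fun h => h ⟨i, rfl⟩
          simp only [hEv, Set.mem_ofPred_eq, h1]
        · intro c c' hc
          congr 1
          funext p j
          by_cases hp : ∃ i, e i = (p, j)
          · simp only [ovr]
            rw [dif_pos hp, dif_pos hp]
          · simp only [ovr]
            rw [dif_neg hp, dif_neg hp]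
            exact hc p j hp
    _ = ∫⁻ c, (2⁻¹ : ℝ≥0∞) ^ Fintype.card ι * ∑ v : ι → Bool, f (ovr e c v) ∂coins n := by
        rw [lintegral_const_mul _ (Finset.measurable_sum _ fun v _ => hmf v),
          lintegral_finsetSum _ fun v _ => hmf v, Finset.mul_sum]

/-- If an event has small conditional probability for all values of the other coins, its
probability is small. -/
theorem prob_le_of_ovr [Fintype ι] [DecidableEq ι] (e : ι → Fin n × ℕ) (he : Function.Injective e)
    (A : Set (Fin n → ℕ → Bool)) (hA : MeasurableSet A) (ε : ℝ≥0∞)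
    (h : ∀ c, (2⁻¹ : ℝ≥0∞) ^ Fintype.card ι *
      (∑ v : ι → Bool, A.indicator 1 (ovr e c v)) ≤ ε) : coins n A ≤ ε := by
  have : IsProbabilityMeasure (coins n) := by
    unfold coins
    infer_instance
  calc coins n A = ∫⁻ c, A.indicator 1 c ∂coins n := (lintegral_indicator_one hA).symm
    _ = ∫⁻ c, (2⁻¹ : ℝ≥0∞) ^ Fintype.card ι *
          ∑ v : ι → Bool, A.indicator 1 (ovr e c v) ∂coins n :=
        resample e he _ (measurable_one.indicator hA)
    _ ≤ ∫⁻ _, ε ∂coins n := lintegral_mono fun c => h c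
    _ = ε := by rw [lintegral_const, measure_univ, mul_one]

end Pool.Agent.E217
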