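import Pool.Agent.MP217Exact.MPrg
import Pool.Agent.MP217Exact.MFlow

set_option autoImplicit false

/-!
# Programs with coins as round protocols: the simulation
-/

namespace Pool.Agent.E217

open Finset MeasureTheory
open scoped ENNReal
open Pool.Agent.A217 (RP RAct)

attribute [local instance 10] Classical.propDecidable

namespace Prg

variable {n : ℕ} {D : Type}

private theorem si_sim {P : Prg n D} (hP : P.Ok) (x : Fin n → Bool) (c : Fin n → ℕ → Bool)
    (σ : ℕ → Option (Fin n)) (t : ℕ) :
    (∀ p, ((P.rp hP).run x c σ t).st p = P.full p (c p) (((P.sys x c).run σ t).st p)) ∧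
    (∀ w y k, (dcd hP.cD (((P.rp hP).run x c σ t).mem w y k) : Msg n D) =
      ((P.sys x c).run σ t).mem w y k) := by
  induction t with
  | zero => exact ⟨fun _ => rfl, fun _ _ _ => dcd_zero hP.cD⟩
  | succ t ih =>
    have hself : ∀ w k, ((P.sys x c).run σ t).mem w w k = (∅, ∅) :=
      fun w k => Sys.mem_self w k t
    have hR : (P.rp hP).run x c σ (t + 1) = (match σ t with
      | none => (P.rp hP).run x c σ t
      | some p => (P.rp hP).step c p ((P.rp hP).run x c σ t)) := rfl
    have hS : (P.sys x c).run σ (t + 1) = (match σ t with
      | none => (P.sys x c).run σ t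
      | some p => (P.sys x c).step p ((P.sys x c).run σ t)) := rfl
    rw [hR, hS]
    rcases σ t with _ | p
    · exact ih
    · generalize (P.rp hP).run x c σ t = R at ih ⊢
      generalize (P.sys x c).run σ t = C at ih hself ⊢
      obtain ⟨ih1, ih2⟩ := ih
      change (∀ q, ((P.rp hP).step c p R).st q =
        P.full q (c q) (((P.sys x c).step p C).st q)) ∧
        (∀ w y k, (dcd hP.cD (((P.rp hP).step c p R).mem w y k) : Msg n D) =
        ((P.sys x c).step p C).mem w y k)
      have hnext : (P.rp hP).next p (R.st p) = P.nxt hP.cD p (P.full p (c p) (C.st p)) := by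
        rw [ih1 p]
        rfl
      by_cases h1 : (P.sys x c).Idle (C.st p)
      · have e1 : (P.rp hP).step c p R = R := by
          unfold RP.step
          rw [hnext]
          unfold Prg.nxt
          rw [if_pos (show P.sp (P.full p (c p) (C.st p)).1.d = true ∨
            P.E ≤ (P.full p (c p) (C.st p)).1.i from h1)]
        have e2 : (P.sys x c).step p C = C := by
          unfold Sys.step
          exact if_pos h1
        rw [e1, e2]
        exact ⟨ih1, ih2⟩
      · by_cases h2 : (C.st p).pos < P.lw (C.st p).i
        · have hn : P.nxt hP.cD p (P.full p (c p) (C.st p)) =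
              .write ((P.sys x c).wt p (C.st p)) (P.ch (C.st p).i)
                (enc hP.cD (if (P.sys x c).wt p (C.st p) = p then (∅, ∅)
                  else (P.sys x c).msg (C.st p))) := by
            unfold Prg.nxt
            rw [if_neg (show ¬ (P.sp (P.full p (c p) (C.st p)).1.d = true ∨
              P.E ≤ (P.full p (c p) (C.st p)).1.i) from h1),
              if_pos (show (P.full p (c p) (C.st p)).1.pos <
                P.lw (P.full p (c p) (C.st p)).1.i from h2)]
            rfl
          have e1 : (P.rp hP).step c p R = ⟨Function.update R.st p
              (Sys.wr (C.st p), (P.full p (c p) (C.st p)).2),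
              Function.update R.mem p (Function.update (R.mem p) ((P.sys x c).wt p (C.st p))
                (Function.update (R.mem p ((P.sys x c).wt p (C.st p)))
                  (P.ch (C.st p).i) (enc hP.cD (if (P.sys x c).wt p (C.st p) = p then (∅, ∅)
                  else (P.sys x c).msg (C.st p)))))⟩ := by
            unfold RP.step
            rw [hnext, hn]
            rw [ih1 p]
            rfl
          have e2 : (P.sys x c).step p C = ⟨Function.update C.st p (Sys.wr (C.st p)),
              fun w x' c' => if (w = p ∧ x' ≠ p) ∧ x' = (P.sys x c).wt p (C.st p) ∧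
                c' = P.ch (C.st p).i then
              (P.sys x c).msg (C.st p) else C.mem w x' c'⟩ := by
            unfold Sys.step
            rw [if_neg h1, if_pos (show (C.st p).pos < (P.sys x c).lw (C.st p).i from h2)]
            rfl
          rw [e1, e2]
          refine ⟨?_, ?_⟩
          · intro q
            by_cases hq : q = p
            · subst hq
              simp only [Function.update_self]
              rfl
            · simp only [Function.update_of_ne hq]
              exact ih1 q
          · intro w y k
            by_cases hw : w = p
            · subst hw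
              simp only [Function.update_self]
              by_cases hy : y = (P.sys x c).wt w (C.st w)
              · by_cases hk : k = P.ch (C.st w).i
                · rw [hy, hk]
                  simp only [Function.update_self]
                  rw [dcd_enc]
                  by_cases hyw : (P.sys x c).wt w (C.st w) = w
                  · rw [if_pos hyw, if_neg (fun h => h.1.2 hyw)]
                    rw [hyw]
                    exact (hself _ _).symm
                  · rw [if_neg hyw, if_pos (by exact ⟨⟨trivial, hyw⟩, trivial, trivial⟩)]
                · rw [hy]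
                  simp only [Function.update_self]
                  rw [Function.update_of_ne hk, if_neg (fun h => hk h.2.2)]
                  exact ih2 _ _ _
              · rw [Function.update_of_ne hy, if_neg (fun h => hy h.2.1)]
                exact ih2 _ _ _
            · simp only [Function.update_of_ne hw]
              rw [if_neg (fun h => hw h.1.1)]
              exact ih2 _ _ _
        · have hn : P.nxt hP.cD p (P.full p (c p) (C.st p)) =
              .read ((P.sys x c).rt p (C.st p)) (P.ch (C.st p).i) := by
            unfold Prg.nxt
            rw [if_neg (show ¬ (P.sp (P.full p (c p) (C.st p)).1.d = true ∨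
              P.E ≤ (P.full p (c p) (C.st p)).1.i) from h1),
              if_neg (show ¬ (P.full p (c p) (C.st p)).1.pos <
                P.lw (P.full p (c p) (C.st p)).1.i from h2)]
            rfl
          have e1 : (P.rp hP).step c p R = ⟨Function.update R.st p
              (P.upd hP.cD p (c p) (P.full p (c p) (C.st p))
                (some (R.mem ((P.sys x c).rt p (C.st p)) p (P.ch (C.st p).i)))), R.mem⟩ := by
            unfold RP.step
            rw [hnext, hn]
            rw [ih1 p]
            rfl
          have e2 : (P.sys x c).step p C = ⟨Function.update C.st p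
              ((P.sys x c).rd p (C.st p)
                (C.mem ((P.sys x c).rt p (C.st p)) p (P.ch (C.st p).i))), C.mem⟩ := by
            unfold Sys.step
            rw [if_neg h1, if_neg (show ¬ (C.st p).pos < (P.sys x c).lw (C.st p).i from h2)]
            rfl
          rw [e1, e2]
          refine ⟨?_, ih2⟩
          intro q
          by_cases hq : q = p
          · subst hq
            simp only [Function.update_self]
            have hup : ∀ v : ℕ, P.upd hP.cD q (c q) (P.full q (c q) (C.st q)) (some v) =
                if (P.full q (c q) (C.st q)).1.pos + 1 <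
                  P.lw (P.full q (c q) (C.st q)).1.i + P.lr (P.full q (c q) (C.st q)).1.i then
                  ((P.sys x c).rd q (C.st q) (dcd hP.cD v), (P.full q (c q) (C.st q)).2)
                else P.full q (c q) ((P.sys x c).rd q (C.st q) (dcd hP.cD v)) := fun _ => rfl
            rw [hup, ih2]
            by_cases h3 : (C.st q).pos + 1 < P.lw (C.st q).i + P.lr (C.st q).i
            · rw [if_pos (show (P.full q (c q) (C.st q)).1.pos + 1 <
                P.lw (P.full q (c q) (C.st q)).1.i + P.lr (P.full q (c q) (C.st q)).1.i from h3)]
              unfold Sys.rd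
              rw [if_pos (show (C.st q).pos + 1 < (P.sys x c).lw (C.st q).i +
                (P.sys x c).lr (C.st q).i from h3)]
              rfl
            · rw [if_neg (show ¬ (P.full q (c q) (C.st q)).1.pos + 1 <
                P.lw (P.full q (c q) (C.st q)).1.i + P.lr (P.full q (c q) (C.st q)).1.i from h3)]
          · simp only [Function.update_of_ne hq]
            exact ih1 q

/-- The round protocol does what the program does.
PROOF: see `Pool.Agent.Q217.rp_sim` (MP217Two/Inst.lean); for every processor the two lists in
the state are `tw`, `tr` for the current pass and team; `dcd (mem w x c)` is the register of the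
machine (`mem_self` for `w = x`). -/
theorem rp_st {P : Prg n D} (hP : P.Ok) (x : Fin n → Bool) (c : Fin n → ℕ → Bool)
    (σ : ℕ → Option (Fin n)) (t : ℕ) (p : Fin n) :
    (((P.rp hP).run x c σ t).st p).1 = ((P.sys x c).run σ t).st p := by
  rw [(si_sim hP x c σ t).1 p]
  rfl

private theorem si_next_iff {P : Prg n D} (hP : P.Ok) (x : Fin n → Bool)
    (c : Fin n → ℕ → Bool) (p : Fin n) (s : RSt n D) (v d : Bool) :
    (P.rp hP).next p s = .fin v d ↔
      (P.sys x c).Idle s.1 ∧ P.val s.1.d = v ∧ P.dec s.1.d = d := by
  change P.nxt hP.cD p s = .fin v d ↔ _
  unfold Prg.nxt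
  by_cases h : P.sp s.1.d = true ∨ P.E ≤ s.1.i
  · rw [if_pos h]
    constructor
    · intro h'
      injection h' with h1 h2
      exact ⟨h, h1, h2⟩
    · rintro ⟨_, h1, h2⟩
      rw [h1, h2]
  · rw [if_neg h]
    constructor
    · intro h'
      split_ifs at h'
    · intro h'
      exact absurd h'.1 h

theorem rp_fin {P : Prg n D} (hP : P.Ok) (x : Fin n → Bool) (c : Fin n → ℕ → Bool)
    (σ : ℕ → Option (Fin n)) (t : ℕ) (p : Fin n) (v d : Bool) :
    (P.rp hP).next p (((P.rp hP).run x c σ t).st p) = .fin v d ↔
      (P.sys x c).Idle (((P.sys x c).run σ t).st p) ∧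
        P.val (((P.sys x c).run σ t).st p).d = v ∧ P.dec (((P.sys x c).run σ t).st p).d = d := by
  rw [si_next_iff hP x c, rp_st]

theorem rp_steps {P : Prg n D} (hP : P.Ok) (x : Fin n → Bool) (c : Fin n → ℕ → Bool)
    (σ : ℕ → Option (Fin n)) (t : ℕ) (p : Fin n) :
    (P.rp hP).steps x c σ t p = (P.sys x c).steps σ t p := by
  unfold RP.steps Sys.steps
  congr 1
  ext t'
  simp only [mem_filter, mem_range]
  have h : (∀ v d, (P.rp hP).next p (((P.rp hP).run x c σ t').st p) ≠ .fin v d) ↔
      ¬ (P.sys x c).Idle (((P.sys x c).run σ t').st p) := by
    constructor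
    · intro h h'
      exact h _ _ ((rp_fin hP x c σ t' p _ _).2 ⟨h', rfl, rfl⟩)
    · intro h v d h'
      exact h ((rp_fin hP x c σ t' p v d).1 h').1
  rw [h]

/-- The number of steps of the round protocol is bounded. -/
theorem rp_bdd {P : Prg n D} (hP : P.Ok) (x : Fin n → Bool) (c : Fin n → ℕ → Bool)
    (σ : ℕ → Option (Fin n)) (t : ℕ) (p : Fin n) :
    (P.rp hP).steps x c σ t p ≤ ∑ j ∈ range P.E, (P.lw j + P.lr j) := by
  rw [rp_steps]
  exact Sys.steps_bdd (hP.sys x c) σ t p

end Prg

end Pool.Agent.E217
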