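import Pool.Agent.MP217Exact.MGen
import Pool.Agent.MP217Exact.MFlow
import Pool.Agent.MP217Exact.MLocW
import Pool.Agent.MP217Exact.MLocR
import Pool.Agent.X217.FamDefs

set_option autoImplicit false

/-!
# The tick phases of the machine
-/

namespace Pool.Agent.E217

open Finset
open Pool.Agent.X217 (Tb Fam)

attribute [local instance 10] Classical.propDecidable

variable {n : ℕ} {D : Type}

/-- A list with the elements of `A`, filled up with `p` to length `m`. -/
noncomputable def padl (m : ℕ) (p : Fin n) (A : Finset (Fin n)) : List (Fin n) :=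
  A.toList ++ List.replicate (m - A.card) p

private theorem mtick_len_padl (m : ℕ) (p : Fin n) (A : Finset (Fin n)) (h : A.card ≤ m) :
    (padl m p A).length = m := by
  unfold padl
  rw [List.length_append, Finset.length_toList, List.length_replicate]
  omega

private theorem mtick_mem_padl (m : ℕ) (p : Fin n) {A : Finset (Fin n)} {z : Fin n} (h : z ∈ A) :
    z ∈ padl m p A := by
  unfold padl
  rw [List.mem_append, Finset.mem_toList]
  exact Or.inl h

private theorem mtick_len_fm {α β : Type} (L : List α) (f : α → List β) (m : ℕ)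
    (h : ∀ x ∈ L, (f x).length = m) : (L.flatMap f).length = L.length * m := by
  induction L with
  | nil => simp
  | cons x L ih =>
    rw [List.flatMap_cons, List.length_append, h x List.mem_cons_self,
      ih fun y hy => h y (List.mem_cons_of_mem _ hy), List.length_cons]
    ring

private theorem mtick_fm_rel {α β : Type} (R : β → β → Prop) (L : List α) (f g : α → List β)
    (h : ∀ x ∈ L, List.Forall₂ R (f x) (g x)) : List.Forall₂ R (L.flatMap f) (L.flatMap g) := by
  induction L with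
  | nil => simp
  | cons x L ih =>
    rw [List.flatMap_cons, List.flatMap_cons]
    exact List.rel_append (h x List.mem_cons_self) (ih fun y hy => h y (List.mem_cons_of_mem _ hy))

private theorem mtick_getD_rel {β : Type} (R : β → β → Prop) (d : β) (hd : R d d)
    {L L' : List β} (h : List.Forall₂ R L L') : ∀ k, R (L.getD k d) (L'.getD k d) := by
  induction h with
  | nil => intro k; simpa using hd
  | cons h1 _ ih =>
    intro k
    cases k with
    | zero => simpa using h1
    | succ k => simpa using ih k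

/-- Blocks, classes and indices of the ticks; `mx` bounds the size of the blocks. -/
structure Blk (n Rn Lam w : ℕ) where
  bl : ℕ → Fin n → ℕ
  κ : ℕ → Fin n → Fin Lam
  ix : ℕ → Fin n → Fin w
  mx : ℕ
  inj : ∀ r < Rn, ∀ x y, bl r x = bl r y → κ r x = κ r y → ix r x = ix r y → x = y
  card : ∀ r < Rn, ∀ x, (univ.filter fun z => bl r z = bl r x).card ≤ mx

namespace Blk

variable {Rn Lam w : ℕ} (X : Blk n Rn Lam w)

/-- The list of the first pass: all blocks. -/
noncomputable def lst1 (p : Fin n) : List (Fin n) :=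
  (List.finRange Rn).flatMap fun r =>
    padl X.mx p (univ.filter fun z => X.bl r.val z = X.bl r.val p)

/-- The known starters of the phase which begins with pass `i0` in the block of `p`. -/
noncomputable def kns (i0 : ℕ) (r : ℕ) (p : Fin n) (M : Finset (Stp n)) : Finset (Fin n) :=
  univ.filter fun z => X.bl r z = X.bl r p ∧ ∃ j, i0 ≤ j ∧ (z, j) ∈ M

/-- The light list. -/
noncomputable def lgt (i0 : ℕ) (r : ℕ) (p : Fin n) (M : Finset (Stp n)) : List (Fin n) :=
  if (X.kns i0 r p M).card ≤ 2 * Lam then padl (2 * Lam) p (X.kns i0 r p M)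
  else List.replicate (2 * Lam) p

/-- The member of class `c` of the block of `p` with index `v`. -/
noncomputable def pick (r : ℕ) (p : Fin n) (c : Fin Lam) (v : Fin w) : Fin n :=
  if h : ∃ x, X.bl r x = X.bl r p ∧ X.κ r x = c ∧ X.ix r x = v then h.choose else p

/-- The list of a tick. -/
noncomputable def tl (i0 : ℕ) (v : Fin Rn → Fin Lam → Fin w) (p : Fin n)
    (M : Finset (Stp n)) : List (Fin n) :=
  (List.finRange Rn).flatMap fun r =>
    X.lgt i0 r.val p M ++ (List.finRange Lam).map fun c => X.pick r.val p c (v r c)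

private theorem mtick_len_lgt (i0 r : ℕ) (p : Fin n) (M : Finset (Stp n)) :
    (X.lgt i0 r p M).length = 2 * Lam := by
  unfold lgt
  split_ifs with h
  · exact mtick_len_padl _ _ _ h
  · exact List.length_replicate

theorem length_lst1 (p : Fin n) : (X.lst1 p).length = Rn * X.mx := by
  unfold lst1
  rw [mtick_len_fm _ _ X.mx fun r _ => mtick_len_padl _ _ _ (X.card r.val r.isLt p),
    List.length_finRange]

theorem length_tl (i0 : ℕ) (v : Fin Rn → Fin Lam → Fin w) (p : Fin n) (M : Finset (Stp n)) :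
    (X.tl i0 v p M).length = Rn * (3 * Lam) := by
  unfold tl
  rw [mtick_len_fm _ _ (3 * Lam) fun r _ => ?_, List.length_finRange]
  rw [List.length_append, mtick_len_lgt, List.length_map, List.length_finRange]
  ring

private theorem mtick_mem_lst1 {r : ℕ} (hr : r < Rn) {p z : Fin n} (h : X.bl r z = X.bl r p) :
    z ∈ X.lst1 p := by
  unfold lst1
  rw [List.mem_flatMap]
  refine ⟨⟨r, hr⟩, List.mem_finRange _, mtick_mem_padl _ _ ?_⟩
  rw [mem_filter]
  exact ⟨mem_univ _, h⟩

private theorem mtick_mem_lgt (i0 : ℕ) (v : Fin Rn → Fin Lam → Fin w) {r : ℕ} (hr : r < Rn)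
    {p z : Fin n} (M : Finset (Stp n)) (h : X.bl r z = X.bl r p) (hM : ∃ j, i0 ≤ j ∧ (z, j) ∈ M)
    (hc : (X.kns i0 r p M).card ≤ 2 * Lam) : z ∈ X.tl i0 v p M := by
  unfold tl
  rw [List.mem_flatMap]
  refine ⟨⟨r, hr⟩, List.mem_finRange _, ?_⟩
  rw [List.mem_append]
  left
  unfold lgt
  rw [if_pos hc]
  apply mtick_mem_padl
  unfold kns
  rw [mem_filter]
  exact ⟨mem_univ _, h, hM⟩

private theorem mtick_pick {r : ℕ} (hr : r < Rn) {p x : Fin n} {c : Fin Lam} {v : Fin w}
    (h1 : X.bl r x = X.bl r p) (h2 : X.κ r x = c) (h3 : v = X.ix r x) : X.pick r p c v = x := by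
  unfold pick
  have hex : ∃ x, X.bl r x = X.bl r p ∧ X.κ r x = c ∧ X.ix r x = v := ⟨x, h1, h2, h3.symm⟩
  rw [dif_pos hex]
  obtain ⟨e1, e2, e3⟩ := hex.choose_spec
  exact X.inj r hr _ _ (e1.trans h1.symm) (e2.trans h2.symm) (e3.trans h3)

private theorem mtick_pick_cases (r : ℕ) (p : Fin n) (c : Fin Lam) (v : Fin w) :
    X.pick r p c v = p ∨
      (X.bl r (X.pick r p c v) = X.bl r p ∧ X.κ r (X.pick r p c v) = c) := by
  unfold pick
  split_ifs with hex
  · exact Or.inr ⟨hex.choose_spec.1, hex.choose_spec.2.1⟩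
  · exact Or.inl rfl

private theorem mtick_mem_pick (i0 : ℕ) (v : Fin Rn → Fin Lam → Fin w) {r : ℕ} (hr : r < Rn)
    {p z : Fin n} (M : Finset (Stp n)) (h : X.bl r z = X.bl r p)
    (hv : v ⟨r, hr⟩ (X.κ r z) = X.ix r z) : z ∈ X.tl i0 v p M := by
  unfold tl
  rw [List.mem_flatMap]
  refine ⟨⟨r, hr⟩, List.mem_finRange _, ?_⟩
  rw [List.mem_append]
  right
  rw [List.mem_map]
  exact ⟨X.κ r z, List.mem_finRange _, X.mtick_pick hr h rfl hv⟩

private theorem mtick_tl_rel (R : Fin n → Fin n → Prop) (hR : ∀ x, R x x) (i0 : ℕ)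
    (v v' : Fin Rn → Fin Lam → Fin w) (p : Fin n) (M : Finset (Stp n))
    (h : ∀ (r : Fin Rn) (c : Fin Lam), v r c ≠ v' r c →
      R (X.pick r.val p c (v r c)) (X.pick r.val p c (v' r c))) :
    List.Forall₂ R (X.tl i0 v p M) (X.tl i0 v' p M) := by
  unfold tl
  refine mtick_fm_rel R _ _ _ fun r _ => List.rel_append ?_ ?_
  · exact List.forall₂_same.2 fun x _ => hR x
  · rw [List.forall₂_map_left_iff, List.forall₂_map_right_iff]
    refine List.forall₂_same.2 fun c _ => ?_
    by_cases e : v r c = v' r c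
    · rw [e]
      exact hR _
    · exact h r c e

end Blk

/-- The passes `i0, …, i0 + N - 1` of the programs `S a b` are a tick phase with the table `a`
for the writes and the table `b` for the reads. -/
structure TickPh {N Rn Lam w : ℕ} (X : Blk n Rn Lam w) (i0 : ℕ) (S0 : Sys n D)
    (S : Tb (Fin n) N Rn Lam w → Tb (Fin n) N Rn Lam w → Sys n D) : Prop where
  hN : 1 ≤ N
  ok0 : S0.Ok
  ok : ∀ a b, (S a b).Ok
  same : ∀ a b, Sys.Same S0 (S a b)
  hE : i0 + N ≤ S0.E
  ch : ∀ s < N, S0.ch (i0 + s) = S0.ch i0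
  chx : ∀ j < S0.E, S0.ch j = S0.ch i0 → i0 ≤ j ∧ j < i0 + N
  tm : S0.tm i0 = true
  rs : ∀ s, 1 ≤ s → s ≤ N → S0.rs (i0 + s) = false
  w1 : ∀ a b p M, (S a b).tw p i0 M = X.lst1 p
  r1 : ∀ a b p M, (S a b).tr p i0 M = X.lst1 p
  wt : ∀ a b p M s (hs : s < N + 1), 2 ≤ s →
    (S a b).tw p (i0 + s - 1) M = X.tl i0 (a (p, ⟨s, hs⟩)) p M
  rt : ∀ a b p M s (hs : s < N + 1), 2 ≤ s →
    (S a b).tr p (i0 + s - 1) M = X.tl i0 (b (p, ⟨s, hs⟩)) p M
  wo : ∀ a b p M i, (i < i0 ∨ i0 + N ≤ i) → (S a b).tw p i M = S0.tw p i M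
  ro : ∀ a b p M i, (i < i0 ∨ i0 + N ≤ i) → (S a b).tr p i M = S0.tr p i M
  sh : ∀ a b, (S a b).sh = S0.sh
  d0 : ∀ a b, (S a b).d0 = S0.d0
  nd : ∀ a b, (S a b).nd = S0.nd
  sp : ∀ a b, (S a b).sp = S0.sp
  stop : ∀ p i K M d, i0 ≤ i → i < i0 + N → S0.sp (S0.nd p i K M d) = S0.sp d

/-- The family of tick phases; pass `s` of the phase is pass `i0 + s - 1` of the program. -/
noncomputable def fam {N Rn Lam w : ℕ} (X : Blk n Rn Lam w) (i0 : ℕ) (S0 : Sys n D)
    (S : Tb (Fin n) N Rn Lam w → Tb (Fin n) N Rn Lam w → Sys n D)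
    (σ : ℕ → Option (Fin n)) (hz : ℕ) : Fam (Fin n) N Rn Lam w where
  bl := X.bl
  κ := X.κ
  ix := X.ix
  al y s := S0.al σ y (i0 + s - 1)
  be y s := S0.be σ y (i0 + s - 1)
  hz := hz
  C0 := univ.filter fun y => S0.al σ y (i0 + N) ≤ hz
  R a b := univ.filter fun x => (S a b).Al σ x i0 ∧ S0.al σ x i0 ≤ hz
  K a b y s := (((S a b).sI σ y (i0 + s)).M.filter fun q => i0 ≤ q.2).image
    fun q => (q.1, q.2 - i0)

/-- A processor which begins the phase takes part in all its passes. -/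
theorem TickPh.al {N Rn Lam w : ℕ} {X : Blk n Rn Lam w} {i0 : ℕ} {S0 : Sys n D}
    {S : Tb (Fin n) N Rn Lam w → Tb (Fin n) N Rn Lam w → Sys n D} (h : TickPh X i0 S0 S)
    {σ : ℕ → Option (Fin n)} (hσ : Fair σ) (a b : Tb (Fin n) N Rn Lam w) {p : Fin n}
    (hp : (S a b).Al σ p i0) : ∀ s ≤ N, (S a b).Al σ p (i0 + s) := by
  intro s hs
  induction s with
  | zero => exact hp
  | succ s ih =>
    have h1 := ih (by omega)
    have hE : i0 + s < (S a b).E := by
      rw [(h.same a b).E]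
      have := h.hE
      omega
    rw [← add_assoc, Sys.al_succ (h.ok a b) hσ hE h1, h.sp, h.nd,
      h.stop _ _ _ _ _ (by omega) (by omega), ← h.sp a b]
    exact h1.2.2

section famaux

variable {N Rn Lam w : ℕ} {X : Blk n Rn Lam w} {i0 : ℕ} {S0 : Sys n D}
  {S : Tb (Fin n) N Rn Lam w → Tb (Fin n) N Rn Lam w → Sys n D} {σ : ℕ → Option (Fin n)}

private theorem mtick_be {S1 S2 : Sys n D} (h : Sys.Same S1 S2) : S2.be = S1.be := by
  unfold Sys.be
  rw [h.off, h.lw]

private theorem mtick_al_be (hS : S0.Ok) (hσ : Fair σ) (y : Fin n) (i : ℕ) :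
    S0.al σ y i < S0.be σ y i := by
  unfold Sys.al Sys.be
  rw [tme_lt hσ]
  have := hS.lw_pos i
  omega

private theorem mtick_be_al (hS : S0.Ok) (hσ : Fair σ) (y : Fin n) (i : ℕ) :
    S0.be σ y i < S0.al σ y (i + 1) := by
  unfold Sys.al Sys.be
  rw [tme_lt hσ, Sys.off_succ]
  have := hS.lr_pos i
  omega

private theorem mtick_al_lt (hS : S0.Ok) (hσ : Fair σ) (y : Fin n) {i j : ℕ} (hij : i < j) :
    S0.al σ y i < S0.al σ y j := by
  unfold Sys.al
  rw [tme_lt hσ]
  exact Sys.off_lt hS hij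

private theorem mtick_al_le (hS : S0.Ok) (hσ : Fair σ) (y : Fin n) {i j : ℕ} (hij : i ≤ j) :
    S0.al σ y i ≤ S0.al σ y j := by
  rcases hij.lt_or_eq with h | h
  · exact (mtick_al_lt hS hσ y h).le
  · rw [h]

private theorem mtick_al_inj (hS : S0.Ok) (hσ : Fair σ) {y y' : Fin n} {i j : ℕ}
    (h : S0.al σ y i = S0.al σ y' j) : y = y' ∧ i = j := by
  unfold Sys.al at h
  obtain ⟨h1, h2⟩ := tme_inj hσ h
  refine ⟨h1, ?_⟩
  rcases lt_trichotomy i j with h3 | h3 | h3
  · exact absurd h2 (Sys.off_lt hS h3).ne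
  · exact h3
  · exact absurd h2 (Sys.off_lt hS h3).ne'

private theorem mtick_be_inj (hσ : Fair σ) {y y' : Fin n} {i j : ℕ}
    (h : S0.be σ y i = S0.be σ y' j) : y = y' := by
  unfold Sys.be at h
  exact (tme_inj hσ h).1

private theorem mtick_memK (hz : ℕ) (a b : Tb (Fin n) N Rn Lam w) (y : Fin n) (s : ℕ)
    (z : Fin n) (u : ℕ) : (z, u) ∈ (fam X i0 S0 S σ hz).K a b y s ↔
      (z, i0 + u) ∈ ((S a b).sI σ y (i0 + s)).M := by
  show (z, u) ∈ (((S a b).sI σ y (i0 + s)).M.filter fun q => i0 ≤ q.2).image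
    (fun q => (q.1, q.2 - i0)) ↔ _
  rw [mem_image]
  constructor
  · rintro ⟨⟨z', j⟩, hq, he⟩
    rw [mem_filter] at hq
    obtain ⟨hq1, hq2⟩ := hq
    have e1 : z' = z := congrArg Prod.fst he
    have e2 : j - i0 = u := congrArg Prod.snd he
    have e3 : i0 + u = j := by
      simp only at hq2
      omega
    rw [e3, ← e1]
    exact hq1
  · intro hq
    refine ⟨(z, i0 + u), mem_filter.2 ⟨hq, ?_⟩, ?_⟩
    · show i0 ≤ i0 + u
      omega
    · show (z, i0 + u - i0) = (z, u)
      rw [Nat.add_sub_cancel_left]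

private theorem mtick_memR (hz : ℕ) (a b : Tb (Fin n) N Rn Lam w) (x : Fin n) :
    x ∈ (fam X i0 S0 S σ hz).R a b ↔ (S a b).Al σ x i0 ∧ S0.al σ x i0 ≤ hz := by
  show x ∈ univ.filter (fun x => (S a b).Al σ x i0 ∧ S0.al σ x i0 ≤ hz) ↔ _
  rw [mem_filter]
  exact ⟨fun h => h.2, fun h => ⟨mem_univ _, h⟩⟩

private theorem mtick_memC0 (hz : ℕ) (x : Fin n) :
    x ∈ (fam X i0 S0 S σ hz).C0 ↔ S0.al σ x (i0 + N) ≤ hz := by
  show x ∈ univ.filter (fun y => S0.al σ y (i0 + N) ≤ hz) ↔ _
  rw [mem_filter]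
  exact ⟨fun h => h.2, fun h => ⟨mem_univ _, h⟩⟩

/-- known processors have begun the phase -/
private theorem mtick_nm (h : TickPh X i0 S0 S) (hσ : Fair σ) {hz : ℕ}
    (a b : Tb (Fin n) N Rn Lam w) {y : Fin n} (hy : y ∈ (fam X i0 S0 S σ hz).R a b)
    {s : ℕ} (hs : s ≤ N) (hyz : S0.al σ y (i0 + s) ≤ hz) {z : Fin n} {j : ℕ} (hj : i0 ≤ j)
    (hk : (z, j) ∈ ((S a b).sI σ y (i0 + s)).M) : z ∈ (fam X i0 S0 S σ hz).R a b := by
  rw [mtick_memR] at hy ⊢
  have hE := (h.same a b).E
  have hE0 := h.hE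
  have hal := (h.same a b).al
  have h1 := h.al hσ a b hy.1 s hs
  obtain ⟨g1, g2, -, -, g3, -, -⟩ := Sys.gen_M (h.ok a b) hσ (by omega) h1 hk
  refine ⟨Sys.al_mono (h.ok a b) hσ g2 hj g1, ?_⟩
  by_cases e : z = y
  · rw [e]
    exact hy.2
  · have g4 := (g3 e).2
    rw [hal] at g4
    have g5 := mtick_al_le h.ok0 hσ z (i := i0) hj
    omega

/-- flow of teams between two passes of the phase -/
private theorem mtick_flow (h : TickPh X i0 S0 S) (hσ : Fair σ) (a b : Tb (Fin n) N Rn Lam w)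
    {x y : Fin n} (hx : (S a b).Al σ x i0) (hy : (S a b).Al σ y i0) {s t : ℕ} (hs : s < N)
    (ht : t < N) (h1 : y ∈ (S a b).tw x (i0 + s) ((S a b).sI σ x (i0 + s)).M)
    (h2 : x ∈ (S a b).tr y (i0 + t) ((S a b).sI σ y (i0 + t)).M)
    (hbe : S0.be σ x (i0 + s) ≤ S0.be σ y (i0 + t)) :
    (x, i0 + s) ∈ ((S a b).sI σ y (i0 + (t + 1))).M := by
  have hE := (h.same a b).E
  have hE0 := h.hE
  have hch := (h.same a b).ch
  have hrs := (h.same a b).rs
  have htm := (h.same a b).tm
  have hxs := h.al hσ a b hx s (by omega)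
  have hyt := h.al hσ a b hy t (by omega)
  have hyt1 := h.al hσ a b hy (t + 1) (by omega)
  have hf := Sys.flow (h.ok a b) hσ (i := i0 + s) (j := i0 + t) (by omega) (by omega)
    (by rw [hch, h.ch s hs, h.ch t ht]) hxs hyt h1 h2 (by rw [mtick_be (h.same a b)]; exact hbe)
  have htm' : (S a b).tm (i0 + s) = true := by
    rw [(h.ok a b).tm_ch (i0 + s) i0 (by rw [hch, h.ch s hs]), htm, h.tm]
  have hown := Sys.own_M (h.ok a b) hσ (by omega) hxs
  have hsub := Sys.ME_sub (h.ok a b) hσ (i := i0 + t) (j := i0 + (t + 1)) (by omega) (by omega)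
    hyt1 (fun k hk1 hk2 => by
      have e : k = i0 + (t + 1) := by omega
      rw [e, hrs]
      exact h.rs (t + 1) (by omega) (by omega))
  exact hsub (hf.2 htm' hown)

private theorem mtick_ph_ok (h : TickPh X i0 S0 S) (hσ : Fair σ) (hz : ℕ)
    (a b : Tb (Fin n) N Rn Lam w) : ((fam X i0 S0 S σ hz).ph a b).Ok := by
  have hE := (h.same a b).E
  have hE0 := h.hE
  have hN := h.hN
  have hal := (h.same a b).al
  have hR : ∀ x, x ∈ ((fam X i0 S0 S σ hz).ph a b).R ↔
      (S a b).Al σ x i0 ∧ S0.al σ x i0 ≤ hz := fun x => mtick_memR (X := X) hz a b x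
  have hC : ∀ x, x ∈ ((fam X i0 S0 S σ hz).ph a b).C ↔
      ((S a b).Al σ x i0 ∧ S0.al σ x i0 ≤ hz) ∧ S0.al σ x (i0 + N) ≤ hz := by
    intro x
    show x ∈ (fam X i0 S0 S σ hz).R a b ∩ (fam X i0 S0 S σ hz).C0 ↔ _
    rw [mem_inter, mtick_memR, mtick_memC0]
  have hK : ∀ y s z u, (z, u) ∈ ((fam X i0 S0 S σ hz).ph a b).K y s ↔
      (z, i0 + u) ∈ ((S a b).sI σ y (i0 + s)).M := fun y s z u => mtick_memK (X := X) (S0 := S0) hz a b y s z u
  -- the known starters of a block which is not crowded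
  have hkns : ∀ x, x ∈ ((fam X i0 S0 S σ hz).ph a b).C → ∀ r < Rn,
      ¬ ((fam X i0 S0 S σ hz).ph a b).Cr r x → ∀ s, s ≤ N →
      (X.kns i0 r x ((S a b).sI σ x (i0 + s)).M).card ≤ 2 * Lam := by
    intro x hx r _ hcr s hs
    have h1 : ¬ 2 * Lam < (((fam X i0 S0 S σ hz).ph a b).blk r x).card := hcr
    refine (card_le_card ?_).trans (not_lt.1 h1)
    intro z hz'
    unfold Blk.kns at hz'
    rw [mem_filter] at hz'
    obtain ⟨-, e1, j, hj, hM⟩ := hz'
    have hx' := (hC x).1 hx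
    have hxR : x ∈ (fam X i0 S0 S σ hz).R a b := by
      rw [mtick_memR]
      exact hx'.1
    have h2 := mtick_nm h hσ a b hxR hs
      ((mtick_al_le h.ok0 hσ x (by omega)).trans hx'.2) hj hM
    show z ∈ (((fam X i0 S0 S σ hz).ph a b).R.filter fun z => X.bl r z = X.bl r x)
    rw [mem_filter]
    exact ⟨h2, e1⟩
  refine ⟨?_, ?_, ?_, ?_, ?_, ?_, ?_, ?_, ?_, ?_, ?_⟩
  · -- own
    intro y hy s hs
    have hs' : s ≤ N := hs
    rw [hK]
    exact Sys.own_M (h.ok a b) hσ (by omega) (h.al hσ a b ((hC y).1 hy).1.1 s hs')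
  · -- mono
    intro y hy s hs
    have hs' : s < N := hs
    rintro ⟨z, u⟩ hq
    rw [hK] at hq ⊢
    refine Sys.M_mono (h.ok a b) hσ (by omega) (by omega)
      (h.al hσ a b ((hC y).1 hy).1.1 (s + 1) (by omega)) (fun k hk1 hk2 => ?_) hq
    have e : k = i0 + (s + 1) := by omega
    rw [e, (h.same a b).rs]
    exact h.rs (s + 1) (by omega) (by omega)
  · -- trans
    intro y hy s hs z _ u hzu
    have hs' : s ≤ N := hs
    rw [hK] at hzu
    obtain ⟨-, -, g3, -⟩ := Sys.gen_M (h.ok a b) hσ (by omega)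
      (h.al hσ a b ((hC y).1 hy).1.1 s hs') hzu
    rintro ⟨z', u'⟩ hq
    rw [hK] at hq ⊢
    exact g3 hq
  · -- nm
    intro y hy s hs z u hzu
    have hs' : s ≤ N := hs
    rw [hK] at hzu
    have hy' := (hC y).1 hy
    have hyR : y ∈ (fam X i0 S0 S σ hz).R a b := by
      rw [mtick_memR]
      exact hy'.1
    exact mtick_nm h hσ a b hyR hs' ((mtick_al_le h.ok0 hσ y (by omega)).trans hy'.2)
      (Nat.le_add_right i0 u) hzu
  · -- al_be
    intro y _ s _ _
    exact mtick_al_be h.ok0 hσ y _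
  · -- be_al
    intro y _ s hs1 _
    have e : i0 + (s + 1) - 1 = (i0 + s - 1) + 1 := by omega
    show S0.be σ y (i0 + s - 1) < S0.al σ y (i0 + (s + 1) - 1)
    rw [e]
    exact mtick_be_al h.ok0 hσ y _
  · -- inj
    intro x _ y _ he
    exact mtick_be_inj hσ he
  · -- start
    intro x hx y hy r hr hxy hb hbe
    have hx' := ((hR x).1 hx).1
    have hy' := ((hC y).1 hy).1.1
    have hb' : X.bl r x = X.bl r y := hb
    have hbe' : S0.be σ x i0 < S0.be σ y i0 := hbe
    refine ⟨0, ?_⟩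
    rw [hK]
    refine mtick_flow h hσ a b hx' hy' (s := 0) (t := 0) (by omega) (by omega) ?_ ?_ hbe'.le
    · rw [Nat.add_zero, h.w1]
      exact X.mtick_mem_lst1 hr hb'.symm
    · rw [Nat.add_zero, h.r1]
      exact X.mtick_mem_lst1 hr hb'
  · -- light
    intro x hx y hy r hr hxy hb hcr s t hs2 hsN ht2 htN hk1 hk2 hbe
    have hsN' : s ≤ N := hsN
    have htN' : t ≤ N := htN
    have hx' := ((hC x).1 hx).1.1
    have hy' := ((hC y).1 hy).1.1
    have hb' : X.bl r x = X.bl r y := hb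
    have hcr' : ¬ ((fam X i0 S0 S σ hz).ph a b).Cr r y := by
      have e : ((fam X i0 S0 S σ hz).ph a b).blk r y = ((fam X i0 S0 S σ hz).ph a b).blk r x := by
        show (((fam X i0 S0 S σ hz).ph a b).R.filter fun z => X.bl r z = X.bl r y) =
          (((fam X i0 S0 S σ hz).ph a b).R.filter fun z => X.bl r z = X.bl r x)
        rw [hb']
      unfold Pool.Agent.X217.Ph.Cr at hcr ⊢
      rw [e]
      exact hcr
    obtain ⟨u1, hu1⟩ := hk1
    obtain ⟨u2, hu2⟩ := hk2
    rw [hK] at hu1 hu2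
    rw [hK]
    obtain ⟨s', rfl⟩ : ∃ s', s = s' + 1 := ⟨s - 1, by omega⟩
    obtain ⟨t', rfl⟩ : ∃ t', t = t' + 1 := ⟨t - 1, by omega⟩
    rw [Nat.add_sub_cancel] at hu1 hu2 ⊢
    refine mtick_flow h hσ a b hx' hy' (s := s') (t := t') (by omega) (by omega) ?_ ?_ hbe
    · have e := h.wt a b x ((S a b).sI σ x (i0 + s')).M (s' + 1) (by omega) hs2
      have e2 : i0 + (s' + 1) - 1 = i0 + s' := by omega
      rw [e2] at e
      rw [e]
      exact X.mtick_mem_lgt i0 _ hr _ hb'.symm ⟨_, Nat.le_add_right i0 u1, hu1⟩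
        (hkns x hx r hr hcr s' (by omega))
    · have e := h.rt a b y ((S a b).sI σ y (i0 + t')).M (t' + 1) (by omega) ht2
      have e2 : i0 + (t' + 1) - 1 = i0 + t' := by omega
      rw [e2] at e
      rw [e]
      exact X.mtick_mem_lgt i0 _ hr _ hb' ⟨_, Nat.le_add_right i0 u2, hu2⟩
        (hkns y hy r hr hcr' t' (by omega))
  · -- rhit
    intro x hx y hy r hr hxy hb s hs2 hsN hrp hst
    have hsN' : s ≤ N := hsN
    have hx' := ((hR x).1 hx).1
    have hy' := ((hC y).1 hy).1.1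
    have hb' : X.bl r x = X.bl r y := hb
    obtain ⟨s', rfl⟩ : ∃ s', s = s' + 1 := ⟨s - 1, by omega⟩
    obtain ⟨hs3, hr3, hp⟩ := hrp
    have hp' : b (y, ⟨s' + 1, hs3⟩) ⟨r, hr3⟩ (X.κ r x) = X.ix r x := hp
    refine ⟨0, ?_⟩
    rw [hK]
    have e2 : i0 + (s' + 1) - 1 = i0 + s' := by omega
    have hst' : S0.be σ x i0 < S0.al σ y (i0 + (s' + 1) - 1) := hst
    rw [e2] at hst'
    refine mtick_flow h hσ a b hx' hy' (s := 0) (t := s') (by omega) (by omega) ?_ ?_
      (hst'.le.trans (mtick_al_be h.ok0 hσ y _).le)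
    · rw [Nat.add_zero, h.w1]
      exact X.mtick_mem_lst1 hr hb'.symm
    · have e := h.rt a b y ((S a b).sI σ y (i0 + s')).M (s' + 1) hs3 hs2
      rw [e2] at e
      rw [e]
      exact X.mtick_mem_pick i0 _ hr _ hb' hp'
  · -- whit
    intro x hx y hy r hr hxy hb s hs2 hsN hwp hbe
    have hsN' : s ≤ N := hsN
    have hx' := ((hC x).1 hx).1.1
    have hy' := ((hC y).1 hy).1.1
    have hb' : X.bl r x = X.bl r y := hb
    obtain ⟨s', rfl⟩ : ∃ s', s = s' + 1 := ⟨s - 1, by omega⟩
    obtain ⟨hs3, hr3, hp⟩ := hwp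
    have hp' : a (y, ⟨s' + 1, hs3⟩) ⟨r, hr3⟩ (X.κ r x) = X.ix r x := hp
    rw [hK, Nat.add_sub_cancel]
    have e2 : i0 + (s' + 1) - 1 = i0 + s' := by omega
    have hbe' : S0.be σ y (i0 + (s' + 1) - 1) < S0.be σ x i0 := hbe
    rw [e2] at hbe'
    refine mtick_flow h hσ a b hy' hx' (s := s') (t := 0) (by omega) (by omega) ?_ ?_ hbe'.le
    · have e := h.wt a b y ((S a b).sI σ y (i0 + s')).M (s' + 1) hs3 hs2
      rw [e2] at e
      rw [e]
      exact X.mtick_mem_pick i0 _ hr _ hb' hp'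
    · rw [Nat.add_zero, h.r1]
      exact X.mtick_mem_lst1 hr hb'.symm

end famaux

/-- The hypotheses of the theorem about tick phases hold.
PROOF: `own`: `own_M`; `mono`: `M_mono`; `trans`, `nm`, `caus`: `gen_M`; times: `tme_lt`, `tme_inj`;
`start`: `flow` with `i = j = i0` (`lst1` contains the blocks); `light`: `flow` with `i = i0 + s - 1`,
`j = i0 + t - 1` (the known starters of a block which is not crowded are at most `2 * Lam` by `nm`, so
the light list contains them); `rhit`: `flow` with `i = i0`, `j = i0 + s - 1` (`pick` finds `x` by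
`X.inj`); `whit`: `flow` with `i = i0 + s - 1`, `j = i0`; `hzR`, `hzC`: definitions;
`locW`: `Sys.locW` with `c0 = ch i0`, `i1 = i0` (two picks in class `c` which differ: by `AgW` no
participant of the class has started before `τ`, and a pick is in the class or `p` itself);
`locR`: `Sys.locR`. -/
theorem fam_ok {N Rn Lam w : ℕ} {X : Blk n Rn Lam w} {i0 : ℕ} {S0 : Sys n D}
    {S : Tb (Fin n) N Rn Lam w → Tb (Fin n) N Rn Lam w → Sys n D} (h : TickPh X i0 S0 S)
    {σ : ℕ → Option (Fin n)} (hσ : Fair σ) (hz : ℕ) : (fam X i0 S0 S σ hz).Ok := by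
  have hE0 := h.hE
  have hN := h.hN
  have e1 : i0 + 1 - 1 = i0 := by omega
  refine ⟨fun a b => mtick_ph_ok h hσ hz a b, ?_, ?_, ?_, ?_, ?_, ?_, ?_, ?_, ?_⟩
  · intro y s y' s' h1 _ h3 _ he
    have he' : S0.al σ y (i0 + s - 1) = S0.al σ y' (i0 + s' - 1) := he
    obtain ⟨g1, g2⟩ := mtick_al_inj h.ok0 hσ he'
    exact ⟨g1, by omega⟩
  · intro y y' he
    exact mtick_be_inj hσ he
  · intro y s _ _
    exact mtick_al_be h.ok0 hσ y _
  · intro y s h1 _
    have e : i0 + (s + 1) - 1 = (i0 + s - 1) + 1 := by omega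
    show S0.be σ y (i0 + s - 1) < S0.al σ y (i0 + (s + 1) - 1)
    rw [e]
    exact mtick_be_al h.ok0 hσ y _
  · intro a b x hx
    rw [mtick_memR] at hx
    show S0.al σ x (i0 + 1 - 1) ≤ hz
    rw [e1]
    exact hx.2
  · intro y hy
    rw [mtick_memC0] at hy
    exact hy
  · intro a b y hy s hs z u hzu hne
    rw [mem_inter, mtick_memR, mtick_memC0] at hy
    rw [mtick_memK] at hzu
    have hE := (h.same a b).E
    obtain ⟨-, -, -, -, g, -, -⟩ := Sys.gen_M (h.ok a b) hσ (by omega)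
      (h.al hσ a b hy.1.1 s hs) hzu
    have g2 := (g hne).2
    rw [(h.same a b).al] at g2
    exact g2
  · -- locW
    intro a a' b τ hτ hag
    have hE := (h.same a b).E
    have hE' := (h.same a' b).E
    have hlw := (h.same a b).lw
    have hch := (h.same a b).ch
    have hsame : Sys.Same (S a b) (S a' b) :=
      ⟨by rw [(h.same a' b).E, (h.same a b).E], by rw [(h.same a' b).lw, (h.same a b).lw],
        by rw [(h.same a' b).lr, (h.same a b).lr], by rw [(h.same a' b).ch, (h.same a b).ch],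
        by rw [(h.same a' b).tm, (h.same a b).tm], by rw [(h.same a' b).rs, (h.same a b).rs]⟩
    have htr : (S a' b).tr = (S a b).tr := by
      funext p i M
      by_cases h1 : i < i0 ∨ i0 + N ≤ i
      · rw [h.ro a' b p M i h1, h.ro a b p M i h1]
      · rcases Nat.eq_or_lt_of_le (show i0 ≤ i by omega) with h2 | h2
        · rw [← h2, h.r1, h.r1]
        · obtain ⟨s, rfl⟩ : ∃ s, i = i0 + s - 1 := ⟨i + 1 - i0, by omega⟩
          rw [h.rt a' b p M s (by omega) (by omega), h.rt a b p M s (by omega) (by omega)]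
    have hst := Sys.locW (h.ok a b) (h.ok a' b) hsame htr (by rw [h.sh, h.sh])
      (by rw [h.d0, h.d0]) (by rw [h.nd, h.nd]) (by rw [h.sp, h.sp]) hσ (S0.ch i0) i0 τ
      (fun j hj hc => (h.chx j (by omega) ((congrFun hch j).symm.trans hc)).1) ?_
    · have hsI : ∀ x i, S0.al σ x i ≤ τ → (S a' b).sI σ x i = (S a b).sI σ x i := by
        intro x i hx
        unfold Sys.sI
        rw [(h.same a' b).al, (h.same a b).al]
        exact hst _ hx x
      refine ⟨fun x hx hxR => ?_, fun y _ _ s _ hs => ?_⟩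
      · have hx' : S0.al σ x (i0 + 1 - 1) ≤ τ := hx
        rw [e1] at hx'
        rw [mtick_memR] at hxR ⊢
        refine ⟨?_, hxR.2⟩
        unfold Sys.Al
        rw [hsI x i0 hx', h.sp a' b, ← h.sp a b]
        exact hxR.1
      · have hs' : S0.al σ y (i0 + (s + 1) - 1) ≤ τ := hs
        have e2 : i0 + (s + 1) - 1 = i0 + s := by omega
        rw [e2] at hs'
        show (((S a b).sI σ y (i0 + s)).M.filter fun q => i0 ≤ q.2).image
            (fun q => (q.1, q.2 - i0)) =
          (((S a' b).sI σ y (i0 + s)).M.filter fun q => i0 ≤ q.2).image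
            (fun q => (q.1, q.2 - i0))
        rw [hsI y (i0 + s) hs']
    · intro p i M k hi hk
      by_cases h1 : i < i0 ∨ i0 + N ≤ i
      · left
        rw [h.wo a' b p M i h1, h.wo a b p M i h1]
      · rcases Nat.eq_or_lt_of_le (show i0 ≤ i by omega) with h2 | h2
        · left
          rw [← h2, h.w1, h.w1]
        · obtain ⟨s, rfl⟩ : ∃ s, i = i0 + s - 1 := ⟨i + 1 - i0, by omega⟩
          rw [h.wt a' b p M s (by omega) (by omega), h.wt a b p M s (by omega) (by omega)]
          have hhid : ∀ (r : Fin Rn) (c : Fin Lam) (v : Fin w),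
              a (p, ⟨s, by omega⟩) r c ≠ a' (p, ⟨s, by omega⟩) r c →
              (X.pick r.val p c v = p ∨ (S a b).Hid σ i0 τ (X.pick r.val p c v)) := by
            intro r c v hne
            rcases X.mtick_pick_cases r.val p c v with h3 | ⟨h3, h4⟩
            · exact Or.inl h3
            · right
              rintro ⟨h5, h6⟩
              apply hne
              refine hag (p, ⟨s, by omega⟩) r c ⟨X.pick r.val p c v, ?_, ?_, h3, h4⟩
              · rw [mtick_memR]
                refine ⟨h5, ?_⟩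
                rw [mtick_be (h.same a b)] at h6
                have h7 := mtick_al_be h.ok0 hσ (X.pick r.val p c v) i0
                have h8 : τ ≤ hz := hτ
                omega
              · show S0.be σ (X.pick r.val p c v) (i0 + 1 - 1) < τ
                rw [e1, ← mtick_be (h.same a b)]
                exact h6
          have hrel := X.mtick_tl_rel (fun x x' => x' = x ∨
              ((x = p ∨ (S a b).Hid σ i0 τ x) ∧ (x' = p ∨ (S a b).Hid σ i0 τ x')))
            (fun x => Or.inl rfl) i0 (a (p, ⟨s, by omega⟩)) (a' (p, ⟨s, by omega⟩)) p M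
            (fun r c hne => Or.inr ⟨hhid r c _ hne, hhid r c _ hne⟩)
          rcases mtick_getD_rel _ p (Or.inl rfl) hrel k with h3 | h3
          · exact Or.inl h3
          · right
            refine ⟨?_, h3.1, h3.2⟩
            obtain ⟨s', rfl⟩ : ∃ s', s = s' + 1 := ⟨s - 1, by omega⟩
            have e3 : i0 + (s' + 1) - 1 = i0 + s' := by omega
            rw [hch, e3]
            exact h.ch s' (by omega)
  · -- locR
    intro a b b' τ hτ hag
    have hE := (h.same a b).E
    have hsame : Sys.Same (S a b) (S a b') :=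
      ⟨by rw [(h.same a b').E, (h.same a b).E], by rw [(h.same a b').lw, (h.same a b).lw],
        by rw [(h.same a b').lr, (h.same a b).lr], by rw [(h.same a b').ch, (h.same a b).ch],
        by rw [(h.same a b').tm, (h.same a b).tm], by rw [(h.same a b').rs, (h.same a b).rs]⟩
    have htw : (S a b').tw = (S a b).tw := by
      funext p i M
      by_cases h1 : i < i0 ∨ i0 + N ≤ i
      · rw [h.wo a b' p M i h1, h.wo a b p M i h1]
      · rcases Nat.eq_or_lt_of_le (show i0 ≤ i by omega) with h2 | h2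
        · rw [← h2, h.w1, h.w1]
        · obtain ⟨s, rfl⟩ : ∃ s, i = i0 + s - 1 := ⟨i + 1 - i0, by omega⟩
          rw [h.wt a b' p M s (by omega) (by omega), h.wt a b p M s (by omega) (by omega)]
    have hsI := Sys.locR (h.ok a b) (h.ok a b') hsame htw (by rw [h.sh, h.sh])
      (by rw [h.d0, h.d0]) (by rw [h.nd, h.nd]) (by rw [h.sp, h.sp]) hσ τ ?_
    · rw [(h.same a b).al] at hsI
      refine ⟨fun x hx hxR => ?_, fun y _ _ s _ hs => ?_⟩
      · have hx' : S0.al σ x (i0 + 1 - 1) ≤ τ := hx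
        rw [e1] at hx'
        rw [mtick_memR] at hxR ⊢
        refine ⟨?_, hxR.2⟩
        unfold Sys.Al
        rw [hsI x i0 hx', h.sp a b', ← h.sp a b]
        exact hxR.1
      · have hs' : S0.al σ y (i0 + (s + 1) - 1) ≤ τ := hs
        have e2 : i0 + (s + 1) - 1 = i0 + s := by omega
        rw [e2] at hs'
        show (((S a b).sI σ y (i0 + s)).M.filter fun q => i0 ≤ q.2).image
            (fun q => (q.1, q.2 - i0)) =
          (((S a b').sI σ y (i0 + s)).M.filter fun q => i0 ≤ q.2).image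
            (fun q => (q.1, q.2 - i0))
        rw [hsI y (i0 + s) hs']
    · intro p i M hi hal
      rw [(h.same a b).al] at hal
      by_cases h1 : i < i0 ∨ i0 + N ≤ i
      · rw [h.ro a b' p M i h1, h.ro a b p M i h1]
      · rcases Nat.eq_or_lt_of_le (show i0 ≤ i by omega) with h2 | h2
        · rw [← h2, h.r1, h.r1]
        · obtain ⟨s, rfl⟩ : ∃ s, i = i0 + s - 1 := ⟨i + 1 - i0, by omega⟩
          have e4 : b (p, ⟨s, by omega⟩) = b' (p, ⟨s, by omega⟩) := by
            refine hag (p, ⟨s, by omega⟩) ?_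
            show S0.al σ p (i0 + (s + 1) - 1) ≤ τ
            have e5 : i0 + (s + 1) - 1 = i0 + s - 1 + 1 := by omega
            rw [e5]
            exact hal
          rw [h.rt a b' p M s (by omega) (by omega), h.rt a b p M s (by omega) (by omega), e4]

end Pool.Agent.E217
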