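import Pool.Agent.MP217Exact.MCnt

set_option autoImplicit false

/-!
# The machine: the time table
-/

namespace Pool.Agent.E217

open Finset

attribute [local instance 10] Classical.propDecidable

variable {n : ℕ} {D : Type}

namespace Sys

variable {S : Sys n D} {σ : ℕ → Option (Fin n)}

private theorem ti_step {p : Fin n} {t : ℕ} (h : σ t = some p)
    (hi : ¬ S.Idle ((S.run σ t).st p)) : ∃ m : Msg n D, (S.run σ (t + 1)).st p =
      if ((S.run σ t).st p).pos < S.lw ((S.run σ t).st p).i then wr ((S.run σ t).st p)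
      else S.rd p ((S.run σ t).st p) m := by
  refine ⟨(S.run σ t).mem (S.rt p ((S.run σ t).st p)) p (S.ch ((S.run σ t).st p).i), ?_⟩
  have h1 : S.run σ (t + 1) = S.step p (S.run σ t) := by
    simp only [run, h]
  rw [h1]
  unfold step
  rw [if_neg hi]
  by_cases h2 : ((S.run σ t).st p).pos < S.lw ((S.run σ t).st p).i
  · rw [if_pos h2, if_pos h2]
    simp only [Function.update_self]
  · rw [if_neg h2, if_neg h2]
    simp only [Function.update_self]

private theorem ti_not_idle {s : LSt n D} (h : ¬ S.Idle s) : S.sp s.d = false ∧ s.i < S.E := by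
  unfold Idle at h
  push Not at h
  refine ⟨?_, h.2⟩
  have := h.1
  cases hb : S.sp s.d
  · rfl
  · exact absurd hb this

private theorem ti_same_aux {p : Fin n} {t t' : ℕ} (ht : t ≤ t') (h : cnt σ p t = cnt σ p t') :
    (S.run σ t').st p = (S.run σ t).st p := by
  induction t', ht using Nat.le_induction with
  | base => rfl
  | succ k hk ih =>
    have h1 : cnt σ p t ≤ cnt σ p k := cnt_mono σ p hk
    by_cases h2 : σ k = some p
    · have := cnt_succ_self h2
      omega
    · rw [st_ne h2]
      apply ih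
      rw [h, cnt_succ_ne h2]

private theorem ti_same {p : Fin n} {t t' : ℕ} (h : cnt σ p t = cnt σ p t') :
    (S.run σ t).st p = (S.run σ t').st p := by
  rcases le_total t t' with h1 | h1
  · exact (ti_same_aux h1 h).symm
  · exact ti_same_aux h1 h.symm

private theorem ti_zero (S : Sys n D) (σ : ℕ → Option (Fin n)) (p : Fin n) :
    (S.run σ 0).st p = S.beg p 0 (S.d0 p) ∅ ∅ := rfl

private theorem ti_cnt_zero (σ : ℕ → Option (Fin n)) (p : Fin n) : cnt σ p 0 = 0 := by
  unfold cnt
  simp

private theorem ti_off_zero (S : Sys n D) : S.off 0 = 0 := by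
  unfold off
  simp

private theorem ti_inv (hS : S.Ok) (p : Fin n) (t : ℕ) :
    (¬ S.Idle ((S.run σ t).st p) →
      S.off ((S.run σ t).st p).i + ((S.run σ t).st p).pos = cnt σ p t ∧
      ((S.run σ t).st p).pos < S.lw ((S.run σ t).st p).i + S.lr ((S.run σ t).st p).i) ∧
    (S.Idle ((S.run σ t).st p) → ((S.run σ t).st p).pos = 0 ∧
      S.off ((S.run σ t).st p).i ≤ cnt σ p t ∧ ((S.run σ t).st p).i ≤ S.E) := by
  induction t with
  | zero =>
    rw [ti_zero, ti_cnt_zero]
    refine ⟨fun _ => ⟨?_, ?_⟩, fun _ => ⟨rfl, ?_, Nat.zero_le _⟩⟩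
    · show S.off 0 + 0 = 0
      rw [ti_off_zero]
    · show 0 < S.lw 0 + S.lr 0
      have := hS.lw_pos 0
      omega
    · show S.off 0 ≤ 0
      rw [ti_off_zero]
  | succ t ih =>
    by_cases h : σ t = some p
    · rw [cnt_succ_self h]
      by_cases hi : S.Idle ((S.run σ t).st p)
      · have h1 : (S.run σ (t + 1)).st p = (S.run σ t).st p := st_idle hi (Nat.le_succ t)
        rw [h1]
        obtain ⟨h2, h3, h4⟩ := ih.2 hi
        exact ⟨fun h5 => absurd hi h5, fun _ => ⟨h2, by omega, h4⟩⟩
      · obtain ⟨h2, h3⟩ := ih.1 hi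
        obtain ⟨h4, h5⟩ := ti_not_idle hi
        obtain ⟨m, hm⟩ := ti_step h hi
        rw [hm]
        have hlw := hS.lw_pos ((S.run σ t).st p).i
        have hlr := hS.lr_pos ((S.run σ t).st p).i
        by_cases h6 : ((S.run σ t).st p).pos < S.lw ((S.run σ t).st p).i
        · rw [if_pos h6]
          refine ⟨fun _ => ⟨?_, ?_⟩, fun h7 => absurd h7 hi⟩
          · show S.off ((S.run σ t).st p).i + (((S.run σ t).st p).pos + 1) = cnt σ p t + 1
            omega
          · show ((S.run σ t).st p).pos + 1 < S.lw ((S.run σ t).st p).i + S.lr ((S.run σ t).st p).i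
            omega
        · rw [if_neg h6]
          unfold rd
          by_cases h7 : ((S.run σ t).st p).pos + 1 <
              S.lw ((S.run σ t).st p).i + S.lr ((S.run σ t).st p).i
          · rw [if_pos h7]
            refine ⟨fun _ => ⟨?_, ?_⟩, fun h8 => absurd h8 hi⟩
            · show S.off ((S.run σ t).st p).i + (((S.run σ t).st p).pos + 1) = cnt σ p t + 1
              omega
            · show ((S.run σ t).st p).pos + 1 <
                S.lw ((S.run σ t).st p).i + S.lr ((S.run σ t).st p).i
              omega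
          · rw [if_neg h7]
            have h8 := off_succ S ((S.run σ t).st p).i
            have hlw' := hS.lw_pos (((S.run σ t).st p).i + 1)
            refine ⟨fun _ => ⟨?_, ?_⟩, fun _ => ⟨rfl, ?_, ?_⟩⟩
            · show S.off (((S.run σ t).st p).i + 1) + 0 = cnt σ p t + 1
              omega
            · show 0 < S.lw (((S.run σ t).st p).i + 1) + S.lr (((S.run σ t).st p).i + 1)
              omega
            · show S.off (((S.run σ t).st p).i + 1) ≤ cnt σ p t + 1
              omega
            · show ((S.run σ t).st p).i + 1 ≤ S.E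
              omega
    · rw [cnt_succ_ne h, st_ne h]
      exact ih

/-- The position of a processor which is not idle.
PROOF: induction on `t`; a step increases `off i + pos` and `cnt` by one. -/
theorem pos_cnt (hS : S.Ok) {p : Fin n} {t : ℕ} (h : ¬ S.Idle ((S.run σ t).st p)) :
    S.off ((S.run σ t).st p).i + ((S.run σ t).st p).pos = cnt σ p t ∧
      ((S.run σ t).st p).pos < S.lw ((S.run σ t).st p).i + S.lr ((S.run σ t).st p).i :=
  (ti_inv hS p t).1 h

/-- An idle processor is at the beginning of a pass, not later than the time table says. -/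
theorem pos_idle (hS : S.Ok) {p : Fin n} {t : ℕ} (h : S.Idle ((S.run σ t).st p)) :
    ((S.run σ t).st p).pos = 0 ∧ S.off ((S.run σ t).st p).i ≤ cnt σ p t ∧
      ((S.run σ t).st p).i ≤ S.E :=
  (ti_inv hS p t).2 h

/-- At the time when `off i` steps are done the state is that at the beginning of pass `i`. -/
theorem st_beg (hσ : Fair σ) {p : Fin n} {i t : ℕ} (h : cnt σ p t = S.off i) :
    (S.run σ t).st p = S.sI σ p i := by
  unfold sI al
  apply ti_same
  rw [h, cnt_tme hσ]

/-- The state during pass `i`. -/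
theorem st_in (hS : S.Ok) (hσ : Fair σ) {p : Fin n} {i t : ℕ} (hi : i < S.E)
    (h : S.Al σ p i) (h1 : S.off i ≤ cnt σ p t) (h2 : cnt σ p t < S.off (i + 1)) :
    ((S.run σ t).st p).i = i ∧ ((S.run σ t).st p).pos = cnt σ p t - S.off i ∧
      ((S.run σ t).st p).d = (S.sI σ p i).d ∧ ((S.run σ t).st p).K = (S.sI σ p i).K ∧
      ((S.run σ t).st p).M = (S.sI σ p i).M := by
  have hoff := off_succ S i
  induction t with
  | zero =>
    have h3 : cnt σ p 0 = S.off i := by
      rw [ti_cnt_zero] at h1 ⊢
      omega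
    rw [st_beg hσ h3, h3, Nat.sub_self]
    exact ⟨h.1, h.2.1, rfl, rfl, rfl⟩
  | succ t ih =>
    by_cases h3 : σ t = some p
    · by_cases h4 : cnt σ p (t + 1) = S.off i
      · rw [st_beg hσ h4, h4, Nat.sub_self]
        exact ⟨h.1, h.2.1, rfl, rfl, rfl⟩
      · have h5 := cnt_succ_self h3
        rw [h5] at h1 h2 h4 ⊢
        obtain ⟨e1, e2, e3, e4, e5⟩ := ih (by omega) (by omega)
        have hni : ¬ S.Idle ((S.run σ t).st p) := by
          unfold Idle
          push Not
          rw [e3, e1]
          refine ⟨?_, hi⟩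
          rw [h.2.2]
          simp
        obtain ⟨m, hm⟩ := ti_step h3 hni
        rw [hm]
        by_cases h6 : ((S.run σ t).st p).pos < S.lw ((S.run σ t).st p).i
        · rw [if_pos h6]
          refine ⟨e1, ?_, e3, e4, e5⟩
          show ((S.run σ t).st p).pos + 1 = cnt σ p t + 1 - S.off i
          omega
        · rw [if_neg h6]
          unfold rd
          have h7 : ((S.run σ t).st p).pos + 1 <
              S.lw ((S.run σ t).st p).i + S.lr ((S.run σ t).st p).i := by
            rw [e2, e1]
            omega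
          rw [if_pos h7]
          refine ⟨e1, ?_, e3, e4, e5⟩
          show ((S.run σ t).st p).pos + 1 = cnt σ p t + 1 - S.off i
          omega
    · rw [cnt_succ_ne h3] at h1 h2 ⊢
      rw [st_ne h3]
      exact ih h1 h2

private theorem ti_al_aux (hS : S.Ok) (hσ : Fair σ) {p : Fin n} (t : ℕ)
    (h : ¬ S.Idle ((S.run σ t).st p)) : S.Al σ p ((S.run σ t).st p).i := by
  induction t with
  | zero =>
    have h3 : cnt σ p 0 = S.off ((S.run σ 0).st p).i := by
      rw [ti_zero, ti_cnt_zero]
      show 0 = S.off 0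
      rw [ti_off_zero]
    have h4 := st_beg hσ h3
    have h5 := (ti_not_idle h).1
    refine ⟨?_, ?_, ?_⟩
    · rw [← h4]
    · rw [← h4, ti_zero]
      rfl
    · rw [← h4]
      exact h5
  | succ t ih =>
    by_cases h0 : ((S.run σ (t + 1)).st p).pos = 0
    · have h3 : cnt σ p (t + 1) = S.off ((S.run σ (t + 1)).st p).i := by
        have := (pos_cnt hS h).1
        omega
      have h4 := st_beg hσ h3
      have h5 := (ti_not_idle h).1
      refine ⟨?_, ?_, ?_⟩
      · rw [← h4]
      · rw [← h4]
        exact h0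
      · rw [← h4]
        exact h5
    · by_cases h3 : σ t = some p
      · by_cases hi : S.Idle ((S.run σ t).st p)
        · rw [st_idle hi (Nat.le_succ t)] at h
          exact absurd hi h
        · have ih' := ih hi
          obtain ⟨m, hm⟩ := ti_step h3 hi
          rw [hm] at h0 ⊢
          by_cases h6 : ((S.run σ t).st p).pos < S.lw ((S.run σ t).st p).i
          · rw [if_pos h6]
            exact ih'
          · rw [if_neg h6] at h0 ⊢
            unfold rd at h0 ⊢
            by_cases h7 : ((S.run σ t).st p).pos + 1 <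
                S.lw ((S.run σ t).st p).i + S.lr ((S.run σ t).st p).i
            · rw [if_pos h7]
              exact ih'
            · rw [if_neg h7] at h0
              exact absurd rfl h0
      · rw [st_ne h3] at h ⊢
        exact ih h

/-- A processor which is not idle takes part in the pass in which it is. -/
theorem al_of (hS : S.Ok) (hσ : Fair σ) {p : Fin n} {t : ℕ}
    (h : ¬ S.Idle ((S.run σ t).st p)) : ((S.run σ t).st p).i < S.E ∧
      S.Al σ p ((S.run σ t).st p).i ∧ S.off ((S.run σ t).st p).i ≤ cnt σ p t ∧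
      cnt σ p t < S.off (((S.run σ t).st p).i + 1) := by
  have h1 := pos_cnt hS h
  have h2 := off_succ S ((S.run σ t).st p).i
  refine ⟨(ti_not_idle h).2, ti_al_aux hS hσ t h, ?_, ?_⟩
  · omega
  · omega

private theorem ti_sI_zero (S : Sys n D) (hσ : Fair σ) (p : Fin n) :
    S.sI σ p 0 = S.beg p 0 (S.d0 p) ∅ ∅ := by
  have h : cnt σ p 0 = S.off 0 := by
    rw [ti_cnt_zero, ti_off_zero]
  rw [← st_beg hσ h, ti_zero]

theorem al_zero (S : Sys n D) (hσ : Fair σ) (p : Fin n) :
    S.Al σ p 0 ↔ S.sp (S.d0 p) = false := by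
  unfold Al
  rw [ti_sI_zero S hσ p]
  constructor
  · intro h
    exact h.2.2
  · intro h
    exact ⟨rfl, rfl, h⟩

private theorem ti_sI_succ (hS : S.Ok) (hσ : Fair σ) {p : Fin n} {i : ℕ} (hi : i < S.E)
    (h : S.Al σ p i) : (S.sI σ p (i + 1)).i = i + 1 ∧ (S.sI σ p (i + 1)).pos = 0 := by
  have hoff := off_succ S i
  have hlw := hS.lw_pos i
  have hlr := hS.lr_pos i
  have hc : cnt σ p (tme σ p (S.off (i + 1) - 1)) = S.off (i + 1) - 1 := cnt_tme hσ p _
  have hs : σ (tme σ p (S.off (i + 1) - 1)) = some p := sched_tme hσ p _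
  obtain ⟨e1, e2, e3, e4, e5⟩ := st_in hS hσ hi h (t := tme σ p (S.off (i + 1) - 1))
    (by omega) (by omega)
  have hni : ¬ S.Idle ((S.run σ (tme σ p (S.off (i + 1) - 1))).st p) := by
    unfold Idle
    push Not
    rw [e3, e1]
    refine ⟨?_, hi⟩
    rw [h.2.2]
    simp
  obtain ⟨m, hm⟩ := ti_step hs hni
  have hc' : cnt σ p (tme σ p (S.off (i + 1) - 1) + 1) = S.off (i + 1) := by
    rw [cnt_succ_self hs]
    omega
  rw [← st_beg hσ hc', hm]
  have h6 : ¬ ((S.run σ (tme σ p (S.off (i + 1) - 1))).st p).pos <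
      S.lw ((S.run σ (tme σ p (S.off (i + 1) - 1))).st p).i := by
    rw [e1, e2]
    omega
  have h7 : ¬ ((S.run σ (tme σ p (S.off (i + 1) - 1))).st p).pos + 1 <
      S.lw ((S.run σ (tme σ p (S.off (i + 1) - 1))).st p).i +
      S.lr ((S.run σ (tme σ p (S.off (i + 1) - 1))).st p).i := by
    rw [e1, e2]
    omega
  rw [if_neg h6]
  unfold rd
  rw [if_neg h7]
  refine ⟨?_, rfl⟩
  show ((S.run σ (tme σ p (S.off (i + 1) - 1))).st p).i + 1 = i + 1
  rw [e1]

/-- A processor which does not take part in pass `i` has stopped at the end of an earlier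
pass. -/
private theorem ti_not_al (hS : S.Ok) (hσ : Fair σ) {p : Fin n} {i : ℕ} (hi : i ≤ S.E)
    (h : ¬ S.Al σ p i) : ∃ j ≤ i, (S.sI σ p j).i = j ∧ S.sp (S.sI σ p j).d = true ∧
      (∀ k < j, S.Al σ p k) ∧ ∀ t, S.off j ≤ cnt σ p t → (S.run σ t).st p = S.sI σ p j := by
  classical
  have hex : ∃ j, ¬ S.Al σ p j := ⟨i, h⟩
  have h1 : ¬ S.Al σ p (Nat.find hex) := Nat.find_spec hex
  have h2 : Nat.find hex ≤ i := Nat.find_min' hex h
  have h3 : ∀ k < Nat.find hex, S.Al σ p k := by
    intro k hk
    by_contra hc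
    exact Nat.find_min hex hk hc
  generalize Nat.find hex = j at h1 h2 h3
  have h4 : (S.sI σ p j).i = j ∧ (S.sI σ p j).pos = 0 := by
    cases j with
    | zero =>
      rw [ti_sI_zero S hσ p]
      exact ⟨rfl, rfl⟩
    | succ j =>
      exact ti_sI_succ hS hσ (by omega) (h3 j (Nat.lt_succ_self j))
  have h5 : S.sp (S.sI σ p j).d = true := by
    cases hb : S.sp (S.sI σ p j).d
    · exact absurd ⟨h4.1, h4.2, hb⟩ h1
    · rfl
  refine ⟨j, h2, h4.1, h5, h3, ?_⟩
  intro t ht
  by_cases h6 : t ≤ tme σ p (S.off j)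
  · have h7 := (le_tme_iff hσ p).1 h6
    exact st_beg hσ (by omega)
  · have h8 : S.Idle ((S.run σ (S.al σ p j)).st p) := Or.inl h5
    have h9 : S.al σ p j ≤ t := by
      unfold al
      omega
    exact st_idle h8 h9

theorem al_mono (hS : S.Ok) (hσ : Fair σ) {p : Fin n} {i j : ℕ} (h : S.Al σ p j) (hij : i ≤ j)
    (hj : j ≤ S.E) : S.Al σ p i := by
  by_contra hc
  obtain ⟨k, hk, -, h2, -, h4⟩ := ti_not_al hS hσ (le_trans hij hj) hc
  have h5 : (S.run σ (S.al σ p j)).st p = S.sI σ p k := by
    apply h4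
    unfold al
    rw [cnt_tme hσ]
    exact off_mono S (le_trans hk hij)
  have h6 : S.sI σ p j = S.sI σ p k := h5
  have h7 := h.2.2
  rw [h6, h2] at h7
  exact absurd h7 (by simp)

/-- A processor which does not take part in pass `i` has stopped at the end of an earlier
pass. -/
theorem not_al (hS : S.Ok) (hσ : Fair σ) {p : Fin n} {i : ℕ} (hi : i ≤ S.E)
    (h : ¬ S.Al σ p i) : ∃ j ≤ i, (S.sI σ p j).i = j ∧ S.sp (S.sI σ p j).d = true ∧
      (∀ k < j, S.Al σ p k) ∧ ∀ t, S.off j ≤ cnt σ p t → (S.run σ t).st p = S.sI σ p j :=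
  ti_not_al hS hσ hi h

end Sys

end Pool.Agent.E217
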