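import Mathlib

set_option autoImplicit false

/-!
# The machine: straight-line programs which write to and read from lists

A program consists of the passes `0, …, E - 1`.  In pass `i` a processor writes its knowledge and
its team to the `lw i` processors of one list, and then it reads the registers of the `lr i`
processors of another list.  All lengths are fixed; a processor may stop at the end of a pass.
-/

namespace Pool.Agent.E217

open Finset

attribute [local instance 10] Classical.propDecidable

/-- Stamps: `(q, j)` says that processor `q` has begun pass `j`. -/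
abbrev Stp (n : ℕ) : Type := Fin n × ℕ

/-- Pieces of information: processor `a` has begun pass `i` with data `d`, team `M` and public
list `T`. -/
structure Fact (n : ℕ) (D : Type) where
  a : Fin n
  i : ℕ
  d : D
  M : Finset (Stp n)
  T : List (Fin n)

/-- Messages. -/
abbrev Msg (n : ℕ) (D : Type) : Type := Finset (Stp n) × Finset (Fact n D)

/-- A program. `lw i`, `lr i` are the lengths of the two parts of pass `i`, `ch i` is its channel;
`tm i` says that the team is transmitted in pass `i`, `rs i` that the team is reset at the
beginning of pass `i`; `tw`, `tr` are the lists, `sh` is the public list, `d0` are the initial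
data, `nd p i K M d` the data after pass `i`; `sp` says that a processor has stopped. -/
structure Sys (n : ℕ) (D : Type) where
  E : ℕ
  lw : ℕ → ℕ
  lr : ℕ → ℕ
  ch : ℕ → ℕ
  tm : ℕ → Bool
  rs : ℕ → Bool
  tw : Fin n → ℕ → Finset (Stp n) → List (Fin n)
  tr : Fin n → ℕ → Finset (Stp n) → List (Fin n)
  sh : Fin n → ℕ → List (Fin n)
  d0 : Fin n → D
  nd : Fin n → ℕ → Finset (Fact n D) → Finset (Stp n) → D → D
  sp : D → Bool

/-- Local state of a processor. -/
structure LSt (n : ℕ) (D : Type) where
  i : ℕ
  pos : ℕ
  d : D
  K : Finset (Fact n D)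
  M : Finset (Stp n)
  aK : Finset (Fact n D)
  aM : Finset (Stp n)

/-- Global state: `mem w x c` is the register from `w` to `x` in channel `c`. -/
structure Cfg (n : ℕ) (D : Type) where
  st : Fin n → LSt n D
  mem : Fin n → Fin n → ℕ → Msg n D

variable {n : ℕ} {D : Type}

/-- The knowledge at the end of a pass, when the last message is `m`. -/
noncomputable def outK (s : LSt n D) (m : Msg n D) : Finset (Fact n D) := s.K ∪ (s.aK ∪ m.2)

/-- The team at the end of a pass, when the last message is `m`. -/
noncomputable def outM (s : LSt n D) (m : Msg n D) : Finset (Stp n) := s.M ∪ (s.aM ∪ m.1)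

namespace Sys

variable (S : Sys n D)

/-- The team at the beginning of pass `i`. -/
noncomputable def bM (p : Fin n) (i : ℕ) (M : Finset (Stp n)) : Finset (Stp n) :=
  insert (p, i) (if S.rs i = true then ∅ else M)

/-- The state at the beginning of pass `i`. -/
noncomputable def beg (p : Fin n) (i : ℕ) (d : D) (K : Finset (Fact n D)) (M : Finset (Stp n)) :
    LSt n D where
  i := i
  pos := 0
  d := d
  K := insert ⟨p, i, d, S.bM p i M, S.sh p i⟩ K
  M := S.bM p i M
  aK := ∅
  aM := ∅

/-- The state after a pass. -/
noncomputable def fin (p : Fin n) (s : LSt n D) (m : Msg n D) : LSt n D :=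
  S.beg p (s.i + 1) (S.nd p s.i (outK s m) (outM s m) s.d) (outK s m) (outM s m)

/-- The message written in a pass. -/
noncomputable def msg (s : LSt n D) : Msg n D := (if S.tm s.i = true then s.M else ∅, s.K)

/-- The state after a write step. -/
def wr (s : LSt n D) : LSt n D := { s with pos := s.pos + 1 }

/-- The state after a read step with message `m`. -/
noncomputable def rd (p : Fin n) (s : LSt n D) (m : Msg n D) : LSt n D :=
  if s.pos + 1 < S.lw s.i + S.lr s.i then
    { s with pos := s.pos + 1, aK := s.aK ∪ m.2, aM := s.aM ∪ m.1 }
  else S.fin p s m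

/-- The processor does not take steps any more. -/
def Idle (s : LSt n D) : Prop := S.sp s.d = true ∨ S.E ≤ s.i

/-- The addressee of a write step. -/
noncomputable def wt (p : Fin n) (s : LSt n D) : Fin n := (S.tw p s.i s.M).getD s.pos p

/-- The writer of the register which is read in a read step. -/
noncomputable def rt (p : Fin n) (s : LSt n D) : Fin n :=
  (S.tr p s.i s.M).getD (s.pos - S.lw s.i) p

/-- One step of processor `p` (nothing is written to the register from `p` to itself). -/
noncomputable def step (p : Fin n) (C : Cfg n D) : Cfg n D :=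
  if S.Idle (C.st p) then C
  else if (C.st p).pos < S.lw (C.st p).i then
    ⟨Function.update C.st p (wr (C.st p)),
      fun w x c => if (w = p ∧ x ≠ p) ∧ x = S.wt p (C.st p) ∧ c = S.ch (C.st p).i then
        S.msg (C.st p) else C.mem w x c⟩
  else ⟨Function.update C.st p (S.rd p (C.st p)
    (C.mem (S.rt p (C.st p)) p (S.ch (C.st p).i))), C.mem⟩

/-- The initial configuration. -/
noncomputable def init : Cfg n D :=
  ⟨fun p => S.beg p 0 (S.d0 p) ∅ ∅, fun _ _ _ => (∅, ∅)⟩

/-- The run under the schedule `σ`. -/
noncomputable def run (σ : ℕ → Option (Fin n)) : ℕ → Cfg n D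
  | 0 => S.init
  | t + 1 => match σ t with
    | none => run σ t
    | some p => S.step p (run σ t)

/-- The conditions on a program. -/
structure Ok : Prop where
  lw_pos : ∀ i, 0 < S.lw i
  lr_pos : ∀ i, 0 < S.lr i
  tw_len : ∀ p i M, (S.tw p i M).length = S.lw i
  tr_len : ∀ p i M, (S.tr p i M).length = S.lr i
  tm_ch : ∀ i j, S.ch i = S.ch j → S.tm i = S.tm j
  rs_ch : ∀ i j k, S.ch i = S.ch j → S.tm i = true → i < k → k ≤ j → S.rs k = false

/-- The number of steps before pass `i`. -/
def off (i : ℕ) : ℕ := ∑ j ∈ range i, (S.lw j + S.lr j)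

end Sys

/-- Every processor takes infinitely many steps. -/
def Fair (σ : ℕ → Option (Fin n)) : Prop := ∀ p, {t | σ t = some p}.Infinite

/-- The number of steps of `p` before time `t`. -/
noncomputable def cnt (σ : ℕ → Option (Fin n)) (p : Fin n) (t : ℕ) : ℕ :=
  Nat.count (fun t => σ t = some p) t

/-- The time of step `k` of `p`. -/
noncomputable def tme (σ : ℕ → Option (Fin n)) (p : Fin n) (k : ℕ) : ℕ :=
  Nat.nth (fun t => σ t = some p) k

namespace Sys

variable (S : Sys n D) (σ : ℕ → Option (Fin n))

/-- The beginning of pass `i` of `p`: the time of the first step. -/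
noncomputable def al (p : Fin n) (i : ℕ) : ℕ := tme σ p (S.off i)

/-- The time of the first read step of pass `i` of `p`. -/
noncomputable def be (p : Fin n) (i : ℕ) : ℕ := tme σ p (S.off i + S.lw i)

/-- The state of `p` at the beginning of pass `i`. -/
noncomputable def sI (p : Fin n) (i : ℕ) : LSt n D := (S.run σ (S.al σ p i)).st p

/-- `p` takes part in pass `i` (for `i = E`: it has taken part in all passes and has not
stopped). -/
def Al (p : Fin n) (i : ℕ) : Prop :=
  (S.sI σ p i).i = i ∧ (S.sI σ p i).pos = 0 ∧ S.sp (S.sI σ p i).d = false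

/-- The end of pass `i` of `p`: the time of the last read step. -/
noncomputable def en (p : Fin n) (i : ℕ) : ℕ := tme σ p (S.off (i + 1) - 1)

/-- What `p` reads in pass `i` about knowledge. -/
noncomputable def inK (p : Fin n) (i : ℕ) : Finset (Fact n D) :=
  (range (S.lr i)).biUnion fun k =>
    ((S.run σ (tme σ p (S.off i + S.lw i + k))).mem
      ((S.tr p i (S.sI σ p i).M).getD k p) p (S.ch i)).2

/-- What `p` reads in pass `i` about teams. -/
noncomputable def inM (p : Fin n) (i : ℕ) : Finset (Stp n) :=
  (range (S.lr i)).biUnion fun k =>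
    ((S.run σ (tme σ p (S.off i + S.lw i + k))).mem
      ((S.tr p i (S.sI σ p i).M).getD k p) p (S.ch i)).1

/-- The knowledge of `p` after pass `i`. -/
noncomputable def KE (p : Fin n) (i : ℕ) : Finset (Fact n D) := (S.sI σ p i).K ∪ S.inK σ p i

/-- The team of `p` after pass `i` (before it is reset). -/
noncomputable def ME (p : Fin n) (i : ℕ) : Finset (Stp n) := (S.sI σ p i).M ∪ S.inM σ p i

/-- The number of resets up to pass `i`. -/
def nr (i : ℕ) : ℕ := ((range (i + 1)).filter fun k => S.rs k = true).card

end Sys

end Pool.Agent.E217
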