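import Pool.Agent.MP217Exact.Core
import Pool.Agent.MP217Exact.MRes

set_option autoImplicit false

/-!
# The programs with coins satisfy the conditions
-/

namespace Pool.Agent.E217

open Finset MeasureTheory
open Pool.Agent.A217 (num)

attribute [local instance 10] Classical.propDecidable

variable {n : ℕ}

private theorem po_pair {a a' b b' : ℕ} (h : a ≤ a') (h' : b ≤ b') :
    Nat.pair a b ≤ Nat.pair a' b' := by
  have h1 : Nat.pair a b ≤ Nat.pair a' b := by
    rcases h.eq_or_lt with e | e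
    · rw [e]
    · exact (Nat.pair_lt_pair_left b e).le
  have h2 : Nat.pair a' b ≤ Nat.pair a' b' := by
    rcases h'.eq_or_lt with e | e
    · rw [e]
    · exact (Nat.pair_lt_pair_right a' e).le
  exact h1.trans h2

private theorem po_num {B T M : ℕ} (hB : Nat.pair T M ≤ B) {c c' : ℕ → Bool}
    (h : ∀ j < B, c j = c' j) {t m : ℕ} (ht : t ≤ T) (hm : m ≤ M) : num c t m = num c' t m := by
  unfold num
  congr 1
  funext j
  rw [h _ (lt_of_lt_of_le (lt_of_lt_of_le (Nat.pair_lt_pair_right t (lt_of_lt_of_le j.isLt hm))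
    (po_pair ht le_rfl)) hB)]

/-- Coins below `B` determine the tables. -/
theorem tabc_bdd (G : Geo n) (nR : ℕ) (x : Fin n → Bool) : ∃ B, ∀ c c' : Fin n → ℕ → Bool,
    (∀ p, ∀ j < B, c p j = c' p j) → tabc G nR x c = tabc G nR x c' := by
  set T1 : ℕ := Nat.pair 0 (Nat.pair (Nat.pair G.A.O G.A.L) (∑ l ∈ range (G.A.L + 1), G.A.ns l))
    with hT1
  set T2 : ℕ := Nat.pair 3 nR with hT2
  set T3 : ℕ := ∑ ρ ∈ range G.H, pcode ρ 2 true (G.mid ρ).N (G.mid ρ).Rn (G.mid ρ).Lam with hT3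
  set M1 : ℕ := G.A.L + 3 with hM1
  set M2 : ℕ := ∑ ρ ∈ range nR, (G.lev ρ + G.hf) with hM2
  set M3 : ℕ := ∑ ρ ∈ range G.H, (G.mid ρ).om with hM3
  refine ⟨Nat.pair (T1 + T2 + T3) (M1 + M2 + M3), fun c c' h => ?_⟩
  have key : ∀ p t m, t ≤ T1 + T2 + T3 → m ≤ M1 + M2 + M3 → num (c p) t m = num (c' p) t m :=
    fun p t m ht hm => po_num le_rfl (h p) ht hm
  have e1 : (fun p (l : ℕ) => Q217.sdc G.A (c p) 0 l) = fun p (l : ℕ) => Q217.sdc G.A (c' p) 0 l := by
    funext p l j
    unfold Q217.sdc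
    by_cases hc : 0 ≤ G.A.O ∧ l ≤ G.A.L ∧ j < G.A.ns l
    · rw [if_pos hc, if_pos hc, key]
      · have h1 : Nat.pair 0 (Nat.pair (Nat.pair 0 l) j) ≤ T1 := by
          refine po_pair le_rfl (po_pair (po_pair hc.1 hc.2.1) ?_)
          exact hc.2.2.le.trans (Finset.single_le_sum (f := fun l => G.A.ns l)
            (fun _ _ => Nat.zero_le _) (mem_range.2 (Nat.lt_succ_of_le hc.2.1)))
        omega
      · omega
    · rw [if_neg hc, if_neg hc]
  have e2 : (fun p => pkc G (c p)) = fun p => pkc G (c' p) := by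
    funext p ρ f b s r k
    unfold pkc
    by_cases hc : ρ < G.H ∧ f < 2 ∧ s ≤ (G.mid ρ).N ∧ r < (G.mid ρ).Rn ∧ k < (G.mid ρ).Lam
    · rw [if_pos hc, if_pos hc, key]
      · have h1 : pcode ρ f b s r k ≤ T3 := by
          have h2 : pcode ρ f b s r k ≤
              pcode ρ 2 true (G.mid ρ).N (G.mid ρ).Rn (G.mid ρ).Lam := by
            unfold pcode
            refine po_pair le_rfl (po_pair (po_pair le_rfl (po_pair hc.2.1.le ?_))
              (po_pair hc.2.2.1 (po_pair hc.2.2.2.1.le hc.2.2.2.2.le)))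
            cases b <;> simp
          exact h2.trans (Finset.single_le_sum
            (f := fun ρ => pcode ρ 2 true (G.mid ρ).N (G.mid ρ).Rn (G.mid ρ).Lam)
            (fun _ _ => Nat.zero_le _) (mem_range.2 hc.1))
        omega
      · have h1 : (G.mid ρ).om ≤ M3 := Finset.single_le_sum (f := fun ρ => (G.mid ρ).om)
            (fun _ _ => Nat.zero_le _) (mem_range.2 hc.1)
        omega
    · rw [if_neg hc, if_neg hc]
  have e3 : (fun p => flpc G nR (c p)) = fun p => flpc G nR (c' p) := by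
    funext p ρ
    unfold flpc
    by_cases hc : ρ < nR
    · rw [key]
      · have h1 : Nat.pair 3 ρ ≤ T2 := po_pair le_rfl hc.le
        omega
      · have h1 : G.lev ρ + G.hf ≤ M2 := Finset.single_le_sum (f := fun ρ => G.lev ρ + G.hf)
            (fun _ _ => Nat.zero_le _) (mem_range.2 hc)
        omega
    · simp [hc]
  unfold tabc
  simp only [Tab.mk.injEq, true_and]
  exact ⟨e1, e2, e3⟩

/-- A property of the tables is measurable. PROOF: `tabc_bdd`, `A217.meas_of_fin`. -/
theorem meas_tabc (G : Geo n) (nR : ℕ) (x : Fin n → Bool) (Q : Tab n → Prop) :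
    MeasurableSet {c : Fin n → ℕ → Bool | Q (tabc G nR x c)} := by
  obtain ⟨B, hB⟩ := tabc_bdd G nR x
  refine A217.meas_of_fin (univ ×ˢ range B) _ fun c c' h => ?_
  have e := hB c c' fun p j hj => h (p, j) (mem_product.2 ⟨mem_univ _, mem_range.2 hj⟩)
  show Q (tabc G nR x c) ↔ Q (tabc G nR x c')
  rw [e]

/-- One processor. -/
theorem meas_tab1 (G : Geo n) (nR : ℕ) (Q : Tab n → Prop) :
    MeasurableSet {c : ℕ → Bool | Q (tabc G nR (fun _ => false) (fun _ => c))} := by
  have h : Measurable fun (c : ℕ → Bool) (_ : Fin n) => c :=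
    measurable_pi_lambda _ fun _ => measurable_id
  exact h (meas_tabc G nR (fun _ => false) Q)

theorem prg_ok {D : Type} [Countable D] (G : Geo n) (nR : ℕ) (hR : 0 < nR) (d0 : Bool → D)
    (nd : (ℕ → Bool) → Fin n → ℕ → Finset (Fact n D) → Finset (Stp n) → D → D)
    (sp val dec : D → Bool) (h0 : ∀ b, sp (d0 b) = false)
    (hnd : ∀ p i K M d d', MeasurableSet {c | nd c p i K M d = d'}) :
    (prg G nR d0 nd sp val dec).Ok where
  cD := inferInstance
  sys x c := Tab.core_ok (tabc G nR x c) G nR (fun p => d0 (x p)) (fun p => nd (c p) p) sp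
  E_pos := by
    show 0 < G.st nR
    have := G.st_lt hR
    omega
  d0 b _ := h0 b
  tw_meas p i M L := meas_tab1 G nR fun T => T.lst G false p i M = L
  tr_meas p i M L := meas_tab1 G nR fun T => T.lst G true p i M = L
  sh_meas p i L := meas_tab1 G nR fun T =>
    (if G.jOf i = 0 then T.ext G p (G.rOf i) else []) = L
  nd_meas := hnd

instance : Countable DC := by
  refine Function.Injective.countable (f := fun d : DC => (d.bit, d.cand, d.out)) ?_
  rintro ⟨a, b, c⟩ ⟨a', b', c'⟩ h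
  simp only [Prod.mk.injEq] at h
  obtain ⟨rfl, rfl, rfl⟩ := h
  rfl

instance : Countable DA := by
  refine Function.Injective.countable
    (f := fun d : DA => (d.inp, d.ph, d.flag, d.bit, d.dec, d.out)) ?_
  rintro ⟨a, b, c, d, e, f⟩ ⟨a', b', c', d', e', f'⟩ h
  simp only [Prod.mk.injEq] at h
  obtain ⟨rfl, rfl, rfl, rfl, rfl, rfl⟩ := h
  rfl

theorem prgC_ok (G : Geo n) (nR : ℕ) (hR : 0 < nR) : (prgC G nR).Ok :=
  prg_ok G nR hR _ _ _ _ _ (fun _ => rfl) fun p i K M d d' =>
    meas_tab1 G nR fun T => T.ndC G p i K M d = d'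

theorem prgA_ok (G : Geo n) (nR : ℕ) (hR : 0 < nR) : (prgA G nR).Ok :=
  prg_ok G nR hR _ _ _ _ _ (fun _ => rfl) fun _ _ _ _ _ _ => MeasurableSet.const _

end Pool.Agent.E217
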