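import Pool.Agent.MP217Exact.MSim
import Pool.Agent.MP217Exact.MHor
import Pool.Agent.MP217Exact.MWork

set_option autoImplicit false

/-!
# Round protocols of programs and fair schedules
-/

namespace Pool.Agent.E217

open Finset
open scoped ENNReal
open Pool.Agent.A217 (RP)

attribute [local instance 10] Classical.propDecidable

variable {n : ℕ} {D : Type}

namespace Prg

/-- everybody who has taken all steps is idle -/
private theorem rw_idle {S : Sys n D} (hS : S.Ok) {σ : ℕ → Option (Fin n)} {H : ℕ} {p : Fin n}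
    (h : S.off S.E ≤ cnt σ p H) : S.Idle ((S.run σ H).st p) := by
  by_contra h3
  obtain ⟨h4, h5⟩ := Sys.pos_cnt hS h3
  have h6 : ((S.run σ H).st p).i < S.E := by
    by_contra h7
    exact h3 (Or.inr (not_lt.1 h7))
  have h7 := S.off_mono (show ((S.run σ H).st p).i + 1 ≤ S.E from h6)
  rw [Sys.off_succ] at h7
  omega

/-- a schedule, its horizon and a fair schedule -/
private theorem rw_hor (σ : ℕ → Option (Fin n)) (B : ℕ) :
    ∃ (σ' : ℕ → Option (Fin n)) (Hz : ℕ), Fair σ' ∧ (∀ t < Hz, σ' t = σ t) ∧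
      ∀ p, B ≤ cnt σ p Hz ∨ ∀ t, Hz ≤ t → σ t ≠ some p := by
  obtain ⟨Hz, hH⟩ := exists_hor σ B
  obtain ⟨σ', hf, hs⟩ := exists_fair σ Hz
  exact ⟨σ', Hz, hf, hs, hH⟩

/-- no step counts after the horizon -/
private theorem rw_steps {S : Sys n D} (hS : S.Ok) {σ σ' : ℕ → Option (Fin n)} {Hz : ℕ}
    (hs : ∀ t < Hz, σ' t = σ t)
    (hH : ∀ p, S.off S.E ≤ cnt σ p Hz ∨ ∀ t, Hz ≤ t → σ t ≠ some p) (t : ℕ) (p : Fin n) :
    S.steps σ t p ≤ S.steps σ' Hz p := by
  unfold Sys.steps
  refine card_le_card fun t' ht' => ?_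
  rw [mem_filter, mem_range] at ht' ⊢
  obtain ⟨-, h2, h3⟩ := ht'
  have h4 : t' < Hz := by
    by_contra h5
    push Not at h5
    rcases hH p with h6 | h6
    · refine h3 ?_
      rw [run_hor hS hH t' h5]
      exact rw_idle hS h6
    · exact h6 t' h5 h2
  refine ⟨h4, by rw [hs t' h4]; exact h2, ?_⟩
  rw [Sys.run_congr S fun u hu => hs u (hu.trans h4)]
  exact h3

/-- Finished processors. PROOF: `rp_fin`, `Sys.run_congr`. -/
theorem rp_idle {P : Prg n D} (hP : P.Ok) {x : Fin n → Bool} {c : Fin n → ℕ → Bool}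
    {σ : ℕ → Option (Fin n)} {t : ℕ} {p : Fin n} {v d : Bool}
    (h : (P.rp hP).next p (((P.rp hP).run x c σ t).st p) = .fin v d)
    {σ' : ℕ → Option (Fin n)} (hh : ∀ t' < t, σ' t' = σ t') :
    (P.sys x c).Idle (((P.sys x c).run σ' t).st p) ∧
      P.val (((P.sys x c).run σ' t).st p).d = v ∧ P.dec (((P.sys x c).run σ' t).st p).d = d := by
  rw [Sys.run_congr (P.sys x c) hh]
  exact (rp_fin hP x c σ t p v d).1 h

/-- The work under the schedule `σ` is the work under a fair schedule up to some time.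
PROOF: `exists_hor` with `B = ∑ j < E, (lw j + lr j)`, `exists_fair`, `rp_steps`; after the horizon
nobody takes a step which counts (by `run_hor` the configuration does not change, but a step of a
processor which is not idle changes its `pos` or its `i`). -/
theorem rp_work {P : Prg n D} (hP : P.Ok) (σ : ℕ → Option (Fin n)) :
    ∃ (σ' : ℕ → Option (Fin n)) (Hz : ℕ), Fair σ' ∧ (∀ t < Hz, σ' t = σ t) ∧
      ∀ (x : Fin n → Bool) (c : Fin n → ℕ → Bool),
        (P.rp hP).work x c σ ≤ ((∑ p, (P.sys x c).steps σ' Hz p : ℕ) : ℝ≥0∞) := by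
  obtain ⟨σ', Hz, hf, hs, hH⟩ := rw_hor σ (∑ j ∈ range P.E, (P.lw j + P.lr j))
  refine ⟨σ', Hz, hf, hs, fun x c => ?_⟩
  unfold RP.work
  refine iSup_le fun t => ?_
  refine Nat.cast_le.2 (sum_le_sum fun p _ => ?_)
  rw [rp_steps]
  exact rw_steps (hP.sys x c) hs hH t p

/-- After the horizon of `rp_work` nothing happens: finished processors are finished at the
horizon. -/
theorem rp_hor {P : Prg n D} (hP : P.Ok) (σ : ℕ → Option (Fin n)) :
    ∃ (σ' : ℕ → Option (Fin n)) (Hz : ℕ), Fair σ' ∧ (∀ t < Hz, σ' t = σ t) ∧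
      ∀ (x : Fin n → Bool) (c : Fin n → ℕ → Bool) (t : ℕ) (p : Fin n) (v d : Bool),
        (P.rp hP).next p (((P.rp hP).run x c σ t).st p) = .fin v d →
        (P.sys x c).Idle (((P.sys x c).run σ' Hz).st p) ∧
          P.val (((P.sys x c).run σ' Hz).st p).d = v ∧
          P.dec (((P.sys x c).run σ' Hz).st p).d = d := by
  obtain ⟨σ', Hz, hf, hs, hH⟩ := rw_hor σ (∑ j ∈ range P.E, (P.lw j + P.lr j))
  refine ⟨σ', Hz, hf, hs, fun x c t p v d h => ?_⟩
  rw [Sys.run_congr (P.sys x c) hs]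
  have h1 := (rp_fin hP x c σ t p v d).1 h
  rcases le_total t Hz with h2 | h2
  · rw [Sys.st_idle h1.1 h2]
    exact h1
  · rw [← run_hor (hP.sys x c) hH t h2]
    exact h1

end Prg

end Pool.Agent.E217
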