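import Pool.Agent.MP217Exact.A_Pair
import Pool.Agent.MP217Exact.A_Cnt
import Pool.Agent.MP217Exact.PrgOk
import Pool.Agent.MP217Exact.RpW
import Pool.Agent.MP217Exact.Idl

set_option autoImplicit false

/-!
# Adopt-commit as a round protocol
-/

namespace Pool.Agent.E217

open Finset MeasureTheory
open scoped ENNReal
open Pool.Agent.MP217Upper.Model (coins)
open Pool.Agent.A217 (RP)

attribute [local instance 10] Classical.propDecidable

variable {n : ℕ}

/-- The round protocol of adopt-commit. -/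
noncomputable def rpA (G : Geo n) : RP n := (prgA G (G.H + 2)).rp (prgA_ok G (G.H + 2) (by omega))

/-- The world of adopt-commit. -/
noncomputable def wA (G : Geo n) (x : Fin n → Bool) (c : Fin n → ℕ → Bool)
    {σ : ℕ → Option (Fin n)} (hσ : Fair σ) : AD n := ⟨tabc G (G.H + 2) x c, G, σ, hσ⟩

variable (G : Geo n)

/-- Finished processors in terms of the world of a fair schedule.
PROOF: `Prg.rp_idle`, `Wd.idle_run`, `AD.all_out` (with `Wd.go_succ`). -/
theorem A_fin {x : Fin n → Bool} {c : Fin n → ℕ → Bool} {σ : ℕ → Option (Fin n)} {t : ℕ}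
    {p : Fin n} {v d : Bool} (h : (rpA G).next p (((rpA G).run x c σ t).st p) = .fin v d)
    {σ' : ℕ → Option (Fin n)} (hσ' : Fair σ') (hh : ∀ t' < t, σ' t' = σ t') :
    ∃ ρ < G.H + 2, (wA G x c hσ').W.go p ρ ∧ (wA G x c hσ').W.eT p ρ < t ∧
      ((wA G x c hσ').W.dS p (ρ + 1)).out = true ∧
      ((wA G x c hσ').W.dS p (ρ + 1)).bit = v ∧ ((wA G x c hσ').W.dS p (ρ + 1)).dec = d := by
  obtain ⟨h1, h2, h3⟩ := Prg.rp_idle (prgA_ok G (G.H + 2) (by omega)) h hh
  have hid : (wA G x c hσ').W.S.Idle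
      (((wA G x c hσ').W.S.run (wA G x c hσ').W.σ t).st p) := h1
  obtain ⟨ρ, hρ, hg, he, hd, ho⟩ := (wA G x c hσ').W.idle_run
    (fun p i K M d hl => (wA G x c hσ').W_nd p i K M d hl) hid
  have h2' : (((wA G x c hσ').W.S.run (wA G x c hσ').W.σ t).st p).d.bit = v := h2
  have h3' : (((wA G x c hσ').W.S.run (wA G x c hσ').W.σ t).st p).d.dec = d := h3
  rw [hd] at h2' h3'
  have hρ' : ρ < G.H + 2 := hρ
  refine ⟨ρ, hρ', hg, he, ?_, h2', h3'⟩
  rcases ho with ho | ho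
  · exact ho
  · by_contra hne
    have hf : (wA G x c hσ').W.sp ((wA G x c hσ').W.dS p (ρ + 1)) = false :=
      Bool.eq_false_iff.2 hne
    have hg2 := ((wA G x c hσ').W.go_succ
      (fun p i K M d hl => (wA G x c hσ').W_nd p i K M d hl) hρ hg).2 hf
    rw [ho] at hg2
    exact (wA G x c hσ').all_out p hg2

/-- PROOF: `exists_fair` with `max t t'`, `A_fin`, `AD.agree`. -/
theorem A_agree (x : Fin n → Bool) (c : Fin n → ℕ → Bool) (σ : ℕ → Option (Fin n))
    (t t' : ℕ) (p p' : Fin n) (v v' d' : Bool)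
    (h : (rpA G).next p (((rpA G).run x c σ t).st p) = .fin v true)
    (h' : (rpA G).next p' (((rpA G).run x c σ t').st p') = .fin v' d') : v' = v := by
  obtain ⟨σ', hσ', he⟩ := exists_fair σ (max t t')
  obtain ⟨ρ, l1, g1, _, o1, b1, d1⟩ := A_fin G h hσ' fun s hs => he s (lt_max_of_lt_left hs)
  obtain ⟨ρ', l2, g2, _, o2, b2, _⟩ := A_fin G h' hσ' fun s hs => he s (lt_max_of_lt_right hs)
  rw [← b2, ← b1]
  exact (wA G x c hσ').agree l1 l2 g1 g2 o1 o2 d1

/-- PROOF: `exists_fair`, `A_fin`, `AD.unan`. -/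
theorem A_unan (x : Fin n → Bool) (c : Fin n → ℕ → Bool) (σ : ℕ → Option (Fin n)) (v : Bool)
    (hv : ∀ t p, σ t = some p → x p = v) (t : ℕ) (p : Fin n) (v' d' : Bool)
    (h : (rpA G).next p (((rpA G).run x c σ t).st p) = .fin v' d') : v' = v ∧ d' = true := by
  obtain ⟨σ', hσ', he⟩ := exists_fair σ t
  obtain ⟨ρ, l1, g1, e1, o1, b1, d1⟩ := A_fin G h hσ' he
  have hu := (wA G x c hσ').unan l1 g1 o1 (v := v) ?_
  · exact ⟨b1.symm.trans hu.1, d1.symm.trans hu.2⟩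
  · intro s hs a ha
    have hs' : s < t := lt_of_le_of_lt hs e1
    have ha' : σ' s = some a := ha
    rw [he s hs'] at ha'
    exact hv s a ha'

/-- PROOF: `Prg.rp_bdd`. -/
theorem A_bdd : ∃ Bd : ℕ, ∀ x c σ t p, (rpA G).steps x c σ t p ≤ Bd :=
  ⟨_, fun x c σ t p => Prg.rp_bdd (prgA_ok G (G.H + 2) (by omega)) x c σ t p⟩

/-- The work, for the world of a fair schedule. PROOF: `Prg.rp_work`, `Wd.steps_run`. -/
theorem A_work_le (σ : ℕ → Option (Fin n)) : ∃ (σ' : ℕ → Option (Fin n)) (hσ' : Fair σ'),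
    ∀ (x : Fin n → Bool) (c : Fin n → ℕ → Bool), (rpA G).work x c σ ≤
      ((∑ ρ ∈ range (G.H + 2), G.cost ρ * (wA G x c hσ').y ρ : ℕ) : ℝ≥0∞) := by
  obtain ⟨σ', Hz, hσ', _, hw⟩ := Prg.rp_work (prgA_ok G (G.H + 2) (by omega)) σ
  refine ⟨σ', hσ', fun x c => (hw x c).trans ?_⟩
  exact Nat.cast_le.2 ((wA G x c hσ').W.steps_run Hz)

end Pool.Agent.E217
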