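import Pool.Agent.MP217Exact.CandFin
import Pool.Agent.MP217Exact.PrgOk
import Pool.Agent.MP217Exact.RpW
import Pool.Agent.MP217Exact.Idl

set_option autoImplicit false

/-!
# The conciliator as a round protocol
-/

namespace Pool.Agent.E217

open Finset MeasureTheory
open scoped ENNReal
open Pool.Agent.MP217Upper.Model (coins)
open Pool.Agent.A217 (RP)

attribute [local instance 10] Classical.propDecidable

variable {n : ℕ}

/-- The round protocol of the conciliator. -/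
noncomputable def rpC (G : Geo n) {nR : ℕ} (hR : G.H + 2 ≤ nR) : RP n :=
  (prgC G nR).rp (prgC_ok G nR (by omega))

/-- The world of the conciliator. -/
noncomputable def wC (G : Geo n) {nR : ℕ} (hR : G.H + 2 ≤ nR) (x : Fin n → Bool)
    (c : Fin n → ℕ → Bool) {σ : ℕ → Option (Fin n)} (hσ : Fair σ) : CD n :=
  ⟨tabc G nR x c, G, nR, σ, hσ, hR⟩

variable (G : Geo n) {nR : ℕ} (hR : G.H + 2 ≤ nR)

/-- Finished processors in terms of the world of a fair schedule.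
PROOF: `Prg.rp_idle`, `Wd.idle_run`. -/
theorem C_fin {x : Fin n → Bool} {c : Fin n → ℕ → Bool} {σ : ℕ → Option (Fin n)} {t : ℕ}
    {p : Fin n} {v d : Bool} (h : (rpC G hR).next p (((rpC G hR).run x c σ t).st p) = .fin v d)
    {σ' : ℕ → Option (Fin n)} (hσ' : Fair σ') (hh : ∀ t' < t, σ' t' = σ t') :
    d = false ∧ ∃ ρ < nR, (wC G hR x c hσ').W.go p ρ ∧ (wC G hR x c hσ').W.eT p ρ < t ∧
      (((wC G hR x c hσ').W.dS p (ρ + 1)).out = true ∨ ρ + 1 = nR) ∧
      ((wC G hR x c hσ').W.dS p (ρ + 1)).cand.getD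
        ((wC G hR x c hσ').W.dS p (ρ + 1)).bit = v := by
  obtain ⟨h1, h2, h3⟩ := Prg.rp_idle (prgC_ok G nR (by omega)) h hh
  refine ⟨h3.symm, ?_⟩
  obtain ⟨ρ, hρ, hg, he, hd, ho⟩ := (wC G hR x c hσ').W.idle_run
    (fun p i K M d => (wC G hR x c hσ').W_nd p i K M d) (t := t) (p := p) h1
  refine ⟨ρ, hρ, hg, he, ho, ?_⟩
  rw [← hd]
  exact h2

private theorem rc_tme {σ : ℕ → Option (Fin n)} (hσ : Fair σ) (p : Fin n) (k : ℕ) :
    σ (tme σ p k) = some p := Nat.nth_mem_of_infinite (hσ p) k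

/-- PROOF: `C_fin`, `CD.val_fin`; `p` and `q` have taken steps before `t`. -/
theorem C_unan (x : Fin n → Bool) (c : Fin n → ℕ → Bool) (σ : ℕ → Option (Fin n)) (v : Bool)
    (hv : ∀ t p, σ t = some p → x p = v) (t : ℕ) (p : Fin n) (v' d' : Bool)
    (h : (rpC G hR).next p (((rpC G hR).run x c σ t).st p) = .fin v' d') : v' = v := by
  obtain ⟨σ', hσ', hh⟩ := exists_fair σ t
  obtain ⟨-, ρ, hρ, hg, he, -, hval⟩ := C_fin G hR h hσ' hh
  have key : ∀ q ρ', (wC G hR x c hσ').W.eT q ρ' < t → x q = v := by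
    intro q ρ' hq
    have h1 : σ' ((wC G hR x c hσ').W.eT q ρ') = some q := rc_tme hσ' q _
    rw [hh _ hq] at h1
    exact hv _ _ h1
  rcases (wC G hR x c hσ').val_fin hρ hg hval with ⟨h1, -⟩ | ⟨q, ρ', -, -, -, h1, h2⟩
  · have h3 := key p ρ he
    have h4 : x p = v' := h1
    rw [← h4, h3]
  · have h3 := key q ρ' (lt_of_le_of_lt h2 he)
    have h4 : x q = v' := h1
    rw [← h4, h3]

/-- PROOF: `Prg.rp_bdd`. -/
theorem C_bdd : ∃ Bd : ℕ, ∀ x c σ t p, (rpC G hR).steps x c σ t p ≤ Bd :=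
  ⟨_, fun x c σ t p => Prg.rp_bdd (prgC_ok G nR (by omega)) x c σ t p⟩

end Pool.Agent.E217
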