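import Pool.Agent.MP217Exact.Geo
import Pool.Agent.MP217Exact.MPrg
import Pool.Agent.MP217Two.Tabs

set_option autoImplicit false

/-!
# The two programs: conciliator and adopt-commit
-/

namespace Pool.Agent.E217

open Finset
open Pool.Agent.A217 (num)

attribute [local instance 10] Classical.propDecidable

variable {n : ℕ}

/-- The names in a team. -/
def names (M : Finset (Stp n)) : Finset (Fin n) := M.image Prod.fst

/-! ### The conciliator -/

/-- Data of the conciliator: input, candidate, and whether the processor has left. -/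
structure DC : Type where
  bit : Bool
  cand : Option Bool
  out : Bool

namespace Geo

variable (G : Geo n)

/-- Pass `i` is the last pass of its run. -/
def Last (i : ℕ) : Prop := i + 1 = G.st (G.rOf i + 1)

/-- The evidence for leaving at the end of run `ρ`: the team of run `ρ'` of many processors which
have finished the ext pass of run `ρ' + 1` contains `x`, which had a candidate at the beginning of
run `ρ'`. -/
def Evid (X : Finset (Fact n DC)) (ρ : ℕ) : Prop :=
  ∃ x ρ', ρ' + 1 ≤ ρ ∧ ρ' < G.H ∧ (∃ f ∈ X, f.a = x ∧ f.i = G.st ρ' ∧ f.d.cand ≠ none) ∧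
    16 * 2 ^ G.lev ρ' ≤ (univ.filter fun b =>
      (∃ f ∈ X, f.a = b ∧ f.i = G.st (ρ' + 1) + 1) ∧
        ∃ f ∈ X, f.a = b ∧ f.i = G.st (ρ' + 1) ∧ x ∈ names f.M).card

/-- The candidate after a run. -/
noncomputable def newc (X : Finset (Fact n DC)) (c : Option Bool) : Option Bool :=
  if c ≠ none then c
  else if ∃ f ∈ X, f.d.cand = some true then some true
  else if ∃ f ∈ X, f.d.cand = some false then some false
  else none

end Geo

namespace Tab

variable (T : Tab n) (G : Geo n)

/-- The rule of the conciliator. -/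
noncomputable def ndC (p : Fin n) (i : ℕ) (X : Finset (Fact n DC)) (_M : Finset (Stp n))
    (d : DC) : DC :=
  if G.Last i then
    if G.Evid X (G.rOf i) ∨ (G.H ≤ G.rOf i ∧ d.cand ≠ none) then
      ⟨d.bit, Geo.newc X d.cand, true⟩
    else if Geo.newc X d.cand = none ∧ T.fl p (G.rOf i) = true then ⟨d.bit, some d.bit, false⟩
    else ⟨d.bit, Geo.newc X d.cand, false⟩
  else d

/-- The conciliator. -/
noncomputable def sysC (nR : ℕ) : Sys n DC :=
  T.core G nR (fun p => ⟨T.x p, none, false⟩) (T.ndC G) DC.out

/-- The skeleton: nobody leaves (the data are not used). -/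
noncomputable def skel (nR : ℕ) : Sys n Unit :=
  T.core G nR (fun _ => ()) (fun _ _ _ _ d => d) (fun _ => false)

end Tab

/-! ### Adopt-commit -/

/-- Data of adopt-commit: input, phase, flag (all known inputs are equal at the end of the first
phase), output, decision, and whether the processor has left. -/
structure DA : Type where
  inp : Bool
  ph : Bool
  flag : Bool
  bit : Bool
  dec : Bool
  out : Bool

namespace Geo

variable (G : Geo n)

/-- A certificate of the team `A` at the end of run `ρ`. -/
def Cert (ρ : ℕ) (A : Finset (Fin n)) (X : Finset (Fact n DA)) : Prop :=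
  G.H ≤ ρ ∨ (2 ^ (G.lev ρ + 5) ≤ A.card ∧ ∀ ν ≤ G.lev ρ, (univ.filter fun x =>
    ¬ ∃ a ∈ A, ∃ f ∈ X, f.a = a ∧ f.i = G.st ρ ∧ x ∈ f.T ∧ x ∈ G.A.nest.N ν a).card <
      G.A.cap ν)

/-- The members of the team `A` which were in the second phase at the beginning of run `ρ`. -/
noncomputable def two (ρ : ℕ) (A : Finset (Fin n)) (X : Finset (Fact n DA)) : Finset (Fin n) :=
  A.filter fun a => ∃ f ∈ X, f.a = a ∧ f.i = G.st ρ ∧ f.d.ph = true

/-- The output. -/
noncomputable def outp (X : Finset (Fact n DA)) (d : DA) : DA :=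
  if ∀ f ∈ X, f.d.ph = true → f.d.flag = true then
    { d with bit := d.inp, dec := true, out := true }
  else if ∃ f ∈ X, f.d.ph = true ∧ f.d.flag = true ∧ f.d.inp = true then
    { d with bit := true, dec := false, out := true }
  else if ∃ f ∈ X, f.d.ph = true ∧ f.d.flag = true ∧ f.d.inp = false then
    { d with bit := false, dec := false, out := true }
  else { d with bit := d.inp, dec := false, out := true }

/-- The rule of adopt-commit. -/
noncomputable def ndA (_p : Fin n) (i : ℕ) (X : Finset (Fact n DA)) (M : Finset (Stp n))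
    (d : DA) : DA :=
  if G.Last i then
    if d.ph = false then
      if G.Cert (G.rOf i) (names M) X then
        { d with ph := true, flag := decide (∀ f ∈ X, f.d.inp = d.inp) }
      else d
    else if G.Cert (G.rOf i) (G.two (G.rOf i) (names M) X) X then outp X d
    else d
  else d

end Geo

namespace Tab

variable (T : Tab n) (G : Geo n)

/-- Adopt-commit. -/
noncomputable def sysA (nR : ℕ) : Sys n DA :=
  T.core G nR (fun p => ⟨T.x p, false, false, T.x p, false, false⟩) G.ndA DA.out

end Tab

/-! ### The tables given by the coins -/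

/-- The code of a pick. -/
def pcode (ρ f : ℕ) (b : Bool) (s r c : ℕ) : ℕ :=
  Nat.pair 4 (Nat.pair (Nat.pair ρ (Nat.pair f (cond b 1 0))) (Nat.pair s (Nat.pair r c)))

/-- The picks. -/
def pkc (G : Geo n) (c : ℕ → Bool) (ρ f : ℕ) (b : Bool) (s r k : ℕ) : ℕ :=
  if ρ < G.H ∧ f < 2 ∧ s ≤ (G.mid ρ).N ∧ r < (G.mid ρ).Rn ∧ k < (G.mid ρ).Lam then
    (num c (pcode ρ f b s r k) (G.mid ρ).om).val
  else 0

/-- The flips of the runs `ρ < nR`. -/
def flpc (G : Geo n) (nR : ℕ) (c : ℕ → Bool) (ρ : ℕ) : Bool :=
  decide (ρ < nR) && decide ((num c (Nat.pair 3 ρ) (G.lev ρ + G.hf)).val = 0)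

/-- The tables given by the coins. -/
def tabc (G : Geo n) (nR : ℕ) (x : Fin n → Bool) (c : Fin n → ℕ → Bool) : Tab n where
  x := x
  sd p l := Q217.sdc G.A (c p) 0 l
  pk p := pkc G (c p)
  fl p := flpc G nR (c p)

/-- The programs with coins. -/
noncomputable def prg {D : Type} (G : Geo n) (nR : ℕ) (d0 : Bool → D)
    (nd : (ℕ → Bool) → Fin n → ℕ → Finset (Fact n D) → Finset (Stp n) → D → D)
    (sp val dec : D → Bool) : Prg n D where
  E := G.st nR
  lw := G.ln
  lr := G.ln
  ch := G.chan
  tm i := decide (G.jOf i ≠ 0)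
  rs i := decide (G.jOf i = 1)
  tw c := (tabc G nR (fun _ => false) (fun _ => c)).lst G false
  tr c := (tabc G nR (fun _ => false) (fun _ => c)).lst G true
  sh c p i := if G.jOf i = 0 then
    (tabc G nR (fun _ => false) (fun _ => c)).ext G p (G.rOf i) else []
  d0 b _ := d0 b
  nd := nd
  sp := sp
  val := val
  dec := dec

/-- The conciliator with coins. -/
noncomputable def prgC (G : Geo n) (nR : ℕ) : Prg n DC :=
  prg G nR (fun b => ⟨b, none, false⟩)
    (fun c => (tabc G nR (fun _ => false) (fun _ => c)).ndC G) DC.out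
    (fun d => d.cand.getD d.bit) (fun _ => false)

/-- Adopt-commit with coins. -/
noncomputable def prgA (G : Geo n) (nR : ℕ) : Prg n DA :=
  prg G nR (fun b => ⟨b, false, false, b, false, false⟩) (fun _ => G.ndA) DA.out DA.bit DA.dec

theorem prgC_sys (G : Geo n) (nR : ℕ) (x : Fin n → Bool) (c : Fin n → ℕ → Bool) :
    (prgC G nR).sys x c = (tabc G nR x c).sysC G nR := rfl

theorem prgA_sys (G : Geo n) (nR : ℕ) (x : Fin n → Bool) (c : Fin n → ℕ → Bool) :
    (prgA G nR).sys x c = (tabc G nR x c).sysA G nR := rfl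

end Pool.Agent.E217
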