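import Pool.Agent.MP217Exact.Core

set_option autoImplicit false

/-!
# Facts about runs, for every program
-/

namespace Pool.Agent.E217

open Finset

attribute [local instance 10] Classical.propDecidable

variable {n : ℕ} {D : Type}

/-- Data for the facts about a program with runs: nobody stops inside a run. -/
structure Wd (n : ℕ) (D : Type) where
  T : Tab n
  G : Geo n
  nR : ℕ
  d0 : Fin n → D
  nd : Fin n → ℕ → Finset (Fact n D) → Finset (Stp n) → D → D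
  sp : D → Bool
  σ : ℕ → Option (Fin n)
  fair : Fair σ
  hR : G.H < nR
  hsp : ∀ p i K M d, ¬ G.Last i → sp (nd p i K M d) = sp d
  hd0 : ∀ p, sp (d0 p) = false

namespace Wd

variable (W : Wd n D)

/-- The program. -/
noncomputable def S : Sys n D := W.T.core W.G W.nR W.d0 W.nd W.sp

/-- `p` takes part in run `ρ`. -/
def go (p : Fin n) (ρ : ℕ) : Prop := W.S.Al W.σ p (W.G.st ρ)

/-- The first step of run `ρ`. -/
noncomputable def sT (p : Fin n) (ρ : ℕ) : ℕ := W.S.al W.σ p (W.G.st ρ)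

/-- The last step of the ext pass of run `ρ`. -/
noncomputable def fT (p : Fin n) (ρ : ℕ) : ℕ := W.S.en W.σ p (W.G.st ρ)

/-- The last step of run `ρ`. -/
noncomputable def eT (p : Fin n) (ρ : ℕ) : ℕ := W.S.en W.σ p (W.G.la ρ)

/-- The knowledge of `p` after run `ρ`. -/
noncomputable def KR (p : Fin n) (ρ : ℕ) : Finset (Fact n D) := W.S.KE W.σ p (W.G.la ρ)

/-- The knowledge of `p` after the ext pass of run `ρ`. -/
noncomputable def KF (p : Fin n) (ρ : ℕ) : Finset (Fact n D) := W.S.KE W.σ p (W.G.st ρ)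

/-- The knowledge of `p` at the beginning of run `ρ`. -/
noncomputable def KS (p : Fin n) (ρ : ℕ) : Finset (Fact n D) := (W.S.sI W.σ p (W.G.st ρ)).K

/-- The data of `p` at the beginning of run `ρ`. -/
noncomputable def dS (p : Fin n) (ρ : ℕ) : D := (W.S.sI W.σ p (W.G.st ρ)).d

/-- The team of `p` after run `ρ`. -/
noncomputable def Mf (p : Fin n) (ρ : ℕ) : Finset (Fin n) := names (W.S.ME W.σ p (W.G.la ρ))

/-- The ext list. -/
noncomputable def Ext (p : Fin n) (ρ : ℕ) : List (Fin n) := W.T.ext W.G p ρ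

theorem ok : W.S.Ok := by
  unfold S
  exact Tab.core_ok W.T W.G W.nR W.d0 W.nd W.sp

private theorem off_pred (_p : Fin n) (i : ℕ) :
    W.S.off i + 1 ≤ W.S.off (i + 1) - 1 ∧ W.S.off i + 2 ≤ W.S.off (i + 1) := by
  have h1 := Sys.off_succ W.S i
  have h2 := W.ok.lw_pos i
  have h3 := W.ok.lr_pos i
  omega

private theorem off_lt' {i j : ℕ} (h : i < j) : W.S.off i < W.S.off j := Sys.off_lt W.ok h

private theorem off_inj {i j : ℕ} (h : W.S.off i = W.S.off j) : i = j := by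
  rcases lt_trichotomy i j with h' | h' | h'
  · have := W.off_lt' h'
    omega
  · exact h'
  · have := W.off_lt' h'
    omega

private theorem off_ne (p : Fin n) (i j : ℕ) : W.S.off i ≠ W.S.off (j + 1) - 1 := by
  intro h
  have h1 := W.off_pred p j
  rcases Nat.lt_or_ge j i with h' | h'
  · have := Sys.off_mono W.S (show j + 1 ≤ i from h')
    omega
  · have := Sys.off_mono W.S h'
    omega

/-! ### Times -/

theorem sT_lt_fT (p : Fin n) (ρ : ℕ) : W.sT p ρ < W.fT p ρ := by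
  unfold sT fT Sys.al Sys.en
  rw [tme_lt W.fair]
  have := W.off_pred p (W.G.st ρ)
  omega

theorem fT_le_eT (p : Fin n) (ρ : ℕ) : W.fT p ρ ≤ W.eT p ρ := by
  unfold fT eT Sys.en
  rw [tme_le W.fair]
  have := Sys.off_mono W.S (show W.G.st ρ + 1 ≤ W.G.la ρ + 1 by
    have := W.G.st_le_la ρ
    omega)
  omega

theorem fT_lt_eT {ρ : ℕ} (h : ρ < W.G.H) (p : Fin n) : W.fT p ρ < W.eT p ρ := by
  unfold fT eT Sys.en
  rw [tme_lt W.fair]
  have := W.off_lt' (show W.G.st ρ + 1 < W.G.la ρ + 1 by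
    have := W.G.st_lt_la h
    omega)
  have := W.off_pred p (W.G.st ρ)
  omega

theorem fT_eq_eT {ρ : ℕ} (h : W.G.H ≤ ρ) (p : Fin n) : W.fT p ρ = W.eT p ρ := by
  unfold fT eT
  rw [W.G.la_bot h]

theorem eT_lt_sT (p : Fin n) {ρ ρ' : ℕ} (h : ρ < ρ') : W.eT p ρ < W.sT p ρ' := by
  unfold eT sT Sys.en Sys.al
  rw [tme_lt W.fair, W.G.la_succ]
  have h1 := Sys.off_mono W.S (W.G.st_le (show ρ + 1 ≤ ρ' from h))
  have h2 := W.off_pred p (W.G.la ρ)
  rw [W.G.la_succ] at h2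
  omega

theorem sT_mono (p : Fin n) {ρ ρ' : ℕ} (h : ρ ≤ ρ') : W.sT p ρ ≤ W.sT p ρ' := by
  unfold sT Sys.al
  rw [tme_le W.fair]
  exact Sys.off_mono W.S (W.G.st_le h)

/-- Steps of different processors are at different times. -/
theorem sT_inj {p q : Fin n} {ρ ρ' : ℕ} (h : W.sT p ρ = W.sT q ρ') : p = q ∧ ρ = ρ' := by
  obtain ⟨h1, h2⟩ := tme_inj W.fair h
  exact ⟨h1, W.G.st_inj (W.off_inj h2)⟩

theorem fT_inj {p q : Fin n} {ρ ρ' : ℕ} (h : W.fT p ρ = W.fT q ρ') : p = q ∧ ρ = ρ' := by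
  obtain ⟨h1, h2⟩ := tme_inj W.fair h
  have h3 := W.off_pred p (W.G.st ρ)
  have h4 := W.off_pred p (W.G.st ρ')
  have h5 := W.off_inj (show W.S.off (W.G.st ρ + 1) = W.S.off (W.G.st ρ' + 1) by omega)
  exact ⟨h1, W.G.st_inj (by omega)⟩

theorem eT_inj {p q : Fin n} {ρ ρ' : ℕ} (h : W.eT p ρ = W.eT q ρ') : p = q ∧ ρ = ρ' := by
  obtain ⟨h1, h2⟩ := tme_inj W.fair h
  have h3 := W.off_pred p (W.G.la ρ)
  have h4 := W.off_pred p (W.G.la ρ')
  have h5 := W.off_inj (show W.S.off (W.G.la ρ + 1) = W.S.off (W.G.la ρ' + 1) by omega)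
  rw [W.G.la_succ, W.G.la_succ] at h5
  have h6 := W.G.st_inj h5
  exact ⟨h1, by omega⟩

theorem sT_ne_fT (p q : Fin n) (ρ ρ' : ℕ) : W.sT p ρ ≠ W.fT q ρ' := by
  intro h
  obtain ⟨_, h2⟩ := tme_inj W.fair h
  exact W.off_ne p _ _ h2

theorem sT_ne_eT (p q : Fin n) (ρ ρ' : ℕ) : W.sT p ρ ≠ W.eT q ρ' := by
  intro h
  obtain ⟨_, h2⟩ := tme_inj W.fair h
  exact W.off_ne p _ _ h2

/-! ### Participation -/

theorem go_zero (p : Fin n) : W.go p 0 := by
  have h0 : W.G.st 0 = 0 := by simp [Geo.st]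
  unfold go
  rw [h0, Sys.al_zero W.S W.fair p]
  exact W.hd0 p

private theorem E_eq : W.S.E = W.G.st W.nR := rfl

theorem go_mono {p : Fin n} {ρ ρ' : ℕ} (h : ρ ≤ ρ') (h' : ρ' ≤ W.nR) (hg : W.go p ρ') :
    W.go p ρ :=
  Sys.al_mono W.ok W.fair hg (W.G.st_le h) (by rw [W.E_eq]; exact W.G.st_le h')

private theorem la_lt {ρ i : ℕ} (h : ρ < W.nR) (h2 : i ≤ W.G.la ρ) : i < W.S.E := by
  rw [W.E_eq]
  have h3 := W.G.la_succ ρ
  have h4 := W.G.st_le (show ρ + 1 ≤ W.nR from h)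
  omega

private theorem not_last {ρ i : ℕ} (h1 : W.G.st ρ ≤ i) (h2 : i < W.G.la ρ) : ¬ W.G.Last i := by
  rw [W.G.last_iff]
  have h3 := W.G.la_succ ρ
  have h4 : W.G.rOf i = ρ := W.G.rOf_eq h1 (by omega)
  rw [h4]
  omega

/-- Nobody stops inside a run. -/
theorem go_pass {p : Fin n} {ρ : ℕ} (h : ρ < W.nR) (hg : W.go p ρ) {i : ℕ}
    (h1 : W.G.st ρ ≤ i) (h2 : i ≤ W.G.la ρ) : W.S.Al W.σ p i := by
  induction i, h1 using Nat.le_induction with
  | base => exact hg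
  | succ i hi ih =>
    have h3 := ih (by omega)
    rw [Sys.al_succ W.ok W.fair (W.la_lt h (show i ≤ W.G.la ρ by omega)) h3]
    have h4 := W.hsp p i (W.S.KE W.σ p i) (W.S.ME W.σ p i) (W.S.sI W.σ p i).d
      (W.not_last hi (by omega))
    exact h4.trans h3.2.2

theorem al_go {p : Fin n} {i : ℕ} (hi : i < W.S.E) (h : W.S.Al W.σ p i) :
    W.go p (W.G.rOf i) ∧ W.G.rOf i < W.nR := by
  have h1 := (W.G.rOf_spec i).1
  refine ⟨Sys.al_mono W.ok W.fair h h1 hi.le, ?_⟩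
  rw [W.E_eq] at hi
  rw [← W.G.st_lt_iff]
  omega

/-- The data do not change inside a run if the rule does not change them. -/
theorem dI_run (hnd : ∀ p i K M d, ¬ W.G.Last i → W.nd p i K M d = d) {p : Fin n} {ρ : ℕ}
    (h : ρ < W.nR) (hg : W.go p ρ) {i : ℕ} (h1 : W.G.st ρ ≤ i) (h2 : i ≤ W.G.la ρ) :
    (W.S.sI W.σ p i).d = W.dS p ρ := by
  induction i, h1 using Nat.le_induction with
  | base => rfl
  | succ i hi ih =>
    have h3 := W.go_pass h hg hi (by omega)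
    rw [Sys.sI_succ W.ok W.fair (W.la_lt h (show i ≤ W.G.la ρ by omega)) h3]
    have h4 := hnd p i (W.S.KE W.σ p i) (W.S.ME W.σ p i) (W.S.sI W.σ p i).d
      (W.not_last hi (by omega))
    exact h4.trans (ih (by omega))

/-- The data after a run. -/
theorem dS_succ (hnd : ∀ p i K M d, ¬ W.G.Last i → W.nd p i K M d = d) {p : Fin n} {ρ : ℕ}
    (h : ρ < W.nR) (hg : W.go p ρ) :
    W.dS p (ρ + 1) = W.nd p (W.G.la ρ) (W.KR p ρ) (W.S.ME W.σ p (W.G.la ρ)) (W.dS p ρ) := by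
  have h3 := W.go_pass h hg (W.G.st_le_la ρ) le_rfl
  have h4 := Sys.sI_succ W.ok W.fair (W.la_lt h le_rfl) h3
  have h5 := W.dI_run hnd h hg (W.G.st_le_la ρ) le_rfl
  unfold dS
  rw [← W.G.la_succ ρ, h4]
  show W.nd p (W.G.la ρ) (W.S.KE W.σ p (W.G.la ρ)) (W.S.ME W.σ p (W.G.la ρ))
    (W.S.sI W.σ p (W.G.la ρ)).d = _
  rw [h5]
  rfl

theorem go_succ (hnd : ∀ p i K M d, ¬ W.G.Last i → W.nd p i K M d = d) {p : Fin n} {ρ : ℕ}
    (h : ρ < W.nR) (hg : W.go p ρ) : W.go p (ρ + 1) ↔ W.sp (W.dS p (ρ + 1)) = false := by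
  have h3 := W.go_pass h hg (W.G.st_le_la ρ) le_rfl
  have h5 := W.dI_run hnd h hg (W.G.st_le_la ρ) le_rfl
  rw [W.dS_succ hnd h hg]
  unfold go
  rw [← W.G.la_succ ρ, Sys.al_succ W.ok W.fair (W.la_lt h le_rfl) h3, h5]
  rfl

end Wd

end Pool.Agent.E217
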